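import Pool.Agent.LRA.Defs

/-!
# LRA / ADefs: definitions of the dynamical part
-/

set_option autoImplicit false

noncomputable section

open scoped BigOperators

namespace LRA

/-- `T` has no complex eigenvalue of modulus `ρ` -/
def NoEig {E : Type*} [NormedAddCommGroup E] [NormedSpace ℝ E] [FiniteDimensional ℝ E]
    (T : E →L[ℝ] E) (ρ : ℝ) : Prop :=
  ∀ z : ℂ, ‖z‖ = ρ →
    ¬ ((LinearMap.charpoly (T : E →ₗ[ℝ] E)).map (algebraMap ℝ ℂ)).IsRoot z

/-- the two-sided Green kernel of `T`: `a n = T^n P`, `b n = T^(-n) (1 - P)`, `P` a spectral projection -/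
structure Green {E : Type*} [NormedAddCommGroup E] [NormedSpace ℝ E]
    (T : E →L[ℝ] E) (a b : ℕ → (E →L[ℝ] E)) (C r s : ℝ) : Prop where
  Cpos : 0 < C
  rpos : 0 < r
  spos : 0 < s
  zero : a 0 + b 0 = 1
  sa : ∀ n, a (n + 1) = T * a n
  as : ∀ n, a (n + 1) = a n * T
  sb : ∀ n, T * b (n + 1) = b n
  bs : ∀ n, b (n + 1) * T = b n
  na : ∀ n, ‖a n‖ ≤ C * r ^ n
  nb : ∀ n, ‖b n‖ ≤ C * s ^ n

/-- `f` is the lift of a map of the torus homotopic to the linear map `A` -/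
def IsLift {d : ℕ} (A : Matrix (Fin d) (Fin d) ℤ) (f : V d → V d) : Prop :=
  ∀ (x : V d) (m : Fin d → ℤ), f (x + zc m) = f x + zc (A.mulVec m)

end LRA
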