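import Pool.Agent.LRA.Defs

/-!
# LRA / Bas: notation for the Fourier part, and elementary rules
-/

set_option autoImplicit false

noncomputable section

open scoped ContDiff BigOperators ComplexConjugate
open MeasureTheory

namespace LRA

/-- the character `exp (2 π i k·x)` -/
def ch {d : ℕ} (k : Fin d → ℤ) (x : V d) : ℂ :=
  Complex.exp (2 * Real.pi * Complex.I * ∑ l, (k l : ℂ) * (x l : ℂ))

/-- the linear form `∑ ℓ_l x_l` with complex coefficients -/
def lf {d : ℕ} (ℓ : Fin d → ℂ) (x : V d) : ℂ := ∑ l, ℓ l * (x l : ℂ)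

/-- the bilinear pairing of two complex vectors -/
def bp {d : ℕ} (u v : Fin d → ℂ) : ℂ := ∑ l, u l * v l

/-- the pairing of an integer vector with a complex vector -/
def pr {d : ℕ} (k : Fin d → ℤ) (w : Fin d → ℂ) : ℂ := ∑ l, (k l : ℂ) * w l

/-- the size of an integer vector -/
def sz {d : ℕ} (k : Fin d → ℤ) : ℝ := ∑ l, |(k l : ℝ)|

/-- the derivative of `F` in the direction of the complex vector `w` -/
def dw {d : ℕ} (w : Fin d → ℂ) (F : V d → ℂ) (x : V d) : ℂ :=
  ∑ l, w l * fderiv ℝ F x (Pi.single l 1)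

/-- smooth periodic function -/
def SP {d : ℕ} (F : V d → ℂ) : Prop := ContDiff ℝ ∞ F ∧ Per F

/-- rapidly decreasing sequence -/
def RD {d : ℕ} (c : (Fin d → ℤ) → ℂ) : Prop := ∀ s : ℕ, ∃ C : ℝ, ∀ k, (1 + sz k) ^ s * ‖c k‖ ≤ C

/-- the fundamental box -/
def box (d : ℕ) : Set (V d) := {x | ∀ i, x i ∈ Set.Ioc (0 : ℝ) 1}

/-- the Fourier coefficient -/
def fc {d : ℕ} (F : V d → ℂ) (k : Fin d → ℤ) : ℂ := ∫ x in box d, F x * ch (-k) x

/-- the Fourier series with given coefficients -/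
def syn {d : ℕ} (c : (Fin d → ℤ) → ℂ) (x : V d) : ℂ := ∑' k, c k * ch k x

/-- the operator `L_j = ∂_{w_j} + ∑_k μ_{jk} ∂_{conj w_k}` -/
def Lj {n d : ℕ} (w : Fin n → Fin d → ℂ) (μ : Fin n → Fin n → V d → ℂ) (j : Fin n)
    (F : V d → ℂ) (x : V d) : ℂ :=
  dw (w j) F x + ∑ k, μ j k x * dw (star (w k)) F x

/-- the data of a perturbed complex structure: `μ` is smooth, periodic, of operator norm at
most `θ`, and the real linear forms given by `w` separate points -/
structure BD {n d : ℕ} (w : Fin n → Fin d → ℂ) (μ : Fin n → Fin n → V d → ℂ) (θ : ℝ) : Prop where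
  sp : ∀ j k, SP (μ j k)
  pos : 0 ≤ θ
  bd : ∀ (x : V d) (v : Fin n → ℂ), ∑ j, ‖∑ k, μ j k x * v k‖ ^ 2 ≤ θ ^ 2 * ∑ k, ‖v k‖ ^ 2
  nd : ∀ x : V d, (∀ j, lf (w j) x = 0) → x = 0

/-- integrability of the perturbed complex structure -/
def Itg {n d : ℕ} (w : Fin n → Fin d → ℂ) (μ : Fin n → Fin n → V d → ℂ) : Prop :=
  ∀ (i j k : Fin n) (x : V d), Lj w μ i (μ j k) x = Lj w μ j (μ i k) x

/-! ### characters -/

theorem ch_continuous {d : ℕ} (k : Fin d → ℤ) : Continuous (ch k) := by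
  unfold ch
  fun_prop

theorem ch_contDiff {d : ℕ} (k : Fin d → ℤ) : ContDiff ℝ ∞ (ch k) := by
  have h1 : ∀ l : Fin d, ContDiff ℝ ∞ (fun x : V d => ((x l : ℝ) : ℂ)) := fun l =>
    Complex.ofRealCLM.contDiff.comp (contDiff_apply ℝ ℝ l)
  have h2 : ContDiff ℝ ∞ (fun x : V d => 2 * Real.pi * Complex.I * ∑ l, (k l : ℂ) * (x l : ℂ)) :=
    contDiff_const.mul (ContDiff.sum fun l _ => contDiff_const.mul (h1 l))
  exact h2.cexp

theorem norm_ch {d : ℕ} (k : Fin d → ℤ) (x : V d) : ‖ch k x‖ = 1 := by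
  have h1 : 2 * Real.pi * Complex.I * ∑ l, (k l : ℂ) * (x l : ℂ) =
      ((2 * Real.pi * ∑ l, (k l : ℝ) * x l : ℝ) : ℂ) * Complex.I := by
    push_cast
    ring
  unfold ch
  rw [h1, Complex.norm_exp_ofReal_mul_I]

theorem ch_zero {d : ℕ} (x : V d) : ch (0 : Fin d → ℤ) x = 1 := by
  simp [ch]

theorem ch_add {d : ℕ} (k l : Fin d → ℤ) (x : V d) : ch (k + l) x = ch k x * ch l x := by
  unfold ch
  rw [← Complex.exp_add, ← mul_add, ← Finset.sum_add_distrib]
  congr 2
  refine Finset.sum_congr rfl fun i _ => ?_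
  rw [Pi.add_apply]
  push_cast
  ring

theorem ch_neg {d : ℕ} (k : Fin d → ℤ) (x : V d) : ch (-k) x = conj (ch k x) := by
  unfold ch
  rw [← Complex.exp_conj]
  congr 1
  rw [map_mul, map_mul, map_mul, map_sum, Complex.conj_I, Complex.conj_ofReal]
  have h1 : (starRingEnd ℂ) 2 = 2 := map_ofNat _ 2
  have h2 : ∀ l ∈ (Finset.univ : Finset (Fin d)), (starRingEnd ℂ) ((k l : ℂ) * (x l : ℂ)) = (k l : ℂ) * (x l : ℂ) := by
    intro l _
    rw [map_mul, Complex.conj_ofReal, map_intCast]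
  rw [h1, Finset.sum_congr rfl h2]
  have h3 : ∑ l, ((-k) l : ℂ) * (x l : ℂ) = - ∑ l, (k l : ℂ) * (x l : ℂ) := by
    rw [← Finset.sum_neg_distrib]
    refine Finset.sum_congr rfl fun l _ => ?_
    rw [Pi.neg_apply]
    push_cast
    ring
  rw [h3]
  ring

theorem ch_per {d : ℕ} (k : Fin d → ℤ) : Per (ch k) := by
  intro x m
  unfold ch
  have h1 : 2 * Real.pi * Complex.I * ∑ l, (k l : ℂ) * (((x + zc m) l : ℝ) : ℂ) =
      2 * Real.pi * Complex.I * ∑ l, (k l : ℂ) * (x l : ℂ) + ((∑ l, k l * m l : ℤ) : ℂ) * (2 * Real.pi * Complex.I) := by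
    have h2 : ∑ l, (k l : ℂ) * (((x + zc m) l : ℝ) : ℂ) = ∑ l, (k l : ℂ) * (x l : ℂ) + ((∑ l, k l * m l : ℤ) : ℂ) := by
      push_cast
      rw [← Finset.sum_add_distrib]
      refine Finset.sum_congr rfl fun l _ => ?_
      have h3 : (((x + zc m) l : ℝ) : ℂ) = (x l : ℂ) + (m l : ℂ) := by
        show ((x l + (m l : ℝ) : ℝ) : ℂ) = _
        push_cast
        ring
      rw [h3]
      ring
    rw [h2]
    ring
  rw [h1, Complex.exp_add, Complex.exp_int_mul_two_pi_mul_I, mul_one]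

theorem ch_sp {d : ℕ} (k : Fin d → ℤ) : SP (ch k) := ⟨ch_contDiff k, ch_per k⟩

/-- the exponent of the character as a linear map -/
private def bas_cl {d : ℕ} (k : Fin d → ℤ) : V d →L[ℝ] ℂ :=
  (2 * Real.pi * Complex.I) • ∑ l, (k l : ℂ) • (Complex.ofRealCLM.comp (ContinuousLinearMap.proj l))

private theorem bas_cl_apply {d : ℕ} (k : Fin d → ℤ) (x : V d) :
    bas_cl k x = 2 * Real.pi * Complex.I * ∑ l, (k l : ℂ) * (x l : ℂ) := by
  unfold bas_cl
  rw [_root_.smul_apply, _root_.sum_apply, smul_eq_mul]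
  rfl

private theorem bas_cl_ch {d : ℕ} (k : Fin d → ℤ) (x : V d) : Complex.exp (bas_cl k x) = ch k x := by
  rw [bas_cl_apply]
  rfl

private theorem bas_cl_single {d : ℕ} (k : Fin d → ℤ) (l : Fin d) :
    bas_cl k (Pi.single l 1) = 2 * Real.pi * Complex.I * (k l : ℂ) := by
  rw [bas_cl_apply, Finset.sum_eq_single l]
  · rw [Pi.single_eq_same, Complex.ofReal_one, mul_one]
  · intro b _ hb
    rw [Pi.single_eq_of_ne hb, Complex.ofReal_zero, mul_zero]
  · intro h
    exact absurd (Finset.mem_univ l) h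

private theorem bas_hasF {d : ℕ} (k : Fin d → ℤ) (x : V d) :
    HasFDerivAt (ch k) (Complex.exp (bas_cl k x) • bas_cl k) x := by
  have h1 : ch k = fun x => Complex.exp (bas_cl k x) := funext fun x => (bas_cl_ch k x).symm
  rw [h1]
  exact (bas_cl k).hasFDerivAt.cexp

theorem hasFDerivAt_ch {d : ℕ} (k : Fin d → ℤ) (x : V d) (l : Fin d) :
    fderiv ℝ (ch k) x (Pi.single l 1) = 2 * Real.pi * Complex.I * (k l : ℂ) * ch k x := by
  rw [(bas_hasF k x).fderiv]
  show Complex.exp (bas_cl k x) * bas_cl k (Pi.single l 1) = _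
  rw [bas_cl_ch, bas_cl_single]
  ring

theorem dw_ch {d : ℕ} (w : Fin d → ℂ) (k : Fin d → ℤ) (x : V d) :
    dw w (ch k) x = 2 * Real.pi * Complex.I * pr k w * ch k x := by
  unfold dw pr
  rw [Finset.mul_sum, Finset.sum_mul]
  refine Finset.sum_congr rfl fun l _ => ?_
  rw [hasFDerivAt_ch]
  ring

/-! ### size -/

theorem sz_nonneg {d : ℕ} (k : Fin d → ℤ) : 0 ≤ sz k := by
  exact Finset.sum_nonneg fun l _ => abs_nonneg _

theorem sz_zero {d : ℕ} : sz (0 : Fin d → ℤ) = 0 := by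
  simp [sz]

theorem sz_add_le {d : ℕ} (k l : Fin d → ℤ) : sz (k + l) ≤ sz k + sz l := by
  unfold sz
  rw [← Finset.sum_add_distrib]
  refine Finset.sum_le_sum fun i _ => ?_
  rw [Pi.add_apply, Int.cast_add]
  exact abs_add_le _ _

theorem sz_neg {d : ℕ} (k : Fin d → ℤ) : sz (-k) = sz k := by
  simp [sz]

/-! ### smooth periodic functions -/

namespace SP

variable {d : ℕ} {F G : V d → ℂ}

theorem cont (h : SP F) : Continuous F := h.1.continuous

theorem diff (h : SP F) : Differentiable ℝ F := by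
  exact h.1.differentiable (by simp)

theorem const (c : ℂ) : SP (fun _ : V d => c) := by
  exact ⟨contDiff_const, fun _ _ => rfl⟩

theorem add (h : SP F) (h' : SP G) : SP (fun x => F x + G x) := by
  refine ⟨h.1.add h'.1, fun x m => ?_⟩
  show F (x + zc m) + G (x + zc m) = F x + G x
  rw [h.2 x m, h'.2 x m]

theorem sub (h : SP F) (h' : SP G) : SP (fun x => F x - G x) := by
  refine ⟨h.1.sub h'.1, fun x m => ?_⟩
  show F (x + zc m) - G (x + zc m) = F x - G x
  rw [h.2 x m, h'.2 x m]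

theorem neg (h : SP F) : SP (fun x => -F x) := by
  refine ⟨h.1.neg, fun x m => ?_⟩
  show -F (x + zc m) = -F x
  rw [h.2 x m]

theorem mul (h : SP F) (h' : SP G) : SP (fun x => F x * G x) := by
  refine ⟨h.1.mul h'.1, fun x m => ?_⟩
  show F (x + zc m) * G (x + zc m) = F x * G x
  rw [h.2 x m, h'.2 x m]

theorem sum {ι : Type*} (s : Finset ι) {H : ι → V d → ℂ} (h : ∀ i ∈ s, SP (H i)) :
    SP (fun x => ∑ i ∈ s, H i x) := by
  refine ⟨ContDiff.sum fun i hi => (h i hi).1, fun x m => ?_⟩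
  exact Finset.sum_congr rfl fun i hi => (h i hi).2 x m

theorem cj (h : SP F) : SP (fun x => conj (F x)) := by
  refine ⟨Complex.conjCLE.contDiff.comp h.1, fun x m => ?_⟩
  show conj (F (x + zc m)) = conj (F x)
  rw [h.2 x m]

private theorem bas_dwc (w : Fin d → ℂ) (h : ContDiff ℝ ∞ F) : ContDiff ℝ ∞ (LRA.dw w F) := by
  have h1 : ContDiff ℝ ∞ (fderiv ℝ F) := h.fderiv_right (by simp)
  exact ContDiff.sum fun l _ => contDiff_const.mul (h1.clm_apply contDiff_const)

theorem dw (h : SP F) (w : Fin d → ℂ) : SP (dw w F) := by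
  refine ⟨bas_dwc w h.1, fun x m => ?_⟩
  have h1 : fderiv ℝ F (x + zc m) = fderiv ℝ F x := by
    rw [← fderiv_comp_add_right]
    congr 1
    exact funext fun y => h.2 y m
  show ∑ l, w l * fderiv ℝ F (x + zc m) (Pi.single l 1) = ∑ l, w l * fderiv ℝ F x (Pi.single l 1)
  rw [h1]

/-- a smooth periodic function is bounded -/
theorem bdd (h : SP F) : ∃ C : ℝ, 0 ≤ C ∧ ∀ x, ‖F x‖ ≤ C := by
  obtain ⟨C, hC⟩ := (isCompact_Icc (a := (0 : V d)) (b := 1)).exists_bound_of_continuousOn h.cont.continuousOn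
  refine ⟨max C 0, le_max_right _ _, fun x => ?_⟩
  have h1 : F x = F (fun i => Int.fract (x i)) := by
    have h2 : x = (fun i => Int.fract (x i)) + zc (fun i => ⌊x i⌋) := by
      funext i
      show x i = Int.fract (x i) + (⌊x i⌋ : ℝ)
      rw [Int.fract_add_floor]
    conv_lhs => rw [h2]
    exact h.2 _ _
  rw [h1]
  refine (hC _ ?_).trans (le_max_left _ _)
  exact ⟨fun i => Int.fract_nonneg _, fun i => (Int.fract_lt_one _).le⟩

end SP

/-! ### rules for directional derivatives -/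

section rules

variable {d : ℕ} {F G : V d → ℂ}

theorem dw_add (w : Fin d → ℂ) {x : V d} (h : DifferentiableAt ℝ F x)
    (h' : DifferentiableAt ℝ G x) : dw w (fun y => F y + G y) x = dw w F x + dw w G x := by
  unfold dw
  rw [fderiv_fun_add h h', ← Finset.sum_add_distrib]
  refine Finset.sum_congr rfl fun l _ => ?_
  rw [_root_.add_apply]
  ring

theorem dw_sub (w : Fin d → ℂ) {x : V d} (h : DifferentiableAt ℝ F x)
    (h' : DifferentiableAt ℝ G x) : dw w (fun y => F y - G y) x = dw w F x - dw w G x := by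
  unfold dw
  rw [fderiv_fun_sub h h', ← Finset.sum_sub_distrib]
  refine Finset.sum_congr rfl fun l _ => ?_
  rw [_root_.sub_apply]
  ring

theorem dw_mul (w : Fin d → ℂ) {x : V d} (h : DifferentiableAt ℝ F x)
    (h' : DifferentiableAt ℝ G x) :
    dw w (fun y => F y * G y) x = dw w F x * G x + F x * dw w G x := by
  unfold dw
  rw [fderiv_fun_mul h h', Finset.sum_mul, Finset.mul_sum, ← Finset.sum_add_distrib]
  refine Finset.sum_congr rfl fun l _ => ?_
  rw [_root_.add_apply, _root_.smul_apply, _root_.smul_apply, smul_eq_mul,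
    smul_eq_mul]
  ring

theorem dw_sum {ι : Type*} (s : Finset ι) (H : ι → V d → ℂ) (w : Fin d → ℂ) {x : V d}
    (h : ∀ i ∈ s, DifferentiableAt ℝ (H i) x) :
    dw w (fun y => ∑ i ∈ s, H i y) x = ∑ i ∈ s, dw w (H i) x := by
  unfold dw
  rw [fderiv_fun_sum h, Finset.sum_comm]
  refine Finset.sum_congr rfl fun l _ => ?_
  rw [_root_.sum_apply, Finset.mul_sum]

theorem dw_const (w : Fin d → ℂ) (c : ℂ) (x : V d) : dw w (fun _ => c) x = 0 := by
  unfold dw
  refine Finset.sum_eq_zero fun l _ => ?_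
  rw [fderiv_const_apply, _root_.zero_apply, mul_zero]

theorem dw_smul (w : Fin d → ℂ) (c : ℂ) {x : V d} (h : DifferentiableAt ℝ F x) :
    dw w (fun y => c * F y) x = c * dw w F x := by
  unfold dw
  rw [fderiv_const_mul h, Finset.mul_sum]
  refine Finset.sum_congr rfl fun l _ => ?_
  rw [_root_.smul_apply, smul_eq_mul]
  ring

private def bas_lf (ℓ : Fin d → ℂ) : V d →L[ℝ] ℂ :=
  ∑ l, ℓ l • (Complex.ofRealCLM.comp (ContinuousLinearMap.proj l))

private theorem bas_lf_apply (ℓ : Fin d → ℂ) (x : V d) : bas_lf ℓ x = lf ℓ x := by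
  unfold bas_lf
  rw [_root_.sum_apply]
  rfl

theorem dw_lf (w ℓ : Fin d → ℂ) (x : V d) : dw w (lf ℓ) x = bp ℓ w := by
  have h1 : HasFDerivAt (lf ℓ) (bas_lf ℓ) x := by
    have h2 : lf ℓ = fun x => bas_lf ℓ x := funext fun x => (bas_lf_apply ℓ x).symm
    rw [h2]
    exact (bas_lf ℓ).hasFDerivAt
  unfold dw bp
  rw [h1.fderiv]
  refine Finset.sum_congr rfl fun l _ => ?_
  have h2 : bas_lf ℓ (Pi.single l 1) = ℓ l := by
    rw [bas_lf_apply]
    unfold lf
    rw [Finset.sum_eq_single l]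
    · rw [Pi.single_eq_same, Complex.ofReal_one, mul_one]
    · intro b _ hb
      rw [Pi.single_eq_of_ne hb, Complex.ofReal_zero, mul_zero]
    · intro h
      exact absurd (Finset.mem_univ l) h
  rw [h2, mul_comm]

theorem lf_contDiff (ℓ : Fin d → ℂ) : ContDiff ℝ ∞ (lf ℓ) := by
  have h2 : lf ℓ = fun x => bas_lf ℓ x := funext fun x => (bas_lf_apply ℓ x).symm
  rw [h2]
  exact (bas_lf ℓ).contDiff

theorem dw_conj (w : Fin d → ℂ) (x : V d) :
    dw (star w) (fun y => conj (F y)) x = conj (dw w F x) := by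
  have h1 : fderiv ℝ (fun y => conj (F y)) x = (Complex.conjCLE : ℂ →L[ℝ] ℂ).comp (fderiv ℝ F x) :=
    Complex.conjCLE.comp_fderiv (f := F) (x := x)
  unfold dw
  rw [h1, map_sum]
  refine Finset.sum_congr rfl fun l _ => ?_
  rw [map_mul]
  rfl

/-- the derivative in the direction `w` is complex linear in `w` -/
theorem dw_add_left (u w : Fin d → ℂ) (x : V d) : dw (u + w) F x = dw u F x + dw w F x := by
  unfold dw
  rw [← Finset.sum_add_distrib]
  refine Finset.sum_congr rfl fun l _ => ?_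
  rw [Pi.add_apply]
  ring

theorem dw_smul_left (c : ℂ) (w : Fin d → ℂ) (x : V d) : dw (c • w) F x = c * dw w F x := by
  unfold dw
  rw [Finset.mul_sum]
  refine Finset.sum_congr rfl fun l _ => ?_
  rw [Pi.smul_apply, smul_eq_mul]
  ring

theorem dw_contDiff (w : Fin d → ℂ) (h : ContDiff ℝ ∞ F) : ContDiff ℝ ∞ (dw w F) := by
  have h1 : ContDiff ℝ ∞ (fderiv ℝ F) := h.fderiv_right (by simp)
  exact ContDiff.sum fun l _ => contDiff_const.mul (h1.clm_apply contDiff_const)

/-- mixed derivatives commute -/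
theorem dw_comm (u w : Fin d → ℂ) (h : ContDiff ℝ ∞ F) (x : V d) :
    dw u (dw w F) x = dw w (dw u F) x := by
  have h1 : ContDiff ℝ ∞ (fderiv ℝ F) := h.fderiv_right (by simp)
  have h2 : Differentiable ℝ (fderiv ℝ F) := h1.differentiable (by simp)
  have hsym : IsSymmSndFDerivAt ℝ F x := h.contDiffAt.isSymmSndFDerivAt (by
    rw [minSmoothness_of_isRCLikeNormedField]
    exact WithTop.coe_le_coe.2 (le_top : (2 : ℕ∞) ≤ ⊤))
  have h3 : ∀ a b : Fin d → ℂ, dw a (dw b F) x =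
      ∑ l, ∑ m, a l * (b m * fderiv ℝ (fderiv ℝ F) x (Pi.single l 1) (Pi.single m 1)) := by
    intro a b
    have h4 : ∀ m : Fin d, ∀ v : V d, HasFDerivAt (fun y => fderiv ℝ F y v)
        ((ContinuousLinearMap.apply ℝ ℂ v).comp (fderiv ℝ (fderiv ℝ F) x)) x := by
      intro m v
      exact (ContinuousLinearMap.apply ℝ ℂ v).hasFDerivAt.comp x (h2 x).hasFDerivAt
    have h5 : ∀ m : Fin d, DifferentiableAt ℝ (fun y => b m * fderiv ℝ F y (Pi.single m 1)) x := fun m =>
      (h4 m (Pi.single m 1)).differentiableAt.const_mul (b m)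
    have h6 : dw b F = fun y => ∑ m, b m * fderiv ℝ F y (Pi.single m 1) := rfl
    rw [h6, dw_sum _ _ _ (fun m _ => h5 m), Finset.sum_comm]
    refine Finset.sum_congr rfl fun m _ => ?_
    rw [dw_smul _ _ (h4 m (Pi.single m 1)).differentiableAt]
    unfold dw
    rw [Finset.mul_sum]
    refine Finset.sum_congr rfl fun l _ => ?_
    rw [(h4 m (Pi.single m 1)).fderiv]
    show b m * (a l * fderiv ℝ (fderiv ℝ F) x (Pi.single l 1) (Pi.single m 1)) = _
    ring
  rw [h3, h3, Finset.sum_comm]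
  refine Finset.sum_congr rfl fun m _ => Finset.sum_congr rfl fun l _ => ?_
  rw [hsym (Pi.single l 1) (Pi.single m 1)]
  ring

theorem pr_star (k : Fin d → ℤ) (w : Fin d → ℂ) : pr k (star w) = conj (pr k w) := by
  unfold pr
  rw [map_sum]
  refine Finset.sum_congr rfl fun l _ => ?_
  rw [map_mul, map_intCast]
  rfl

theorem pr_eq_lf (k : Fin d → ℤ) (w : Fin d → ℂ) : pr k w = lf w (zc k) := by
  unfold pr lf zc
  refine Finset.sum_congr rfl fun l _ => ?_
  push_cast
  ring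

end rules

end LRA
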