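import Pool.Agent.LRA.Bas

/-!
# LRA / Cm: the operators `L_j` commute

`cm_exp` is the expansion of `L_i (L_j F)` by the Leibniz rule; it is symmetric in `i, j` by `Itg` and `dw_comm`. The other
statements are elementary.
-/

set_option autoImplicit false

noncomputable section

open scoped BigOperators ComplexConjugate ContDiff
open MeasureTheory

namespace LRA

variable {n d : ℕ} {w : Fin n → Fin d → ℂ} {μ : Fin n → Fin n → V d → ℂ} {θ : ℝ}

private theorem cm_diff {F : V d → ℂ} (hF : ContDiff ℝ ∞ F) (x : V d) : DifferentiableAt ℝ F x :=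
  (hF.differentiable (by simp)).differentiableAt

private theorem cm_term (hμ : ∀ j k, SP (μ j k)) {F : V d → ℂ} (hF : ContDiff ℝ ∞ F) (j k : Fin n) (x : V d) :
    DifferentiableAt ℝ (fun y => μ j k y * dw (star (w k)) F y) x :=
  (cm_diff (hμ j k).1 x).mul (cm_diff (dw_contDiff _ hF) x)

private theorem cm_dw (hμ : ∀ j k, SP (μ j k)) {F : V d → ℂ} (hF : ContDiff ℝ ∞ F) (j : Fin n) (u : Fin d → ℂ)
    (x : V d) : dw u (Lj w μ j F) x = dw u (dw (w j) F) x +
      ∑ k, (dw u (μ j k) x * dw (star (w k)) F x + μ j k x * dw u (dw (star (w k)) F) x) := by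
  have h1 : Lj w μ j F = fun y => dw (w j) F y + ∑ k, μ j k y * dw (star (w k)) F y := rfl
  have h2 : DifferentiableAt ℝ (fun y => ∑ k, μ j k y * dw (star (w k)) F y) x := by
    have h3 : (fun y => ∑ k, μ j k y * dw (star (w k)) F y) =
        ∑ k, fun y => μ j k y * dw (star (w k)) F y := by
      funext y
      rw [Finset.sum_apply]
    rw [h3]
    exact DifferentiableAt.sum fun k _ => cm_term hμ hF j k x
  rw [h1, dw_add u (cm_diff (dw_contDiff _ hF) x) h2, dw_sum _ _ _ fun k _ => cm_term hμ hF j k x]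
  congr 1
  refine Finset.sum_congr rfl fun k _ => ?_
  rw [dw_mul u (cm_diff (hμ j k).1 x) (cm_diff (dw_contDiff _ hF) x)]

private theorem cm_alg (A : ℂ) (a D m E p G : Fin n → ℂ) (b H : Fin n → Fin n → ℂ) :
    A + ∑ k, (a k * D k + m k * E k) + ∑ l, p l * (G l + ∑ k, (b l k * D k + m k * H l k)) =
      A + ∑ k, (a k + ∑ l, p l * b l k) * D k + (∑ k, m k * E k + ∑ k, p k * G k) +
        ∑ l, ∑ k, p l * m k * H l k := by
  have h1 : ∑ l, p l * (G l + ∑ k, (b l k * D k + m k * H l k)) =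
      ∑ l, p l * G l + (∑ l, ∑ k, p l * (b l k * D k) + ∑ l, ∑ k, p l * (m k * H l k)) := by
    simp only [mul_add, Finset.mul_sum, Finset.sum_add_distrib]
  have h2 : ∑ k, (a k + ∑ l, p l * b l k) * D k = ∑ k, a k * D k + ∑ k, ∑ l, p l * (b l k * D k) := by
    simp only [add_mul, Finset.sum_mul, Finset.sum_add_distrib, mul_assoc]
  have h3 : ∑ k, ∑ l, p l * (b l k * D k) = ∑ l, ∑ k, p l * (b l k * D k) := Finset.sum_comm
  rw [h1, h2, h3, Finset.sum_add_distrib]
  simp only [mul_assoc]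
  ring

private theorem cm_exp (hμ : ∀ j k, SP (μ j k)) {F : V d → ℂ} (hF : ContDiff ℝ ∞ F) (i j : Fin n) (x : V d) :
    Lj w μ i (Lj w μ j F) x = dw (w i) (dw (w j) F) x +
      ∑ k, Lj w μ i (μ j k) x * dw (star (w k)) F x +
      (∑ k, μ j k x * dw (w i) (dw (star (w k)) F) x + ∑ k, μ i k x * dw (star (w k)) (dw (w j) F) x) +
      ∑ l, ∑ k, μ i l x * μ j k x * dw (star (w l)) (dw (star (w k)) F) x := by
  have h1 : Lj w μ i (Lj w μ j F) x = dw (w i) (Lj w μ j F) x +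
      ∑ l, μ i l x * dw (star (w l)) (Lj w μ j F) x := rfl
  rw [h1, cm_dw hμ hF j (w i) x]
  have h2 : ∑ l, μ i l x * dw (star (w l)) (Lj w μ j F) x =
      ∑ l, μ i l x * (dw (star (w l)) (dw (w j) F) x +
        ∑ k, (dw (star (w l)) (μ j k) x * dw (star (w k)) F x +
          μ j k x * dw (star (w l)) (dw (star (w k)) F) x)) :=
    Finset.sum_congr rfl fun l _ => by rw [cm_dw hμ hF j (star (w l)) x]
  rw [h2]
  exact cm_alg _ (fun k => dw (w i) (μ j k) x) (fun k => dw (star (w k)) F x) (fun k => μ j k x)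
    (fun k => dw (w i) (dw (star (w k)) F) x) (fun l => μ i l x) (fun l => dw (star (w l)) (dw (w j) F) x)
    (fun l k => dw (star (w l)) (μ j k) x) (fun l k => dw (star (w l)) (dw (star (w k)) F) x)

theorem Lj_comm (hμ : ∀ j k, SP (μ j k)) (hi : Itg w μ) {F : V d → ℂ} (hF : ContDiff ℝ ∞ F)
    (i j : Fin n) (x : V d) : Lj w μ i (Lj w μ j F) x = Lj w μ j (Lj w μ i F) x := by
  rw [cm_exp hμ hF i j x, cm_exp hμ hF j i x, dw_comm (w i) (w j) hF x]
  have h1 : ∑ k, Lj w μ i (μ j k) x * dw (star (w k)) F x = ∑ k, Lj w μ j (μ i k) x * dw (star (w k)) F x :=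
    Finset.sum_congr rfl fun k _ => by rw [hi i j k x]
  have h2 : ∑ k, μ j k x * dw (w i) (dw (star (w k)) F) x = ∑ k, μ j k x * dw (star (w k)) (dw (w i) F) x :=
    Finset.sum_congr rfl fun k _ => by rw [dw_comm (w i) (star (w k)) hF x]
  have h3 : ∑ k, μ i k x * dw (star (w k)) (dw (w j) F) x = ∑ k, μ i k x * dw (w j) (dw (star (w k)) F) x :=
    Finset.sum_congr rfl fun k _ => by rw [dw_comm (w j) (star (w k)) hF x]
  have h4 : ∑ l, ∑ k, μ i l x * μ j k x * dw (star (w l)) (dw (star (w k)) F) x =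
      ∑ l, ∑ k, μ j l x * μ i k x * dw (star (w l)) (dw (star (w k)) F) x := by
    rw [Finset.sum_comm]
    refine Finset.sum_congr rfl fun k _ => Finset.sum_congr rfl fun l _ => ?_
    rw [dw_comm (star (w l)) (star (w k)) hF x, mul_comm (μ i l x)]
  rw [h1, h2, h3, h4, add_comm (∑ k, μ j k x * dw (star (w k)) (dw (w i) F) x)]

/-- the explicit form of `L_j (ℓ + g)` -/
theorem Lj_lf_add (w : Fin n → Fin d → ℂ) (μ : Fin n → Fin n → V d → ℂ) (ℓ : Fin d → ℂ)
    {g : V d → ℂ} (hg : SP g) (j : Fin n) (x : V d) :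
    Lj w μ j (fun y => lf ℓ y + g y) x =
      (bp ℓ (w j) + dw (w j) g x) + ∑ k, μ j k x * (bp ℓ (star (w k)) + dw (star (w k)) g x) := by
  have h1 : ∀ u : Fin d → ℂ, dw u (fun y => lf ℓ y + g y) x = bp ℓ u + dw u g x := by
    intro u
    rw [dw_add u (cm_diff (lf_contDiff ℓ) x) (cm_diff hg.1 x), dw_lf]
  unfold Lj
  rw [h1]
  congr 1
  exact Finset.sum_congr rfl fun k _ => by rw [h1]

theorem Lj_sp (hμ : ∀ j k, SP (μ j k)) (ℓ : Fin d → ℂ) {g : V d → ℂ} (hg : SP g) (j : Fin n) :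
    SP (Lj w μ j (fun y => lf ℓ y + g y)) := by
  have h1 : Lj w μ j (fun y => lf ℓ y + g y) = fun x =>
      (bp ℓ (w j) + dw (w j) g x) + ∑ k, μ j k x * (bp ℓ (star (w k)) + dw (star (w k)) g x) :=
    funext fun x => Lj_lf_add w μ ℓ hg j x
  rw [h1]
  exact ((SP.const _).add (hg.dw _)).add (SP.sum _ fun k _ => (hμ j k).mul ((SP.const _).add (hg.dw _)))

/-- `L_j` is additive and complex linear -/
theorem Lj_add {F G : V d → ℂ} (hF : ContDiff ℝ ∞ F) (hG : ContDiff ℝ ∞ G) (j : Fin n) (x : V d) :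
    Lj w μ j (fun y => F y + G y) x = Lj w μ j F x + Lj w μ j G x := by
  unfold Lj
  simp only [dw_add _ (cm_diff hF x) (cm_diff hG x), mul_add, Finset.sum_add_distrib]
  ring

theorem Lj_smul {F : V d → ℂ} (hF : ContDiff ℝ ∞ F) (c : ℂ) (j : Fin n) (x : V d) :
    Lj w μ j (fun y => c * F y) x = c * Lj w μ j F x := by
  unfold Lj
  simp only [dw_smul _ c (cm_diff hF x), mul_add, Finset.mul_sum]
  congr 1
  exact Finset.sum_congr rfl fun k _ => by ring

end LRA
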