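import Pool.Agent.LRA.Cx

/-!
# LRA / Gr: the `-i` eigenspace of a structure close to `J₀`

It is spanned by the vectors `Lv w μ x j`, and the equations `L_j F = 0` say that `F` is holomorphic.
-/

set_option autoImplicit false

noncomputable section

open scoped BigOperators ComplexConjugate ContDiff
open MeasureTheory

namespace LRA

variable {n d : ℕ}

/-- transversality of the `-i` eigenspace of `T` and the `i` eigenspace of `J₀` -/
theorem gr (J₀ : V d →L[ℝ] V d) :
    ∃ δ : ℝ, 0 < δ ∧ ∀ T : V d →L[ℝ] V d, ‖T - J₀‖ ≤ δ → ∀ u : Fin d → ℂ,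
      cx J₀ u = Complex.I • u → cx T u = -Complex.I • u → u = 0 := by
  obtain ⟨K, hK, hb⟩ := norm_cx_le d
  refine ⟨1 / K, by positivity, ?_⟩
  intro T hT u h1 h2
  have h3 : cx (T - J₀) u = (-(2 * Complex.I)) • u := by
    rw [cx_sub, h1, h2, ← sub_smul]
    congr 1
    ring
  have h4 := hb (T - J₀) u
  rw [h3, norm_smul, norm_neg, norm_mul, Complex.norm_I, mul_one] at h4
  have h5 : ‖(2 : ℂ)‖ = 2 := by simp
  rw [h5] at h4
  have h6 : K * ‖T - J₀‖ ≤ 1 := by
    calc K * ‖T - J₀‖ ≤ K * (1 / K) := mul_le_mul_of_nonneg_left hT hK.le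
      _ = 1 := mul_one_div_cancel hK.ne'
  have h7 : K * ‖T - J₀‖ * ‖u‖ ≤ 1 * ‖u‖ := mul_le_mul_of_nonneg_right h6 (norm_nonneg u)
  have h8 := norm_nonneg u
  have h9 : ‖u‖ = 0 := by linarith
  exact norm_eq_zero.1 h9

theorem span_of_gr {J₀ : V d →L[ℝ] V d} {w : Fin n → Fin d → ℂ} (hw : FrJ J₀ w)
    {μ : Fin n → Fin n → V d → ℂ} {T : V d →L[ℝ] V d} {x : V d}
    (hT : ∀ u : Fin d → ℂ, cx J₀ u = Complex.I • u → cx T u = -Complex.I • u → u = 0)
    (hL : ∀ j, cx T (Lv w μ x j) = -Complex.I • Lv w μ x j) (u : Fin d → ℂ)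
    (hu : cx T u = -Complex.I • u) : ∃ c : Fin n → ℂ, u = ∑ j, c j • Lv w μ x j := by
  obtain ⟨b, hb1, hb2⟩ := hw.bas
  refine ⟨fun j => b.repr u (Sum.inl j), ?_⟩
  have hstar : ∀ k, star (w k) ∈ Module.End.eigenspace (cx J₀) Complex.I := by
    intro k
    rw [Module.End.mem_eigenspace_iff, cx_star, hw.eig, star_smul]
    congr 1
    rw [star_neg]
    have : star Complex.I = -Complex.I := Complex.conj_I
    rw [this, neg_neg]
  have hu' : u = ∑ j, b.repr u (Sum.inl j) • w j + ∑ j, b.repr u (Sum.inr j) • star (w j) := by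
    have h1 := b.sum_repr u
    rw [Fintype.sum_sum_type] at h1
    simp only [hb1, hb2] at h1
    exact h1.symm
  have hLv : ∑ j, b.repr u (Sum.inl j) • Lv w μ x j = ∑ j, b.repr u (Sum.inl j) • w j +
      ∑ j, b.repr u (Sum.inl j) • ∑ k, μ j k x • star (w k) := by
    rw [← Finset.sum_add_distrib]
    exact Finset.sum_congr rfl fun j _ => by rw [Lv, smul_add]
  have hv : u - ∑ j, b.repr u (Sum.inl j) • Lv w μ x j =
      ∑ j, b.repr u (Sum.inr j) • star (w j) -
        ∑ j, b.repr u (Sum.inl j) • ∑ k, μ j k x • star (w k) := by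
    rw [hLv]
    nth_rewrite 1 [hu']
    abel
  have h0 : u - ∑ j, b.repr u (Sum.inl j) • Lv w μ x j = 0 := by
    refine hT _ ?_ ?_
    · rw [hv, ← Module.End.mem_eigenspace_iff]
      refine Submodule.sub_mem _ (Submodule.sum_mem _ fun j _ => Submodule.smul_mem _ _ (hstar j))
        (Submodule.sum_mem _ fun j _ => Submodule.smul_mem _ _
          (Submodule.sum_mem _ fun k _ => Submodule.smul_mem _ _ (hstar k)))
    · have h1 : ∀ v : Fin d → ℂ, cx T v = -Complex.I • v ↔
          v ∈ Module.End.eigenspace (cx T) (-Complex.I) := fun v =>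
        Module.End.mem_eigenspace_iff.symm
      rw [h1] at hu ⊢
      refine Submodule.sub_mem _ hu (Submodule.sum_mem _ fun j _ => Submodule.smul_mem _ _ ?_)
      rw [← h1]
      exact hL j
  exact sub_eq_zero.1 h0

/-- the complex linear extension of the derivative -/
private def grD (F : V d → ℂ) (x : V d) : (Fin d → ℂ) →ₗ[ℂ] ℂ where
  toFun u := ∑ l, u l * fderiv ℝ F x (Pi.single l 1)
  map_add' u v := by
    rw [← Finset.sum_add_distrib]
    exact Finset.sum_congr rfl fun l _ => by rw [Pi.add_apply, add_mul]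
  map_smul' c u := by
    rw [RingHom.id_apply, smul_eq_mul, Finset.mul_sum]
    exact Finset.sum_congr rfl fun l _ => by rw [Pi.smul_apply, smul_eq_mul, mul_assoc]

private theorem grD_real (F : V d → ℂ) (x v : V d) :
    grD F x (fun l => (v l : ℂ)) = fderiv ℝ F x v := by
  have h1 : v = ∑ l, v l • (Pi.single l (1 : ℝ) : V d) := by
    funext i
    rw [Finset.sum_apply, Finset.sum_eq_single i]
    · rw [Pi.smul_apply, Pi.single_eq_same, smul_eq_mul, mul_one]
    · intro j _ hj
      rw [Pi.smul_apply, Pi.single_eq_of_ne (Ne.symm hj), smul_zero]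
    · intro h
      exact absurd (Finset.mem_univ i) h
  have h2 : fderiv ℝ F x v = ∑ l, (v l : ℂ) * fderiv ℝ F x (Pi.single l 1) := by
    nth_rewrite 1 [h1]
    rw [map_sum]
    exact Finset.sum_congr rfl fun l _ => by rw [map_smul, Complex.real_smul]
  rw [h2]
  rfl

private theorem grD_Lv (w : Fin n → Fin d → ℂ) (μ : Fin n → Fin n → V d → ℂ) (j : Fin n)
    (F : V d → ℂ) (x : V d) : grD F x (Lv w μ x j) = Lj w μ j F x := by
  have h1 : ∀ u : Fin d → ℂ, grD F x u = dw u F x := fun u => rfl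
  rw [Lv, map_add, map_sum]
  unfold Lj
  rw [h1]
  congr 1
  refine Finset.sum_congr rfl fun k _ => ?_
  rw [map_smul, h1, smul_eq_mul]

theorem hol_iff {J₀ : V d →L[ℝ] V d} {w : Fin n → Fin d → ℂ} (hw : FrJ J₀ w)
    {μ : Fin n → Fin n → V d → ℂ} {T : V d →L[ℝ] V d} {x : V d} (hsq : ∀ v, T (T v) = -v)
    (hT : ∀ u : Fin d → ℂ, cx J₀ u = Complex.I • u → cx T u = -Complex.I • u → u = 0)
    (hL : ∀ j, cx T (Lv w μ x j) = -Complex.I • Lv w μ x j) (F : V d → ℂ) :
    (∀ j, Lj w μ j F x = 0) ↔ ∀ v, fderiv ℝ F x (T v) = Complex.I * fderiv ℝ F x v := by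
  have hcx : ∀ v : V d, grD F x (cx T (fun l => (v l : ℂ))) = fderiv ℝ F x (T v) := by
    intro v
    rw [cx_real, grD_real]
  constructor
  · intro h v
    obtain ⟨c, hc⟩ := span_of_gr (μ := μ) (x := x) hw hT hL
      ((fun l => (v l : ℂ)) + Complex.I • cx T (fun l => (v l : ℂ))) (by
        rw [map_add, map_smul, cx_sq hsq, smul_add, smul_smul, smul_neg, neg_mul,
          Complex.I_mul_I, neg_neg, one_smul, neg_smul, add_comm])
    have h1 : grD F x ((fun l => (v l : ℂ)) + Complex.I • cx T (fun l => (v l : ℂ))) = 0 := by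
      rw [hc, map_sum]
      refine Finset.sum_eq_zero fun j _ => ?_
      rw [map_smul, grD_Lv, h j, smul_zero]
    rw [map_add, map_smul, grD_real, hcx, smul_eq_mul] at h1
    have h2 := congrArg (fun z => Complex.I * z) h1
    simp only [mul_add, mul_zero, ← mul_assoc, Complex.I_mul_I] at h2
    linear_combination -h2
  · intro h j
    have hall : ∀ u : Fin d → ℂ, grD F x (cx T u) = Complex.I * grD F x u := by
      intro u
      have h1 : u = (fun l => ((u l).re : ℂ)) + Complex.I • (fun l => ((u l).im : ℂ)) := by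
        funext l
        rw [Pi.add_apply, Pi.smul_apply, smul_eq_mul, mul_comm]
        exact (Complex.re_add_im (u l)).symm
      rw [h1, map_add, map_add, map_add, map_smul, map_smul, map_smul, hcx (fun l => (u l).re),
        hcx (fun l => (u l).im), grD_real F x (fun l => (u l).re),
        grD_real F x (fun l => (u l).im), h, h, smul_eq_mul, smul_eq_mul]
      ring
    have h1 := hall (Lv w μ x j)
    rw [hL j, map_smul, grD_Lv, smul_eq_mul] at h1
    have h2 : 2 * Complex.I * Lj w μ j F x = 0 := by linear_combination -h1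
    have h3 : 2 * Complex.I ≠ 0 := mul_ne_zero two_ne_zero Complex.I_ne_zero
    exact (mul_eq_zero.1 h2).resolve_left h3

end LRA
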