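import Pool.Agent.LRA.Nij
import Pool.Agent.LRA.Gr

/-!
# LRA / ComJ: integrability in terms of `μ`

The commutator of two vector fields of the frame is in the `-i` eigenspace of `cx (J x)` (Nijenhuis identity) and in the
`i` eigenspace of `cx J₀` (it is a combination of the constant fields `star (w k)`), so it vanishes.
-/

set_option autoImplicit false

noncomputable section

open scoped BigOperators ComplexConjugate ContDiff
open MeasureTheory

namespace LRA

variable {n d : ℕ}

private theorem comj_sum {ι : Type*} (s : Finset ι) (u : ι → Fin d → ℂ) (F : V d → ℂ) (x : V d) :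
    dw (∑ k ∈ s, u k) F x = ∑ k ∈ s, dw (u k) F x := by
  unfold dw
  rw [Finset.sum_comm]
  refine Finset.sum_congr rfl fun l _ => ?_
  rw [Finset.sum_apply, Finset.sum_mul]

private theorem comj_lv (w : Fin n → Fin d → ℂ) (μ : Fin n → Fin n → V d → ℂ) (x : V d) (i : Fin n)
    (F : V d → ℂ) : dw (Lv w μ x i) F x = Lj w μ i F x := by
  unfold Lv Lj
  rw [dw_add_left, comj_sum]
  congr 1
  exact Finset.sum_congr rfl fun k _ => dw_smul_left _ _ _

private theorem comj_D (w : Fin n → Fin d → ℂ) {μ : Fin n → Fin n → V d → ℂ} (hμ : ∀ j k, SP (μ j k))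
    (u : Fin d → ℂ) (x : V d) (j : Fin n) :
    dwv u (fun y => Lv w μ y j) x = ∑ k, dw u (μ j k) x • star (w k) := by
  funext a
  show dw u (fun y => Lv w μ y j a) x = (∑ k, dw u (μ j k) x • star (w k)) a
  have h1 : (fun y => Lv w μ y j a) = fun y => w j a + ∑ k, (star (w k)) a * μ j k y := by
    funext y
    unfold Lv
    rw [Pi.add_apply, Finset.sum_apply]
    congr 1
    refine Finset.sum_congr rfl fun k _ => ?_
    rw [Pi.smul_apply, smul_eq_mul, mul_comm]
  have h2 : ∀ k, DifferentiableAt ℝ (fun y => (star (w k)) a * μ j k y) x := fun k =>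
    ((hμ j k).diff x).const_mul _
  have h3 : DifferentiableAt ℝ (fun y => ∑ k, (star (w k)) a * μ j k y) x :=
    DifferentiableAt.fun_sum fun k _ => h2 k
  rw [h1, dw_add u (differentiableAt_const _) h3, dw_const, zero_add, dw_sum _ _ _ (fun k _ => h2 k),
    Finset.sum_apply]
  refine Finset.sum_congr rfl fun k _ => ?_
  rw [dw_smul _ _ ((hμ j k).diff x), Pi.smul_apply, smul_eq_mul, mul_comm]

private theorem comj_dM (c : ℂ) (u v : Fin d → ℂ) (J : V d → (V d →L[ℝ] V d)) (x : V d) :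
    dM (c • u) J x v = c • dM u J x v := by
  unfold dM
  rw [LinearMap.sum_apply, LinearMap.sum_apply, Finset.smul_sum]
  refine Finset.sum_congr rfl fun l _ => ?_
  rw [LinearMap.smul_apply, LinearMap.smul_apply, Pi.smul_apply, smul_eq_mul, mul_smul]

private theorem comj_one {J : V d → (V d →L[ℝ] V d)} (hJ : CStr J) (w : Fin n → Fin d → ℂ)
    {μ : Fin n → Fin n → V d → ℂ} (hμ : ∀ j k, SP (μ j k))
    (hL : ∀ x j, cx (J x) (Lv w μ x j) = -Complex.I • Lv w μ x j) (u : Fin d → ℂ) (x : V d) (j : Fin n) :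
    dM u J x (Lv w μ x j) = -Complex.I • dwv u (fun y => Lv w μ y j) x -
      cx (J x) (dwv u (fun y => Lv w μ y j) x) := by
  have hX : ContDiff ℝ ∞ (fun y => Lv w μ y j) :=
    contDiff_const.add (ContDiff.sum fun k _ => (hμ j k).1.smul contDiff_const)
  have h1 := leib hJ.smooth hX u x
  have h2 : dwv u (fun y => cx (J y) (Lv w μ y j)) x = -Complex.I • dwv u (fun y => Lv w μ y j) x := by
    funext a
    show dw u (fun y => cx (J y) (Lv w μ y j) a) x = -Complex.I * dw u (fun y => Lv w μ y j a) x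
    have h3 : (fun y => cx (J y) (Lv w μ y j) a) = fun y => -Complex.I * Lv w μ y j a := by
      funext y
      rw [hL, Pi.smul_apply, smul_eq_mul]
    rw [h3]
    refine dw_smul _ _ ?_
    exact ((contDiff_pi.1 hX a).differentiable (by simp)) x
  rw [h2] at h1
  rw [h1]
  exact (add_sub_cancel_right _ _).symm

private theorem comj_alg {A : (Fin d → ℂ) →ₗ[ℂ] (Fin d → ℂ)} {P Q a b : Fin d → ℂ} (hA : ∀ u, A (A u) = -u)
    (ha : a = -Complex.I • P - A P) (hb : b = -Complex.I • Q - A Q)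
    (h : -Complex.I • a - -Complex.I • b + A b - A a = 0) : A (P - Q) = -Complex.I • (P - Q) := by
  have h1 : A a = -Complex.I • A P + P := by
    rw [ha, map_sub, map_smul, hA, sub_neg_eq_add]
  have h2 : A b = -Complex.I • A Q + Q := by
    rw [hb, map_sub, map_smul, hA, sub_neg_eq_add]
  rw [h1, h2, ha, hb] at h
  rw [map_sub]
  funext t
  have h3 := congrFun h t
  simp only [Pi.sub_apply, Pi.add_apply, Pi.smul_apply, smul_eq_mul, Pi.zero_apply] at h3 ⊢
  have hI := Complex.I_mul_I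
  linear_combination (-Complex.I / 2) * h3 + (A P t - A Q t + Complex.I / 2 * (P t - Q t)) * hI

theorem comJ {J₀ : V d →L[ℝ] V d} {w : Fin n → Fin d → ℂ} (hw : FrJ J₀ w)
    {J : V d → (V d →L[ℝ] V d)} (hJ : CStr J) {μ : Fin n → Fin n → V d → ℂ}
    (hμ : ∀ j k, SP (μ j k))
    (hL : ∀ x j, cx (J x) (Lv w μ x j) = -Complex.I • Lv w μ x j)
    (hgr : ∀ x, ∀ u : Fin d → ℂ, cx J₀ u = Complex.I • u → cx (J x) u = -Complex.I • u → u = 0) :
    Itg w μ := by
  intro i j k x
  obtain ⟨P, hP⟩ : ∃ P, P = dwv (Lv w μ x i) (fun y => Lv w μ y j) x := ⟨_, rfl⟩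
  obtain ⟨Q, hQ⟩ : ∃ Q, Q = dwv (Lv w μ x j) (fun y => Lv w μ y i) x := ⟨_, rfl⟩
  have h1 := comj_one hJ w hμ hL (Lv w μ x i) x j
  have h2 := comj_one hJ w hμ hL (Lv w μ x j) x i
  rw [← hP] at h1
  rw [← hQ] at h2
  have h3 := nijC hJ x (Lv w μ x i) (Lv w μ x j)
  rw [hL, hL, comj_dM, comj_dM] at h3
  have h4 : cx (J x) (P - Q) = -Complex.I • (P - Q) := comj_alg (fun u => cx_sq (hJ.sq x) u) h1 h2 h3
  have h5 : P - Q = ∑ k, (Lj w μ i (μ j k) x - Lj w μ j (μ i k) x) • star (w k) := by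
    rw [hP, hQ, comj_D w hμ, comj_D w hμ, ← Finset.sum_sub_distrib]
    refine Finset.sum_congr rfl fun k _ => ?_
    rw [comj_lv, comj_lv, sub_smul]
  have h6 : cx J₀ (P - Q) = Complex.I • (P - Q) := by
    rw [h5, map_sum, Finset.smul_sum]
    refine Finset.sum_congr rfl fun k _ => ?_
    rw [map_smul, cx_star, hw.eig, star_smul, smul_comm]
    congr 2
    simp
  have h7 : P - Q = 0 := hgr x (P - Q) h6 h4
  obtain ⟨b, -, hb⟩ := hw.bas
  have h8 : LinearIndependent ℂ (fun k => star (w k)) := by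
    have h9 := b.linearIndependent.comp Sum.inr Sum.inr_injective
    have h10 : (⇑b ∘ Sum.inr : Fin n → Fin d → ℂ) = fun k => star (w k) := funext hb
    rw [h10] at h9
    exact h9
  have h9 := Fintype.linearIndependent_iff.1 h8 (fun k => Lj w μ i (μ j k) x - Lj w μ j (μ i k) x)
    (by rw [← h5]; exact h7) k
  exact sub_eq_zero.1 h9

end LRA
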