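import Pool.Agent.LRA.Bas

/-! LRA / FLift: periodic functions as functions on the torus of Mathlib, Parseval, inversion. -/

set_option autoImplicit false

noncomputable section

open scoped BigOperators
open MeasureTheory

namespace LRA

variable {d : ℕ}

/-- the projection to the torus -/
def prj (x : V d) : UnitAddTorus (Fin d) := fun i => (x i : UnitAddCircle)

theorem mFourier_prj (k : Fin d → ℤ) (x : V d) :
    UnitAddTorus.mFourier k (prj x) = ch k x := by
  unfold UnitAddTorus.mFourier prj ch
  simp only [ContinuousMap.coe_mk]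
  rw [Finset.mul_sum, Complex.exp_sum]
  refine Finset.prod_congr rfl fun i _ => ?_
  rw [fourier_coe_apply]
  congr 1
  push_cast
  ring

local instance fliftMS : MeasureSpace UnitAddCircle := ⟨AddCircle.haarAddCircle⟩

local instance fliftPM : IsProbabilityMeasure (volume : Measure UnitAddCircle) :=
  inferInstanceAs (IsProbabilityMeasure AddCircle.haarAddCircle)

private theorem flift_quot : IsOpenQuotientMap (prj : V d → UnitAddTorus (Fin d)) := by
  have : IsOpenQuotientMap (Pi.map (fun (_ : Fin d) (x : ℝ) => (x : UnitAddCircle))) :=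
    IsOpenQuotientMap.piMap fun _ => QuotientAddGroup.isOpenQuotientMap_mk
  exact this

private theorem flift_box : {x : V d | ∀ i, x i ∈ Set.Ioc ((0 : V d) i) ((0 : V d) i + 1)} =
    box d := by
  unfold box
  ext x
  simp

private theorem flift_meas (d : ℕ) : MeasurableSet (box d) := by
  have : box d = Set.pi Set.univ (fun _ => Set.Ioc (0 : ℝ) 1) := by
    ext t
    simp [box]
  rw [this]
  exact MeasurableSet.univ_pi fun i => measurableSet_Ioc

/-- a continuous periodic function descends to the torus, with the same Fourier coefficients -/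
theorem exists_lift {F : V d → ℂ} (hc : Continuous F) (hp : Per F) :
    ∃ G : C(UnitAddTorus (Fin d), ℂ), (∀ x, G (prj x) = F x) ∧
      ∀ k, UnitAddTorus.mFourierCoeff G k = fc F k := by
  have hs := (flift_quot (d := d)).surjective
  have hval : ∀ t, F (Function.surjInv hs (prj t)) = F t := by
    intro t
    have h1 : prj (Function.surjInv hs (prj t)) = prj t := Function.surjInv_eq hs _
    have h2 : ∀ i, ∃ n : ℤ, Function.surjInv hs (prj t) i = t i + (n : ℝ) := by
      intro i
      have h3 : ((Function.surjInv hs (prj t) i : ℝ) : UnitAddCircle) = (t i : UnitAddCircle) :=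
        congrFun h1 i
      rw [← sub_eq_zero, ← AddCircle.coe_sub, AddCircle.coe_eq_zero_iff] at h3
      obtain ⟨n, hn⟩ := h3
      refine ⟨n, ?_⟩
      rw [zsmul_eq_mul, mul_one] at hn
      linarith
    choose n hn using h2
    have h4 : Function.surjInv hs (prj t) = t + zc n := funext hn
    rw [h4, hp]
  have hcont : Continuous fun u => F (Function.surjInv hs u) := by
    rw [(flift_quot (d := d)).isQuotientMap.continuous_iff]
    have h5 : (fun u => F (Function.surjInv hs u)) ∘ prj = F := funext hval
    rw [h5]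
    exact hc
  refine ⟨⟨fun u => F (Function.surjInv hs u), hcont⟩, hval, fun k => ?_⟩
  rw [UnitAddTorus.mFourierCoeff_eq_integral _ k (0 : V d), flift_box]
  unfold fc
  refine setIntegral_congr_fun (flift_meas d) fun x _ => ?_
  show UnitAddTorus.mFourier (-k) (prj x) • F (Function.surjInv hs (prj x)) = F x * ch (-k) x
  rw [hval, mFourier_prj, smul_eq_mul, mul_comm]

/-- **Parseval** -/
theorem parseval {F : V d → ℂ} (hc : Continuous F) (hp : Per F) :
    HasSum (fun k => ‖fc F k‖ ^ 2) (∫ x in box d, ‖F x‖ ^ 2) := by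
  obtain ⟨G, hG1, hG2⟩ := exists_lift hc hp
  have h1 := UnitAddTorus.hasSum_sq_mFourierCoeff (ContinuousMap.toLp 2 volume ℂ G)
  simp only [UnitAddTorus.mFourierCoeff_toLp, hG2] at h1
  have h2 : ∫ t, ‖(ContinuousMap.toLp 2 volume ℂ G : UnitAddTorus (Fin d) → ℂ) t‖ ^ 2 =
      ∫ x in box d, ‖F x‖ ^ 2 := by
    have h3 : ∫ t, ‖(ContinuousMap.toLp 2 volume ℂ G : UnitAddTorus (Fin d) → ℂ) t‖ ^ 2 =
        ∫ t, ‖G t‖ ^ 2 := by
      refine integral_congr_ae ?_
      filter_upwards [ContinuousMap.coeFn_toLp (p := 2) (𝕜 := ℂ) volume G] with t ht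
      rw [ht]
    rw [h3, UnitAddTorus.integral_preimage _ (0 : V d), flift_box]
    refine setIntegral_congr_fun (flift_meas d) fun x _ => ?_
    show ‖G (prj x)‖ ^ 2 = ‖F x‖ ^ 2
    rw [hG1]
  rwa [h2] at h1

/-- **inversion**, when the coefficients are summable -/
theorem inversion {F : V d → ℂ} (hc : Continuous F) (hp : Per F)
    (hs : Summable fun k => ‖fc F k‖) (x : V d) :
    HasSum (fun k => fc F k * ch k x) (F x) := by
  obtain ⟨G, hG1, hG2⟩ := exists_lift hc hp
  have h1 : Summable (UnitAddTorus.mFourierCoeff G) := by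
    refine Summable.of_norm ?_
    simp only [hG2]
    exact hs
  have h2 := UnitAddTorus.hasSum_mFourier_series_apply_of_summable h1 (prj x)
  simp only [hG2, hG1, mFourier_prj, smul_eq_mul] at h2
  exact h2

end LRA
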