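import Pool.Agent.LRA.Bas

/-!
# LRA / FSum: summability over `ℤ^d`

Sequences of rapid decay are summable, and stable under convolution.
-/

set_option autoImplicit false

noncomputable section

open scoped BigOperators

namespace LRA

variable {d : ℕ}

private theorem fsum_prod {ι : Type} [Fintype ι] {g : ι → ℤ → ℝ} (h0 : ∀ i k, 0 ≤ g i k)
    (hg : ∀ i, Summable (g i)) : Summable (fun x : ι → ℤ => ∏ i, g i (x i)) := by
  classical
  refine summable_of_sum_le (c := ∏ i, ∑' k, g i k)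
    (fun x => Finset.prod_nonneg fun i _ => h0 i _) fun s => ?_
  have h1 : s ⊆ Fintype.piFinset (fun i => s.image (fun x => x i)) := by
    intro x hx
    rw [Fintype.mem_piFinset]
    intro i
    exact Finset.mem_image_of_mem _ hx
  refine (Finset.sum_le_sum_of_subset_of_nonneg h1
    (fun x _ _ => Finset.prod_nonneg fun i _ => h0 i _)).trans ?_
  rw [← Finset.prod_univ_sum]
  refine Finset.prod_le_prod (fun i _ => Finset.sum_nonneg fun k _ => h0 i k) fun i _ => ?_
  exact (hg i).sum_le_tsum _ (fun k _ => h0 i k)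

private theorem fsum_one : Summable fun k : ℤ => ((1 + |(k : ℝ)|) ^ 2)⁻¹ := by
  have h1 : Summable fun n : ℕ => ((((n + 1 : ℕ) : ℝ)) ^ 2)⁻¹ :=
    (summable_nat_add_iff 1).2 (Real.summable_nat_pow_inv.2 (by norm_num))
  refine Summable.of_nat_of_neg ?_ ?_
  · refine h1.congr fun n => ?_
    rw [Int.cast_natCast, abs_of_nonneg (Nat.cast_nonneg n), Nat.cast_add, Nat.cast_one, add_comm]
  · refine h1.congr fun n => ?_
    rw [Int.cast_neg, Int.cast_natCast, abs_neg, abs_of_nonneg (Nat.cast_nonneg n), Nat.cast_add,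
      Nat.cast_one, add_comm]

private theorem fsum_pos (k : Fin d → ℤ) : 0 < 1 + sz k := by
  have := sz_nonneg k
  linarith

private theorem fsum_coord (k : Fin d → ℤ) (l : Fin d) : |(k l : ℝ)| ≤ sz k :=
  Finset.single_le_sum (f := fun l => |(k l : ℝ)|) (fun _ _ => abs_nonneg _) (Finset.mem_univ l)

theorem summable_sz (d : ℕ) : Summable fun k : Fin d → ℤ => ((1 + sz k) ^ (2 * d))⁻¹ := by
  have h1 := fsum_prod (ι := Fin d) (g := fun _ k => ((1 + |(k : ℝ)|) ^ 2)⁻¹)
    (fun _ k => by positivity) (fun _ => fsum_one)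
  refine Summable.of_nonneg_of_le (fun k => ?_) (fun k => ?_) h1
  · have := fsum_pos k
    positivity
  · rw [Finset.prod_inv_distrib]
    apply inv_anti₀
    · exact Finset.prod_pos fun l _ => by positivity
    · have h2 : ∏ l : Fin d, (1 + |(k l : ℝ)|) ^ 2 ≤ ∏ _l : Fin d, (1 + sz k) ^ 2 := by
        refine Finset.prod_le_prod (fun l _ => by positivity) fun l _ => ?_
        have h3 := fsum_coord k l
        have h4 := abs_nonneg (k l : ℝ)
        exact pow_le_pow_left₀ (by linarith) (by linarith) 2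
      refine h2.trans (le_of_eq ?_)
      rw [Finset.prod_const, Finset.card_univ, Fintype.card_fin, ← pow_mul]

theorem RD.summable_pow {c : (Fin d → ℤ) → ℂ} (h : RD c) (s : ℕ) :
    Summable fun k => (1 + sz k) ^ s * ‖c k‖ := by
  obtain ⟨C, hC⟩ := h (s + 2 * d)
  refine Summable.of_nonneg_of_le (fun k => ?_) (fun k => ?_) ((summable_sz d).mul_left C)
  · have := fsum_pos k
    positivity
  · have h1 := fsum_pos k
    have h2 : 0 < (1 + sz k) ^ (2 * d) := by positivity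
    have h3 := hC k
    rw [← div_eq_mul_inv, le_div_iff₀ h2]
    calc (1 + sz k) ^ s * ‖c k‖ * (1 + sz k) ^ (2 * d) = (1 + sz k) ^ (s + 2 * d) * ‖c k‖ := by
          rw [pow_add]; ring
      _ ≤ C := h3

theorem RD.summable_norm {c : (Fin d → ℤ) → ℂ} (h : RD c) : Summable fun k => ‖c k‖ := by
  refine (h.summable_pow 0).congr fun k => ?_
  rw [pow_zero, one_mul]

private theorem fsum_bd {c : (Fin d → ℤ) → ℂ} (h : RD c) : ∃ C : ℝ, ∀ k, ‖c k‖ ≤ C := by
  obtain ⟨C, hC⟩ := h 0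
  refine ⟨C, fun k => ?_⟩
  have h1 := hC k
  rwa [pow_zero, one_mul] at h1

theorem RD.summable_sq {c : (Fin d → ℤ) → ℂ} (h : RD c) : Summable fun k => ‖c k‖ ^ 2 := by
  obtain ⟨C, hC⟩ := fsum_bd h
  refine Summable.of_nonneg_of_le (fun k => by positivity) (fun k => ?_)
    (h.summable_norm.mul_left C)
  rw [sq]
  exact mul_le_mul_of_nonneg_right (hC k) (norm_nonneg _)

theorem RD.zero : RD (fun _ : Fin d → ℤ => (0 : ℂ)) := by
  intro s
  exact ⟨0, fun k => by rw [norm_zero, mul_zero]⟩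

theorem RD.add {a b : (Fin d → ℤ) → ℂ} (h : RD a) (h' : RD b) : RD (fun k => a k + b k) := by
  intro s
  obtain ⟨C, hC⟩ := h s
  obtain ⟨C', hC'⟩ := h' s
  refine ⟨C + C', fun k => ?_⟩
  have h1 : 0 ≤ (1 + sz k) ^ s := (pow_pos (fsum_pos k) s).le
  calc (1 + sz k) ^ s * ‖a k + b k‖ ≤ (1 + sz k) ^ s * (‖a k‖ + ‖b k‖) :=
        mul_le_mul_of_nonneg_left (norm_add_le _ _) h1
    _ = (1 + sz k) ^ s * ‖a k‖ + (1 + sz k) ^ s * ‖b k‖ := mul_add _ _ _
    _ ≤ C + C' := add_le_add (hC k) (hC' k)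

theorem RD.sum {ι : Type*} (s : Finset ι) {a : ι → (Fin d → ℤ) → ℂ} (h : ∀ i ∈ s, RD (a i)) :
    RD (fun k => ∑ i ∈ s, a i k) := by
  classical
  induction s using Finset.induction_on with
  | empty =>
    simp only [Finset.sum_empty]
    exact RD.zero
  | insert i s hi ih =>
    simp only [Finset.sum_insert hi]
    exact RD.add (h i (Finset.mem_insert_self _ _))
      (ih fun j hj => h j (Finset.mem_insert_of_mem hj))

/-- multiplication by a multiplier of polynomial growth -/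
theorem RD.mulpoly {c : (Fin d → ℤ) → ℂ} (h : RD c) (m : (Fin d → ℤ) → ℂ) (K : ℝ) (r : ℕ)
    (hm : ∀ k, ‖m k‖ ≤ K * (1 + sz k) ^ r) : RD (fun k => m k * c k) := by
  intro s
  obtain ⟨C, hC⟩ := h (s + r)
  refine ⟨|K| * C, fun k => ?_⟩
  have h1 : 0 < (1 + sz k) ^ s := pow_pos (fsum_pos k) s
  have h2 : 0 < (1 + sz k) ^ r := pow_pos (fsum_pos k) r
  have h3 : ‖m k‖ ≤ |K| * (1 + sz k) ^ r :=
    (hm k).trans (mul_le_mul_of_nonneg_right (le_abs_self K) h2.le)
  calc (1 + sz k) ^ s * ‖m k * c k‖ = (1 + sz k) ^ s * (‖m k‖ * ‖c k‖) := by rw [norm_mul]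
    _ ≤ (1 + sz k) ^ s * (|K| * (1 + sz k) ^ r * ‖c k‖) :=
        mul_le_mul_of_nonneg_left (mul_le_mul_of_nonneg_right h3 (norm_nonneg _)) h1.le
    _ = |K| * ((1 + sz k) ^ (s + r) * ‖c k‖) := by rw [pow_add]; ring
    _ ≤ |K| * C := mul_le_mul_of_nonneg_left (hC k) (abs_nonneg K)

/-- the terms of a convolution are summable -/
theorem RD.conv_summable {a b : (Fin d → ℤ) → ℂ} (h : RD a) (h' : RD b) (k : Fin d → ℤ) :
    Summable fun l => ‖a (k - l) * b l‖ := by
  obtain ⟨C, hC⟩ := fsum_bd h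
  refine Summable.of_nonneg_of_le (fun l => norm_nonneg _) (fun l => ?_)
    (h'.summable_norm.mul_left C)
  rw [norm_mul]
  exact mul_le_mul_of_nonneg_right (hC _) (norm_nonneg _)

/-- a convolution of rapidly decreasing sequences is rapidly decreasing -/
theorem RD.conv {a b : (Fin d → ℤ) → ℂ} (h : RD a) (h' : RD b) :
    RD (fun k => ∑' l, a (k - l) * b l) := by
  intro s
  obtain ⟨C, hC⟩ := h s
  refine ⟨C * ∑' l, (1 + sz l) ^ s * ‖b l‖, fun k => ?_⟩
  have h1 : 0 ≤ (1 + sz k) ^ s := (pow_pos (fsum_pos k) s).le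
  have h2 := norm_tsum_le_tsum_norm (h.conv_summable h' k)
  refine (mul_le_mul_of_nonneg_left h2 h1).trans ?_
  rw [← tsum_mul_left, ← tsum_mul_left]
  refine Summable.tsum_le_tsum (fun l => ?_) ((h.conv_summable h' k).mul_left _)
    ((h'.summable_pow s).mul_left _)
  have h3 : 1 + sz k ≤ (1 + sz (k - l)) * (1 + sz l) := by
    have h4 := sz_add_le (k - l) l
    rw [sub_add_cancel] at h4
    have h5 := mul_nonneg (sz_nonneg (k - l)) (sz_nonneg l)
    calc 1 + sz k ≤ 1 + (sz (k - l) + sz l) := by linarith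
      _ ≤ (1 + sz (k - l)) * (1 + sz l) := by
          rw [mul_add, mul_one, add_mul, one_mul]
          linarith
  have h6 : (1 + sz k) ^ s ≤ (1 + sz (k - l)) ^ s * (1 + sz l) ^ s := by
    rw [← mul_pow]
    exact pow_le_pow_left₀ (fsum_pos k).le h3 s
  have h7 : 0 ≤ (1 + sz l) ^ s := (pow_pos (fsum_pos l) s).le
  calc (1 + sz k) ^ s * ‖a (k - l) * b l‖
      = (1 + sz k) ^ s * (‖a (k - l)‖ * ‖b l‖) := by rw [norm_mul]
    _ ≤ (1 + sz (k - l)) ^ s * (1 + sz l) ^ s * (‖a (k - l)‖ * ‖b l‖) :=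
        mul_le_mul_of_nonneg_right h6 (mul_nonneg (norm_nonneg _) (norm_nonneg _))
    _ = (1 + sz (k - l)) ^ s * ‖a (k - l)‖ * ((1 + sz l) ^ s * ‖b l‖) := by ring
    _ ≤ C * ((1 + sz l) ^ s * ‖b l‖) :=
        mul_le_mul_of_nonneg_right (hC _) (mul_nonneg h7 (norm_nonneg _))

end LRA
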