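import Pool.Agent.LRA.Bas

/-! LRA / FDer: Fourier coefficients of derivatives. -/

set_option autoImplicit false

noncomputable section

open scoped BigOperators
open MeasureTheory

namespace LRA

variable {d : ℕ}

private theorem fd_box_eq : box d = Set.pi Set.univ (fun _ : Fin d => Set.Ioc (0 : ℝ) 1) := by
  ext x
  rw [Set.mem_univ_pi]
  rfl

theorem measurableSet_box : MeasurableSet (box d) := by
  rw [fd_box_eq]
  exact MeasurableSet.univ_pi fun _ => measurableSet_Ioc

theorem volume_box : volume (box d) = 1 := by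
  rw [fd_box_eq, Real.volume_pi_Ioc]
  simp

/-- continuous functions are integrable on the box -/
theorem integrableOn_box {E : Type*} [NormedAddCommGroup E] {F : V d → E} (h : Continuous F) :
    IntegrableOn F (box d) := by
  have h1 : IntegrableOn F (Set.Icc (0 : V d) 1) := h.continuousOn.integrableOn_compact isCompact_Icc
  refine h1.mono_set fun x hx => ?_
  rw [Set.mem_Icc]
  exact ⟨fun i => (hx i).1.le, fun i => (hx i).2⟩

private theorem fd_descend {G : V d → ℂ} (h : Per G) :
    ∃ g : UnitAddTorus (Fin d) → ℂ, ∀ x : V d, g (fun i => (x i : UnitAddCircle)) = G x := by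
  refine ⟨fun z => G fun i => ((AddCircle.equivIoc 1 0 (z i) : Set.Ioc (0 : ℝ) (0 + 1)) : ℝ),
    fun x => ?_⟩
  have h1 : ∀ i, ∃ m : ℤ, ((AddCircle.equivIoc 1 0 (x i : UnitAddCircle) :
      Set.Ioc (0 : ℝ) (0 + 1)) : ℝ) = x i + m := by
    intro i
    have h2 : (((AddCircle.equivIoc 1 0 (x i : UnitAddCircle) : Set.Ioc (0 : ℝ) (0 + 1)) : ℝ) :
        UnitAddCircle) = (x i : UnitAddCircle) :=
      (AddCircle.equivIoc 1 0).symm_apply_apply (x i : UnitAddCircle)
    have h3 : ((((AddCircle.equivIoc 1 0 (x i : UnitAddCircle) : Set.Ioc (0 : ℝ) (0 + 1)) : ℝ) -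
        x i : ℝ) : UnitAddCircle) = 0 := by
      rw [AddCircle.coe_sub, h2, sub_self]
    obtain ⟨m, hm⟩ := (AddCircle.coe_eq_zero_iff (1 : ℝ)).1 h3
    refine ⟨m, ?_⟩
    rw [zsmul_eq_mul, mul_one] at hm
    linarith
  choose m hm using h1
  have h3 : (fun i => ((AddCircle.equivIoc 1 0 (x i : UnitAddCircle) :
      Set.Ioc (0 : ℝ) (0 + 1)) : ℝ)) = x + zc m := by
    funext i
    exact hm i
  show G (fun i => ((AddCircle.equivIoc 1 0 (x i : UnitAddCircle) :
      Set.Ioc (0 : ℝ) (0 + 1)) : ℝ)) = G x
  rw [h3]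
  exact h x m

private theorem fd_translate {G : V d → ℂ} (h : Per G) (v : V d) :
    ∫ x in box d, G (x + v) = ∫ x in box d, G x := by
  obtain ⟨g, hg⟩ := fd_descend h
  have h1 := UnitAddTorus.integral_preimage g (0 : V d)
  have h2 := UnitAddTorus.integral_preimage g v
  simp only [hg] at h1 h2
  have h3 : {x : V d | ∀ i, x i ∈ Set.Ioc ((0 : V d) i) ((0 : V d) i + 1)} = box d := by
    ext x
    simp [box]
  rw [h3] at h1
  have h4 := (measurePreserving_add_right (volume : Measure (V d)) v).setIntegral_preimage_emb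
    (MeasurableEquiv.addRight v).measurableEmbedding G
    {x : V d | ∀ i, x i ∈ Set.Ioc (v i) (v i + 1)}
  have h5 : (fun x : V d => x + v) ⁻¹' {x : V d | ∀ i, x i ∈ Set.Ioc (v i) (v i + 1)} = box d := by
    ext x
    constructor
    · intro hx i
      have h6 : x i + v i ∈ Set.Ioc (v i) (v i + 1) := hx i
      rw [Set.mem_Ioc] at h6 ⊢
      constructor
      · linarith [h6.1]
      · linarith [h6.2]
    · intro hx i
      show x i + v i ∈ Set.Ioc (v i) (v i + 1)
      have h6 := hx i
      rw [Set.mem_Ioc] at h6 ⊢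
      constructor
      · linarith [h6.1]
      · linarith [h6.2]
  rw [h5] at h4
  rw [h4, ← h2, h1]

private theorem fd_dw_single (G : V d → ℂ) (l : Fin d) (x : V d) :
    dw (Pi.single l (1 : ℂ)) G x = fderiv ℝ G x (Pi.single l 1) := by
  unfold dw
  rw [Finset.sum_eq_single l]
  · rw [Pi.single_eq_same, one_mul]
  · intro b _ hb
    rw [Pi.single_eq_of_ne hb, zero_mul]
  · intro hl
    exact absurd (Finset.mem_univ l) hl

private theorem fd_cont {G : V d → ℂ} (h : SP G) (l : Fin d) :
    Continuous fun x => fderiv ℝ G x (Pi.single l 1) := by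
  have h1 := (h.dw (Pi.single l (1 : ℂ))).cont
  have h2 : (fun x => fderiv ℝ G x (Pi.single l 1)) = dw (Pi.single l (1 : ℂ)) G := by
    funext x
    exact (fd_dw_single G l x).symm
  rw [h2]
  exact h1

/-- the integral of a derivative of a periodic function is zero -/
theorem integral_der {G : V d → ℂ} (h : SP G) (l : Fin d) :
    ∫ x in box d, fderiv ℝ G x (Pi.single l 1) = 0 := by
  obtain ⟨C, hC0, hC⟩ := (h.dw (Pi.single l (1 : ℂ))).bdd
  have hvt : volume (box d) < ⊤ := by
    rw [volume_box]
    exact ENNReal.one_lt_top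
  have hcG : ∀ t : ℝ, Continuous fun x : V d => G (x + t • (Pi.single l 1 : V d)) := fun t =>
    h.cont.comp (continuous_id.add continuous_const)
  have key := (hasDerivAt_integral_of_dominated_loc_of_deriv_le (𝕜 := ℝ)
    (μ := volume.restrict (box d))
    (F := fun (t : ℝ) (x : V d) => G (x + t • (Pi.single l 1 : V d)))
    (F' := fun (t : ℝ) (x : V d) =>
      fderiv ℝ G (x + t • (Pi.single l 1 : V d)) (Pi.single l 1))
    (x₀ := 0) (bound := fun _ => C) (s := Set.univ) Filter.univ_mem
    (Filter.Eventually.of_forall fun t => (hcG t).aestronglyMeasurable)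
    (integrableOn_box (hcG 0))
    (((fd_cont h l).comp (continuous_id.add continuous_const)).aestronglyMeasurable)
    (Filter.Eventually.of_forall fun x t _ => by
      have h1 := hC (x + t • (Pi.single l 1 : V d))
      rw [fd_dw_single] at h1
      exact h1)
    (integrableOn_const hvt.ne)
    (Filter.Eventually.of_forall fun x t _ => by
      have h1 : HasFDerivAt G (fderiv ℝ G (x + t • (Pi.single l 1 : V d)))
          (x + t • (Pi.single l 1 : V d)) := (h.diff _).hasFDerivAt
      have h2 : HasDerivAt (fun t : ℝ => x + t • (Pi.single l 1 : V d))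
          (Pi.single l 1 : V d) t := by
        have h3 := ((hasDerivAt_id t).smul_const (Pi.single l 1 : V d)).const_add x
        rwa [one_smul] at h3
      exact h1.comp_hasDerivAt t h2)).2
  have hconst : (fun t : ℝ => ∫ x in box d, G (x + t • (Pi.single l 1 : V d))) =
      fun _ => ∫ x in box d, G x := by
    funext t
    exact fd_translate h.2 _
  have h2 : HasDerivAt (fun _ : ℝ => ∫ x in box d, G x)
      (∫ x in box d, fderiv ℝ G (x + (0 : ℝ) • (Pi.single l 1 : V d)) (Pi.single l 1)) 0 := by
    rw [← hconst]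
    exact key
  have h3 := h2.unique (hasDerivAt_const (0 : ℝ) (∫ x in box d, G x))
  simpa using h3

private theorem fd_int_dw {G : V d → ℂ} (h : SP G) (w : Fin d → ℂ) :
    ∫ x in box d, dw w G x = 0 := by
  unfold dw
  rw [integral_finsetSum]
  · refine Finset.sum_eq_zero fun l _ => ?_
    rw [integral_const_mul, integral_der h l, mul_zero]
  · intro l _
    exact integrableOn_box (continuous_const.mul (fd_cont h l))

theorem fc_dw {F : V d → ℂ} (h : SP F) (w : Fin d → ℂ) (k : Fin d → ℤ) :
    fc (dw w F) k = 2 * Real.pi * Complex.I * pr k w * fc F k := by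
  have h1 := fd_int_dw (h.mul (ch_sp (-k))) w
  have h2 : ∀ x, dw w (fun y => F y * ch (-k) y) x =
      dw w F x * ch (-k) x + F x * dw w (ch (-k)) x := fun x =>
    dw_mul w (h.diff x) ((ch_sp (-k)).diff x)
  have hpr : pr (-k) w = -pr k w := by
    unfold pr
    rw [← Finset.sum_neg_distrib]
    refine Finset.sum_congr rfl fun l _ => ?_
    rw [Pi.neg_apply]
    push_cast
    ring
  have h3 : ∀ x, dw w F x * ch (-k) x + F x * dw w (ch (-k)) x =
      dw w F x * ch (-k) x - 2 * Real.pi * Complex.I * pr k w * (F x * ch (-k) x) := by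
    intro x
    rw [dw_ch, hpr]
    ring
  simp only [h2, h3] at h1
  rw [integral_sub, integral_const_mul] at h1
  · exact sub_eq_zero.1 h1
  · exact integrableOn_box ((h.dw w).cont.mul (ch_continuous _))
  · exact integrableOn_box (continuous_const.mul (h.cont.mul (ch_continuous _)))

theorem integral_ch (k : Fin d → ℤ) : ∫ x in box d, ch k x = if k = 0 then 1 else 0 := by
  by_cases hk : k = 0
  · rw [if_pos hk, hk]
    simp only [ch_zero]
    rw [setIntegral_const, measureReal_def, volume_box]
    simp
  · rw [if_neg hk]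
    obtain ⟨l, hl⟩ := Function.ne_iff.1 hk
    have h1 := integral_der (ch_sp k) l
    simp only [hasFDerivAt_ch] at h1
    rw [integral_const_mul] at h1
    have h2 : (2 * Real.pi * Complex.I * (k l : ℂ) : ℂ) ≠ 0 := by
      refine mul_ne_zero Complex.two_pi_I_ne_zero ?_
      exact Int.cast_ne_zero.2 hl
    exact (mul_eq_zero.1 h1).resolve_left h2

theorem fc_add {F G : V d → ℂ} (h : SP F) (h' : SP G) (k : Fin d → ℤ) :
    fc (fun x => F x + G x) k = fc F k + fc G k := by
  unfold fc
  rw [← integral_add]
  · refine integral_congr_ae (Filter.Eventually.of_forall fun x => ?_)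
    exact add_mul _ _ _
  · exact integrableOn_box (h.cont.mul (ch_continuous _))
  · exact integrableOn_box (h'.cont.mul (ch_continuous _))

theorem fc_sub {F G : V d → ℂ} (h : SP F) (h' : SP G) (k : Fin d → ℤ) :
    fc (fun x => F x - G x) k = fc F k - fc G k := by
  unfold fc
  rw [← integral_sub]
  · refine integral_congr_ae (Filter.Eventually.of_forall fun x => ?_)
    exact sub_mul _ _ _
  · exact integrableOn_box (h.cont.mul (ch_continuous _))
  · exact integrableOn_box (h'.cont.mul (ch_continuous _))

theorem fc_sum {ι : Type*} (s : Finset ι) {H : ι → V d → ℂ} (h : ∀ i ∈ s, SP (H i))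
    (k : Fin d → ℤ) : fc (fun x => ∑ i ∈ s, H i x) k = ∑ i ∈ s, fc (H i) k := by
  unfold fc
  rw [← integral_finsetSum]
  · refine integral_congr_ae (Filter.Eventually.of_forall fun x => ?_)
    exact Finset.sum_mul _ _ _
  · intro i hi
    exact integrableOn_box ((h i hi).cont.mul (ch_continuous _))

theorem fc_smul {F : V d → ℂ} (c : ℂ) (k : Fin d → ℤ) :
    fc (fun x => c * F x) k = c * fc F k := by
  unfold fc
  rw [← integral_const_mul]
  refine integral_congr_ae (Filter.Eventually.of_forall fun x => ?_)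
  exact mul_assoc _ _ _

theorem fc_const (c : ℂ) (k : Fin d → ℤ) :
    fc (fun _ : V d => c) k = if k = 0 then c else 0 := by
  unfold fc
  rw [integral_const_mul, integral_ch]
  by_cases hk : k = 0
  · rw [if_pos hk, if_pos (neg_eq_zero.2 hk), mul_one]
  · rw [if_neg hk, if_neg (fun h => hk (neg_eq_zero.1 h)), mul_zero]

theorem norm_fc_le {F : V d → ℂ} {C : ℝ} (h : ∀ x, ‖F x‖ ≤ C) (k : Fin d → ℤ) :
    ‖fc F k‖ ≤ C := by
  unfold fc
  have hvt : volume (box d) < ⊤ := by
    rw [volume_box]
    exact ENNReal.one_lt_top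
  have h1 := norm_setIntegral_le_of_norm_le_const (f := fun x => F x * ch (-k) x) (C := C) hvt
    (fun x _ => by rw [norm_mul, norm_ch, mul_one]; exact h x)
  rw [measureReal_def, volume_box] at h1
  simpa using h1

end LRA
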