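import Pool.Agent.LRA.FSum
import Pool.Agent.LRA.FDer

/-!
# LRA / FSyn: functions with given rapidly decreasing Fourier coefficients
-/

set_option autoImplicit false

noncomputable section

open scoped BigOperators
open MeasureTheory

namespace LRA

variable {d : ℕ}

private theorem fsyn_nrm {c : (Fin d → ℤ) → ℂ} (h : RD c) (x : V d) :
    Summable fun k => ‖c k * ch k x‖ := by
  refine h.summable_norm.congr fun k => ?_
  rw [norm_mul, norm_ch, mul_one]

theorem syn_hasSum {c : (Fin d → ℤ) → ℂ} (h : RD c) (x : V d) :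
    HasSum (fun k => c k * ch k x) (syn c x) :=
  (fsyn_nrm h x).of_norm.hasSum

/-- the phase of a character -/
private def fsyn_th (k : Fin d → ℤ) : V d →L[ℝ] ℝ :=
  (2 * Real.pi) • ∑ l, (k l : ℝ) • (ContinuousLinearMap.proj l : (Fin d → ℝ) →L[ℝ] ℝ)

private theorem fsyn_th_apply (k : Fin d → ℤ) (x : V d) :
    fsyn_th k x = 2 * Real.pi * ∑ l, (k l : ℝ) * x l := by
  unfold fsyn_th
  rw [_root_.smul_apply, _root_.sum_apply, smul_eq_mul]
  rfl

private theorem fsyn_th_norm (k : Fin d → ℤ) : ‖fsyn_th k‖ ≤ 2 * Real.pi * (1 + sz k) := by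
  have hpi := Real.pi_pos
  have hsz := sz_nonneg k
  have h0 : (0 : ℝ) ≤ 2 * Real.pi * (1 + sz k) := by positivity
  have h00 : (0 : ℝ) ≤ 2 * Real.pi := by positivity
  refine ContinuousLinearMap.opNorm_le_bound _ h0 fun x => ?_
  rw [fsyn_th_apply, norm_mul, Real.norm_of_nonneg h00, mul_assoc (2 * Real.pi) (1 + sz k)]
  refine mul_le_mul_of_nonneg_left ?_ h00
  have h1 : ‖∑ l, (k l : ℝ) * x l‖ ≤ ∑ l, |(k l : ℝ)| * ‖x‖ := by
    refine (norm_sum_le _ _).trans (Finset.sum_le_sum fun l _ => ?_)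
    rw [norm_mul, Real.norm_eq_abs]
    exact mul_le_mul_of_nonneg_left (norm_le_pi_norm x l) (abs_nonneg _)
  refine h1.trans ?_
  rw [← Finset.sum_mul]
  refine mul_le_mul_of_nonneg_right ?_ (norm_nonneg _)
  show sz k ≤ 1 + sz k
  linarith

private theorem fsyn_it (s : ℕ) : iteratedDeriv s (fun t : ℝ => Complex.exp ((t : ℂ) * Complex.I)) =
    fun t : ℝ => Complex.I ^ s * Complex.exp ((t : ℂ) * Complex.I) := by
  induction s with
  | zero => simp
  | succ s ih =>
    rw [iteratedDeriv_succ, ih]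
    funext t
    have h1 : HasDerivAt (fun t : ℝ => Complex.exp ((t : ℂ) * Complex.I))
        (Complex.exp ((t : ℂ) * Complex.I) * (1 * Complex.I)) t :=
      (((hasDerivAt_id t).ofReal_comp).mul_const Complex.I).cexp
    have h2 := (h1.const_mul (Complex.I ^ s)).deriv
    rw [h2, pow_succ]
    ring

private theorem fsyn_ch (k : Fin d → ℤ) :
    ch k = (fun t : ℝ => Complex.exp ((t : ℂ) * Complex.I)) ∘ fsyn_th k := by
  funext x
  show ch k x = Complex.exp (((fsyn_th k x : ℝ) : ℂ) * Complex.I)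
  rw [fsyn_th_apply]
  unfold ch
  congr 1
  push_cast
  ring

private theorem fsyn_bd (k : Fin d → ℤ) (s : ℕ) (x : V d) :
    ‖iteratedFDeriv ℝ s (ch k) x‖ ≤ (2 * Real.pi) ^ s * (1 + sz k) ^ s := by
  have hc : ContDiff ℝ s (fun t : ℝ => Complex.exp ((t : ℂ) * Complex.I)) :=
    (Complex.ofRealCLM.contDiff.mul contDiff_const).cexp
  rw [fsyn_ch, ContinuousLinearMap.iteratedFDeriv_comp_right (fsyn_th k) hc x le_rfl]
  refine (ContinuousMultilinearMap.norm_compContinuousLinearMap_le _ _).trans ?_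
  rw [norm_iteratedFDeriv_eq_norm_iteratedDeriv, fsyn_it, norm_mul, norm_pow, Complex.norm_I,
    one_pow, one_mul, Complex.norm_exp_ofReal_mul_I, one_mul, Finset.prod_const, Finset.card_univ,
    Fintype.card_fin, ← mul_pow]
  exact pow_le_pow_left₀ (norm_nonneg _) (fsyn_th_norm k) s

theorem syn_sp {c : (Fin d → ℤ) → ℂ} (h : RD c) : SP (syn c) := by
  constructor
  · unfold syn
    refine contDiff_tsum (v := fun s k => (2 * Real.pi) ^ s * ((1 + sz k) ^ s * ‖c k‖))
      (fun k => (contDiff_const.mul (ch_contDiff k))) (fun s _ => (h.summable_pow s).mul_left _)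
      fun s k x _ => ?_
    have h1 : (fun y => c k * ch k y) = c k • ch k := rfl
    rw [h1, iteratedFDeriv_const_smul_apply (((ch_contDiff k).of_le (by exact_mod_cast le_top)).contDiffAt), norm_smul]
    calc ‖c k‖ * ‖iteratedFDeriv ℝ s (ch k) x‖ ≤ ‖c k‖ * ((2 * Real.pi) ^ s * (1 + sz k) ^ s) :=
          mul_le_mul_of_nonneg_left (fsyn_bd k s x) (norm_nonneg _)
      _ = (2 * Real.pi) ^ s * ((1 + sz k) ^ s * ‖c k‖) := by ring
  · intro x m
    unfold syn
    refine tsum_congr fun k => ?_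
    rw [ch_per k x m]

theorem fc_syn {c : (Fin d → ℤ) → ℂ} (h : RD c) (k : Fin d → ℤ) : fc (syn c) k = c k := by
  have hF : ∀ l : Fin d → ℤ, ∀ x : V d, c l * ch l x * ch (-k) x = c l * ch (l - k) x := by
    intro l x
    rw [sub_eq_add_neg, ch_add, mul_assoc]
  have hi : ∀ l : Fin d → ℤ, Integrable (fun x : V d => c l * ch l x * ch (-k) x)
      (volume.restrict (box d)) := fun l =>
    integrableOn_box ((continuous_const.mul (ch_continuous l)).mul (ch_continuous (-k)))
  have hn : ∀ l : Fin d → ℤ, ∫ x in box d, ‖c l * ch l x * ch (-k) x‖ = ‖c l‖ := by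
    intro l
    have h1 : ∀ x : V d, ‖c l * ch l x * ch (-k) x‖ = ‖c l‖ := by
      intro x
      rw [norm_mul, norm_mul, norm_ch, norm_ch, mul_one, mul_one]
    simp only [h1]
    rw [setIntegral_const, measureReal_def, volume_box]
    simp
  have key := hasSum_integral_of_summable_integral_norm hi (by
    simp only [hn]
    exact h.summable_norm)
  have h2 : ∀ x : V d, ∑' l, c l * ch l x * ch (-k) x = syn c x * ch (-k) x := by
    intro x
    rw [tsum_mul_right]
    rfl
  have h3 : ∀ l : Fin d → ℤ, ∫ x in box d, c l * ch l x * ch (-k) x = if l = k then c k else 0 := by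
    intro l
    simp only [hF]
    rw [integral_const_mul, integral_ch]
    by_cases hl : l = k
    · rw [if_pos hl, hl, sub_self, if_pos rfl, mul_one]
    · rw [if_neg hl, if_neg (fun h5 => hl (sub_eq_zero.1 h5)), mul_zero]
  simp only [h2, h3] at key
  have h4 := key.unique (hasSum_ite_eq k (c k))
  exact h4

end LRA
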