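import Pool.Agent.LRA.FRd
import Pool.Agent.LRA.FSum
import Pool.Agent.LRA.FLift
import Pool.Agent.LRA.FSyn

/-!
# LRA / FTools: consequences of the Fourier modules

Inversion, coefficients of a product (interchange of sum and integral), Parseval for finite families.
-/

set_option autoImplicit false

noncomputable section

open scoped BigOperators
open MeasureTheory

namespace LRA

variable {d : ℕ}

theorem SP.hasSum {F : V d → ℂ} (h : SP F) (x : V d) :
    HasSum (fun k => fc F k * ch k x) (F x) := by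
  exact inversion h.cont h.2 (RD.summable_norm (SP.rd h)) x

theorem SP.ext_fc {F G : V d → ℂ} (h : SP F) (h' : SP G) (hc : ∀ k, fc F k = fc G k) (x : V d) :
    F x = G x := by
  have h1 := h.hasSum x
  have h2 := h'.hasSum x
  have h3 : (fun k => fc F k * ch k x) = fun k => fc G k * ch k x := by
    funext k
    rw [hc k]
  rw [h3] at h1
  exact h1.unique h2

theorem SP.eq_syn {F : V d → ℂ} (h : SP F) (x : V d) : F x = syn (fc F) x := by
  exact (h.hasSum x).tsum_eq.symm

/-- the coefficients of a product -/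
theorem fc_mul {F G : V d → ℂ} (h : SP F) (h' : SP G) (k : Fin d → ℤ) :
    fc (fun x => F x * G x) k = ∑' l, fc F (k - l) * fc G l := by
  have hint : ∀ l : Fin d → ℤ, Integrable (fun x => fc G l * (F x * ch (-(k - l)) x))
      (volume.restrict (box d)) := fun l =>
    integrableOn_box (continuous_const.mul (h.cont.mul (ch_continuous _)))
  have hnorm : ∀ l : Fin d → ℤ, ∫ x in box d, ‖fc G l * (F x * ch (-(k - l)) x)‖ =
      ‖fc G l‖ * ∫ x in box d, ‖F x‖ := by
    intro l
    rw [← integral_const_mul]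
    refine integral_congr_ae (Filter.Eventually.of_forall fun x => ?_)
    show ‖fc G l * (F x * ch (-(k - l)) x)‖ = ‖fc G l‖ * ‖F x‖
    rw [norm_mul, norm_mul, norm_ch, mul_one]
  have hsum : Summable fun l : Fin d → ℤ => ∫ x in box d, ‖fc G l * (F x * ch (-(k - l)) x)‖ := by
    rw [show (fun l : Fin d → ℤ => ∫ x in box d, ‖fc G l * (F x * ch (-(k - l)) x)‖) =
      fun l => ‖fc G l‖ * ∫ x in box d, ‖F x‖ from funext hnorm]
    exact (RD.summable_norm (SP.rd h')).mul_right _
  have h1 := hasSum_integral_of_summable_integral_norm hint hsum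
  have h2 : ∀ x : V d, ∑' l : Fin d → ℤ, fc G l * (F x * ch (-(k - l)) x) =
      F x * G x * ch (-k) x := by
    intro x
    have h3 := (h'.hasSum x).mul_left (F x * ch (-k) x)
    have h4 : (fun l : Fin d → ℤ => F x * ch (-k) x * (fc G l * ch l x)) =
        fun l => fc G l * (F x * ch (-(k - l)) x) := by
      funext l
      have h5 : -(k - l) = -k + l := by abel
      rw [h5, ch_add]
      ring
    rw [h4] at h3
    rw [h3.tsum_eq]
    ring
  have h6 : ∫ x in box d, ∑' l : Fin d → ℤ, fc G l * (F x * ch (-(k - l)) x) =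
      fc (fun x => F x * G x) k := by
    unfold fc
    exact integral_congr_ae (Filter.Eventually.of_forall h2)
  rw [h6] at h1
  rw [← h1.tsum_eq]
  refine tsum_congr fun l => ?_
  rw [integral_const_mul, mul_comm]
  rfl

/-- a function whose nonzero coefficients vanish is constant -/
theorem const_of_fc {F : V d → ℂ} (h : SP F) (hc : ∀ k, k ≠ 0 → fc F k = 0) (x : V d) :
    F x = F 0 := by
  have h1 : ∀ y, F y = fc F 0 := by
    intro y
    have h2 : HasSum (fun k => fc F k * ch k y) (fc F 0 * ch 0 y) := by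
      refine hasSum_single 0 fun k hk => ?_
      rw [hc k hk, zero_mul]
    rw [ch_zero, mul_one] at h2
    exact (h.hasSum y).unique h2
  rw [h1 x, h1 0]

private theorem ftools_int {ι : Type*} [Fintype ι] {H : ι → V d → ℂ} (h : ∀ i, SP (H i)) :
    IntegrableOn (fun x => ∑ i, ‖H i x‖ ^ 2) (box d) :=
  integrableOn_box (continuous_finsetSum _ fun i _ => (h i).cont.norm.pow 2)

/-- Parseval for a finite family -/
theorem energy {ι : Type*} [Fintype ι] {H : ι → V d → ℂ} (h : ∀ i, SP (H i)) :
    HasSum (fun k => ∑ i, ‖fc (H i) k‖ ^ 2) (∫ x in box d, ∑ i, ‖H i x‖ ^ 2) := by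
  have h1 : ∀ i ∈ (Finset.univ : Finset ι), Integrable (fun x => ‖H i x‖ ^ 2)
      (volume.restrict (box d)) := fun i _ => integrableOn_box ((h i).cont.norm.pow 2)
  rw [integral_finsetSum _ h1]
  exact hasSum_sum fun i _ => parseval (h i).cont (h i).2

/-- comparison of energies from a pointwise comparison -/
theorem energy_mono {ι κ : Type*} [Fintype ι] [Fintype κ] {H : ι → V d → ℂ} {G : κ → V d → ℂ}
    (h : ∀ i, SP (H i)) (h' : ∀ i, SP (G i)) (c : ℝ)
    (hle : ∀ x, ∑ i, ‖H i x‖ ^ 2 ≤ c * ∑ i, ‖G i x‖ ^ 2) :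
    ∑' k, ∑ i, ‖fc (H i) k‖ ^ 2 ≤ c * ∑' k, ∑ i, ‖fc (G i) k‖ ^ 2 := by
  rw [(energy h).tsum_eq, (energy h').tsum_eq, ← integral_const_mul]
  exact integral_mono (ftools_int h) ((ftools_int h').const_mul c) hle

end LRA
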