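import Pool.Agent.LRA.ExD
import Pool.Agent.LRA.FTools

/-!
# LRA / ExM: multiplication by `μ` on the space of rapidly decreasing sequences

Bounds for the multiplication operator `Mop` and the projection `Pop`.
-/

set_option autoImplicit false

noncomputable section

open scoped BigOperators ComplexConjugate
open MeasureTheory

namespace LRA

variable {n d : ℕ} {w : Fin n → Fin d → ℂ} {μ : Fin n → Fin n → V d → ℂ} {θ : ℝ}

private def exmL (w : Fin n → Fin d → ℂ) : V d →ₗ[ℝ] (Fin n → ℂ) where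
  toFun x j := lf (w j) x
  map_add' x y := by
    funext j
    simp only [lf, Pi.add_apply, Complex.ofReal_add, mul_add, Finset.sum_add_distrib]
  map_smul' c x := by
    funext j
    simp only [lf, Pi.smul_apply, smul_eq_mul, Complex.ofReal_mul, RingHom.id_apply,
      Complex.real_smul, Finset.mul_sum]
    refine Finset.sum_congr rfl fun l _ => ?_
    ring

private theorem exm_norm {k : Fin d → ℤ} (hk : k ≠ 0) : 1 ≤ ‖zc k‖ := by
  obtain ⟨i, hi⟩ : ∃ i, k i ≠ 0 := by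
    by_contra h
    push Not at h
    exact hk (funext h)
  refine le_trans ?_ (norm_le_pi_norm (zc k) i)
  rw [Real.norm_eq_abs]
  show (1 : ℝ) ≤ |(k i : ℝ)|
  have h1 : (1 : ℤ) ≤ |k i| := Int.one_le_abs hi
  exact_mod_cast h1

theorem Mop_rd (hμ : ∀ j k, SP (μ j k)) {q : Fin n → (Fin d → ℤ) → ℂ} (hq : ∀ i, RD (q i))
    (j : Fin n) : RD (Mop μ q j) := by
  exact RD.sum Finset.univ (a := fun i k => ∑' l, fc (μ j i) (k - l) * q i l)
    fun i _ => RD.conv (hμ j i).rd (hq i)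

theorem Mop_eq (hμ : ∀ j k, SP (μ j k)) {q : Fin n → (Fin d → ℤ) → ℂ} (hq : ∀ i, RD (q i))
    (j : Fin n) (k : Fin d → ℤ) :
    Mop μ q j k = fc (fun x => ∑ i, μ j i x * syn (q i) x) k := by
  rw [fc_sum Finset.univ (H := fun i x => μ j i x * syn (q i) x)
    (fun i _ => (hμ j i).mul (syn_sp (hq i)))]
  unfold Mop
  refine Finset.sum_congr rfl fun i _ => ?_
  rw [fc_mul (hμ j i) (syn_sp (hq i))]
  refine tsum_congr fun l => ?_
  rw [fc_syn (hq i)]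

theorem Mop_le (hb : BD w μ θ) {q : Fin n → (Fin d → ℤ) → ℂ} (hq : ∀ i, RD (q i)) :
    ∑' k, ∑ j, ‖Mop μ q j k‖ ^ 2 ≤ θ ^ 2 * ∑' k, ∑ j, ‖q j k‖ ^ 2 := by
  have h := energy_mono (H := fun j x => ∑ i, μ j i x * syn (q i) x) (G := fun i => syn (q i))
    (fun j => SP.sum Finset.univ fun i _ => (hb.sp j i).mul (syn_sp (hq i)))
    (fun i => syn_sp (hq i)) (θ ^ 2) (fun x => hb.bd x fun i => syn (q i) x)
  have h1 : ∀ k, ∑ j, ‖Mop μ q j k‖ ^ 2 =
      ∑ j, ‖fc (fun x => ∑ i, μ j i x * syn (q i) x) k‖ ^ 2 := by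
    intro k
    exact Finset.sum_congr rfl fun j _ => by rw [Mop_eq hb.sp hq]
  have h2 : ∀ k, ∑ i, ‖q i k‖ ^ 2 = ∑ i, ‖fc (syn (q i)) k‖ ^ 2 := by
    intro k
    exact Finset.sum_congr rfl fun j _ => by rw [fc_syn (hq j)]
  rw [tsum_congr h1, tsum_congr h2]
  exact h

theorem Pop_le (w : Fin n → Fin d → ℂ) (v : Fin n → (Fin d → ℤ) → ℂ) (k : Fin d → ℤ) :
    ∑ i, ‖Pop w v i k‖ ^ 2 ≤ ∑ i, ‖v i k‖ ^ 2 := by
  set s : ℝ := ∑ j, ‖pr k (w j)‖ ^ 2 with hs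
  set T : ℂ := ∑ j, conj (pr k (w j)) * v j k with hT
  have hs0 : 0 ≤ s := Finset.sum_nonneg fun j _ => by positivity
  have hP : ∀ i, ‖Pop w v i k‖ ^ 2 = ‖pr k (w i)‖ ^ 2 * (‖T‖ ^ 2 / s ^ 2) := by
    intro i
    have h1 : Pop w v i k = conj (pr k (w i)) * T / (s : ℂ) := rfl
    rw [h1, norm_div, norm_mul, RCLike.norm_conj, Complex.norm_real, Real.norm_eq_abs,
      abs_of_nonneg hs0, div_pow, mul_pow, mul_div_assoc]
  rw [Finset.sum_congr rfl fun i _ => hP i, ← Finset.sum_mul, ← hs]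
  have hv0 : 0 ≤ ∑ i, ‖v i k‖ ^ 2 := Finset.sum_nonneg fun j _ => by positivity
  rcases eq_or_lt_of_le hs0 with h0 | h0
  · rw [← h0, zero_mul]
    exact hv0
  · have hT1 : ‖T‖ ≤ ∑ j, ‖pr k (w j)‖ * ‖v j k‖ := by
      refine (norm_sum_le _ _).trans (le_of_eq ?_)
      exact Finset.sum_congr rfl fun j _ => by rw [norm_mul, RCLike.norm_conj]
    have hT2 : ‖T‖ ^ 2 ≤ s * ∑ i, ‖v i k‖ ^ 2 :=
      (pow_le_pow_left₀ (norm_nonneg _) hT1 2).trans (Finset.sum_mul_sq_le_sq_mul_sq _ _ _)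
    have h1 : s * (‖T‖ ^ 2 / s ^ 2) = ‖T‖ ^ 2 / s := by
      field_simp
    rw [h1, div_le_iff₀ h0, mul_comm]
    exact hT2

theorem Pop_rd (w : Fin n → Fin d → ℂ) {v : Fin n → (Fin d → ℤ) → ℂ} (hv : ∀ i, RD (v i))
    (i : Fin n) : RD (Pop w v i) := by
  intro s
  choose C hC using fun j => hv j s
  refine ⟨∑ j, C j, fun k => ?_⟩
  have h1 : ‖Pop w v i k‖ ^ 2 ≤ (∑ j, ‖v j k‖) ^ 2 := by
    refine le_trans ?_ ((Pop_le w v k).trans ?_)
    · exact Finset.single_le_sum (f := fun i => ‖Pop w v i k‖ ^ 2)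
        (fun j _ => by positivity) (Finset.mem_univ i)
    · rw [sq, Finset.sum_mul]
      refine Finset.sum_le_sum fun j hj => ?_
      rw [sq]
      refine mul_le_mul_of_nonneg_left ?_ (norm_nonneg _)
      exact Finset.single_le_sum (f := fun i => ‖v i k‖) (fun j _ => norm_nonneg _) hj
  have h2 : ‖Pop w v i k‖ ≤ ∑ j, ‖v j k‖ :=
    (sq_le_sq₀ (norm_nonneg _) (Finset.sum_nonneg fun j _ => norm_nonneg _)).1 h1
  have h3 : 0 ≤ (1 + sz k) ^ s := pow_nonneg (by linarith [sz_nonneg k]) s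
  calc (1 + sz k) ^ s * ‖Pop w v i k‖ ≤ (1 + sz k) ^ s * ∑ j, ‖v j k‖ :=
        mul_le_mul_of_nonneg_left h2 h3
    _ = ∑ j, (1 + sz k) ^ s * ‖v j k‖ := Finset.mul_sum _ _ _
    _ ≤ ∑ j, C j := Finset.sum_le_sum fun j _ => hC j k

theorem BD.lower (hb : BD w μ θ) :
    ∃ c : ℝ, 0 < c ∧ ∀ k : Fin d → ℤ, k ≠ 0 → c ≤ ∑ j, ‖pr k (w j)‖ ^ 2 := by
  have hker : LinearMap.ker (exmL w) = ⊥ := by
    rw [LinearMap.ker_eq_bot']
    intro x hx
    exact hb.nd x fun j => congrFun hx j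
  obtain ⟨K, hK, hL⟩ := (exmL w).exists_antilipschitzWith hker
  have hK' : (0 : ℝ) < K := by exact_mod_cast hK
  refine ⟨((K : ℝ) ^ 2)⁻¹, by positivity, fun k hk => ?_⟩
  set s : ℝ := ∑ j, ‖pr k (w j)‖ ^ 2 with hs
  have hs0 : 0 ≤ s := Finset.sum_nonneg fun j _ => by positivity
  have h1 : ‖zc k‖ ≤ K * ‖exmL w (zc k)‖ := by
    have h2 := hL.le_mul_dist (zc k) 0
    rw [map_zero, dist_zero_right, dist_zero_right] at h2
    exact h2
  have h2 : ‖exmL w (zc k)‖ ≤ Real.sqrt s := by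
    rw [pi_norm_le_iff_of_nonneg (Real.sqrt_nonneg _)]
    intro j
    refine Real.le_sqrt_of_sq_le ?_
    have h3 : exmL w (zc k) j = pr k (w j) := (pr_eq_lf k (w j)).symm
    rw [h3]
    exact Finset.single_le_sum (f := fun j => ‖pr k (w j)‖ ^ 2)
      (fun j _ => by positivity) (Finset.mem_univ j)
  have h3 : 1 ≤ K * Real.sqrt s :=
    (exm_norm hk).trans (h1.trans (mul_le_mul_of_nonneg_left h2 hK'.le))
  have h4 : 1 ≤ (K : ℝ) ^ 2 * s := by
    have h5 : (1 : ℝ) ^ 2 ≤ (K * Real.sqrt s) ^ 2 := pow_le_pow_left₀ zero_le_one h3 2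
    rw [mul_pow, Real.sq_sqrt hs0, one_pow] at h5
    exact h5
  rw [inv_le_iff_one_le_mul₀ (by positivity), mul_comm]
  exact h4

end LRA
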