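import Pool.Agent.LRA.FTools
import Pool.Agent.LRA.ExM

/-!
# LRA / Cst: functions in the gauge, compatible with the structure, are constant

PLAN.  Put `a_j(k) = pr k (w j)`, `Γ̂_j(k) = fc (Γ j) k`.
1. `D_{ij} = dw (w i) (Γ j) - dw (w j) (Γ i)` has coefficients `2 π i (a_i Γ̂_j - a_j Γ̂_i)` (`fc_dw`, `fc_sub`)
   and `dw (star (w k)) (Γ j)` has coefficients `2 π i conj(a_k) Γ̂_j` (`pr_star`).
2. Lagrange: `∑_{i,j} |a_i b_j - a_j b_i|^2 = 2 (|a|^2 |b|^2 - |∑ conj(a_i) b_i|^2)` (expand; or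
   `Complex.normSq`), so by `hg`: `∑_{ij} ‖fc D_{ij} k‖^2 = 2 · 4 π² |a(k)|^2 |Γ̂(k)|^2`, while
   `∑_{k',j} ‖fc (dw (star (w k')) (Γ j)) k‖^2 = 4 π² |a(k)|^2 |Γ̂(k)|^2 =: e(k)`.
3. By `hc`: `D_{ij} = - ∑_k μ_ik dw (star (w k)) (Γ j) + ∑_k μ_jk dw (star (w k)) (Γ i)`, so pointwise
   `∑_{ij} ‖D_{ij}‖^2 ≤ 2 ∑_{ij} (‖(μ ∂̄Γ_j)_i‖^2 + ‖(μ ∂̄Γ_i)_j‖^2) = 4 ∑_j ∑_i ‖(μ ∂̄Γ_j)_i‖^2
     ≤ 4 θ^2 ∑_j ∑_k ‖dw (star (w k)) (Γ j)‖^2` (`BD.bd`).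
4. `energy_mono` (index types `Fin n × Fin n`): `2 ∑' e ≤ 4 θ^2 ∑' e`, so `∑' e = 0` as `2 θ^2 < 1`, hence
   `e(k) = 0` for all `k` (summable nonnegative: `energy`), and for `k ≠ 0`, `|a(k)|^2 > 0` (`BD.lower`), so
   `Γ̂_j(k) = 0`.  `const_of_fc`.
-/

set_option autoImplicit false

noncomputable section

open scoped BigOperators ComplexConjugate ContDiff
open MeasureTheory

namespace LRA

variable {n d : ℕ} {w : Fin n → Fin d → ℂ} {μ : Fin n → Fin n → V d → ℂ} {θ : ℝ}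

private theorem lagr (a b : Fin n → ℂ) (h : ∑ j, conj (a j) * b j = 0) :
    ∑ p : Fin n × Fin n, ‖a p.1 * b p.2 - a p.2 * b p.1‖ ^ 2 =
      2 * ((∑ i, ‖a i‖ ^ 2) * ∑ j, ‖b j‖ ^ 2) := by
  have h1 : ∀ i j, ‖a i * b j - a j * b i‖ ^ 2 = ‖a i‖ ^ 2 * ‖b j‖ ^ 2 + ‖b i‖ ^ 2 * ‖a j‖ ^ 2 -
      2 * ((a i * conj (b i)) * (conj (a j) * b j)).re := by
    intro i j
    rw [Complex.sq_norm, Complex.normSq_sub, ← Complex.sq_norm, ← Complex.sq_norm, norm_mul,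
      norm_mul, mul_pow, mul_pow, map_mul]
    have h2 : a i * b j * (conj (a j) * conj (b i)) = (a i * conj (b i)) * (conj (a j) * b j) := by
      ring
    rw [h2]
    ring
  rw [Fintype.sum_prod_type]
  simp only [h1]
  have h3 : ∑ i, ∑ j, (‖a i‖ ^ 2 * ‖b j‖ ^ 2 + ‖b i‖ ^ 2 * ‖a j‖ ^ 2 -
      2 * ((a i * conj (b i)) * (conj (a j) * b j)).re) =
      ∑ i, ∑ j, ‖a i‖ ^ 2 * ‖b j‖ ^ 2 + ∑ i, ∑ j, ‖b i‖ ^ 2 * ‖a j‖ ^ 2 -
      2 * (∑ i, ∑ j, (a i * conj (b i)) * (conj (a j) * b j)).re := by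
    rw [Complex.re_sum, Finset.mul_sum, ← Finset.sum_add_distrib, ← Finset.sum_sub_distrib]
    refine Finset.sum_congr rfl fun i _ => ?_
    rw [Complex.re_sum, Finset.mul_sum, ← Finset.sum_add_distrib, ← Finset.sum_sub_distrib]
  rw [h3, ← Finset.sum_mul_sum, ← Finset.sum_mul_sum, ← Finset.sum_mul_sum, h, mul_zero,
    Complex.zero_re]
  ring

theorem cst (hb : BD w μ θ) (hθ : 2 * θ ^ 2 < 1) {Γ : Fin n → V d → ℂ} (hΓ : ∀ j, SP (Γ j))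
    (hg : ∀ k : Fin d → ℤ, ∑ j, conj (pr k (w j)) * fc (Γ j) k = 0)
    (hc : ∀ i j x, Lj w μ i (Γ j) x = Lj w μ j (Γ i) x) (j : Fin n) (x : V d) :
    Γ j x = Γ j 0 := by
  have hH : ∀ p : Fin n × Fin n, SP (fun y => dw (w p.1) (Γ p.2) y - dw (w p.2) (Γ p.1) y) :=
    fun p => ((hΓ p.2).dw (w p.1)).sub ((hΓ p.1).dw (w p.2))
  have hG : ∀ p : Fin n × Fin n, SP (dw (star (w p.1)) (Γ p.2)) :=
    fun p => (hΓ p.2).dw (star (w p.1))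
  have hmono := energy_mono (H := fun (p : Fin n × Fin n) y => dw (w p.1) (Γ p.2) y -
      dw (w p.2) (Γ p.1) y) (G := fun p : Fin n × Fin n => dw (star (w p.1)) (Γ p.2)) hH hG
    (4 * θ ^ 2) (by
      intro y
      have h1 : ∀ i j, ‖dw (w i) (Γ j) y - dw (w j) (Γ i) y‖ ^ 2 ≤
          2 * ‖∑ k, μ i k y * dw (star (w k)) (Γ j) y‖ ^ 2 +
          2 * ‖∑ k, μ j k y * dw (star (w k)) (Γ i) y‖ ^ 2 := by
        intro i j
        have h2 := hc i j y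
        unfold Lj at h2
        have h3 : dw (w i) (Γ j) y - dw (w j) (Γ i) y =
            ∑ k, μ j k y * dw (star (w k)) (Γ i) y - ∑ k, μ i k y * dw (star (w k)) (Γ j) y := by
          linear_combination h2
        rw [h3]
        have h4 := norm_sub_le (∑ k, μ j k y * dw (star (w k)) (Γ i) y)
          (∑ k, μ i k y * dw (star (w k)) (Γ j) y)
        have h5 := norm_nonneg (∑ k, μ j k y * dw (star (w k)) (Γ i) y -
          ∑ k, μ i k y * dw (star (w k)) (Γ j) y)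
        generalize ‖∑ k, μ j k y * dw (star (w k)) (Γ i) y‖ = s at h4 ⊢
        generalize ‖∑ k, μ i k y * dw (star (w k)) (Γ j) y‖ = t at h4 ⊢
        nlinarith [sq_nonneg (s - t)]
      rw [Fintype.sum_prod_type, Fintype.sum_prod_type]
      have h6 : ∑ i, ∑ j, ‖dw (w i) (Γ j) y - dw (w j) (Γ i) y‖ ^ 2 ≤
          ∑ i, ∑ j, (2 * ‖∑ k, μ i k y * dw (star (w k)) (Γ j) y‖ ^ 2 +
            2 * ‖∑ k, μ j k y * dw (star (w k)) (Γ i) y‖ ^ 2) :=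
        Finset.sum_le_sum fun i _ => Finset.sum_le_sum fun j _ => h1 i j
      refine h6.trans ?_
      have h7 : ∑ i, ∑ j, (2 * ‖∑ k, μ i k y * dw (star (w k)) (Γ j) y‖ ^ 2 +
            2 * ‖∑ k, μ j k y * dw (star (w k)) (Γ i) y‖ ^ 2) =
          4 * ∑ j, ∑ i, ‖∑ k, μ i k y * dw (star (w k)) (Γ j) y‖ ^ 2 := by
        simp only [Finset.sum_add_distrib, ← Finset.mul_sum]
        rw [Finset.sum_comm (f := fun i j => ‖∑ k, μ i k y * dw (star (w k)) (Γ j) y‖ ^ 2)]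
        ring
      rw [h7]
      have h8 : ∑ i, ∑ j, ‖dw (star (w i)) (Γ j) y‖ ^ 2 =
          ∑ j, ∑ i, ‖dw (star (w i)) (Γ j) y‖ ^ 2 := Finset.sum_comm
      have h9 : 4 * θ ^ 2 * ∑ i, ∑ j, ‖dw (star (w i)) (Γ j) y‖ ^ 2 =
          4 * ∑ j, θ ^ 2 * ∑ i, ‖dw (star (w i)) (Γ j) y‖ ^ 2 := by
        rw [h8, ← Finset.mul_sum]
        ring
      rw [h9]
      exact mul_le_mul_of_nonneg_left (Finset.sum_le_sum fun j _ =>
        hb.bd y fun k => dw (star (w k)) (Γ j) y) (by norm_num))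
  have hEk : ∀ k : Fin d → ℤ, ∑ p : Fin n × Fin n, ‖fc (dw (star (w p.1)) (Γ p.2)) k‖ ^ 2 =
      4 * Real.pi ^ 2 * ((∑ i, ‖pr k (w i)‖ ^ 2) * ∑ j, ‖fc (Γ j) k‖ ^ 2) := by
    intro k
    rw [Fintype.sum_prod_type, Finset.sum_mul_sum, Finset.mul_sum]
    refine Finset.sum_congr rfl fun i _ => ?_
    rw [Finset.mul_sum]
    refine Finset.sum_congr rfl fun j _ => ?_
    rw [fc_dw (hΓ j), pr_star, norm_mul, norm_mul, norm_mul, norm_mul, RCLike.norm_conj,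
      Complex.norm_I, Complex.norm_real, Real.norm_of_nonneg Real.pi_pos.le, Complex.norm_ofNat]
    ring
  have hDk : ∀ k : Fin d → ℤ, ∑ p : Fin n × Fin n,
      ‖fc (fun y => dw (w p.1) (Γ p.2) y - dw (w p.2) (Γ p.1) y) k‖ ^ 2 =
      2 * ∑ p : Fin n × Fin n, ‖fc (dw (star (w p.1)) (Γ p.2)) k‖ ^ 2 := by
    intro k
    rw [hEk k]
    have h1 := lagr (fun i => pr k (w i)) (fun j => fc (Γ j) k) (hg k)
    have h2 : ∀ p : Fin n × Fin n,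
        ‖fc (fun y => dw (w p.1) (Γ p.2) y - dw (w p.2) (Γ p.1) y) k‖ ^ 2 =
        4 * Real.pi ^ 2 * ‖pr k (w p.1) * fc (Γ p.2) k - pr k (w p.2) * fc (Γ p.1) k‖ ^ 2 := by
      intro p
      rw [fc_sub ((hΓ p.2).dw (w p.1)) ((hΓ p.1).dw (w p.2)), fc_dw (hΓ p.2), fc_dw (hΓ p.1)]
      have h3 : 2 * (Real.pi : ℂ) * Complex.I * pr k (w p.1) * fc (Γ p.2) k -
          2 * (Real.pi : ℂ) * Complex.I * pr k (w p.2) * fc (Γ p.1) k =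
          2 * (Real.pi : ℂ) * Complex.I * (pr k (w p.1) * fc (Γ p.2) k -
            pr k (w p.2) * fc (Γ p.1) k) := by ring
      rw [h3, norm_mul, norm_mul, norm_mul,
        Complex.norm_I, Complex.norm_real, Real.norm_of_nonneg Real.pi_pos.le, Complex.norm_ofNat]
      ring
    rw [Finset.sum_congr rfl fun p _ => h2 p, ← Finset.mul_sum, h1]
    ring
  simp only [hDk] at hmono
  rw [tsum_mul_left] at hmono
  have hsum : Summable fun k => ∑ p : Fin n × Fin n, ‖fc (dw (star (w p.1)) (Γ p.2)) k‖ ^ 2 :=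
    (energy (H := fun p : Fin n × Fin n => dw (star (w p.1)) (Γ p.2)) hG).summable
  have hnn : ∀ k, 0 ≤ ∑ p : Fin n × Fin n, ‖fc (dw (star (w p.1)) (Γ p.2)) k‖ ^ 2 := fun k =>
    Finset.sum_nonneg fun p _ => by positivity
  have hT0 : 0 ≤ ∑' k, ∑ p : Fin n × Fin n, ‖fc (dw (star (w p.1)) (Γ p.2)) k‖ ^ 2 :=
    tsum_nonneg hnn
  have hT : ∑' k, ∑ p : Fin n × Fin n, ‖fc (dw (star (w p.1)) (Γ p.2)) k‖ ^ 2 = 0 := by
    nlinarith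
  obtain ⟨c, hc0, hlow⟩ := hb.lower
  refine const_of_fc (hΓ j) (fun k hk => ?_) x
  have h5 : ∑ p : Fin n × Fin n, ‖fc (dw (star (w p.1)) (Γ p.2)) k‖ ^ 2 ≤ 0 := by
    rw [← hT]
    exact hsum.le_tsum k fun k' _ => hnn k'
  rw [hEk k] at h5
  have h7 := hlow k hk
  have h8 : ‖fc (Γ j) k‖ ^ 2 ≤ ∑ j, ‖fc (Γ j) k‖ ^ 2 :=
    Finset.single_le_sum (f := fun j => ‖fc (Γ j) k‖ ^ 2) (fun i _ => by positivity)
      (Finset.mem_univ j)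
  have h9 : 0 ≤ ‖fc (Γ j) k‖ ^ 2 := by positivity
  by_contra hne
  have h10 : 0 < ‖fc (Γ j) k‖ ^ 2 := by
    have := norm_pos_iff.2 hne
    positivity
  have h11 : 0 < 4 * Real.pi ^ 2 * ((∑ i, ‖pr k (w i)‖ ^ 2) * ∑ j, ‖fc (Γ j) k‖ ^ 2) := by
    have h12 : 0 < ∑ i, ‖pr k (w i)‖ ^ 2 := lt_of_lt_of_le hc0 h7
    have h13 : 0 < ∑ j, ‖fc (Γ j) k‖ ^ 2 := lt_of_lt_of_le h10 h8
    positivity
  linarith

end LRA
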