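import Pool.Agent.LRA.Bas

/-!
# LRA / Cx: complexification of operators, and the eigenspaces of a constant complex structure

`cx T` is the complex linear map with the matrix of `T`.  The eigenspaces of `cx J₀` for `-i` and `i`
are complementary and exchanged by complex conjugation.
-/

set_option autoImplicit false

noncomputable section

open scoped BigOperators ComplexConjugate ContDiff
open MeasureTheory

namespace LRA

variable {n d : ℕ}

/-- the complexification of a real operator -/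
def cx (T : V d →L[ℝ] V d) : (Fin d → ℂ) →ₗ[ℂ] (Fin d → ℂ) :=
  Matrix.toLin' ((LinearMap.toMatrix' (T : V d →ₗ[ℝ] V d)).map (algebraMap ℝ ℂ))

/-- the vector field `w_j + ∑_k μ_{jk} conj w_k` -/
def Lv (w : Fin n → Fin d → ℂ) (μ : Fin n → Fin n → V d → ℂ) (x : V d) (j : Fin n) : Fin d → ℂ :=
  w j + ∑ k, μ j k x • star (w k)

/-- `w` is a basis of the `-i` eigenspace of `J₀`, and together with the conjugate vectors it is
a basis of `ℂ^d` -/
structure FrJ (J₀ : V d →L[ℝ] V d) (w : Fin n → Fin d → ℂ) : Prop where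
  sq : ∀ v, J₀ (J₀ v) = -v
  eig : ∀ j, cx J₀ (w j) = -Complex.I • w j
  bas : ∃ b : Module.Basis (Fin n ⊕ Fin n) ℂ (Fin d → ℂ),
    (∀ j, b (Sum.inl j) = w j) ∧ ∀ j, b (Sum.inr j) = star (w j)

theorem cx_apply (T : V d →L[ℝ] V d) (u : Fin d → ℂ) (i : Fin d) :
    cx T u i = ∑ l, ((T (Pi.single l 1) i : ℝ) : ℂ) * u l := by
  unfold cx
  rw [Matrix.toLin'_apply]
  unfold Matrix.mulVec dotProduct
  refine Finset.sum_congr rfl fun l _ => ?_
  show ((LinearMap.toMatrix' (T : V d →ₗ[ℝ] V d) i l : ℝ) : ℂ) * u l = _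
  rw [LinearMap.toMatrix'_apply]
  rfl

private theorem cx_expand (T : V d →L[ℝ] V d) (v : V d) (i : Fin d) :
    T v i = ∑ l, v l * T (Pi.single l 1) i := by
  have h1 : v = ∑ l, v l • (Pi.single l (1 : ℝ) : V d) := by
    funext j
    rw [Finset.sum_apply, Finset.sum_eq_single j]
    · rw [Pi.smul_apply, Pi.single_eq_same, smul_eq_mul, mul_one]
    · intro l _ hl
      rw [Pi.smul_apply, Pi.single_eq_of_ne hl.symm, smul_zero]
    · intro h
      exact absurd (Finset.mem_univ _) h
  conv_lhs => rw [h1]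
  rw [map_sum, Finset.sum_apply]
  refine Finset.sum_congr rfl fun l _ => ?_
  rw [map_smul, Pi.smul_apply, smul_eq_mul]

theorem cx_real (T : V d →L[ℝ] V d) (v : V d) :
    cx T (fun l => (v l : ℂ)) = fun i => ((T v i : ℝ) : ℂ) := by
  funext i
  rw [cx_apply, cx_expand T v i, Complex.ofReal_sum]
  refine Finset.sum_congr rfl fun l _ => ?_
  rw [Complex.ofReal_mul, mul_comm]

theorem cx_add (S T : V d →L[ℝ] V d) (u : Fin d → ℂ) : cx (S + T) u = cx S u + cx T u := by
  funext i
  rw [Pi.add_apply, cx_apply, cx_apply, cx_apply, ← Finset.sum_add_distrib]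
  refine Finset.sum_congr rfl fun l _ => ?_
  rw [add_apply, Pi.add_apply, Complex.ofReal_add, add_mul]

theorem cx_sub (S T : V d →L[ℝ] V d) (u : Fin d → ℂ) : cx (S - T) u = cx S u - cx T u := by
  funext i
  rw [Pi.sub_apply, cx_apply, cx_apply, cx_apply, ← Finset.sum_sub_distrib]
  refine Finset.sum_congr rfl fun l _ => ?_
  rw [sub_apply, Pi.sub_apply, Complex.ofReal_sub, sub_mul]

theorem cx_comp (S T : V d →L[ℝ] V d) (u : Fin d → ℂ) : cx (S * T) u = cx S (cx T u) := by
  funext i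
  rw [cx_apply, cx_apply]
  have h1 : ∀ m, ((S (Pi.single m 1) i : ℝ) : ℂ) * cx T u m =
      ∑ l, ((S (Pi.single m 1) i : ℝ) : ℂ) * (((T (Pi.single l 1) m : ℝ) : ℂ) * u l) := by
    intro m
    rw [cx_apply, Finset.mul_sum]
  rw [Finset.sum_congr rfl fun m _ => h1 m, Finset.sum_comm]
  refine Finset.sum_congr rfl fun l _ => ?_
  rw [mul_apply_eq_comp, cx_expand S _ i, Complex.ofReal_sum, Finset.sum_mul]
  refine Finset.sum_congr rfl fun m _ => ?_
  rw [Complex.ofReal_mul]
  ring

theorem cx_sq {T : V d →L[ℝ] V d} (h : ∀ v, T (T v) = -v) (u : Fin d → ℂ) :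
    cx T (cx T u) = -u := by
  rw [← cx_comp]
  funext i
  rw [cx_apply, Finset.sum_eq_single i]
  · rw [mul_apply_eq_comp, h, Pi.neg_apply, Pi.neg_apply, Pi.single_eq_same,
      Complex.ofReal_neg, Complex.ofReal_one, neg_mul, one_mul]
  · intro l _ hl
    rw [mul_apply_eq_comp, h, Pi.neg_apply, Pi.single_eq_of_ne hl.symm, neg_zero,
      Complex.ofReal_zero, zero_mul]
  · intro h
    exact absurd (Finset.mem_univ _) h

theorem cx_star (T : V d →L[ℝ] V d) (u : Fin d → ℂ) : cx T (star u) = star (cx T u) := by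
  funext i
  rw [Pi.star_apply, cx_apply, cx_apply, star_sum]
  refine Finset.sum_congr rfl fun l _ => ?_
  rw [star_mul, Pi.star_apply, mul_comm]
  congr 1
  exact (Complex.conj_ofReal _).symm

theorem norm_cx_le (d : ℕ) : ∃ K : ℝ, 0 < K ∧ ∀ (T : V d →L[ℝ] V d) (u : Fin d → ℂ),
    ‖cx T u‖ ≤ K * ‖T‖ * ‖u‖ := by
  refine ⟨(d : ℝ) + 1, by positivity, fun T u => ?_⟩
  have h0 : 0 ≤ ‖T‖ * ‖u‖ := mul_nonneg (norm_nonneg _) (norm_nonneg _)
  have h00 : 0 ≤ ((d : ℝ) + 1) * ‖T‖ * ‖u‖ := by positivity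
  refine (pi_norm_le_iff_of_nonneg h00).2 fun i => ?_
  rw [cx_apply]
  have h1 : ∀ l, ‖((T (Pi.single l 1) i : ℝ) : ℂ) * u l‖ ≤ ‖T‖ * ‖u‖ := by
    intro l
    rw [norm_mul, Complex.norm_real]
    have h2 : ‖T (Pi.single l 1) i‖ ≤ ‖T‖ := by
      refine (norm_le_pi_norm (T (Pi.single l 1)) i).trans ?_
      refine (T.le_opNorm _).trans ?_
      have h3 : ‖(Pi.single l (1 : ℝ) : V d)‖ ≤ 1 := by
        refine (pi_norm_le_iff_of_nonneg zero_le_one).2 fun j => ?_
        rcases eq_or_ne j l with rfl | hj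
        · rw [Pi.single_eq_same, norm_one]
        · rw [Pi.single_eq_of_ne hj, norm_zero]
          exact zero_le_one
      exact (mul_le_mul_of_nonneg_left h3 (norm_nonneg _)).trans_eq (mul_one _)
    exact mul_le_mul h2 (norm_le_pi_norm u l) (norm_nonneg _) (norm_nonneg _)
  refine (norm_sum_le _ _).trans ((Finset.sum_le_sum fun l _ => h1 l).trans ?_)
  rw [Finset.sum_const, Finset.card_univ, Fintype.card_fin, nsmul_eq_mul, mul_assoc]
  exact mul_le_mul_of_nonneg_right (by linarith) h0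

/-- the eigenspace of `cx J₀` for `-i` -/
private def cxEm (J₀ : V d →L[ℝ] V d) : Submodule ℂ (Fin d → ℂ) where
  carrier := {u | cx J₀ u = -Complex.I • u}
  add_mem' := by
    intro u v hu hv
    show cx J₀ (u + v) = -Complex.I • (u + v)
    rw [map_add, smul_add, show cx J₀ u = _ from hu, show cx J₀ v = _ from hv]
  zero_mem' := by
    show cx J₀ 0 = -Complex.I • (0 : Fin d → ℂ)
    rw [map_zero, smul_zero]
  smul_mem' := by
    intro c u hu
    show cx J₀ (c • u) = -Complex.I • (c • u)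
    rw [map_smul, show cx J₀ u = _ from hu, smul_comm]

private theorem cxEm_mem {J₀ : V d →L[ℝ] V d} {u : Fin d → ℂ} :
    u ∈ cxEm J₀ ↔ cx J₀ u = -Complex.I • u := Iff.rfl

private theorem cxEm_star {J₀ : V d →L[ℝ] V d} {u : Fin d → ℂ} (h : u ∈ cxEm J₀) :
    cx J₀ (star u) = Complex.I • star u := by
  rw [cx_star, cxEm_mem.1 h, star_smul, star_neg]
  congr 1
  rw [show star Complex.I = -Complex.I from Complex.conj_I, neg_neg]

private theorem cxEm_of_star {J₀ : V d →L[ℝ] V d} {u : Fin d → ℂ}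
    (h : cx J₀ u = Complex.I • u) : star u ∈ cxEm J₀ := by
  rw [cxEm_mem, cx_star, h, star_smul]
  congr 1
  exact Complex.conj_I

theorem linJ (J₀ : V d →L[ℝ] V d) (h0 : ∀ v, J₀ (J₀ v) = -v) :
    ∃ (n : ℕ) (w : Fin n → Fin d → ℂ), d = 2 * n ∧ FrJ J₀ w := by
  obtain ⟨n, e⟩ : ∃ n : ℕ, Nonempty (Module.Basis (Fin n) ℂ (cxEm J₀)) :=
    ⟨_, ⟨Module.finBasis ℂ (cxEm J₀)⟩⟩
  obtain ⟨e⟩ := e
  have hw : ∀ j, cx J₀ ((e j : cxEm J₀) : Fin d → ℂ) = -Complex.I • ((e j : cxEm J₀) : Fin d → ℂ) :=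
    fun j => (e j).2
  have hli : LinearIndependent ℂ fun j => ((e j : cxEm J₀) : Fin d → ℂ) :=
    e.linearIndependent.map' (cxEm J₀).subtype (Submodule.ker_subtype _)
  have hexp : ∀ u ∈ cxEm J₀, ∃ c : Fin n → ℂ, u = ∑ j, c j • ((e j : cxEm J₀) : Fin d → ℂ) := by
    intro u hu
    refine ⟨fun j => e.repr ⟨u, hu⟩ j, ?_⟩
    have h1 := congrArg (cxEm J₀).subtype (e.sum_repr ⟨u, hu⟩)
    rw [map_sum] at h1
    exact h1.symm
  have hli' : LinearIndependent ℂ fun j => star ((e j : cxEm J₀) : Fin d → ℂ) := by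
    rw [Fintype.linearIndependent_iff] at hli ⊢
    intro c hc j
    have h1 : ∑ j, star (c j) • ((e j : cxEm J₀) : Fin d → ℂ) = 0 := by
      have h2 := congrArg star hc
      rw [star_zero, star_sum] at h2
      rw [← h2]
      refine Finset.sum_congr rfl fun j _ => ?_
      rw [star_smul, star_star]
    have h3 := hli _ h1 j
    exact (star_eq_zero (R := ℂ)).1 h3
  have hdis : Disjoint (Submodule.span ℂ (Set.range fun j => ((e j : cxEm J₀) : Fin d → ℂ)))
      (Submodule.span ℂ (Set.range fun j => star ((e j : cxEm J₀) : Fin d → ℂ))) := by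
    rw [Submodule.disjoint_def]
    intro u hu hu'
    have h1 : cx J₀ u = -Complex.I • u := by
      have : Submodule.span ℂ (Set.range fun j => ((e j : cxEm J₀) : Fin d → ℂ)) ≤ cxEm J₀ := by
        rw [Submodule.span_le]
        rintro _ ⟨j, rfl⟩
        exact (e j).2
      exact this hu
    have h2 : cx J₀ u = Complex.I • u := by
      refine Submodule.span_induction (p := fun u _ => cx J₀ u = Complex.I • u) ?_ ?_ ?_ ?_ hu'
      · rintro _ ⟨j, rfl⟩
        exact cxEm_star (e j).2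
      · rw [map_zero, smul_zero]
      · intro x y _ _ hx hy
        rw [map_add, smul_add, hx, hy]
      · intro c x _ hx
        rw [map_smul, hx, smul_comm]
    rw [h1, neg_smul] at h2
    have h3 : (2 * Complex.I) • u = 0 := by
      rw [two_mul, add_smul]
      nth_rewrite 1 [← h2]
      exact neg_add_cancel _
    exact (smul_eq_zero.1 h3).resolve_left (mul_ne_zero two_ne_zero Complex.I_ne_zero)
  have hli2 := hli.sum_type hli' hdis
  have hsp : ⊤ ≤ Submodule.span ℂ (Set.range (Sum.elim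
      (fun j => ((e j : cxEm J₀) : Fin d → ℂ)) fun j => star ((e j : cxEm J₀) : Fin d → ℂ))) := by
    intro u _
    have hA : u + Complex.I • cx J₀ u ∈ cxEm J₀ := by
      rw [cxEm_mem, map_add, map_smul, cx_sq h0, smul_add, smul_smul, neg_mul, Complex.I_mul_I,
        neg_neg, one_smul, smul_neg, neg_smul, add_comm]
    have hB : cx J₀ (u - Complex.I • cx J₀ u) = Complex.I • (u - Complex.I • cx J₀ u) := by
      rw [map_sub, map_smul, cx_sq h0, smul_sub, smul_smul, Complex.I_mul_I, smul_neg, neg_smul,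
        one_smul, sub_neg_eq_add, sub_neg_eq_add, add_comm]
    obtain ⟨c, hc⟩ := hexp _ hA
    obtain ⟨c', hc'⟩ := hexp _ (cxEm_of_star hB)
    have hB2 : u - Complex.I • cx J₀ u = ∑ j, star (c' j) • star ((e j : cxEm J₀) : Fin d → ℂ) := by
      have h2 := congrArg star hc'
      rw [star_star, star_sum] at h2
      rw [h2]
      exact Finset.sum_congr rfl fun j _ => star_smul _ _
    have hu : u = (1 / 2 : ℂ) • ((u + Complex.I • cx J₀ u) + (u - Complex.I • cx J₀ u)) := by
      rw [add_add_sub_cancel, ← two_smul ℂ u, smul_smul]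
      norm_num
    rw [hu]
    refine Submodule.smul_mem _ _ (Submodule.add_mem _ ?_ ?_)
    · rw [hc]
      exact Submodule.sum_mem _ fun j _ => Submodule.smul_mem _ _
        (Submodule.subset_span ⟨Sum.inl j, rfl⟩)
    · rw [hB2]
      exact Submodule.sum_mem _ fun j _ => Submodule.smul_mem _ _
        (Submodule.subset_span ⟨Sum.inr j, rfl⟩)
  refine ⟨n, fun j => ((e j : cxEm J₀) : Fin d → ℂ), ?_, h0, hw, Module.Basis.mk hli2 hsp, ?_, ?_⟩
  · have h1 := Module.finrank_eq_card_basis (Module.Basis.mk hli2 hsp)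
    rw [Module.finrank_fin_fun, Fintype.card_sum, Fintype.card_fin] at h1
    omega
  · intro j
    rw [Module.Basis.mk_apply]
    rfl
  · intro j
    rw [Module.Basis.mk_apply]
    rfl

/-- the real forms given by the frame separate points -/
theorem FrJ.nd {J₀ : V d →L[ℝ] V d} {w : Fin n → Fin d → ℂ} (h : FrJ J₀ w) (x : V d)
    (hx : ∀ j, lf (w j) x = 0) : x = 0 := by
  obtain ⟨b, hb1, hb2⟩ := h.bas
  let φ : (Fin d → ℂ) →ₗ[ℂ] ℂ :=
    { toFun := fun u => ∑ l, u l * (x l : ℂ)
      map_add' := by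
        intro u v
        rw [← Finset.sum_add_distrib]
        exact Finset.sum_congr rfl fun l _ => add_mul _ _ _
      map_smul' := by
        intro c u
        rw [RingHom.id_apply, smul_eq_mul, Finset.mul_sum]
        exact Finset.sum_congr rfl fun l _ => mul_assoc _ _ _ }
  have h0 : φ = 0 := by
    refine b.ext fun s => ?_
    rcases s with j | j
    · rw [hb1]
      exact hx j
    · rw [hb2, LinearMap.zero_apply]
      show ∑ l, star (w j) l * (x l : ℂ) = 0
      have h1 := congrArg (starRingEnd ℂ) (hx j)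
      unfold lf at h1
      rw [map_zero, map_sum] at h1
      rw [← h1]
      refine Finset.sum_congr rfl fun l _ => ?_
      rw [map_mul, Complex.conj_ofReal]
      rfl
  funext i
  have h2 : φ (Pi.single i 1) = 0 := by
    rw [h0, LinearMap.zero_apply]
  have h3 : φ (Pi.single i 1) = (x i : ℂ) := by
    show ∑ l, (Pi.single i (1 : ℂ) : Fin d → ℂ) l * (x l : ℂ) = (x i : ℂ)
    rw [Finset.sum_eq_single i]
    · rw [Pi.single_eq_same, one_mul]
    · intro l _ hl
      rw [Pi.single_eq_of_ne hl, zero_mul]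
    · intro h
      exact absurd (Finset.mem_univ _) h
  rw [h3] at h2
  exact Complex.ofReal_eq_zero.1 h2

end LRA
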