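import Mathlib

/-!
# LRA / Defs: complex structures on the torus `ℝ^d / ℤ^d` and their automorphisms (lifted to `ℝ^d`)
-/

set_option autoImplicit false

noncomputable section

open scoped ContDiff BigOperators

namespace LRA

/-- the space `ℝ^d` -/
abbrev V (d : ℕ) : Type := Fin d → ℝ

/-- the real vector of an integer vector -/
def zc {d : ℕ} (m : Fin d → ℤ) : V d := fun i => (m i : ℝ)

/-- the linear map of an integer matrix -/
def lin {d : ℕ} (A : Matrix (Fin d) (Fin d) ℤ) : V d →L[ℝ] V d :=
  LinearMap.toContinuousLinearMap (Matrix.toLin' (A.map (Int.cast : ℤ → ℝ)))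

/-- invariance under integer translations -/
def Per {d : ℕ} {E : Type*} (F : V d → E) : Prop :=
  ∀ (x : V d) (m : Fin d → ℤ), F (x + zc m) = F x

/-- `J` is (the lift of) a smooth complex structure of the torus: `J² = -1` and the
Nijenhuis tensor vanishes -/
structure CStr {d : ℕ} (J : V d → (V d →L[ℝ] V d)) : Prop where
  smooth : ContDiff ℝ ∞ J
  per : Per J
  sq : ∀ x v, J x (J x v) = -v
  nij : ∀ x u v, fderiv ℝ J x (J x u) v - fderiv ℝ J x (J x v) u
    + J x (fderiv ℝ J x v u) - J x (fderiv ℝ J x u v) = 0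

end LRA
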