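import Pool.Agent.LRA.Inv

/-!
# LRA / Sep: fixed point, and the bound for a structure commuting with the derivative there

PLAN.
* `noEig_lin`: `charpoly (lin A) = (A.map Int.cast).charpoly` (`Matrix.charpoly_toLin'`...),
  `Matrix.charpoly_map`.
* `sub_one_inj`: `1` is not an eigenvalue of `lin A` (`‖1‖ = 1`): a nonzero `v` with `lin A v = v` would make
  `1` a root of the charpoly (`LinearMap.hasEigenvalue_iff_isRoot_charpoly` or
  `Module.End.hasEigenvalue_iff_isRoot_charpoly`), so `lin A - 1` is injective, hence bijective.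
* `fixpt`: let `T = (lin A - 1)⁻¹` (bounded), `f = lin A + φ`, `φ` is `ε`-Lipschitz (`lip_of_deriv`); a fixed point
  of the contraction `p ↦ - T (φ p)` (constant `‖T‖ ε ≤ 1/2`) satisfies `(lin A - 1) p = - φ p`, i.e. `f p = p`.
* `sep`: over `ℂ` the matrix `M = A.map Int.cast` has `d` distinct eigenvalues `λ_i` (separable charpoly,
  splits), so a basis of eigenvectors: there is an invertible complex matrix `U` with `M U = U diag(λ)`, `λ` injective
  (`Module.End.eigenvectors_linearIndependent`, `basisOfLinearIndependentOfCardEqFinrank`).  For a real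
  operator `T` write `T' = U⁻¹ [T] U = diag(λ) + E`, `|E_ij| ≤ c ‖T - lin A‖ ≤ c ε`, and `Y' = U⁻¹ [Y] U`, so
  `T' Y' = Y' T'`, `Y'² = -1`.  Let `m = max |Y'_ij|`.  For `i ≠ j`:
  `(λ_i - λ_j) Y'_ij = (Y' E - E Y')_ij`, so `|Y'_ij| ≤ 2 d c ε m / gap =: κ m`; and
  `Y'_ii² = -1 - ∑_{j ≠ i} Y'_ij Y'_ji`, `|Y'_ii|² ≤ 1 + d κ² m²`.  So `m² ≤ max (κ² m²) (1 + d κ² m²)` and for `ε`
  small (`d κ² ≤ 1/2`, `κ ≤ 1/2`) `m² ≤ 2`.  Hence `‖Y‖ ≤ R(U, d)`.
-/

set_option autoImplicit false

noncomputable section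

open scoped BigOperators ContDiff

namespace LRA

variable {d : ℕ}

private theorem sepx_charpoly (A : Matrix (Fin d) (Fin d) ℤ) :
    (LinearMap.charpoly (lin A : V d →ₗ[ℝ] V d)).map (algebraMap ℝ ℂ) =
      (A.map (Int.cast : ℤ → ℂ)).charpoly := by
  have h1 : (lin A : V d →ₗ[ℝ] V d) = Matrix.toLin' (A.map (Int.cast : ℤ → ℝ)) := rfl
  rw [h1, Matrix.charpoly_toLin', ← Matrix.charpoly_map]
  congr 1

theorem noEig_lin (A : Matrix (Fin d) (Fin d) ℤ)
    (h : ∀ z : ℂ, (A.map (Int.cast : ℤ → ℂ)).charpoly.IsRoot z → ‖z‖ ≠ 1) :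
    NoEig (lin A) 1 := by
  intro z hz hr
  rw [sepx_charpoly] at hr
  exact h z hr hz

private theorem sepx_bij (A : Matrix (Fin d) (Fin d) ℤ) (hA : NoEig (lin A) 1) :
    Function.Bijective ((lin A : V d →ₗ[ℝ] V d) - (LinearMap.id : V d →ₗ[ℝ] V d)) := by
  have hinj : Function.Injective ((lin A : V d →ₗ[ℝ] V d) - (LinearMap.id : V d →ₗ[ℝ] V d)) := by
    rw [injective_iff_map_eq_zero]
    intro u hu
    by_contra hne
    have h1 : (lin A : V d →ₗ[ℝ] V d) u = (1 : ℝ) • u := by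
      have : (lin A : V d →ₗ[ℝ] V d) u - u = 0 := hu
      rw [one_smul]
      exact sub_eq_zero.1 this
    have h2 : Module.End.HasEigenvalue (lin A : V d →ₗ[ℝ] V d) (1 : ℝ) :=
      Module.End.hasEigenvalue_of_hasEigenvector
        ⟨Module.End.mem_eigenspace_iff.2 h1, hne⟩
    rw [Module.End.hasEigenvalue_iff_isRoot_charpoly] at h2
    apply hA 1 (by simp)
    have h3 := h2.map (f := algebraMap ℝ ℂ)
    simpa using h3
  exact ⟨hinj, LinearMap.injective_iff_surjective.1 hinj⟩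

theorem sub_one_bij (A : Matrix (Fin d) (Fin d) ℤ) (hA : NoEig (lin A) 1) (v : V d) :
    ∃ u : V d, lin A u - u = v := by
  obtain ⟨u, hu⟩ := (sepx_bij A hA).2 v
  exact ⟨u, hu⟩

theorem fixpt (A : Matrix (Fin d) (Fin d) ℤ) (hA : NoEig (lin A) 1) :
    ∃ ε : ℝ, 0 < ε ∧ ∀ f : V d → V d, ContDiff ℝ ∞ f →
      (∀ x, ‖fderiv ℝ f x - lin A‖ ≤ ε) → ∃ p, f p = p := by
  obtain ⟨B, hB⟩ : ∃ B : V d →L[ℝ] V d, ∀ v, lin A (B v) - B v = v := by
    let e := LinearEquiv.ofBijective _ (sepx_bij A hA)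
    refine ⟨LinearMap.toContinuousLinearMap (e.symm : V d →ₗ[ℝ] V d), fun v => ?_⟩
    have := e.apply_symm_apply v
    exact this
  have hB0 : 0 < ‖B‖ + 1 := by positivity
  refine ⟨1 / (2 * (‖B‖ + 1)), by positivity, ?_⟩
  intro f hf hd
  have hl := lip_of_deriv hf (lin A) hd
  let F : V d → V d := fun p => - B (f p - lin A p)
  have hF : ∀ x y, ‖F x - F y‖ ≤ 1 / 2 * ‖x - y‖ := by
    intro x y
    have h1 : F x - F y = - B ((f x - lin A x) - (f y - lin A y)) := by
      show - B (f x - lin A x) - - B (f y - lin A y) = _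
      simp only [map_sub]
      abel
    rw [h1, norm_neg]
    calc ‖B ((f x - lin A x) - (f y - lin A y))‖
        ≤ ‖B‖ * ‖(f x - lin A x) - (f y - lin A y)‖ := B.le_opNorm _
      _ ≤ ‖B‖ * (1 / (2 * (‖B‖ + 1)) * ‖x - y‖) :=
          mul_le_mul_of_nonneg_left (hl x y) (norm_nonneg _)
      _ = (‖B‖ / (‖B‖ + 1)) * (1 / 2 * ‖x - y‖) := by field_simp
      _ ≤ 1 * (1 / 2 * ‖x - y‖) := by
          apply mul_le_mul_of_nonneg_right _ (by positivity)
          rw [div_le_one hB0]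
          linarith
      _ = 1 / 2 * ‖x - y‖ := one_mul _
  have hc : ContractingWith (1 / 2 : NNReal) F := by
    refine ⟨by norm_num, ?_⟩
    apply LipschitzWith.of_dist_le_mul
    intro x y
    rw [dist_eq_norm, dist_eq_norm]
    simpa using hF x y
  refine ⟨hc.fixedPoint, ?_⟩
  have hp : F hc.fixedPoint = hc.fixedPoint := hc.fixedPoint_isFixedPt
  set p := hc.fixedPoint with hpd
  have h2 : B (f p - lin A p) = - p := by
    have : - B (f p - lin A p) = p := hp
    rw [← this, neg_neg, this]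
  have h3 := hB (f p - lin A p)
  rw [h2, map_neg] at h3
  have h4 : f p = lin A p + (- lin A p - - p) := by
    rw [h3]
    abel
  rw [h4]
  abel

private theorem sepx_comm_nil (M W : Matrix (Fin d) (Fin d) ℂ) (hs : M.charpoly.Separable)
    (hc : M * W = W * M) (hW : W * W = 0) : W = 0 := by
  classical
  let ι := {z // z ∈ M.charpoly.roots.toFinset}
  have hcard : Fintype.card ι = Module.finrank ℂ (Fin d → ℂ) := by
    rw [Fintype.card_coe, Multiset.toFinset_card_of_nodup (Polynomial.nodup_roots hs),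
      Polynomial.splits_iff_card_roots.1 (IsAlgClosed.splits _), Matrix.charpoly_natDegree_eq_dim]
    simp
  have hev : ∀ i : ι, ∃ v, Module.End.HasEigenvector (Matrix.toLin' M) (i : ℂ) v := by
    intro i
    apply Module.End.HasEigenvalue.exists_hasEigenvector
    rw [Module.End.hasEigenvalue_iff_isRoot_charpoly, Matrix.charpoly_toLin']
    have := i.2
    rw [Multiset.mem_toFinset, Polynomial.mem_roots'] at this
    exact this.2
  choose v hv using hev
  have hli : LinearIndependent ℂ v :=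
    Module.End.eigenvectors_linearIndependent' (Matrix.toLin' M) (fun i : ι => (i : ℂ))
      Subtype.val_injective v hv
  let b := basisOfLinearIndependentOfCardEqFinrank' v hli hcard
  have hb : ∀ i, b i = v i := fun i =>
    congrFun (coe_basisOfLinearIndependentOfCardEqFinrank' v hli hcard) i
  have hrep : ∀ (u : Fin d → ℂ) (j : ι), b.repr (Matrix.toLin' M u) j = (j : ℂ) * b.repr u j := by
    intro u j
    have : (b.coord j) ∘ₗ (Matrix.toLin' M) = (j : ℂ) • b.coord j := by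
      apply b.ext
      intro i
      rw [LinearMap.comp_apply, LinearMap.smul_apply, hb, (hv i).apply_eq_smul, map_smul, ← hb]
      rw [Module.Basis.coord_apply, Module.Basis.repr_self, Finsupp.single_apply]
      by_cases hij : i = j
      · rw [hij]
      · rw [if_neg hij, smul_zero, smul_zero]
    exact LinearMap.congr_fun this u
  have hzero : ∀ i, Matrix.toLin' W (b i) = 0 := by
    intro i
    set u := Matrix.toLin' W (b i) with hu
    have hMu : Matrix.toLin' M u = (i : ℂ) • u := by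
      rw [hu, ← LinearMap.comp_apply, ← Matrix.toLin'_mul, hc, Matrix.toLin'_mul,
        LinearMap.comp_apply, hb, (hv i).apply_eq_smul, map_smul]
    have hWu : Matrix.toLin' W u = 0 := by
      rw [hu, ← LinearMap.comp_apply, ← Matrix.toLin'_mul, hW, map_zero]
      rfl
    have hj : ∀ j, j ≠ i → b.repr u j = 0 := by
      intro j hji
      have h1 := hrep u j
      rw [hMu, map_smul, Finsupp.smul_apply, smul_eq_mul] at h1
      have h2 : ((i : ℂ) - j) * b.repr u j = 0 := by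
        rw [sub_mul, h1, sub_self]
      rcases mul_eq_zero.1 h2 with h3 | h3
      · exact absurd (Subtype.ext (sub_eq_zero.1 h3)).symm hji
      · exact h3
    have hui : u = b.repr u i • b i := by
      apply b.repr.injective
      ext j
      rw [map_smul, Finsupp.smul_apply, Module.Basis.repr_self, Finsupp.single_apply]
      by_cases hji : i = j
      · rw [if_pos hji, hji, smul_eq_mul, mul_one]
      · rw [if_neg hji, smul_zero, hj j (fun h => hji h.symm)]
    have h5 : b.repr u i • u = 0 := by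
      have : Matrix.toLin' W u = b.repr u i • u := by
        conv_lhs => rw [hui]
        rw [map_smul, ← hu]
      rw [← this, hWu]
    rcases smul_eq_zero.1 h5 with h6 | h6
    · rw [hui, h6, zero_smul]
    · exact h6
  have hlin : Matrix.toLin' W = 0 := by
    apply b.ext
    intro i
    rw [hzero i, LinearMap.zero_apply]
  exact Matrix.toLin'.injective (hlin.trans (map_zero _).symm)

private theorem sepx_comm_nil_real (A : Matrix (Fin d) (Fin d) ℤ)
    (hs : (A.map (Int.cast : ℤ → ℂ)).charpoly.Separable) (Z : V d →L[ℝ] V d)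
    (hc : lin A * Z = Z * lin A) (hZ : Z * Z = 0) : Z = 0 := by
  let W : Matrix (Fin d) (Fin d) ℝ := LinearMap.toMatrix' (Z : V d →ₗ[ℝ] V d)
  have hWZ : Matrix.toLin' W = (Z : V d →ₗ[ℝ] V d) := Matrix.toLin'_toMatrix' _
  have hA : Matrix.toLin' (A.map (Int.cast : ℤ → ℝ)) = (lin A : V d →ₗ[ℝ] V d) := rfl
  have h1 : (A.map (Int.cast : ℤ → ℝ)) * W = W * (A.map (Int.cast : ℤ → ℝ)) := by
    apply Matrix.toLin'.injective
    rw [Matrix.toLin'_mul, Matrix.toLin'_mul, hWZ, hA]
    exact LinearMap.ext fun x => DFunLike.congr_fun hc x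
  have h2 : W * W = 0 := by
    apply Matrix.toLin'.injective
    rw [Matrix.toLin'_mul, hWZ, map_zero]
    exact LinearMap.ext fun x => DFunLike.congr_fun hZ x
  have hAc : (A.map (Int.cast : ℤ → ℝ)).map (algebraMap ℝ ℂ) = A.map (Int.cast : ℤ → ℂ) := by
    ext i j
    simp
  have h3 : (A.map (Int.cast : ℤ → ℂ)) * W.map (algebraMap ℝ ℂ) =
      W.map (algebraMap ℝ ℂ) * (A.map (Int.cast : ℤ → ℂ)) := by
    rw [← hAc, ← Matrix.map_mul, h1, Matrix.map_mul]
  have h4 : W.map (algebraMap ℝ ℂ) * W.map (algebraMap ℝ ℂ) = 0 := by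
    rw [← Matrix.map_mul, h2]
    ext i j
    simp
  have h5 := sepx_comm_nil _ _ hs h3 h4
  have h6 : W = 0 := by
    ext i j
    have := congrFun (congrFun h5 i) j
    simpa using this
  have h7 : (Z : V d →ₗ[ℝ] V d) = 0 := by rw [← hWZ, h6, map_zero]
  exact ContinuousLinearMap.ext fun x => LinearMap.congr_fun h7 x

theorem sep (A : Matrix (Fin d) (Fin d) ℤ)
    (hs : (A.map (Int.cast : ℤ → ℂ)).charpoly.Separable) :
    ∃ ε R : ℝ, 0 < ε ∧ ∀ T Y : V d →L[ℝ] V d, ‖T - lin A‖ ≤ ε → T * Y = Y * T →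
      (∀ v, Y (Y v) = -v) → ‖Y‖ ≤ R := by
  by_contra hcon
  push Not at hcon
  have hcon' : ∀ n : ℕ, ∃ T Y : V d →L[ℝ] V d, ‖T - lin A‖ ≤ 1 / ((n : ℝ) + 1) ∧ T * Y = Y * T ∧
      (∀ v, Y (Y v) = -v) ∧ (n : ℝ) + 1 < ‖Y‖ := fun n =>
    hcon (1 / ((n : ℝ) + 1)) ((n : ℝ) + 1) (by positivity)
  choose T Y hT hTY hY hn using hcon'
  have hYpos : ∀ n, 0 < ‖Y n‖ := fun n => lt_trans (by positivity) (hn n)
  let Z : ℕ → (V d →L[ℝ] V d) := fun n => (‖Y n‖)⁻¹ • Y n
  have hZ1 : ∀ n, ‖Z n‖ = 1 := by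
    intro n
    show ‖(‖Y n‖)⁻¹ • Y n‖ = 1
    rw [norm_smul, norm_inv, norm_norm, inv_mul_cancel₀ (hYpos n).ne']
  have : ProperSpace (V d →L[ℝ] V d) := FiniteDimensional.proper_real _
  obtain ⟨Z0, hZ0, φ, hφ, hlim⟩ := (isCompact_sphere (0 : V d →L[ℝ] V d) 1).tendsto_subseq
    (x := Z) (fun n => by rw [mem_sphere_zero_iff_norm]; exact hZ1 n)
  rw [mem_sphere_zero_iff_norm] at hZ0
  have hb : Filter.Tendsto (fun n : ℕ => 1 / ((n : ℝ) + 1)) Filter.atTop (nhds 0) :=
    tendsto_one_div_add_atTop_nhds_zero_nat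
  have hTlim : Filter.Tendsto T Filter.atTop (nhds (lin A)) := by
    rw [tendsto_iff_norm_sub_tendsto_zero]
    exact squeeze_zero (fun n => norm_nonneg _) hT hb
  have hTlim' : Filter.Tendsto (fun n => T (φ n)) Filter.atTop (nhds (lin A)) :=
    hTlim.comp hφ.tendsto_atTop
  have hc : lin A * Z0 = Z0 * lin A := by
    have h1 : Filter.Tendsto (fun n => T (φ n) * Z (φ n)) Filter.atTop (nhds (lin A * Z0)) :=
      hTlim'.mul hlim
    have h2 : Filter.Tendsto (fun n => Z (φ n) * T (φ n)) Filter.atTop (nhds (Z0 * lin A)) :=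
      hlim.mul hTlim'
    refine tendsto_nhds_unique h1 (h2.congr fun n => ?_)
    show ((‖Y (φ n)‖)⁻¹ • Y (φ n)) * T (φ n) = T (φ n) * ((‖Y (φ n)‖)⁻¹ • Y (φ n))
    rw [smul_mul_assoc, mul_smul_comm, hTY]
  have hsq : Z0 * Z0 = 0 := by
    have h1 : Filter.Tendsto (fun n => Z (φ n) * Z (φ n)) Filter.atTop (nhds (Z0 * Z0)) :=
      hlim.mul hlim
    have h2 : Filter.Tendsto (fun n => Z (φ n) * Z (φ n)) Filter.atTop (nhds 0) := by
      have h3 : ∀ n, Z n * Z n = ((‖Y n‖)⁻¹ * (‖Y n‖)⁻¹) • (-1 : V d →L[ℝ] V d) := by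
        intro n
        have h4 : Y n * Y n = (-1 : V d →L[ℝ] V d) := by
          exact ContinuousLinearMap.ext fun x => hY n x
        show ((‖Y n‖)⁻¹ • Y n) * ((‖Y n‖)⁻¹ • Y n) = _
        rw [smul_mul_assoc, mul_smul_comm, smul_smul, h4]
      have h5 : Filter.Tendsto (fun n => (‖Y n‖)⁻¹) Filter.atTop (nhds 0) := by
        refine squeeze_zero (fun n => by positivity) (fun n => ?_) hb
        rw [one_div]
        exact inv_anti₀ (by positivity) (hn n).le
      have h6 : Filter.Tendsto (fun n => ((‖Y n‖)⁻¹ * (‖Y n‖)⁻¹) • (-1 : V d →L[ℝ] V d))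
          Filter.atTop (nhds 0) := by
        have := (h5.mul h5).smul_const (-1 : V d →L[ℝ] V d)
        simpa using this
      exact (h6.comp hφ.tendsto_atTop).congr fun n => (h3 (φ n)).symm
    exact tendsto_nhds_unique h1 h2
  have h0 := sepx_comm_nil_real A hs Z0 hc hsq
  rw [h0, norm_zero] at hZ0
  exact zero_ne_one hZ0

end LRA
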