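import Pool.Agent.LRA.TorA
import Pool.Agent.LRA.Sep

/-!
# LRA / Equi: equivariance of the conjugating map

`Std.lin` applied to `h ∘ f - lin A`, then `Std.cst` applied to `h ∘ f - lin A ∘ h`.
-/

set_option autoImplicit false

noncomputable section

open scoped BigOperators ContDiff

namespace LRA

variable {d : ℕ}

theorem equi (A : Matrix (Fin d) (Fin d) ℤ) (hA : NoEig (lin A) 1) {f : V d → V d}
    (hf : ContDiff ℝ ∞ f) (hl : IsLift A f) {J : V d → (V d →L[ℝ] V d)} (hJ : CStr J)
    (hi : ∀ x, fderiv ℝ f x * J x = J (f x) * fderiv ℝ f x) {J₁ : V d →L[ℝ] V d}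
    {h : V d → V d} (hs : Std J J₁ h) :
    (∀ v, J₁ (lin A v) = lin A (J₁ v)) ∧
      ∃ c : V d, ∀ x, h (f x) + c = lin A (h x + c) := by
  have hfd : Differentiable ℝ f := hf.differentiable (by simp)
  have hhd : Differentiable ℝ h := hs.smooth.differentiable (by simp)
  have hhf : ContDiff ℝ ∞ fun x => h (f x) := hs.smooth.comp hf
  have hder : ∀ x, HasFDerivAt (fun x => h (f x)) ((fderiv ℝ h (f x)).comp (fderiv ℝ f x)) x :=
    fun x => (hhd (f x)).hasFDerivAt.comp x (hfd x).hasFDerivAt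
  have hper : ∀ (x : V d) (m : Fin d → ℤ), h (f (x + zc m)) = h (f x) + zc (A.mulVec m) := by
    intro x m
    rw [hl x m, hs.lift]
  have hhol : ∀ x v, fderiv ℝ h (f x) (fderiv ℝ f x (J x v)) =
      J₁ (fderiv ℝ h (f x) (fderiv ℝ f x v)) := by
    intro x v
    have h1 : fderiv ℝ f x (J x v) = J (f x) (fderiv ℝ f x v) :=
      congrArg (fun T : V d →L[ℝ] V d => T v) (hi x)
    rw [h1, hs.hol]
  have hcomm : ∀ v, lin A (J₁ v) = J₁ (lin A v) := by
    refine hs.lin (lin A) (fun x => h (f x) - lin A x) (hhf.sub (lin A).contDiff) ?_ ?_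
    · intro x m
      show h (f (x + zc m)) - lin A (x + zc m) = h (f x) - lin A x
      rw [hper, map_add, lin_zc]
      abel
    · intro x v
      have h2 : fderiv ℝ (fun x => h (f x) - lin A x) x =
          (fderiv ℝ h (f x)).comp (fderiv ℝ f x) - lin A :=
        ((hder x).sub (lin A).hasFDerivAt).fderiv
      have h3 : ∀ w, lin A w + fderiv ℝ (fun x => h (f x) - lin A x) x w =
          fderiv ℝ h (f x) (fderiv ℝ f x w) := by
        intro w
        rw [h2]
        show lin A w + (fderiv ℝ h (f x) (fderiv ℝ f x w) - lin A w) = _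
        abel
      rw [h3, h3]
      exact hhol x v
  refine ⟨fun v => (hcomm v).symm, ?_⟩
  have hcst : ∀ x, h (f x) - lin A (h x) = h (f 0) - lin A (h 0) := by
    refine hs.cst (fun x => h (f x) - lin A (h x))
      (hhf.sub ((lin A).contDiff.comp hs.smooth)) ?_ ?_
    · intro x m
      show h (f (x + zc m)) - lin A (h (x + zc m)) = h (f x) - lin A (h x)
      rw [hper, hs.lift, map_add, lin_zc]
      abel
    · intro x v
      have h2 : fderiv ℝ (fun x => h (f x) - lin A (h x)) x =
          (fderiv ℝ h (f x)).comp (fderiv ℝ f x) - (lin A).comp (fderiv ℝ h x) :=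
        ((hder x).sub ((lin A).hasFDerivAt.comp x (hhd x).hasFDerivAt)).fderiv
      rw [h2]
      show fderiv ℝ h (f x) (fderiv ℝ f x (J x v)) - lin A (fderiv ℝ h x (J x v)) =
        J₁ (fderiv ℝ h (f x) (fderiv ℝ f x v) - lin A (fderiv ℝ h x v))
      rw [hhol, hs.hol, hcomm, map_sub]
  obtain ⟨c, hc⟩ := sub_one_bij A hA (h (f 0) - lin A (h 0))
  refine ⟨c, fun x => ?_⟩
  have h4 := hcst x
  rw [← hc] at h4
  rw [map_add, sub_eq_iff_eq_add.1 h4]
  abel

end LRA
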