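import Pool.Agent.LRA.FTools
import Pool.Agent.LRA.ExM
import Pool.Agent.LRA.Cm

/-!
# LRA / Est: the energy estimate for holomorphic functions `ℓ + g`

PLAN.  Put `u_j = bp ℓ (w j) + dw (w j) g`, `u'_j = bp ℓ (star (w j)) + dw (star (w j)) g` (all `SP`).  By
`Lj_lf_add` and `h`: `u_j = - ∑_k μ_jk u'_k`, so pointwise `∑_j ‖u_j‖^2 ≤ θ^2 ∑_k ‖u'_k‖^2` (`BD.bd`);
`energy_mono`: `∑' k ∑ j ‖fc u_j k‖^2 ≤ θ^2 ∑' k ∑ j ‖fc u'_j k‖^2`.  With `a_j(k) = pr k (w j)`: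
`fc u_j k = [k = 0] bp ℓ (w j) + 2 π i a_j(k) ĝ(k)` and `fc u'_j k = [k = 0] bp ℓ (star (w j)) + 2 π i conj(a_j(k)) ĝ(k)`
(`fc_add`, `fc_const`, `fc_dw`, `pr_star`), and `a_j(0) = 0`.  So the sums are `∑ ‖bp ℓ (w j)‖^2 + G2` and
`∑ ‖bp ℓ (star (w j))‖^2 + G2` with the same `G2 = ∑' k, 4 π² |a(k)|^2 ‖ĝ(k)‖^2 ≥ 0` (split off the term
`k = 0`: e.g. `Summable.tsum_add` for the two families `[k = 0] ..` and `4 π² ..`, the cross terms
vanish).  Hence `∑ ‖bp ℓ (w j)‖^2 + (1 - θ^2) G2 ≤ θ^2 ∑ ‖bp ℓ (star (w j))‖^2`.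
`est_zero`: for `ℓ = 0` it gives `G2 = 0`, each term vanishes, `ĝ(k) = 0` for `k ≠ 0` (`BD.lower`),
`const_of_fc`.
-/

set_option autoImplicit false

noncomputable section

open scoped BigOperators ComplexConjugate ContDiff
open MeasureTheory

namespace LRA

variable {n d : ℕ} {w : Fin n → Fin d → ℂ} {μ : Fin n → Fin n → V d → ℂ} {θ : ℝ}

private theorem fc_star {g : V d → ℂ} (hg : SP g) (v : Fin d → ℂ) (k : Fin d → ℤ) :
    ‖fc (dw (star v) g) k‖ = ‖fc (dw v g) k‖ := by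
  rw [fc_dw hg, fc_dw hg, pr_star]
  simp only [norm_mul, RCLike.norm_conj]

private theorem fc_dw_zero {g : V d → ℂ} (hg : SP g) (v : Fin d → ℂ) :
    fc (dw v g) (0 : Fin d → ℤ) = 0 := by
  rw [fc_dw hg]
  have h1 : pr (0 : Fin d → ℤ) v = 0 := by
    unfold pr
    simp
  rw [h1, mul_zero, zero_mul]

private theorem tsum_split {g : V d → ℂ} (hg : SP g) (c : Fin n → ℂ) (v : Fin n → Fin d → ℂ) :
    ∑' k, ∑ j, ‖fc (fun x => c j + dw (v j) g x) k‖ ^ 2 =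
      ∑ j, ‖c j‖ ^ 2 + ∑' k, ∑ j, ‖fc (dw (v j) g) k‖ ^ 2 := by
  have hE : Summable fun k => ∑ j, ‖fc (dw (v j) g) k‖ ^ 2 :=
    (energy (H := fun j => dw (v j) g) fun j => hg.dw (v j)).summable
  have h1 : (fun k : Fin d → ℤ => ∑ j, ‖fc (fun x => c j + dw (v j) g x) k‖ ^ 2) =
      fun k => (if k = 0 then ∑ j, ‖c j‖ ^ 2 else 0) + ∑ j, ‖fc (dw (v j) g) k‖ ^ 2 := by
    funext k
    have h2 : ∀ j, fc (fun x => c j + dw (v j) g x) k =
        (if k = 0 then c j else 0) + fc (dw (v j) g) k := by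
      intro j
      have h3 := fc_add (SP.const (d := d) (c j)) (hg.dw (v j)) k
      rw [fc_const] at h3
      exact h3
    rw [Finset.sum_congr rfl fun j _ => by rw [h2 j]]
    by_cases hk : k = 0
    · subst hk
      simp only [if_true]
      have h4 : ∑ j, ‖fc (dw (v j) g) (0 : Fin d → ℤ)‖ ^ 2 = 0 := by
        refine Finset.sum_eq_zero fun j _ => ?_
        rw [fc_dw_zero hg, norm_zero, zero_pow two_ne_zero]
      rw [h4, add_zero]
      refine Finset.sum_congr rfl fun j _ => ?_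
      rw [fc_dw_zero hg, add_zero]
    · simp only [if_neg hk, zero_add]
  rw [h1, Summable.tsum_add (hasSum_ite_eq 0 _).summable hE, tsum_ite_eq]

private theorem est_main (hb : BD w μ θ) (ℓ : Fin d → ℂ) {g : V d → ℂ} (hg : SP g)
    (h : ∀ j x, Lj w μ j (fun y => lf ℓ y + g y) x = 0) :
    ∑ j, ‖bp ℓ (w j)‖ ^ 2 + ∑' k, ∑ j, ‖fc (dw (w j) g) k‖ ^ 2 ≤
      θ ^ 2 * (∑ j, ‖bp ℓ (star (w j))‖ ^ 2 + ∑' k, ∑ j, ‖fc (dw (w j) g) k‖ ^ 2) := by
  have h1 := energy_mono (H := fun (j : Fin n) x => bp ℓ (w j) + dw (w j) g x)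
    (G := fun (j : Fin n) x => bp ℓ (star (w j)) + dw (star (w j)) g x)
    (fun j => (SP.const _).add (hg.dw (w j))) (fun j => (SP.const _).add (hg.dw (star (w j))))
    (θ ^ 2) (by
      intro x
      have h2 := hb.bd x fun k => bp ℓ (star (w k)) + dw (star (w k)) g x
      refine le_trans (le_of_eq ?_) h2
      refine Finset.sum_congr rfl fun j _ => ?_
      have h3 := h j x
      rw [Lj_lf_add w μ ℓ hg] at h3
      rw [eq_neg_of_add_eq_zero_left h3, norm_neg])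
  rw [tsum_split hg (fun j => bp ℓ (w j)) w,
    tsum_split hg (fun j => bp ℓ (star (w j))) (fun j => star (w j))] at h1
  have h4 : (fun k : Fin d → ℤ => ∑ j, ‖fc (dw (star (w j)) g) k‖ ^ 2) =
      fun k => ∑ j, ‖fc (dw (w j) g) k‖ ^ 2 := by
    funext k
    exact Finset.sum_congr rfl fun j _ => by rw [fc_star hg]
  rw [h4] at h1
  exact h1

theorem est (hb : BD w μ θ) (hθ : θ < 1) (ℓ : Fin d → ℂ) {g : V d → ℂ} (hg : SP g)
    (h : ∀ j x, Lj w μ j (fun y => lf ℓ y + g y) x = 0) :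
    ∑ j, ‖bp ℓ (w j)‖ ^ 2 ≤ θ ^ 2 * ∑ j, ‖bp ℓ (star (w j))‖ ^ 2 := by
  have h1 := est_main hb ℓ hg h
  have h2 : 0 ≤ ∑' k, ∑ j, ‖fc (dw (w j) g) k‖ ^ 2 :=
    tsum_nonneg fun k => Finset.sum_nonneg fun j _ => by positivity
  have h3 : θ ^ 2 ≤ 1 := by nlinarith [hb.pos]
  nlinarith

theorem est_zero (hb : BD w μ θ) (hθ : θ < 1) {g : V d → ℂ} (hg : SP g)
    (h : ∀ j x, Lj w μ j g x = 0) (x : V d) : g x = g 0 := by
  have h0 : (fun y => lf (0 : Fin d → ℂ) y + g y) = g := by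
    funext y
    unfold lf
    simp
  have h1 := est_main hb 0 hg (by rw [h0]; exact h)
  have hbp : ∀ v : Fin d → ℂ, bp 0 v = 0 := by
    intro v
    unfold bp
    simp
  have hE : Summable fun k => ∑ j, ‖fc (dw (w j) g) k‖ ^ 2 :=
    (energy (H := fun j => dw (w j) g) fun j => hg.dw (w j)).summable
  have h2 : 0 ≤ ∑' k, ∑ j, ‖fc (dw (w j) g) k‖ ^ 2 :=
    tsum_nonneg fun k => Finset.sum_nonneg fun j _ => by positivity
  simp only [hbp, norm_zero] at h1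
  rw [zero_pow two_ne_zero, Finset.sum_const_zero, zero_add] at h1
  have h3 : θ ^ 2 < 1 := by nlinarith [hb.pos]
  have h4 : ∑' k, ∑ j, ‖fc (dw (w j) g) k‖ ^ 2 = 0 := by nlinarith
  obtain ⟨c, hc, hlow⟩ := hb.lower
  refine const_of_fc hg (fun k hk => ?_) x
  have h5 : ∑ j, ‖fc (dw (w j) g) k‖ ^ 2 ≤ 0 := by
    rw [← h4]
    exact hE.le_tsum k fun k' _ => Finset.sum_nonneg fun j _ => by positivity
  have h6 : ∑ j, ‖fc (dw (w j) g) k‖ ^ 2 =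
      (4 * Real.pi ^ 2 * ‖fc g k‖ ^ 2) * ∑ j, ‖pr k (w j)‖ ^ 2 := by
    rw [Finset.mul_sum]
    refine Finset.sum_congr rfl fun j _ => ?_
    rw [fc_dw hg, norm_mul, norm_mul, norm_mul, norm_mul, Complex.norm_I, Complex.norm_real,
      Real.norm_of_nonneg Real.pi_pos.le, Complex.norm_ofNat]
    ring
  rw [h6] at h5
  have h7 := hlow k hk
  have h8 : 0 ≤ 4 * Real.pi ^ 2 * ‖fc g k‖ ^ 2 := by positivity
  have h9 : 4 * Real.pi ^ 2 * ‖fc g k‖ ^ 2 = 0 := by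
    by_contra hne
    have h10 : 0 < 4 * Real.pi ^ 2 * ‖fc g k‖ ^ 2 := lt_of_le_of_ne h8 (Ne.symm hne)
    have h11 : 0 < (4 * Real.pi ^ 2 * ‖fc g k‖ ^ 2) * ∑ j, ‖pr k (w j)‖ ^ 2 :=
      mul_pos h10 (lt_of_lt_of_le hc h7)
    linarith
  have h10 : ‖fc g k‖ ^ 2 = 0 := by
    have h11 : (0 : ℝ) < 4 * Real.pi ^ 2 := by positivity
    exact (mul_eq_zero.1 h9).resolve_left h11.ne'
  exact norm_eq_zero.1 (pow_eq_zero_iff two_ne_zero |>.1 h10)

end LRA
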