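import Pool.Agent.LRA.Bas

/-!
# LRA / ExD: the two operators of the gauge equation, on the side of the Fourier coefficients
-/

set_option autoImplicit false

noncomputable section

open scoped BigOperators ComplexConjugate
open MeasureTheory

namespace LRA

variable {n d : ℕ}

/-- the coefficients of `μ q` -/
def Mop (μ : Fin n → Fin n → V d → ℂ) (q : Fin n → (Fin d → ℤ) → ℂ) (j : Fin n)
    (k : Fin d → ℤ) : ℂ :=
  ∑ i, ∑' l, fc (μ j i) (k - l) * q i l

/-- the projection `P(k) = conj a (conj a)ᵀ / |a|²`, `a = (k·w_j)_j` -/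
def Pop (w : Fin n → Fin d → ℂ) (v : Fin n → (Fin d → ℤ) → ℂ) (i : Fin n)
    (k : Fin d → ℤ) : ℂ :=
  (conj (pr k (w i)) * ∑ j, conj (pr k (w j)) * v j k) / ((∑ j, ‖pr k (w j)‖ ^ 2 : ℝ) : ℂ)

end LRA
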