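import Pool.Agent.LRA.ExM

/-!
# LRA / ExG: existence of the gauge

The solution of the gauge equation (module ExI) is here a hypothesis `hq`.
-/

set_option autoImplicit false

noncomputable section

open scoped BigOperators ComplexConjugate
open MeasureTheory

namespace LRA

variable {n d : ℕ} {w : Fin n → Fin d → ℂ} {μ : Fin n → Fin n → V d → ℂ} {θ : ℝ}

private theorem exg_neg {c : (Fin d → ℤ) → ℂ} (h : RD c) : RD (fun k => - c k) := by
  intro s
  obtain ⟨C, hC⟩ := h s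
  exact ⟨C, fun k => by rw [norm_neg]; exact hC k⟩

private theorem exg_pr0 (u : Fin d → ℂ) : pr (0 : Fin d → ℤ) u = 0 := by
  simp [pr]

private def exgN (w : Fin n → Fin d → ℂ) (k : Fin d → ℤ) : ℝ := ∑ j, ‖pr k (w j)‖ ^ 2

private def exgM (w : Fin n → Fin d → ℂ) (j : Fin n) (k : Fin d → ℤ) : ℂ :=
  -conj (pr k (w j)) / (2 * Real.pi * Complex.I * (exgN w k : ℂ))

private theorem exg_bound (hb : BD w μ θ) : ∃ K : ℝ, ∀ j k, ‖exgM w j k‖ ≤ K * (1 + sz k) ^ 0 := by
  obtain ⟨c, hc0, hc⟩ := hb.lower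
  refine ⟨(1 / c + 1) / 2, fun j k => ?_⟩
  rw [pow_zero, mul_one]
  have hK : 0 ≤ (1 / c + 1) / 2 := by positivity
  by_cases hk : k = 0
  · unfold exgM
    rw [hk, exg_pr0, map_zero, neg_zero, zero_div, norm_zero]
    exact hK
  · have hN : c ≤ exgN w k := hc k hk
    have hN0 : 0 < exgN w k := hc0.trans_le hN
    have hp : ‖pr k (w j)‖ ^ 2 ≤ exgN w k :=
      Finset.single_le_sum (f := fun j => ‖pr k (w j)‖ ^ 2) (fun i _ => by positivity)
        (Finset.mem_univ j)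
    have ha : (1 : ℝ) ≤ ‖(2 * Real.pi * Complex.I : ℂ)‖ := by
      rw [norm_mul, norm_mul, Complex.norm_I, mul_one, Complex.norm_real, Complex.norm_ofNat,
        Real.norm_eq_abs, abs_of_pos Real.pi_pos]
      nlinarith [Real.pi_gt_three]
    unfold exgM
    rw [norm_div, norm_neg, Complex.norm_conj, norm_mul, Complex.norm_real, Real.norm_eq_abs,
      abs_of_pos hN0]
    rw [div_le_iff₀ (by positivity)]
    have h1 : ‖pr k (w j)‖ ≤ (1 + exgN w k) / 2 := by nlinarith [sq_nonneg (‖pr k (w j)‖ - 1)]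
    have h2 : 1 ≤ exgN w k / c := by
      rw [le_div_iff₀ hc0, one_mul]
      exact hN
    have h3 : (1 + exgN w k) / 2 ≤ (1 / c + 1) / 2 * exgN w k := by
      have : (1 / c + 1) / 2 * exgN w k = (exgN w k / c + exgN w k) / 2 := by ring
      rw [this]
      linarith
    have h4 : (1 / c + 1) / 2 * exgN w k ≤
        (1 / c + 1) / 2 * (‖(2 * Real.pi * Complex.I : ℂ)‖ * exgN w k) := by
      refine mul_le_mul_of_nonneg_left ?_ hK
      nlinarith
    exact h1.trans (h3.trans h4)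

theorem exG (hb : BD w μ θ)
    (hq : ∀ q₀ : Fin n → (Fin d → ℤ) → ℂ, (∀ i, RD (q₀ i)) →
      ∃ q : Fin n → (Fin d → ℤ) → ℂ, (∀ i, RD (q i)) ∧
        ∀ i k, q i k = q₀ i k - Pop w (Mop μ q) i k)
    (ℓ : Fin d → ℂ) :
    ∃ g : V d → ℂ, SP g ∧ ∀ k : Fin d → ℤ,
      ∑ j, conj (pr k (w j)) * fc (Lj w μ j (fun y => lf ℓ y + g y)) k = 0 := by
  obtain ⟨c, hc0, hc⟩ := hb.lower
  obtain ⟨K, hK⟩ := exg_bound hb
  have hF0 : ∀ j, SP (fun x : V d => ∑ i, μ j i x * bp ℓ (star (w i))) := fun j =>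
    SP.sum _ fun i _ => (hb.sp j i).mul (SP.const _)
  obtain ⟨v₀, hv₀⟩ : ∃ v₀ : Fin n → (Fin d → ℤ) → ℂ, ∀ j,
      v₀ j = fc (fun x => ∑ i, μ j i x * bp ℓ (star (w i))) := ⟨_, fun _ => rfl⟩
  have hv0 : ∀ j, RD (v₀ j) := fun j => by
    rw [hv₀ j]
    exact (hF0 j).rd
  obtain ⟨q, hqr, hqe⟩ := hq (fun i k => - Pop w v₀ i k) (fun i => exg_neg (Pop_rd w hv0 i))
  obtain ⟨v, hve⟩ : ∃ v : Fin n → (Fin d → ℤ) → ℂ, ∀ j k, v j k = v₀ j k + Mop μ q j k :=
    ⟨_, fun _ _ => rfl⟩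
  have hv : ∀ j, RD (v j) := fun j => by
    have h1 := (hv0 j).add (Mop_rd hb.sp hqr j)
    have h2 : v j = fun k => v₀ j k + Mop μ q j k := funext fun k => hve j k
    rw [h2]
    exact h1
  have hqv : ∀ i k, q i k =
      -((conj (pr k (w i)) * ∑ j, conj (pr k (w j)) * v j k) / (exgN w k : ℂ)) := by
    intro i k
    rw [hqe]
    have h1 : ∑ j, conj (pr k (w j)) * v j k = ∑ j, conj (pr k (w j)) * v₀ j k +
        ∑ j, conj (pr k (w j)) * Mop μ q j k := by
      rw [← Finset.sum_add_distrib]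
      exact Finset.sum_congr rfl fun j _ => by rw [hve, mul_add]
    rw [h1]
    unfold Pop exgN
    ring
  have ha : (2 * Real.pi * Complex.I : ℂ) ≠ 0 := Complex.two_pi_I_ne_zero
  have hgr : RD (fun k => ∑ j, exgM w j k * v j k) :=
    RD.sum _ fun j _ => (hv j).mulpoly (exgM w j) K 0 (hK j)
  have hg : SP (syn (fun k => ∑ j, exgM w j k * v j k)) := syn_sp hgr
  obtain ⟨g, hge⟩ : ∃ g, g = syn (fun k => ∑ j, exgM w j k * v j k) := ⟨_, rfl⟩
  rw [← hge] at hg
  have hgc : ∀ k, fc g k = - (∑ j, conj (pr k (w j)) * v j k) /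
      (2 * Real.pi * Complex.I * (exgN w k : ℂ)) := by
    intro k
    rw [hge, fc_syn hgr]
    unfold exgM
    rw [← Finset.sum_neg_distrib, Finset.sum_div]
    exact Finset.sum_congr rfl fun j _ => by ring
  have hdg : ∀ i x, dw (star (w i)) g x = syn (q i) x := by
    intro i x
    refine SP.ext_fc (hg.dw _) (syn_sp (hqr i)) (fun k => ?_) x
    rw [fc_dw hg, fc_syn (hqr i), pr_star, hgc, hqv]
    generalize (∑ j, conj (pr k (w j)) * v j k) = T
    generalize conj (pr k (w i)) = z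
    rw [div_eq_mul_inv, mul_inv]
    calc 2 * Real.pi * Complex.I * z * (-T * ((2 * Real.pi * Complex.I)⁻¹ * (exgN w k : ℂ)⁻¹))
        = (2 * Real.pi * Complex.I * (2 * Real.pi * Complex.I)⁻¹) * (-(z * T * (exgN w k : ℂ)⁻¹)) := by
          ring
      _ = _ := by rw [mul_inv_cancel₀ ha, one_mul, div_eq_mul_inv]
  refine ⟨g, hg, fun k => ?_⟩
  have hH : ∀ j, SP (fun x : V d => ∑ i, μ j i x * syn (q i) x) := fun j =>
    SP.sum _ fun i _ => (hb.sp j i).mul (syn_sp (hqr i))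
  have hL : ∀ j, Lj w μ j (fun y => lf ℓ y + g y) = fun x =>
      (bp ℓ (w j) + dw (w j) g x) + ((∑ i, μ j i x * bp ℓ (star (w i))) + ∑ i, μ j i x * syn (q i) x) := by
    intro j
    funext x
    have hld : DifferentiableAt ℝ (lf ℓ) x := (lf_contDiff ℓ).differentiable (by simp) x
    unfold Lj
    rw [dw_add _ hld (hg.diff x), dw_lf, ← Finset.sum_add_distrib]
    congr 1
    refine Finset.sum_congr rfl fun i _ => ?_
    rw [dw_add _ hld (hg.diff x), dw_lf, hdg]
    ring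
  have hfc : ∀ j, fc (Lj w μ j (fun y => lf ℓ y + g y)) k =
      (if k = 0 then bp ℓ (w j) else 0) + 2 * Real.pi * Complex.I * pr k (w j) * fc g k + v j k := by
    intro j
    rw [hL j, fc_add ((SP.const _).add (hg.dw _)) ((hF0 j).add (hH j)),
      fc_add (SP.const _) (hg.dw _), fc_add (hF0 j) (hH j), fc_const, fc_dw hg,
      ← Mop_eq hb.sp hqr j k, hve j k, hv₀ j]
  by_cases hk : k = 0
  · refine Finset.sum_eq_zero fun j _ => ?_
    rw [hk, exg_pr0, map_zero, zero_mul]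
  · have hN : (exgN w k : ℂ) ≠ 0 := by
      have h1 : c ≤ exgN w k := hc k hk
      exact_mod_cast (hc0.trans_le h1).ne'
    have hNs : ∑ j, conj (pr k (w j)) * pr k (w j) = (exgN w k : ℂ) := by
      unfold exgN
      push_cast
      exact Finset.sum_congr rfl fun j _ => by rw [Complex.conj_mul']
    have h1 : ∀ j, conj (pr k (w j)) * fc (Lj w μ j (fun y => lf ℓ y + g y)) k =
        2 * Real.pi * Complex.I * fc g k * (conj (pr k (w j)) * pr k (w j)) +
          conj (pr k (w j)) * v j k := by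
      intro j
      rw [hfc j, if_neg hk]
      ring
    rw [Finset.sum_congr rfl fun j _ => h1 j, Finset.sum_add_distrib, ← Finset.mul_sum, hNs, hgc k]
    generalize (∑ j, conj (pr k (w j)) * v j k) = T
    field_simp
    ring

end LRA
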