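import Pool.Agent.LRA.ExM

/-!
# LRA / ExI: the gauge equation `q = q₀ - P μ q` has a rapidly decreasing solution

Iteration of the linear operator `- P μ`; the weighted bound `hw` gives geometric convergence in every weighted norm.
-/

set_option autoImplicit false

noncomputable section

open scoped BigOperators ComplexConjugate
open MeasureTheory

namespace LRA

variable {n d : ℕ} {w : Fin n → Fin d → ℂ} {μ : Fin n → Fin n → V d → ℂ} {θ : ℝ}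

private def exiQ (w : Fin n → Fin d → ℂ) (μ : Fin n → Fin n → V d → ℂ)
    (q₀ : Fin n → (Fin d → ℤ) → ℂ) : ℕ → Fin n → (Fin d → ℤ) → ℂ
  | 0 => q₀
  | m + 1 => fun i k => -Pop w (Mop μ (exiQ w μ q₀ m)) i k

private theorem exi_neg {c : (Fin d → ℤ) → ℂ} (h : RD c) : RD (fun k => -c k) := by
  intro s
  obtain ⟨C, hC⟩ := h s
  exact ⟨C, fun k => by rw [norm_neg]; exact hC k⟩

private theorem exi_rd (hμ : ∀ j k, SP (μ j k)) (q₀ : Fin n → (Fin d → ℤ) → ℂ)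
    (h0 : ∀ i, RD (q₀ i)) (m : ℕ) : ∀ i, RD (exiQ w μ q₀ m i) := by
  induction m with
  | zero => exact h0
  | succ m ih =>
    intro i
    exact exi_neg (Pop_rd w (fun j => Mop_rd hμ ih j) i)

private theorem exi_W {τ : ℝ} (h0 : 0 < τ) (h1 : τ ≤ 1) (s : ℕ) (k : Fin d → ℤ) :
    1 ≤ (1 + τ * sz k) ^ s ∧ (1 + τ * sz k) ^ s ≤ (1 + sz k) ^ s ∧
      (1 + sz k) ^ s ≤ (τ⁻¹) ^ s * (1 + τ * sz k) ^ s := by
  have h2 := sz_nonneg k
  have h3 : 0 ≤ τ * sz k := mul_nonneg h0.le h2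
  refine ⟨one_le_pow₀ (by linarith), ?_, ?_⟩
  · refine pow_le_pow_left₀ (by linarith) ?_ s
    nlinarith
  · rw [← mul_pow]
    refine pow_le_pow_left₀ (by linarith) ?_ s
    rw [mul_add, mul_one, ← mul_assoc, inv_mul_cancel₀ h0.ne', one_mul]
    have h4 : 1 ≤ τ⁻¹ := (one_le_inv₀ h0).2 h1
    linarith

private theorem exi_sum {τ : ℝ} (h0 : 0 < τ) (h1 : τ ≤ 1) (s : ℕ) {v : Fin n → (Fin d → ℤ) → ℂ}
    (hv : ∀ i, RD (v i)) : Summable fun k => ∑ j, ((1 + τ * sz k) ^ s * ‖v j k‖) ^ 2 := by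
  refine summable_sum fun j _ => ?_
  have h2 : RD (fun k => (((1 + τ * sz k) ^ s : ℝ) : ℂ) * v j k) := by
    refine RD.mulpoly (hv j) _ 1 s fun k => ?_
    have h3 := exi_W h0 h1 s k
    rw [Complex.norm_real, Real.norm_of_nonneg (le_trans zero_le_one h3.1), one_mul]
    exact h3.2.1
  refine (RD.summable_sq h2).congr fun k => ?_
  have h3 := exi_W h0 h1 s k
  rw [norm_mul, Complex.norm_real, Real.norm_of_nonneg (le_trans zero_le_one h3.1)]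

private theorem exi_bound (hμ : ∀ j k, SP (μ j k))
    (hw : ∀ s : ℕ, ∃ τ θ' : ℝ, 0 < τ ∧ τ ≤ 1 ∧ 0 ≤ θ' ∧ θ' < 1 ∧
      ∀ q : Fin n → (Fin d → ℤ) → ℂ, (∀ i, RD (q i)) →
        ∑' k, ∑ j, ((1 + τ * sz k) ^ s * ‖Mop μ q j k‖) ^ 2
          ≤ θ' ^ 2 * ∑' k, ∑ j, ((1 + τ * sz k) ^ s * ‖q j k‖) ^ 2)
    (q₀ : Fin n → (Fin d → ℤ) → ℂ) (h0 : ∀ i, RD (q₀ i)) (s : ℕ) :
    ∃ τ θ' A : ℝ, 0 < τ ∧ τ ≤ 1 ∧ 0 ≤ θ' ∧ θ' < 1 ∧ 0 ≤ A ∧
      ∀ m j k, (1 + τ * sz k) ^ s * ‖exiQ w μ q₀ m j k‖ ≤ θ' ^ m * A := by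
  obtain ⟨τ, θ', t0, t1, u0, u1, hb⟩ := hw s
  obtain ⟨N, hN⟩ : ∃ N : ℕ → ℝ, ∀ m, N m =
      ∑' k, ∑ j, ((1 + τ * sz k) ^ s * ‖exiQ w μ q₀ m j k‖) ^ 2 := ⟨_, fun _ => rfl⟩
  have hN0 : ∀ m, 0 ≤ N m := by
    intro m
    rw [hN]
    exact tsum_nonneg fun k => Finset.sum_nonneg fun j _ => sq_nonneg _
  have hstep : ∀ m, N (m + 1) ≤ θ' ^ 2 * N m := by
    intro m
    rw [hN m]
    refine le_trans ?_ (hb _ (exi_rd (w := w) hμ q₀ h0 m))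
    rw [hN]
    have hM : ∀ j, RD (Mop μ (exiQ w μ q₀ m) j) := fun j => Mop_rd hμ (exi_rd (w := w) hμ q₀ h0 m) j
    refine Summable.tsum_le_tsum (fun k => ?_) (exi_sum t0 t1 s (exi_rd (w := w) hμ q₀ h0 (m + 1)))
      (exi_sum t0 t1 s hM)
    have h2 := Pop_le w (Mop μ (exiQ w μ q₀ m)) k
    have h3 : ∀ v : Fin n → (Fin d → ℤ) → ℂ, ∑ j, ((1 + τ * sz k) ^ s * ‖v j k‖) ^ 2 =
        ((1 + τ * sz k) ^ s) ^ 2 * ∑ j, ‖v j k‖ ^ 2 := by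
      intro v
      rw [Finset.mul_sum]
      exact Finset.sum_congr rfl fun j _ => mul_pow _ _ _
    rw [h3, h3]
    refine mul_le_mul_of_nonneg_left ?_ (sq_nonneg _)
    refine le_trans (le_of_eq ?_) h2
    refine Finset.sum_congr rfl fun j _ => ?_
    show ‖-Pop w (Mop μ (exiQ w μ q₀ m)) j k‖ ^ 2 = _
    rw [norm_neg]
  have hpow : ∀ m, N m ≤ (θ' ^ m) ^ 2 * N 0 := by
    intro m
    induction m with
    | zero => simp
    | succ m ih =>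
      calc N (m + 1) ≤ θ' ^ 2 * N m := hstep m
        _ ≤ θ' ^ 2 * ((θ' ^ m) ^ 2 * N 0) := mul_le_mul_of_nonneg_left ih (sq_nonneg _)
        _ = (θ' ^ (m + 1)) ^ 2 * N 0 := by ring
  refine ⟨τ, θ', Real.sqrt (N 0), t0, t1, u0, u1, Real.sqrt_nonneg _, fun m j k => ?_⟩
  have h1 : ((1 + τ * sz k) ^ s * ‖exiQ w μ q₀ m j k‖) ^ 2 ≤ N m := by
    rw [hN m]
    have h2 := (exi_sum t0 t1 s (exi_rd (w := w) hμ q₀ h0 m)).le_tsum k
      (fun k' _ => Finset.sum_nonneg fun j _ => sq_nonneg _)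
    refine le_trans ?_ h2
    exact Finset.single_le_sum
      (f := fun j => ((1 + τ * sz k) ^ s * ‖exiQ w μ q₀ m j k‖) ^ 2)
      (fun j _ => sq_nonneg _) (Finset.mem_univ j)
  have h2 : ((1 + τ * sz k) ^ s * ‖exiQ w μ q₀ m j k‖) ^ 2 ≤ (θ' ^ m * Real.sqrt (N 0)) ^ 2 := by
    rw [mul_pow (θ' ^ m), Real.sq_sqrt (hN0 0)]
    exact h1.trans (hpow m)
  have h3 : 0 ≤ (1 + τ * sz k) ^ s * ‖exiQ w μ q₀ m j k‖ :=
    mul_nonneg (le_trans zero_le_one (exi_W t0 t1 s k).1) (norm_nonneg _)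
  exact (pow_le_pow_iff_left₀ h3 (mul_nonneg (pow_nonneg u0 _) (Real.sqrt_nonneg _)) two_ne_zero).1 h2

private theorem exi_Pop {v : ℕ → Fin n → (Fin d → ℤ) → ℂ} {V' : Fin n → (Fin d → ℤ) → ℂ}
    (w : Fin n → Fin d → ℂ) (k : Fin d → ℤ) (h : ∀ j, HasSum (fun m => v m j k) (V' j k))
    (i : Fin n) : HasSum (fun m => Pop w (v m) i k) (Pop w V' i k) := by
  have h1 : HasSum (fun m => ∑ j, conj (pr k (w j)) * v m j k) (∑ j, conj (pr k (w j)) * V' j k) :=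
    hasSum_sum fun j _ => (h j).mul_left (conj (pr k (w j)))
  exact (h1.mul_left (conj (pr k (w i)))).div_const _

private theorem exi_Mop (hμ : ∀ j k, SP (μ j k)) {v : ℕ → Fin n → (Fin d → ℤ) → ℂ} {θ' A : ℝ}
    (u0 : 0 ≤ θ') (u1 : θ' < 1) (hb : ∀ m j k, ‖v m j k‖ ≤ θ' ^ m * A) (j : Fin n)
    (k : Fin d → ℤ) :
    HasSum (fun m => Mop μ (v m) j k) (Mop μ (fun i l => ∑' m, v m i l) j k) := by
  unfold Mop
  refine hasSum_sum fun i _ => ?_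
  have hs1 : Summable fun m : ℕ => θ' ^ m * A := (summable_geometric_of_lt_one u0 u1).mul_right A
  have hs2 : Summable fun l => ‖fc (μ j i) (k - l)‖ :=
    (Equiv.subLeft k).summable_iff.2 (RD.summable_norm (SP.rd (hμ j i)))
  have hF : Summable fun x : ℕ × (Fin d → ℤ) => fc (μ j i) (k - x.2) * v x.1 i x.2 := by
    have h1 : Summable fun x : ℕ × (Fin d → ℤ) => (θ' ^ x.1 * A) * ‖fc (μ j i) (k - x.2)‖ := by
      refine hs1.mul_of_nonneg hs2 (fun m => ?_) (fun l => norm_nonneg _)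
      exact (norm_nonneg (v m i 0)).trans (hb m i 0)
    refine Summable.of_norm_bounded h1 fun x => ?_
    rw [norm_mul, mul_comm]
    exact mul_le_mul_of_nonneg_right (hb x.1 i x.2) (norm_nonneg _)
  have hm : ∀ l, Summable fun m => v m i l := fun l =>
    Summable.of_norm_bounded hs1 fun m => hb m i l
  have h1 : ∑' l, fc (μ j i) (k - l) * ∑' m, v m i l =
      ∑' m, ∑' l, fc (μ j i) (k - l) * v m i l := by
    rw [← hF.tsum_comm (f := fun m l => fc (μ j i) (k - l) * v m i l)]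
    exact tsum_congr fun l => tsum_mul_left.symm
  rw [h1]
  exact hF.prod.hasSum

theorem exI (hμ : ∀ j k, SP (μ j k))
    (hw : ∀ s : ℕ, ∃ τ θ' : ℝ, 0 < τ ∧ τ ≤ 1 ∧ 0 ≤ θ' ∧ θ' < 1 ∧
      ∀ q : Fin n → (Fin d → ℤ) → ℂ, (∀ i, RD (q i)) →
        ∑' k, ∑ j, ((1 + τ * sz k) ^ s * ‖Mop μ q j k‖) ^ 2
          ≤ θ' ^ 2 * ∑' k, ∑ j, ((1 + τ * sz k) ^ s * ‖q j k‖) ^ 2)
    (q₀ : Fin n → (Fin d → ℤ) → ℂ) (h0 : ∀ i, RD (q₀ i)) :
    ∃ q : Fin n → (Fin d → ℤ) → ℂ, (∀ i, RD (q i)) ∧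
      ∀ i k, q i k = q₀ i k - Pop w (Mop μ q) i k := by
  obtain ⟨τ₀, θ₀, A₀, -, -, u0, u1, hA0, hb0⟩ := exi_bound (w := w) hμ hw q₀ h0 0
  have hb : ∀ m j k, ‖exiQ w μ q₀ m j k‖ ≤ θ₀ ^ m * A₀ := by
    intro m j k
    have h1 := hb0 m j k
    rwa [pow_zero, one_mul] at h1
  have hs : ∀ j k, Summable fun m => exiQ w μ q₀ m j k := fun j k =>
    Summable.of_norm_bounded ((summable_geometric_of_lt_one u0 u1).mul_right A₀)
      fun m => hb m j k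
  refine ⟨fun i k => ∑' m, exiQ w μ q₀ m i k, fun i s => ?_, fun i k => ?_⟩
  · obtain ⟨τ, θ', A, t0, t1, v0, v1, hA, hB⟩ := exi_bound (w := w) hμ hw q₀ h0 s
    refine ⟨(τ⁻¹) ^ s * ((1 - θ')⁻¹ * A), fun k => ?_⟩
    have h1 := exi_W t0 t1 s k
    have hg : Summable fun m : ℕ => θ' ^ m * A :=
      (summable_geometric_of_lt_one v0 v1).mul_right A
    have hn : Summable fun m => ‖exiQ w μ q₀ m i k‖ :=
      Summable.of_nonneg_of_le (fun m => norm_nonneg _) (fun m => hb m i k)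
        ((summable_geometric_of_lt_one u0 u1).mul_right A₀)
    have h2 : (1 + τ * sz k) ^ s * ‖∑' m, exiQ w μ q₀ m i k‖ ≤ (1 - θ')⁻¹ * A := by
      calc (1 + τ * sz k) ^ s * ‖∑' m, exiQ w μ q₀ m i k‖
          ≤ (1 + τ * sz k) ^ s * ∑' m, ‖exiQ w μ q₀ m i k‖ :=
            mul_le_mul_of_nonneg_left (norm_tsum_le_tsum_norm hn) (le_trans zero_le_one h1.1)
        _ = ∑' m, (1 + τ * sz k) ^ s * ‖exiQ w μ q₀ m i k‖ := tsum_mul_left.symm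
        _ ≤ ∑' m : ℕ, θ' ^ m * A := (hn.mul_left _).tsum_le_tsum (fun m => hB m i k) hg
        _ = (1 - θ')⁻¹ * A := by rw [tsum_mul_right, tsum_geometric_of_lt_one v0 v1]
    calc (1 + sz k) ^ s * ‖∑' m, exiQ w μ q₀ m i k‖
        ≤ (τ⁻¹) ^ s * (1 + τ * sz k) ^ s * ‖∑' m, exiQ w μ q₀ m i k‖ :=
          mul_le_mul_of_nonneg_right h1.2.2 (norm_nonneg _)
      _ = (τ⁻¹) ^ s * ((1 + τ * sz k) ^ s * ‖∑' m, exiQ w μ q₀ m i k‖) := by ring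
      _ ≤ (τ⁻¹) ^ s * ((1 - θ')⁻¹ * A) :=
          mul_le_mul_of_nonneg_left h2 (pow_nonneg (inv_nonneg.2 t0.le) _)
  · have hM := exi_Pop (v := fun m => Mop μ (exiQ w μ q₀ m)) w k
      (fun j => exi_Mop hμ u0 u1 hb j k) i
    show ∑' m, exiQ w μ q₀ m i k = q₀ i k - _
    rw [(hs i k).tsum_eq_zero_add, ← hM.tsum_eq, sub_eq_add_neg, ← tsum_neg]
    rfl

end LRA
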