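import Pool.Agent.LRA.ExM

/-!
# LRA / ExW: the weighted bound

PLAN.  Write `W k = (1 + τ sz k)^s` (so the weight in the statement is `W k ^ 2`), `0 < τ ≤ 1`.
1. `W k ≤ (1 + τ sz (k-l))^s W l` (`1 + τ sz k ≤ (1 + τ sz l) (1 + τ sz (k - l))`, `sz_add_le`), also
   `W l ≤ (1 + τ sz (k-l))^s W k` (`sz_neg`), hence with `c = (1 + τ sz (k-l))^s ≥ 1`:
   `|W k - W l| ≤ (c - 1) W l`.
2. `(1 + τ t)^s - 1 ≤ τ * (1 + t)^s * s` for `t ≥ 0`, `0 ≤ τ ≤ 1` (induction on `s`: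
   `(1 + τ t)^(s+1) - 1 = ((1 + τ t)^s - 1)(1 + τ t) + τ t ≤ τ s (1+t)^s (1 + t) + τ (1+t)^(s+1)`).
3. For `RD q`: `W k Mop μ q j k = Mop μ (W q) j k + R j k`,
   `R j k = ∑ i ∑' l, fc (μ j i) (k-l) (W k - W l) q i l`, and by 1, 2
   `‖R j k‖ ≤ τ ∑ i ∑' l, b_{ji}(k-l) ‖W l q i l‖`, `b_{ji}(m) = s (1 + sz m)^s ‖fc (μ j i) m‖`, summable
   (`RD.summable_pow`, `SP.rd`).  Let `β` bound all `∑' b_{ji}`.
4. Young / Schur: `∑_k (∑'_l b(k-l) u(l))^2 ≤ (∑' b)^2 ∑ u^2` for nonnegative summable `b` and square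
   summable `u` (Cauchy-Schwarz `(∑_l b(k-l) u(l))^2 ≤ (∑_l b(k-l)) (∑_l b(k-l) u(l)^2)`, sum over `k`,
   interchange).  Hence `∑ ‖R j k‖^2 ≤ τ^2 K ∑_k ∑_i ‖W k q i k‖^2`, `K = n^3 β^2` or similar.
5. `‖x + y‖^2 ≤ (1 + η) ‖x‖^2 + (1 + 1/η) ‖y‖^2`, `Mop_le` for `W q` (again `RD`, `RD.mulpoly`):
   the total is at most `((1 + η) θ^2 + (1 + 1/η) τ^2 K) N(W q)`; as `θ < 1` choose `η` with
   `(1 + η) θ^2 < 1`, then `τ` small.
All sums over `k` are summable since everything is `RD`.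
-/

set_option autoImplicit false

noncomputable section

open scoped BigOperators ComplexConjugate
open MeasureTheory

namespace LRA

variable {n d : ℕ} {w : Fin n → Fin d → ℂ} {μ : Fin n → Fin n → V d → ℂ} {θ : ℝ}

private theorem exw_pow (s : ℕ) {t τ : ℝ} (ht : 0 ≤ t) (h0 : 0 ≤ τ) (h1 : τ ≤ 1) :
    (1 + τ * t) ^ s - 1 ≤ τ * (s * (1 + t) ^ s) := by
  induction s with
  | zero => simp
  | succ s ih =>
    have h2 : 0 ≤ τ * t := mul_nonneg h0 ht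
    have h3 : τ * t ≤ t := mul_le_of_le_one_left ht h1
    have h4 : 1 ≤ (1 + t) ^ s := one_le_pow₀ (by linarith)
    have h5 : (1 + τ * t) ^ (s + 1) - 1 = ((1 + τ * t) ^ s - 1) * (1 + τ * t) + τ * t := by ring
    have h6 : ((1 + τ * t) ^ s - 1) * (1 + τ * t) ≤ τ * (s * (1 + t) ^ s) * (1 + t) := by
      refine mul_le_mul ih (by linarith) (by linarith) ?_
      have : 0 ≤ (s : ℝ) := Nat.cast_nonneg s
      positivity
    have h7 : τ * t ≤ τ * (1 + t) ^ (s + 1) := by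
      refine mul_le_mul_of_nonneg_left ?_ h0
      rw [pow_succ]
      nlinarith
    rw [h5]
    refine (add_le_add h6 h7).trans (le_of_eq ?_)
    push_cast
    ring

private theorem exw_abs {a b c : ℝ} (ha : 0 ≤ a) (hb : 0 ≤ b) (h1 : a ≤ c * b)
    (h2 : b ≤ c * a) : |a - b| ≤ (c - 1) * b := by
  rw [abs_le]
  constructor
  · rcases le_total 2 c with h | h
    · nlinarith
    · have h3 : (2 - c) * b ≤ (2 - c) * (c * a) := mul_le_mul_of_nonneg_left h2 (by linarith)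
      nlinarith [mul_nonneg ha (sq_nonneg (c - 1))]
  · linarith

private theorem exw_W {τ : ℝ} (h0 : 0 ≤ τ) (s : ℕ) (k l : Fin d → ℤ) :
    |(1 + τ * sz k) ^ s - (1 + τ * sz l) ^ s| ≤
      ((1 + τ * sz (k - l)) ^ s - 1) * (1 + τ * sz l) ^ s := by
  have hk := mul_nonneg h0 (sz_nonneg k)
  have hl := mul_nonneg h0 (sz_nonneg l)
  have hm := mul_nonneg h0 (sz_nonneg (k - l))
  refine exw_abs (pow_nonneg (by linarith) s) (pow_nonneg (by linarith) s) ?_ ?_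
  · rw [← mul_pow]
    refine pow_le_pow_left₀ (by linarith) ?_ s
    have h1 : sz k ≤ sz (k - l) + sz l := by
      have h2 := sz_add_le (k - l) l
      rwa [sub_add_cancel] at h2
    nlinarith [mul_nonneg hl hm, mul_le_mul_of_nonneg_left h1 h0]
  · rw [← mul_pow]
    refine pow_le_pow_left₀ (by linarith) ?_ s
    have h1 : sz l ≤ sz (k - l) + sz k := by
      have h2 := sz_add_le (-(k - l)) k
      rw [sz_neg] at h2
      have h3 : -(k - l) + k = l := by abel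
      rwa [h3] at h2
    nlinarith [mul_nonneg hk hm, mul_le_mul_of_nonneg_left h1 h0]

private theorem exw_cs {ι : Type} {a u : ι → ℝ} (ha : ∀ i, 0 ≤ a i) (h1 : Summable a)
    (h2 : Summable fun i => a i * u i) (h3 : Summable fun i => a i * u i ^ 2) :
    (∑' i, a i * u i) ^ 2 ≤ (∑' i, a i) * ∑' i, a i * u i ^ 2 := by
  have h4 : ∀ x : ℝ, 0 ≤ (∑' i, a i) * (x * x) + (-2 * ∑' i, a i * u i) * x + ∑' i, a i * u i ^ 2 := by
    intro x
    have h5 : (∑' i, a i) * (x * x) + (-2 * ∑' i, a i * u i) * x + ∑' i, a i * u i ^ 2 =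
        ∑' i, a i * (u i - x) ^ 2 := by
      have h6 : ∀ i, a i * (u i - x) ^ 2 = a i * (x * x) + a i * u i * (-2 * x) + a i * u i ^ 2 := by
        intro i
        ring
      simp only [h6]
      rw [((h1.mul_right _).add (h2.mul_right _)).tsum_add h3, (h1.mul_right _).tsum_add (h2.mul_right _),
        tsum_mul_right, tsum_mul_right]
      ring
    rw [h5]
    exact tsum_nonneg fun i => mul_nonneg (ha i) (sq_nonneg _)
  have h5 := discrim_le_zero h4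
  unfold discrim at h5
  nlinarith

private theorem exw_conv {b v : (Fin d → ℤ) → ℝ} (hb0 : ∀ k, 0 ≤ b k) (hv0 : ∀ k, 0 ≤ v k)
    (hb : Summable b) (hv : Summable v) :
    (∀ k, Summable fun l => b (k - l) * v l) ∧ (Summable fun k => ∑' l, b (k - l) * v l) ∧
      ∑' k, ∑' l, b (k - l) * v l = (∑' k, b k) * ∑' l, v l := by
  let e : (Fin d → ℤ) × (Fin d → ℤ) ≃ (Fin d → ℤ) × (Fin d → ℤ) :=
    { toFun := fun p => (p.1 - p.2, p.2)
      invFun := fun p => (p.1 + p.2, p.2)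
      left_inv := fun p => by simp
      right_inv := fun p => by simp }
  have h1 : Summable fun p : (Fin d → ℤ) × (Fin d → ℤ) => b p.1 * v p.2 :=
    hb.mul_of_nonneg hv hb0 hv0
  have h2 : Summable fun p : (Fin d → ℤ) × (Fin d → ℤ) => b (p.1 - p.2) * v p.2 :=
    (e.summable_iff (f := fun p : (Fin d → ℤ) × (Fin d → ℤ) => b p.1 * v p.2)).2 h1
  refine ⟨fun k => h2.prod_factor k, h2.prod, ?_⟩
  rw [← h2.tsum_prod, hb.tsum_mul_tsum hv h1]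
  exact e.tsum_eq (fun p : (Fin d → ℤ) × (Fin d → ℤ) => b p.1 * v p.2)

private theorem exw_young {b u : (Fin d → ℤ) → ℝ} (hb0 : ∀ k, 0 ≤ b k) (hu0 : ∀ k, 0 ≤ u k)
    (hb : Summable b) (hu : Summable u) (hu2 : Summable fun l => u l ^ 2) :
    (Summable fun k => (∑' l, b (k - l) * u l) ^ 2) ∧
      ∑' k, (∑' l, b (k - l) * u l) ^ 2 ≤ (∑' k, b k) ^ 2 * ∑' l, u l ^ 2 := by
  obtain ⟨h1, -, -⟩ := exw_conv hb0 hu0 hb hu
  obtain ⟨h2, h3, h4⟩ := exw_conv hb0 (fun k => sq_nonneg (u k)) hb hu2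
  have h5 : ∀ k : Fin d → ℤ, (Summable fun l => b (k - l)) ∧ ∑' l, b (k - l) = ∑' l, b l := by
    intro k
    exact ⟨((Equiv.subLeft k).summable_iff (f := b)).2 hb, (Equiv.subLeft k).tsum_eq b⟩
  have h6 : ∀ k : Fin d → ℤ, (∑' l, b (k - l) * u l) ^ 2 ≤ (∑' l, b l) * ∑' l, b (k - l) * u l ^ 2 := by
    intro k
    have h7 := exw_cs (a := fun l => b (k - l)) (u := u) (fun l => hb0 _) (h5 k).1 (h1 k) (h2 k)
    rwa [(h5 k).2] at h7
  have h7 : Summable fun k => (∑' l, b l) * ∑' l, b (k - l) * u l ^ 2 := h3.mul_left _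
  have h8 : Summable fun k => (∑' l, b (k - l) * u l) ^ 2 :=
    Summable.of_nonneg_of_le (fun k => sq_nonneg _) h6 h7
  refine ⟨h8, (h8.tsum_le_tsum h6 h7).trans (le_of_eq ?_)⟩
  rw [tsum_mul_left, h4]
  ring

private theorem exw_two {x y : ℂ} {η r : ℝ} (hη : 0 < η) (hy : ‖y‖ ≤ r) :
    ‖x + y‖ ^ 2 ≤ (1 + η) * ‖x‖ ^ 2 + (1 + 1 / η) * r ^ 2 := by
  have h1 : ‖x + y‖ ≤ ‖x‖ + ‖y‖ := norm_add_le x y
  have h2 : ‖x + y‖ ^ 2 ≤ (‖x‖ + r) ^ 2 := pow_le_pow_left₀ (norm_nonneg _) (by linarith) 2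
  refine h2.trans ?_
  have h3 : (1 + η) * ‖x‖ ^ 2 + (1 + 1 / η) * r ^ 2 - (‖x‖ + r) ^ 2 = (η * ‖x‖ - r) ^ 2 / η := by
    field_simp
    ring
  have h4 : 0 ≤ (η * ‖x‖ - r) ^ 2 / η := by positivity
  linarith

/-- the kernel of the commutator of `μ` with the weight -/
private def exwb (μ : Fin n → Fin n → V d → ℂ) (s : ℕ) (m : Fin d → ℤ) : ℝ :=
  ∑ j, ∑ i, (s : ℝ) * ((1 + sz m) ^ s * ‖fc (μ j i) m‖)

private theorem exwb_term (μ : Fin n → Fin n → V d → ℂ) (s : ℕ) (m : Fin d → ℤ) (j i : Fin n) :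
    0 ≤ (s : ℝ) * ((1 + sz m) ^ s * ‖fc (μ j i) m‖) := by
  have h1 := sz_nonneg m
  positivity

private theorem exwb_nonneg (μ : Fin n → Fin n → V d → ℂ) (s : ℕ) (m : Fin d → ℤ) : 0 ≤ exwb μ s m :=
  Finset.sum_nonneg fun j _ => Finset.sum_nonneg fun i _ => exwb_term μ s m j i

private theorem exwb_le (μ : Fin n → Fin n → V d → ℂ) (s : ℕ) (m : Fin d → ℤ) (j i : Fin n) :
    (s : ℝ) * ((1 + sz m) ^ s * ‖fc (μ j i) m‖) ≤ exwb μ s m := by
  refine le_trans ?_ (Finset.single_le_sum (f := fun j => ∑ i, (s : ℝ) * ((1 + sz m) ^ s * ‖fc (μ j i) m‖))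
    (fun j _ => Finset.sum_nonneg fun i _ => exwb_term μ s m j i) (Finset.mem_univ j))
  exact Finset.single_le_sum (f := fun i => (s : ℝ) * ((1 + sz m) ^ s * ‖fc (μ j i) m‖))
    (fun i _ => exwb_term μ s m j i) (Finset.mem_univ i)

private theorem exwb_summable (hμ : ∀ j k, SP (μ j k)) (s : ℕ) : Summable (exwb μ s) := by
  unfold exwb
  exact summable_sum fun j _ => summable_sum fun i _ => ((hμ j i).rd.summable_pow s).mul_left _

/-- the weighted sequence -/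
private def exwq (τ : ℝ) (s : ℕ) (q : Fin n → (Fin d → ℤ) → ℂ) (i : Fin n) (k : Fin d → ℤ) : ℂ :=
  (((1 + τ * sz k) ^ s : ℝ) : ℂ) * q i k

private theorem exw_Wnn {τ : ℝ} (h0 : 0 ≤ τ) (s : ℕ) (k : Fin d → ℤ) : 0 ≤ (1 + τ * sz k) ^ s := by
  have hk := mul_nonneg h0 (sz_nonneg k)
  exact pow_nonneg (by linarith) s

private theorem exwq_norm {τ : ℝ} (h0 : 0 ≤ τ) (s : ℕ) (q : Fin n → (Fin d → ℤ) → ℂ) (i : Fin n)
    (k : Fin d → ℤ) : ‖exwq τ s q i k‖ = (1 + τ * sz k) ^ s * ‖q i k‖ := by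
  unfold exwq
  rw [norm_mul, Complex.norm_real, Real.norm_of_nonneg (exw_Wnn h0 s k)]

private theorem exwq_rd {τ : ℝ} (h0 : 0 ≤ τ) (h1 : τ ≤ 1) (s : ℕ) {q : Fin n → (Fin d → ℤ) → ℂ}
    (hq : ∀ i, RD (q i)) (i : Fin n) : RD (exwq τ s q i) := by
  refine (hq i).mulpoly (fun k => (((1 + τ * sz k) ^ s : ℝ) : ℂ)) 1 s fun k => ?_
  rw [Complex.norm_real, Real.norm_of_nonneg (exw_Wnn h0 s k), one_mul]
  have hk := mul_nonneg h0 (sz_nonneg k)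
  have hk' := mul_le_of_le_one_left (sz_nonneg k) h1
  exact pow_le_pow_left₀ (by linarith) (by linarith) s

/-- the commutator is small -/
private theorem exw_comm (hμ : ∀ j k, SP (μ j k)) (s : ℕ) {τ : ℝ} (h0 : 0 ≤ τ) (h1 : τ ≤ 1)
    {q : Fin n → (Fin d → ℤ) → ℂ} (hq : ∀ i, RD (q i)) (j : Fin n) (k : Fin d → ℤ) :
    ‖(((1 + τ * sz k) ^ s : ℝ) : ℂ) * Mop μ q j k - Mop μ (exwq τ s q) j k‖ ≤
      τ * ∑' l, exwb μ s (k - l) * ∑ i, ‖exwq τ s q i l‖ := by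
  have hS1 : ∀ i, Summable fun l => fc (μ j i) (k - l) * q i l := fun i =>
    ((hμ j i).rd.conv_summable (hq i) k).of_norm
  have hS2 : ∀ i, Summable fun l => fc (μ j i) (k - l) * exwq τ s q i l := fun i =>
    ((hμ j i).rd.conv_summable (exwq_rd h0 h1 s hq i) k).of_norm
  have hb := exwb_summable (μ := μ) hμ s
  have hu : ∀ i, Summable fun l => ‖exwq τ s q i l‖ := fun i => (exwq_rd h0 h1 s hq i).summable_norm
  have hS3 : ∀ i, Summable fun l => exwb μ s (k - l) * ‖exwq τ s q i l‖ := fun i =>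
    (exw_conv (fun k => exwb_nonneg μ s k) (fun l => norm_nonneg _) hb (hu i)).1 k
  have e1 : (((1 + τ * sz k) ^ s : ℝ) : ℂ) * Mop μ q j k - Mop μ (exwq τ s q) j k =
      ∑ i, ∑' l, ((((1 + τ * sz k) ^ s : ℝ) : ℂ) * (fc (μ j i) (k - l) * q i l) -
        fc (μ j i) (k - l) * exwq τ s q i l) := by
    unfold Mop
    rw [Finset.mul_sum, ← Finset.sum_sub_distrib]
    refine Finset.sum_congr rfl fun i _ => ?_
    rw [((hS1 i).mul_left _).tsum_sub (hS2 i), tsum_mul_left]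
  have e2 : τ * ∑' l, exwb μ s (k - l) * ∑ i, ‖exwq τ s q i l‖ =
      ∑ i, ∑' l, τ * (exwb μ s (k - l) * ‖exwq τ s q i l‖) := by
    simp only [Finset.mul_sum]
    rw [Summable.tsum_finsetSum fun i _ => hS3 i, Finset.mul_sum]
    exact Finset.sum_congr rfl fun i _ => tsum_mul_left.symm
  rw [e1, e2]
  refine (norm_sum_le _ _).trans (Finset.sum_le_sum fun i _ => ?_)
  refine tsum_of_norm_bounded ((hS3 i).mul_left τ).hasSum fun l => ?_
  have e3 : (((1 + τ * sz k) ^ s : ℝ) : ℂ) * (fc (μ j i) (k - l) * q i l) -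
      fc (μ j i) (k - l) * exwq τ s q i l =
      fc (μ j i) (k - l) * (((((1 + τ * sz k) ^ s - (1 + τ * sz l) ^ s : ℝ)) : ℂ) * q i l) := by
    unfold exwq
    push_cast
    ring
  rw [e3, norm_mul, norm_mul, Complex.norm_real, Real.norm_eq_abs, exwq_norm h0]
  have h2 := exw_W h0 s k l
  have h3 := exw_pow s (sz_nonneg (k - l)) h0 h1
  have h4 := exwb_le μ s (k - l) j i
  have h5 := exw_Wnn h0 s l
  have h6 : |(1 + τ * sz k) ^ s - (1 + τ * sz l) ^ s| ≤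
      τ * (s * (1 + sz (k - l)) ^ s) * (1 + τ * sz l) ^ s :=
    h2.trans (mul_le_mul_of_nonneg_right h3 h5)
  calc ‖fc (μ j i) (k - l)‖ * (|(1 + τ * sz k) ^ s - (1 + τ * sz l) ^ s| * ‖q i l‖)
      ≤ ‖fc (μ j i) (k - l)‖ * (τ * (s * (1 + sz (k - l)) ^ s) * (1 + τ * sz l) ^ s * ‖q i l‖) :=
        mul_le_mul_of_nonneg_left (mul_le_mul_of_nonneg_right h6 (norm_nonneg _)) (norm_nonneg _)
    _ = τ * ((s * ((1 + sz (k - l)) ^ s * ‖fc (μ j i) (k - l)‖)) * ((1 + τ * sz l) ^ s * ‖q i l‖)) := by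
        ring
    _ ≤ τ * (exwb μ s (k - l) * ((1 + τ * sz l) ^ s * ‖q i l‖)) :=
        mul_le_mul_of_nonneg_left (mul_le_mul_of_nonneg_right h4 (mul_nonneg h5 (norm_nonneg _))) h0

private theorem exw_core (hb : BD w μ θ) (s : ℕ) {τ η : ℝ} (h0 : 0 ≤ τ) (h1 : τ ≤ 1) (hη : 0 < η)
    {q : Fin n → (Fin d → ℤ) → ℂ} (hq : ∀ i, RD (q i)) :
    ∑' k, ∑ j, ((1 + τ * sz k) ^ s * ‖Mop μ q j k‖) ^ 2
      ≤ ((1 + η) * θ ^ 2 + (1 + 1 / η) * τ ^ 2 * (n * ((∑' m, exwb μ s m) ^ 2 * n))) *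
        ∑' k, ∑ j, ((1 + τ * sz k) ^ s * ‖q j k‖) ^ 2 := by
  set Q := exwq τ s q with hQ
  have hQr : ∀ i, RD (Q i) := fun i => exwq_rd h0 h1 s hq i
  have hN : ∀ k, ∑ j, ((1 + τ * sz k) ^ s * ‖q j k‖) ^ 2 = ∑ j, ‖Q j k‖ ^ 2 := by
    intro k
    exact Finset.sum_congr rfl fun j _ => by rw [hQ, exwq_norm h0]
  simp only [hN]
  have hQs : Summable fun k => ∑ j, ‖Q j k‖ ^ 2 := summable_sum fun j _ => (hQr j).summable_sq
  have hu0 : ∀ k, 0 ≤ ∑ i, ‖Q i k‖ := fun k => Finset.sum_nonneg fun i _ => norm_nonneg _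
  have hu : Summable fun k => ∑ i, ‖Q i k‖ := summable_sum fun i _ => (hQr i).summable_norm
  have hule : ∀ k, (∑ i, ‖Q i k‖) ^ 2 ≤ n * ∑ i, ‖Q i k‖ ^ 2 := by
    intro k
    have h2 := sq_sum_le_card_mul_sum_sq (s := (Finset.univ : Finset (Fin n))) (f := fun i => ‖Q i k‖)
    rwa [Finset.card_univ, Fintype.card_fin] at h2
  have hu2 : Summable fun k => (∑ i, ‖Q i k‖) ^ 2 :=
    Summable.of_nonneg_of_le (fun k => sq_nonneg _) hule (hQs.mul_left _)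
  obtain ⟨hc1, hc2⟩ := exw_young (fun k => exwb_nonneg μ s k) hu0 (exwb_summable hb.sp s) hu hu2
  have hu3 : ∑' k, (∑ i, ‖Q i k‖) ^ 2 ≤ n * ∑' k, ∑ i, ‖Q i k‖ ^ 2 := by
    rw [← tsum_mul_left]
    exact hu2.tsum_le_tsum hule (hQs.mul_left _)
  have hM := Mop_le hb hQr
  have hMs : Summable fun k => ∑ j, ‖Mop μ Q j k‖ ^ 2 :=
    summable_sum fun j _ => (Mop_rd hb.sp hQr j).summable_sq
  have hpt : ∀ k, ∑ j, ((1 + τ * sz k) ^ s * ‖Mop μ q j k‖) ^ 2 ≤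
      (1 + η) * ∑ j, ‖Mop μ Q j k‖ ^ 2 +
        (1 + 1 / η) * τ ^ 2 * n * (∑' l, exwb μ s (k - l) * ∑ i, ‖Q i l‖) ^ 2 := by
    intro k
    have h2 : ∀ j ∈ (Finset.univ : Finset (Fin n)), ((1 + τ * sz k) ^ s * ‖Mop μ q j k‖) ^ 2 ≤
        (1 + η) * ‖Mop μ Q j k‖ ^ 2 +
        (1 + 1 / η) * (τ * ∑' l, exwb μ s (k - l) * ∑ i, ‖Q i l‖) ^ 2 := by
      intro j _
      have h3 := exw_two (x := Mop μ Q j k)
        (y := (((1 + τ * sz k) ^ s : ℝ) : ℂ) * Mop μ q j k - Mop μ Q j k) hη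
        (exw_comm hb.sp s h0 h1 hq j k)
      rw [add_sub_cancel, norm_mul, Complex.norm_real, Real.norm_of_nonneg (exw_Wnn h0 s k)] at h3
      exact h3
    refine (Finset.sum_le_sum h2).trans (le_of_eq ?_)
    rw [Finset.sum_add_distrib, ← Finset.mul_sum, Finset.sum_const, Finset.card_univ, Fintype.card_fin,
      nsmul_eq_mul]
    ring
  have hR : Summable fun k => (1 + η) * ∑ j, ‖Mop μ Q j k‖ ^ 2 +
        (1 + 1 / η) * τ ^ 2 * n * (∑' l, exwb μ s (k - l) * ∑ i, ‖Q i l‖) ^ 2 :=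
    (hMs.mul_left _).add (hc1.mul_left _)
  have hL : Summable fun k => ∑ j, ((1 + τ * sz k) ^ s * ‖Mop μ q j k‖) ^ 2 :=
    Summable.of_nonneg_of_le (fun k => Finset.sum_nonneg fun j _ => sq_nonneg _) hpt hR
  refine (hL.tsum_le_tsum hpt hR).trans ?_
  rw [(hMs.mul_left _).tsum_add (hc1.mul_left _), tsum_mul_left, tsum_mul_left]
  have h2 : (∑' k, (∑' l, exwb μ s (k - l) * ∑ i, ‖Q i l‖) ^ 2) ≤
      (∑' m, exwb μ s m) ^ 2 * (n * ∑' k, ∑ i, ‖Q i k‖ ^ 2) :=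
    hc2.trans (mul_le_mul_of_nonneg_left hu3 (sq_nonneg _))
  have h3 : 0 ≤ (1 + 1 / η) * τ ^ 2 * n := by positivity
  have h4 := mul_le_mul_of_nonneg_left h2 h3
  have h5 := mul_le_mul_of_nonneg_left hM (by linarith : (0 : ℝ) ≤ 1 + η)
  refine (add_le_add h5 h4).trans (le_of_eq ?_)
  ring

theorem weighted (hb : BD w μ θ) (hθ : θ < 1) (s : ℕ) :
    ∃ τ θ' : ℝ, 0 < τ ∧ τ ≤ 1 ∧ 0 ≤ θ' ∧ θ' < 1 ∧
      ∀ q : Fin n → (Fin d → ℤ) → ℂ, (∀ i, RD (q i)) →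
        ∑' k, ∑ j, ((1 + τ * sz k) ^ s * ‖Mop μ q j k‖) ^ 2
          ≤ θ' ^ 2 * ∑' k, ∑ j, ((1 + τ * sz k) ^ s * ‖q j k‖) ^ 2 := by
  have hθ0 := hb.pos
  have hθ1 : θ ^ 2 < 1 := by nlinarith
  have hη : 0 < (1 - θ ^ 2) / 2 := by linarith
  set η := (1 - θ ^ 2) / 2 with hηd
  set A : ℝ := (1 + 1 / η) * (n * ((∑' m, exwb μ s m) ^ 2 * n)) with hA
  have hA0 : 0 ≤ A := by positivity
  set ρ := (1 - θ ^ 2) / 4 with hρ
  have hρ0 : 0 < ρ := by linarith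
  have hτ0 : 0 < ρ / (ρ + A) := div_pos hρ0 (by linarith)
  have hτ1 : ρ / (ρ + A) ≤ 1 := (div_le_one (by linarith)).2 (by linarith)
  have hτA : ρ / (ρ + A) * A ≤ ρ := by
    rw [div_mul_eq_mul_div, div_le_iff₀ (by linarith)]
    nlinarith
  set τ := ρ / (ρ + A) with hτ
  refine ⟨τ, Real.sqrt ((3 + θ ^ 2) / 4), hτ0, hτ1, Real.sqrt_nonneg _, ?_, ?_⟩
  · rw [Real.sqrt_lt' one_pos]
    linarith
  · intro q hq
    rw [Real.sq_sqrt (by nlinarith)]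
    refine (exw_core hb s hτ0.le hτ1 hη hq).trans (mul_le_mul_of_nonneg_right ?_ ?_)
    · have h1 : (1 + 1 / η) * τ ^ 2 * (n * ((∑' m, exwb μ s m) ^ 2 * n)) = τ * (τ * A) := by
        rw [hA]
        ring
      rw [h1]
      have h2 : τ * (τ * A) ≤ 1 * (τ * A) := mul_le_mul_of_nonneg_right hτ1 (mul_nonneg hτ0.le hA0)
      have h3 : (1 + η) * θ ^ 2 ≤ (1 + θ ^ 2) / 2 := by
        rw [hηd]
        nlinarith [sq_nonneg θ]
      have h4 : ρ = (1 - θ ^ 2) / 4 := rfl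
      linarith
    · exact tsum_nonneg fun k => Finset.sum_nonneg fun j _ => sq_nonneg _

end LRA
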