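import Pool.Agent.LRA.FDer

/-!
# LRA / FRd: the Fourier coefficients of a smooth periodic function decrease rapidly

The iterated derivatives in the direction `e_l` are bounded, so `|k_l|^s ‖fc F k‖` is bounded; and
`1 + ∑_l |k_l|` is at most `(d + 1)` times the maximum of `1` and the `|k_l|`.
-/

set_option autoImplicit false

noncomputable section

open scoped BigOperators
open MeasureTheory

namespace LRA

variable {d : ℕ}

private theorem frd_it {F : V d → ℂ} (h : SP F) (l : Fin d) (s : ℕ) :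
    ∃ G : V d → ℂ, SP G ∧ ∀ k, fc G k = (2 * Real.pi * Complex.I * (k l : ℂ)) ^ s * fc F k := by
  induction s with
  | zero => exact ⟨F, h, fun k => by rw [pow_zero, one_mul]⟩
  | succ s ih =>
    obtain ⟨G, hG, hGk⟩ := ih
    refine ⟨dw (Pi.single l 1) G, hG.dw _, fun k => ?_⟩
    have h1 : pr k (Pi.single l 1) = (k l : ℂ) := by
      unfold pr
      rw [Finset.sum_eq_single l]
      · rw [Pi.single_eq_same, mul_one]
      · intro b _ hb
        rw [Pi.single_eq_of_ne hb, mul_zero]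
      · intro h
        exact absurd (Finset.mem_univ l) h
    rw [fc_dw hG, hGk, h1, pow_succ]
    ring

private theorem frd_one {F : V d → ℂ} (h : SP F) (s : ℕ) (l : Fin d) :
    ∃ C : ℝ, 0 ≤ C ∧ ∀ k, |(k l : ℝ)| ^ s * ‖fc F k‖ ≤ C := by
  obtain ⟨G, hG, hGk⟩ := frd_it h l s
  obtain ⟨C, hC, hb⟩ := hG.bdd
  refine ⟨C, hC, fun k => ?_⟩
  have h1 := norm_fc_le hb k
  rw [hGk, norm_mul, norm_pow] at h1
  have h2 : |(k l : ℝ)| ≤ ‖2 * (Real.pi : ℂ) * Complex.I * (k l : ℂ)‖ := by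
    have h3 : ‖2 * (Real.pi : ℂ) * Complex.I * (k l : ℂ)‖ = 2 * Real.pi * |(k l : ℝ)| := by
      rw [norm_mul, norm_mul, norm_mul, Complex.norm_I, mul_one, Complex.norm_intCast, Complex.norm_real,
        Real.norm_eq_abs, abs_of_pos Real.pi_pos]
      norm_num
    rw [h3]
    have h4 := Real.pi_gt_three
    have h5 := abs_nonneg (k l : ℝ)
    nlinarith
  refine le_trans ?_ h1
  exact mul_le_mul_of_nonneg_right (pow_le_pow_left₀ (abs_nonneg _) h2 s) (norm_nonneg _)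

theorem SP.rd {F : V d → ℂ} (h : SP F) : RD (fc F) := by
  intro s
  choose C hC hCk using frd_one h s
  obtain ⟨C0, hC0, hb⟩ := h.bdd
  have hCs : 0 ≤ ∑ l, C l := Finset.sum_nonneg fun l _ => hC l
  refine ⟨((d : ℝ) + 1) ^ s * (C0 + ∑ l, C l), fun k => ?_⟩
  have hd : (0 : ℝ) ≤ (d : ℝ) := Nat.cast_nonneg d
  have hn : 0 ≤ 1 + sz k := by
    have := sz_nonneg k
    linarith
  have hsz : ∀ m : ℝ, (∀ l, |(k l : ℝ)| ≤ m) → sz k ≤ d * m := by
    intro m hm
    unfold sz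
    refine (Finset.sum_le_card_nsmul _ _ m fun l _ => hm l).trans_eq ?_
    rw [Finset.card_univ, Fintype.card_fin, nsmul_eq_mul]
  have hfin : ∀ m X : ℝ, 0 ≤ m → 1 + sz k ≤ (d + 1) * m → m ^ s * ‖fc F k‖ ≤ X → X ≤ C0 + ∑ l, C l →
      (1 + sz k) ^ s * ‖fc F k‖ ≤ ((d : ℝ) + 1) ^ s * (C0 + ∑ l, C l) := by
    intro m X hm h1 h2 h3
    calc (1 + sz k) ^ s * ‖fc F k‖ ≤ (((d : ℝ) + 1) * m) ^ s * ‖fc F k‖ :=
          mul_le_mul_of_nonneg_right (pow_le_pow_left₀ hn h1 s) (norm_nonneg _)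
      _ = ((d : ℝ) + 1) ^ s * (m ^ s * ‖fc F k‖) := by rw [mul_pow]; ring
      _ ≤ ((d : ℝ) + 1) ^ s * (C0 + ∑ l, C l) :=
          mul_le_mul_of_nonneg_left (h2.trans h3) (by positivity)
  by_cases h1 : ∀ l, |(k l : ℝ)| ≤ 1
  · refine hfin 1 C0 zero_le_one ?_ ?_ (by linarith)
    · have := hsz 1 h1
      linarith
    · rw [one_pow, one_mul]
      exact norm_fc_le hb k
  · push Not at h1
    obtain ⟨l1, hl1⟩ := h1
    obtain ⟨l0, -, hl0⟩ := Finset.exists_max_image (Finset.univ : Finset (Fin d)) (fun l => |(k l : ℝ)|)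
      ⟨l1, Finset.mem_univ _⟩
    have h2 : 1 < |(k l0 : ℝ)| := lt_of_lt_of_le hl1 (hl0 l1 (Finset.mem_univ _))
    refine hfin |(k l0 : ℝ)| (C l0) (abs_nonneg _) ?_ (hCk l0 k) ?_
    · have := hsz _ fun l => hl0 l (Finset.mem_univ _)
      linarith
    · have := Finset.single_le_sum (f := C) (fun l _ => hC l) (Finset.mem_univ l0)
      linarith

end LRA
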