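import Pool.Agent.LRA.Main

/-!
# LRA / Final: the final statement, in coordinates
-/

set_option autoImplicit false

noncomputable section

open scoped ContDiff

namespace LRA

/-- the partial derivative `∂_l F` -/
def pd {d : ℕ} (l : Fin d) (F : V d → ℝ) (x : V d) : ℝ := fderiv ℝ F x (Pi.single l 1)

/-- the Jacobian matrix -/
def jac {d : ℕ} (f : V d → V d) (x : V d) : Matrix (Fin d) (Fin d) ℝ :=
  fun i j => pd j (fun y => f y i) x

/-- the real matrix of an integer matrix -/
def rm {d : ℕ} (A : Matrix (Fin d) (Fin d) ℤ) : Matrix (Fin d) (Fin d) ℝ := fun i j => (A i j : ℝ)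

/-- `J` is (the lift of) a smooth complex structure of the torus `ℝ^d / ℤ^d`: `J² = -1` and the
Nijenhuis tensor vanishes -/
structure CSt {d : ℕ} (J : V d → Matrix (Fin d) (Fin d) ℝ) : Prop where
  smooth : ∀ i j, ContDiff ℝ ∞ (fun x => J x i j)
  per : Per J
  sq : ∀ x, J x * J x = -1
  nij : ∀ (x : V d) (a b k : Fin d), ∑ l, (J x l a * pd l (fun y => J y k b) x
    - J x l b * pd l (fun y => J y k a) x
    - J x k l * (pd a (fun y => J y l b) x - pd b (fun y => J y l a) x)) = 0

/-- `f` is a smooth lift of a torus map homotopic to `A`, at `C¹` distance at most `ε` from `A`,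
with `α`-Hölder derivative with constant `B` -/
structure Near {d : ℕ} (A : Matrix (Fin d) (Fin d) ℤ) (α B ε : ℝ) (f : V d → V d) : Prop where
  smooth : ContDiff ℝ ∞ f
  lift : IsLift A f
  close : ∀ x i j, |jac f x i j - A i j| ≤ ε
  hold : ∀ x y i j, |jac f x i j - jac f y i j| ≤ B * ‖x - y‖ ^ α

/-- `f` maps the structure `J` to the structure `J'` -/
def Hol {d : ℕ} (f : V d → V d) (J J' : V d → Matrix (Fin d) (Fin d) ℝ) : Prop :=
  ∀ x, jac f x * J x = J' (f x) * jac f x

/-- `h` is (the lift of) a smooth diffeomorphism of the torus homotopic to the identity -/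
structure Diffeo {d : ℕ} (h : V d → V d) : Prop where
  smooth : ContDiff ℝ ∞ h
  inv : ∃ g : V d → V d, ContDiff ℝ ∞ g ∧ (∀ x, g (h x) = x) ∧ ∀ x, h (g x) = x
  lift : IsLift 1 h

/-- there are a constant complex structure `J₁` commuting with `A`, and a diffeomorphism of the
torus homotopic to the identity which maps `J` to `J₁` and conjugates `f` to `A` -/
def Linearizable {d : ℕ} (A : Matrix (Fin d) (Fin d) ℤ) (f : V d → V d)
    (J : V d → Matrix (Fin d) (Fin d) ℝ) : Prop :=
  ∃ (J₁ : Matrix (Fin d) (Fin d) ℝ) (h : V d → V d), J₁ * J₁ = -1 ∧ J₁ * rm A = rm A * J₁ ∧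
    Diffeo h ∧ Hol h J (fun _ => J₁) ∧ ∀ x, h (f x) = (rm A).mulVec (h x)

/-! ### translation -/

/-- the operator of a matrix -/
private def op {d : ℕ} (M : Matrix (Fin d) (Fin d) ℝ) : V d →L[ℝ] V d :=
  LinearMap.toContinuousLinearMap (Matrix.toLin' M)

private theorem fin_op_apply {d : ℕ} (M : Matrix (Fin d) (Fin d) ℝ) (v : V d) :
    op M v = M.mulVec v := by
  simp [op]

private theorem fin_op_apply' {d : ℕ} (M : Matrix (Fin d) (Fin d) ℝ) (v : V d) (i : Fin d) :
    op M v i = ∑ j, M i j * v j := by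
  rw [fin_op_apply]; rfl

private theorem fin_ext {d : ℕ} {S T : V d →L[ℝ] V d}
    (h : ∀ j, S (Pi.single j 1) = T (Pi.single j 1)) : S = T := by
  refine ContinuousLinearMap.ext fun v => ?_
  have hv : v = ∑ j, v j • (Pi.single j 1 : V d) := by
    funext i
    simp [Finset.sum_apply, Pi.single_apply]
  rw [hv, map_sum, map_sum]
  refine Finset.sum_congr rfl fun j _ => ?_
  rw [map_smul, map_smul, h]

private theorem fin_op_sum {d : ℕ} (M : Matrix (Fin d) (Fin d) ℝ) :
    op M = ∑ i, ∑ j, M i j • op (Matrix.single i j 1) := by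
  refine ContinuousLinearMap.ext fun v => ?_
  funext k
  rw [fin_op_apply']
  simp only [ContinuousLinearMap.sum_apply, ContinuousLinearMap.smul_apply, Finset.sum_apply,
    Pi.smul_apply, smul_eq_mul, fin_op_apply']
  symm
  have h1 : ∀ i j, (∑ l, Matrix.single i j (1 : ℝ) k l * v l) = if i = k then v j else 0 := by
    intro i j
    by_cases hik : i = k
    · subst hik
      rw [Finset.sum_eq_single j]
      · simp
      · intro b _ hb
        simp [Matrix.single_apply, hb.symm]
      · intro h; exact absurd (Finset.mem_univ _) h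
    · rw [if_neg hik]
      refine Finset.sum_eq_zero fun j _ => ?_
      simp [Matrix.single_apply, hik]
  simp only [h1]
  rw [Finset.sum_eq_single k]
  · simp
  · intro b _ hb
    simp [hb]
  · intro h; exact absurd (Finset.mem_univ _) h

private theorem fin_norm_op {d : ℕ} {M : Matrix (Fin d) (Fin d) ℝ} {c : ℝ}
    (h : ∀ i j, |M i j| ≤ c) (hc : 0 ≤ c) : ‖op M‖ ≤ d * c := by
  refine ContinuousLinearMap.opNorm_le_bound _ (by positivity) fun v => ?_
  refine (pi_norm_le_iff_of_nonneg (by positivity)).2 fun i => ?_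
  rw [fin_op_apply', Real.norm_eq_abs]
  refine (Finset.abs_sum_le_sum_abs _ _).trans ?_
  have h1 : ∀ j ∈ Finset.univ, |M i j * v j| ≤ c * ‖v‖ := fun j _ => by
    rw [abs_mul]
    exact mul_le_mul (h i j) (norm_le_pi_norm v j) (abs_nonneg _) hc
  refine (Finset.sum_le_sum h1).trans ?_
  simp [mul_assoc]

private theorem fin_op_jac {d : ℕ} {f : V d → V d} (hf : ContDiff ℝ ∞ f) (x : V d) :
    op (jac f x) = fderiv ℝ f x := by
  refine fin_ext fun j => ?_
  funext i
  rw [fin_op_apply']
  have hd : DifferentiableAt ℝ f x := hf.differentiable (by simp) x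
  have h1 : fderiv ℝ (fun y => f y i) x (Pi.single j 1) = fderiv ℝ f x (Pi.single j 1) i := by
    have h2 := (hasFDerivAt_pi'.1 hd.hasFDerivAt i).fderiv
    rw [h2]
    rfl
  rw [← h1, Finset.sum_eq_single j]
  · simp [jac, pd]
  · intro b _ hb
    simp [Pi.single_apply, hb]
  · intro h; exact absurd (Finset.mem_univ _) h

private theorem fin_smooth {d : ℕ} {J : V d → Matrix (Fin d) (Fin d) ℝ}
    (hs : ∀ i j, ContDiff ℝ ∞ (fun x => J x i j)) : ContDiff ℝ ∞ (fun x => op (J x)) := by
  have h : (fun x => op (J x)) =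
      fun x => ∑ i, ∑ j, J x i j • op (Matrix.single i j (1 : ℝ)) := by
    funext x
    exact fin_op_sum (J x)
  rw [h]
  exact ContDiff.sum fun i _ => ContDiff.sum fun j _ => (hs i j).smul contDiff_const

private theorem fin_fderiv {d : ℕ} {J : V d → Matrix (Fin d) (Fin d) ℝ}
    (hs : ∀ i j, ContDiff ℝ ∞ (fun x => J x i j)) (x u v : V d) (k : Fin d) :
    fderiv ℝ (fun x => op (J x)) x u v k = ∑ j, fderiv ℝ (fun y => J y k j) x u * v j := by
  have hd : DifferentiableAt ℝ (fun x => op (J x)) x :=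
    (fin_smooth hs).differentiable (by simp) x
  have h1 : HasFDerivAt (fun y => op (J y) v k)
      ((ContinuousLinearMap.proj (R := ℝ) (φ := fun _ : Fin d => ℝ) k).comp
        ((ContinuousLinearMap.apply ℝ (V d) v).comp (fderiv ℝ (fun x => op (J x)) x))) x :=
    (ContinuousLinearMap.proj (R := ℝ) (φ := fun _ : Fin d => ℝ) k).hasFDerivAt.comp x
      ((ContinuousLinearMap.apply ℝ (V d) v).hasFDerivAt.comp x hd.hasFDerivAt)
  have h2 : HasFDerivAt (fun y => op (J y) v k)
      (∑ j, v j • fderiv ℝ (fun y => J y k j) x) x := by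
    have h3 : (fun y => op (J y) v k) = fun y => ∑ j, J y k j * v j := by
      funext y
      exact fin_op_apply' _ _ _
    rw [h3]
    refine HasFDerivAt.fun_sum fun j _ => ?_
    exact (((hs k j).differentiable (by simp)) x).hasFDerivAt.mul_const (v j)
  have h4 := congrArg (fun T => T u) (h1.unique h2)
  simp only [ContinuousLinearMap.comp_apply, ContinuousLinearMap.proj_apply,
    ContinuousLinearMap.apply_apply, ContinuousLinearMap.sum_apply,
    ContinuousLinearMap.smul_apply, smul_eq_mul] at h4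
  rw [h4]
  exact Finset.sum_congr rfl fun j _ => mul_comm _ _

private theorem fin_pd {d : ℕ} (F : V d → ℝ) (x u : V d) :
    fderiv ℝ F x u = ∑ l, u l * pd l F x := by
  have hv : u = ∑ j, u j • (Pi.single j 1 : V d) := by
    funext i
    simp [Finset.sum_apply, Pi.single_apply]
  conv_lhs => rw [hv, map_sum]
  refine Finset.sum_congr rfl fun j _ => ?_
  rw [map_smul, smul_eq_mul]
  rfl

private theorem fin_nij {d : ℕ} (J : Fin d → Fin d → ℝ) (P : Fin d → Fin d → Fin d → ℝ)
    (u v : Fin d → ℝ) (k : Fin d)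
    (h : ∀ a b, ∑ l, (J l a * P l k b - J l b * P l k a - J k l * (P a l b - P b l a)) = 0) :
    (∑ j, (∑ l, (∑ a, J l a * u a) * P l k j) * v j)
      - (∑ j, (∑ l, (∑ a, J l a * v a) * P l k j) * u j)
      + (∑ l, J k l * ∑ j, (∑ m, v m * P m l j) * u j)
      - (∑ l, J k l * ∑ j, (∑ m, u m * P m l j) * v j) = 0 := by
  have h1 : (∑ j, (∑ l, (∑ a, J l a * u a) * P l k j) * v j) =
      ∑ a, ∑ b, ∑ l, u a * v b * (J l a * P l k b) := by
    simp only [Finset.sum_mul]
    rw [Finset.sum_comm (f := fun a b => ∑ l, u a * v b * (J l a * P l k b))]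
    refine Finset.sum_congr rfl fun b _ => ?_
    rw [Finset.sum_comm (f := fun a l => u a * v b * (J l a * P l k b))]
    refine Finset.sum_congr rfl fun l _ => Finset.sum_congr rfl fun a _ => ?_
    ring
  have h2 : (∑ j, (∑ l, (∑ a, J l a * v a) * P l k j) * u j) =
      ∑ a, ∑ b, ∑ l, u a * v b * (J l b * P l k a) := by
    simp only [Finset.sum_mul]
    refine Finset.sum_congr rfl fun a _ => ?_
    rw [Finset.sum_comm]
    refine Finset.sum_congr rfl fun l _ => Finset.sum_congr rfl fun b _ => ?_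
    ring
  have h3 : (∑ l, J k l * ∑ j, (∑ m, v m * P m l j) * u j) =
      ∑ a, ∑ b, ∑ l, u a * v b * (J k l * P b l a) := by
    simp only [Finset.sum_mul, Finset.mul_sum]
    rw [Finset.sum_comm]
    refine Finset.sum_congr rfl fun a _ => ?_
    rw [Finset.sum_comm]
    refine Finset.sum_congr rfl fun l _ => Finset.sum_congr rfl fun b _ => ?_
    ring
  have h4 : (∑ l, J k l * ∑ j, (∑ m, u m * P m l j) * v j) =
      ∑ a, ∑ b, ∑ l, u a * v b * (J k l * P a l b) := by
    simp only [Finset.sum_mul, Finset.mul_sum]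
    rw [Finset.sum_comm (f := fun a b => ∑ l, u a * v b * (J k l * P a l b))]
    rw [Finset.sum_comm]
    refine Finset.sum_congr rfl fun b _ => ?_
    rw [Finset.sum_comm]
    refine Finset.sum_congr rfl fun a _ => Finset.sum_congr rfl fun l _ => ?_
    ring
  rw [h1, h2, h3, h4, ← Finset.sum_sub_distrib, ← Finset.sum_add_distrib,
    ← Finset.sum_sub_distrib]
  refine Finset.sum_eq_zero fun a _ => ?_
  rw [← Finset.sum_sub_distrib, ← Finset.sum_add_distrib, ← Finset.sum_sub_distrib]
  refine Finset.sum_eq_zero fun b _ => ?_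
  rw [← Finset.sum_sub_distrib, ← Finset.sum_add_distrib, ← Finset.sum_sub_distrib]
  have h5 := congrArg (fun t => u a * v b * t) (h a b)
  simp only [mul_zero, Finset.mul_sum] at h5
  rw [← h5]
  refine Finset.sum_congr rfl fun l _ => ?_
  ring

private theorem fin_cstr {d : ℕ} {J : V d → Matrix (Fin d) (Fin d) ℝ} (h : CSt J) :
    CStr (fun x => op (J x)) where
  smooth := fin_smooth h.smooth
  per := fun x m => by
    show op (J (x + zc m)) = op (J x)
    rw [h.per x m]
  sq := fun x v => by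
    rw [fin_op_apply, fin_op_apply, Matrix.mulVec_mulVec, h.sq x, Matrix.neg_mulVec,
      Matrix.one_mulVec]
  nij := fun x u v => by
    funext k
    simp only [Pi.add_apply, Pi.sub_apply, Pi.zero_apply]
    rw [fin_fderiv h.smooth, fin_fderiv h.smooth, fin_op_apply', fin_op_apply']
    simp only [fin_fderiv h.smooth, fin_pd, fin_op_apply']
    exact fin_nij (fun i j => J x i j) (fun l i j => pd l (fun y => J y i j) x) u v k
      (fun a b => h.nij x a b k)

/-- **Local rigidity**, in coordinates -/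
theorem final {d : ℕ} (A : Matrix (Fin d) (Fin d) ℤ) (hdet : IsUnit A.det)
    (hyp : ∀ z : ℂ, (A.map (Int.cast : ℤ → ℂ)).charpoly.IsRoot z → ‖z‖ ≠ 1)
    (α B R : ℝ) (hα : 0 < α) (hα1 : α ≤ 1) :
    ∃ ε : ℝ, 0 < ε ∧ ∀ f : V d → V d, Near A α B ε f →
      ∀ J : V d → Matrix (Fin d) (Fin d) ℝ, CSt J → Hol f J J →
        ((A.map (Int.cast : ℤ → ℂ)).charpoly.Separable ∨ ∃ x, ∀ i j, |J x i j| ≤ R) →
          Linearizable A f J := by
  obtain ⟨ε, hε, h⟩ := main A hdet hyp α (d * |B|) (d * |R|) hα hα1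
  have hd : (0 : ℝ) < d + 1 := by positivity
  refine ⟨ε / (d + 1), div_pos hε hd, fun f hf J hJ hi hs => ?_⟩
  have hlin : lin A = op (rm A) := rfl
  have e1 : ∀ x, ‖fderiv ℝ f x - lin A‖ ≤ ε := by
    intro x
    have h1 : fderiv ℝ f x - lin A = op (jac f x - rm A) := by
      rw [← fin_op_jac hf.smooth, hlin]
      refine ContinuousLinearMap.ext fun v => ?_
      rw [ContinuousLinearMap.sub_apply, fin_op_apply, fin_op_apply, fin_op_apply,
        Matrix.sub_mulVec]
    rw [h1]
    refine (fin_norm_op (c := ε / (d + 1)) (fun i j => hf.close x i j)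
      (div_pos hε hd).le).trans ?_
    rw [mul_div_assoc', div_le_iff₀ hd]
    nlinarith
  have e2 : ∀ x y, ‖fderiv ℝ f x - fderiv ℝ f y‖ ≤ d * |B| * ‖x - y‖ ^ α := by
    intro x y
    have h1 : fderiv ℝ f x - fderiv ℝ f y = op (jac f x - jac f y) := by
      rw [← fin_op_jac hf.smooth, ← fin_op_jac hf.smooth]
      refine ContinuousLinearMap.ext fun v => ?_
      rw [ContinuousLinearMap.sub_apply, fin_op_apply, fin_op_apply, fin_op_apply,
        Matrix.sub_mulVec]
    rw [h1]
    have hp : 0 ≤ ‖x - y‖ ^ α := Real.rpow_nonneg (norm_nonneg _) _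
    refine (fin_norm_op (c := |B| * ‖x - y‖ ^ α) (fun i j => (hf.hold x y i j).trans
      (mul_le_mul_of_nonneg_right (le_abs_self B) hp)) (by positivity)).trans ?_
    rw [mul_assoc]
  have e3 : ∀ x v, fderiv ℝ f x (op (J x) v) = op (J (f x)) (fderiv ℝ f x v) := by
    intro x v
    rw [← fin_op_jac hf.smooth, fin_op_apply, fin_op_apply, fin_op_apply, fin_op_apply,
      Matrix.mulVec_mulVec, Matrix.mulVec_mulVec, hi x]
  have e4 : (A.map (Int.cast : ℤ → ℂ)).charpoly.Separable ∨ ∃ x, ‖op (J x)‖ ≤ d * |R| := by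
    refine hs.imp id fun hx => ?_
    obtain ⟨x, hx⟩ := hx
    exact ⟨x, fin_norm_op (fun i j => (hx i j).trans (le_abs_self R)) (abs_nonneg _)⟩
  obtain ⟨J₁, k, g, h1, h2, h3, h4, h5, h6, h7, h8, h9⟩ :=
    h f hf.smooth hf.lift e1 e2 (fun x => op (J x)) (fin_cstr hJ) e3 e4
  have hop : ∀ T : V d →L[ℝ] V d, op (LinearMap.toMatrix' (T : V d →ₗ[ℝ] V d)) = T := by
    intro T
    refine ContinuousLinearMap.ext fun v => ?_
    rw [fin_op_apply]
    exact LinearMap.toMatrix'_mulVec _ _
  have hinj : ∀ M N : Matrix (Fin d) (Fin d) ℝ, (∀ v, M.mulVec v = N.mulVec v) → M = N := by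
    intro M N hMN
    exact Matrix.mulVec_injective (funext hMN)
  set M₁ := LinearMap.toMatrix' (J₁ : V d →ₗ[ℝ] V d) with hM₁
  have hJ₁ : ∀ v, M₁.mulVec v = J₁ v := fun v => by
    rw [← fin_op_apply, hM₁, hop J₁]
  refine ⟨M₁, k, hinj _ _ fun v => ?_, hinj _ _ fun v => ?_,
    ⟨h3, ⟨g, h4, h5, h6⟩, fun x m => ?_⟩, fun x => hinj _ _ fun v => ?_, fun x => ?_⟩
  · rw [← Matrix.mulVec_mulVec, hJ₁, hJ₁, h1, Matrix.neg_mulVec, Matrix.one_mulVec]
  · rw [← Matrix.mulVec_mulVec, ← Matrix.mulVec_mulVec, hJ₁, hJ₁, ← fin_op_apply (rm A),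
      ← fin_op_apply (rm A)]
    exact h2 v
  · rw [h7, Matrix.one_mulVec]
  · show (jac k x * J x).mulVec v = (M₁ * jac k x).mulVec v
    rw [← Matrix.mulVec_mulVec, ← Matrix.mulVec_mulVec, hJ₁, ← fin_op_apply (jac k x),
      ← fin_op_apply (jac k x), fin_op_jac h3, ← fin_op_apply (J x)]
    exact h8 x v
  · rw [h9 x, hlin, fin_op_apply]

end LRA
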