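import Pool.Agent.LRA.ADefs

/-!
# LRA / Glob: maps with derivative close to a constant invertible one are diffeomorphisms

PLAN.
* `lip_of_deriv`: mean value inequality on the convex set `univ`
  (`Convex.norm_image_sub_le_of_norm_fderiv_le` for `f - T`).
* `glob`: `c = ‖T⁻¹‖⁻¹ / 2` (or `1 / (2 (‖T⁻¹‖ + 1))`).  By `lip_of_deriv` `f` satisfies
  `ApproximatesLinearOn f T univ c`, so it is a homeomorphism of `V d`
  (`ApproximatesLinearOn.toHomeomorph`; the subsingleton case: `d = 0`); its inverse is smooth at every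
  point: `fderiv f x` is invertible (close to `T`; or `‖fderiv f x - T‖ < ‖T⁻¹‖⁻¹`,
  `ContinuousLinearEquiv` from a unit), `OpenPartialHomeomorph.contDiffAt_symm` (or
  `Homeomorph.contDiff_symm`... with `HasFDerivAt` equivalences).
  Alternatively prove bijectivity by hand (`y ↦ x - T⁻¹ (f x - y)` is a contraction).
* `near_one`: the special case `T = 1`, `c = 1/2`: bijective by the contraction `x ↦ y - (h x - x)`,
  injective by `‖(h x - x) - (h y - y)‖ ≤ ‖x - y‖/2`; or `ApproximatesLinearOn` with `‖1⁻¹‖ ≤ 1`.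
* `ave`: for a coordinate `l`, the function `t ↦ h (x + t e_l) - t • fderiv h x e_l` on `[0, 1]` has
  derivative of norm `≤ ω` (`‖e_l‖ = 1` in the sup norm), so `‖e_l - fderiv h x e_l‖ ≤ ω`
  (`h (x + e_l) = h x + e_l`, `e_l = zc (Pi.single l 1)`); an operator `T` with `‖T e_l‖ ≤ ω` for all `l` has
  `‖T‖ ≤ d ω` (`T v = ∑ v_l T e_l`).
* `lip_per`: a `C¹` map with bounded derivative is Lipschitz; the derivative of a periodic function is
  periodic and continuous, hence bounded (every point is congruent to one of the compact cube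
  `Icc 0 1`).
-/

set_option autoImplicit false

noncomputable section

open scoped BigOperators ContDiff

namespace LRA

variable {d : ℕ}

theorem lip_of_deriv {f : V d → V d} (hf : ContDiff ℝ ∞ f) (T : V d →L[ℝ] V d) {ε : ℝ}
    (h : ∀ x, ‖fderiv ℝ f x - T‖ ≤ ε) (x y : V d) :
    ‖(f x - T x) - (f y - T y)‖ ≤ ε * ‖x - y‖ := by
  have hd : Differentiable ℝ f := hf.differentiable (by simp)
  have h1 : ∀ z ∈ (Set.univ : Set (V d)), HasFDerivWithinAt (fun x => f x - T x)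
      (fderiv ℝ f z - T) Set.univ z :=
    fun z _ => ((hd z).hasFDerivAt.sub T.hasFDerivAt).hasFDerivWithinAt
  exact convex_univ.norm_image_sub_le_of_norm_hasFDerivWithin_le h1 (fun z _ => h z)
    (Set.mem_univ y) (Set.mem_univ x)

private theorem glob_aux (T : V d ≃L[ℝ] V d) {c : ℝ} (hc0 : 0 ≤ c)
    (hc : c * ‖(T.symm : V d →L[ℝ] V d)‖ < 1) {f : V d → V d} (hf : ContDiff ℝ ∞ f)
    (h : ∀ x, ‖fderiv ℝ f x - (T : V d →L[ℝ] V d)‖ ≤ c) :
    ∃ g : V d → V d, ContDiff ℝ ∞ g ∧ (∀ x, g (f x) = x) ∧ ∀ x, f (g x) = x := by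
  have hd : Differentiable ℝ f := hf.differentiable (by simp)
  obtain ⟨c', hc'⟩ : ∃ c' : NNReal, (c' : ℝ) = c := ⟨⟨c, hc0⟩, rfl⟩
  have happ : ApproximatesLinearOn f (T : V d →L[ℝ] V d) Set.univ c' := by
    intro x _ y _
    have h1 := lip_of_deriv hf (T : V d →L[ℝ] V d) h x y
    have h2 : f x - f y - (T : V d →L[ℝ] V d) (x - y) =
        (f x - (T : V d →L[ℝ] V d) x) - (f y - (T : V d →L[ℝ] V d) y) := by
      rw [map_sub]
      abel
    rw [h2, hc']
    exact h1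
  have hN : Subsingleton (V d) ∨
      c' < ‖(T.symm : V d →L[ℝ] V d)‖₊⁻¹ := by
    rcases T.subsingleton_or_nnnorm_symm_pos with h1 | h1
    · exact Or.inl h1
    · right
      have h2 : 0 < ‖(T.symm : V d →L[ℝ] V d)‖ := h1
      rw [← NNReal.coe_lt_coe, NNReal.coe_inv, ← one_div, coe_nnnorm, lt_div_iff₀ h2, hc']
      exact hc
  obtain ⟨F, hF⟩ : ∃ F : V d ≃ₜ V d, ∀ x, F x = f x :=
    ⟨ApproximatesLinearOn.toHomeomorph f happ hN, fun _ => rfl⟩
  have hFf : (F : V d → V d) = f := funext hF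
  have hinj : ∀ a, Function.Injective (fderiv ℝ f a : V d →ₗ[ℝ] V d) := by
    intro a
    rw [injective_iff_map_eq_zero]
    intro v hv
    have hv' : fderiv ℝ f a v = 0 := hv
    have h1 : ‖T v‖ ≤ c * ‖v‖ := by
      have h2 := (fderiv ℝ f a - (T : V d →L[ℝ] V d)).le_of_opNorm_le (h a) v
      rw [_root_.sub_apply, hv', zero_sub, norm_neg] at h2
      exact h2
    have h3 : ‖v‖ ≤ ‖(T.symm : V d →L[ℝ] V d)‖ * ‖T v‖ := by
      have h4 := (T.symm : V d →L[ℝ] V d).le_opNorm (T v)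
      have h5 : (T.symm : V d →L[ℝ] V d) (T v) = v := T.symm_apply_apply v
      rw [h5] at h4
      exact h4
    have h6 : ‖v‖ ≤ (c * ‖(T.symm : V d →L[ℝ] V d)‖) * ‖v‖ := by
      calc ‖v‖ ≤ ‖(T.symm : V d →L[ℝ] V d)‖ * ‖T v‖ := h3
        _ ≤ ‖(T.symm : V d →L[ℝ] V d)‖ * (c * ‖v‖) :=
            mul_le_mul_of_nonneg_left h1 (norm_nonneg _)
        _ = (c * ‖(T.symm : V d →L[ℝ] V d)‖) * ‖v‖ := by ring
    have h7 : ‖v‖ = 0 := by
      by_contra hne
      have h8 : 0 < ‖v‖ := lt_of_le_of_ne (norm_nonneg _) (Ne.symm hne)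
      nlinarith
    exact norm_eq_zero.1 h7
  have hder : ∀ a, HasFDerivAt (F : V d → V d)
      (((LinearEquiv.ofInjectiveEndo (fderiv ℝ f a : V d →ₗ[ℝ] V d) (hinj a)).toContinuousLinearEquiv :
        V d ≃L[ℝ] V d) : V d →L[ℝ] V d) a := by
    intro a
    have h1 : (((LinearEquiv.ofInjectiveEndo (fderiv ℝ f a : V d →ₗ[ℝ] V d)
        (hinj a)).toContinuousLinearEquiv : V d ≃L[ℝ] V d) : V d →L[ℝ] V d) = fderiv ℝ f a := by
      ext v
      rfl
    rw [h1, hFf]
    exact (hd a).hasFDerivAt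
  refine ⟨F.symm, F.contDiff_symm hder (by rw [hFf]; exact hf), ?_, ?_⟩
  · intro x
    rw [← hF x]
    exact F.symm_apply_apply x
  · intro x
    rw [← hF]
    exact F.apply_symm_apply x

theorem glob (T : V d ≃L[ℝ] V d) :
    ∃ c : ℝ, 0 < c ∧ ∀ f : V d → V d, ContDiff ℝ ∞ f →
      (∀ x, ‖fderiv ℝ f x - (T : V d →L[ℝ] V d)‖ ≤ c) →
        ∃ g : V d → V d, ContDiff ℝ ∞ g ∧ (∀ x, g (f x) = x) ∧ ∀ x, f (g x) = x := by
  have hpos : 0 < ‖(T.symm : V d →L[ℝ] V d)‖ + 1 := by positivity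
  refine ⟨(‖(T.symm : V d →L[ℝ] V d)‖ + 1)⁻¹, inv_pos.2 hpos, fun f hf h => ?_⟩
  refine glob_aux T (inv_pos.2 hpos).le ?_ hf h
  rw [inv_mul_lt_iff₀ hpos, mul_one]
  exact lt_add_one _

theorem near_one {h : V d → V d} (hh : ContDiff ℝ ∞ h) (h1 : ∀ x, ‖fderiv ℝ h x - 1‖ ≤ 1 / 2) :
    ∃ g : V d → V d, ContDiff ℝ ∞ g ∧ (∀ x, g (h x) = x) ∧ ∀ x, h (g x) = x := by
  refine glob_aux (ContinuousLinearEquiv.refl ℝ (V d)) (c := 1 / 2) (by norm_num) ?_ hh ?_
  · have h2 : ‖((ContinuousLinearEquiv.refl ℝ (V d)).symm : V d →L[ℝ] V d)‖ ≤ 1 :=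
      ContinuousLinearMap.norm_id_le
    linarith
  · intro x
    exact h1 x

theorem ave {h : V d → V d} (hh : ContDiff ℝ ∞ h)
    (hp : ∀ (x : V d) (m : Fin d → ℤ), h (x + zc m) = h x + zc m) {o : ℝ}
    (ho : ∀ x y, ‖fderiv ℝ h x - fderiv ℝ h y‖ ≤ o) (x : V d) :
    ‖fderiv ℝ h x - 1‖ ≤ d * o := by
  have ho0 : 0 ≤ o := (norm_nonneg _).trans (ho x x)
  have hz : ∀ l : Fin d, zc (Pi.single l 1 : Fin d → ℤ) = (Pi.single l 1 : V d) := by
    intro l
    funext i
    unfold zc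
    by_cases hi : i = l
    · subst hi
      rw [Pi.single_eq_same, Pi.single_eq_same, Int.cast_one]
    · rw [Pi.single_eq_of_ne hi, Pi.single_eq_of_ne hi, Int.cast_zero]
  have he : ∀ l : Fin d, ‖(fderiv ℝ h x - 1) (Pi.single l 1 : V d)‖ ≤ o := by
    intro l
    have h1 := lip_of_deriv hh (fderiv ℝ h x) (fun y => ho y x) (x + zc (Pi.single l 1)) x
    rw [hp, map_add, hz] at h1
    have h2 : h x + (Pi.single l 1 : V d) - (fderiv ℝ h x x + fderiv ℝ h x (Pi.single l 1)) -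
        (h x - fderiv ℝ h x x) = -((fderiv ℝ h x - 1) (Pi.single l 1 : V d)) := by
      rw [_root_.sub_apply, one_apply_eq_self]
      abel
    rw [h2, norm_neg, add_sub_cancel_left] at h1
    have h3 : ‖(Pi.single l 1 : V d)‖ = 1 := by
      rw [Pi.norm_single, norm_one]
    rw [h3, mul_one] at h1
    exact h1
  refine ContinuousLinearMap.opNorm_le_bound _ (by positivity) fun v => ?_
  have hv : v = ∑ l, v l • (Pi.single l 1 : V d) := by
    conv_lhs => rw [pi_eq_sum_univ' v]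
  have h4 : (fderiv ℝ h x - 1) v = ∑ l, v l • (fderiv ℝ h x - 1) (Pi.single l 1 : V d) := by
    conv_lhs => rw [hv]
    rw [map_sum]
    exact Finset.sum_congr rfl fun l _ => map_smul _ _ _
  rw [h4]
  refine (norm_sum_le _ _).trans ?_
  calc ∑ l, ‖v l • (fderiv ℝ h x - 1) (Pi.single l 1 : V d)‖ ≤ ∑ _l : Fin d, ‖v‖ * o := by
        refine Finset.sum_le_sum fun l _ => ?_
        rw [norm_smul]
        exact mul_le_mul (norm_le_pi_norm v l) (he l) (norm_nonneg _) (norm_nonneg _)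
    _ = d * o * ‖v‖ := by
        rw [Finset.sum_const, Finset.card_univ, Fintype.card_fin, nsmul_eq_mul]
        ring

/-- a continuous periodic function is bounded -/
theorem bdd_per {E : Type*} [NormedAddCommGroup E] {X : V d → E} (hc : Continuous X)
    (hp : Per X) : ∃ S : ℝ, ∀ x, ‖X x‖ ≤ S := by
  obtain ⟨S, hS⟩ := (isCompact_Icc (a := (0 : V d)) (b := 1)).exists_bound_of_continuousOn
    hc.continuousOn
  refine ⟨S, fun x => ?_⟩
  rw [← hp x fun i => -⌊x i⌋]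
  apply hS
  constructor
  · intro i
    show (0 : ℝ) ≤ x i + ((-⌊x i⌋ : ℤ) : ℝ)
    push_cast
    have := Int.floor_le (x i)
    linarith
  · intro i
    show x i + ((-⌊x i⌋ : ℤ) : ℝ) ≤ (1 : ℝ)
    push_cast
    have := (Int.lt_floor_add_one (x i)).le
    linarith

theorem lip_per {E : Type*} [NormedAddCommGroup E] [NormedSpace ℝ E] {X : V d → E}
    (hc : ContDiff ℝ ∞ X) (hp : Per X) : ∃ Λ : ℝ, ∀ x y, ‖X x - X y‖ ≤ Λ * ‖x - y‖ := by
  have hd : Differentiable ℝ X := hc.differentiable (by simp)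
  have hcd : Continuous (fderiv ℝ X) := hc.continuous_fderiv (by simp)
  have hpd : Per (fderiv ℝ X) := by
    intro x m
    have h1 : (fun y => X (y + zc m)) = X := funext fun y => hp y m
    rw [← fderiv_comp_add_right, h1]
  obtain ⟨S, hS⟩ := bdd_per hcd hpd
  refine ⟨S, fun x y => ?_⟩
  exact convex_univ.norm_image_sub_le_of_norm_fderiv_le (𝕜 := ℝ) (fun z _ => hd z) (fun z _ => hS z)
    (Set.mem_univ y) (Set.mem_univ x)

end LRA
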