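import Pool.Agent.LRA.Glob

/-!
# LRA / Inv: the inverse map

The inverse of a diffeomorphism which is `C¹`-close to a linear automorphism, with bounds for its derivative.
-/

set_option autoImplicit false

noncomputable section

open scoped BigOperators ContDiff

namespace LRA

variable {d : ℕ}

private theorem inv_app (A : Matrix (Fin d) (Fin d) ℤ) (v : V d) :
    lin A v = (A.map (Int.cast : ℤ → ℝ)).mulVec v := rfl

theorem lin_mul (A B : Matrix (Fin d) (Fin d) ℤ) : lin (A * B) = lin A * lin B := by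
  ext1 v
  show lin (A * B) v = lin A (lin B v)
  rw [inv_app, inv_app, inv_app, Matrix.mulVec_mulVec]
  congr 1
  exact Matrix.map_mul (f := Int.castRingHom ℝ)

theorem lin_one : lin (1 : Matrix (Fin d) (Fin d) ℤ) = 1 := by
  ext1 v
  show lin 1 v = v
  rw [inv_app, Matrix.map_one _ Int.cast_zero Int.cast_one, Matrix.one_mulVec]

theorem lin_zc (A : Matrix (Fin d) (Fin d) ℤ) (m : Fin d → ℤ) : lin A (zc m) = zc (A.mulVec m) := by
  funext i
  rw [inv_app]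
  show ∑ j, (A i j : ℝ) * (m j : ℝ) = ((∑ j, A i j * m j : ℤ) : ℝ)
  push_cast
  rfl

private theorem inv_gf {f g : V d → V d} (hf : ContDiff ℝ ∞ f) (hg : ContDiff ℝ ∞ g)
    (h : ∀ x, g (f x) = x) (x : V d) : fderiv ℝ g (f x) * fderiv ℝ f x = 1 := by
  have hdf : Differentiable ℝ f := hf.differentiable (by simp)
  have hdg : Differentiable ℝ g := hg.differentiable (by simp)
  have h1 : HasFDerivAt (g ∘ f) ((fderiv ℝ g (f x)).comp (fderiv ℝ f x)) x :=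
    HasFDerivAt.comp x (hdg (f x)).hasFDerivAt (hdf x).hasFDerivAt
  have h2 : g ∘ f = id := funext h
  rw [h2] at h1
  exact h1.unique (hasFDerivAt_id x)

theorem inv (A : Matrix (Fin d) (Fin d) ℤ) (hdet : IsUnit A.det) :
    ∃ ε₀ K : ℝ, 0 < ε₀ ∧ 1 ≤ K ∧ ∀ f : V d → V d, ContDiff ℝ ∞ f → IsLift A f →
      ∀ ε : ℝ, ε ≤ ε₀ → (∀ x, ‖fderiv ℝ f x - lin A‖ ≤ ε) →
        ∃ g : V d → V d, ContDiff ℝ ∞ g ∧ (∀ x, g (f x) = x) ∧ (∀ x, f (g x) = x) ∧
          IsLift A⁻¹ g ∧ (∀ x, fderiv ℝ g (f x) * fderiv ℝ f x = 1) ∧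
          (∀ x, fderiv ℝ f x * fderiv ℝ g (f x) = 1) ∧
          (∀ x, ‖fderiv ℝ g x - lin A⁻¹‖ ≤ K * ε) ∧
          ∀ α B : ℝ, 0 < α → α ≤ 1 → 0 ≤ B →
            (∀ x y, ‖fderiv ℝ f x - fderiv ℝ f y‖ ≤ B * ‖x - y‖ ^ α) →
              ∀ x y, ‖fderiv ℝ g x - fderiv ℝ g y‖ ≤ K * B * ‖x - y‖ ^ α := by
  have e1 : lin A⁻¹ * lin A = 1 := by
    rw [← lin_mul, Matrix.nonsing_inv_mul A hdet, lin_one]
  have e2 : lin A * lin A⁻¹ = 1 := by
    rw [← lin_mul, Matrix.mul_nonsing_inv A hdet, lin_one]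
  obtain ⟨c, hc, hglob⟩ := glob (ContinuousLinearEquiv.equivOfInverse (lin A) (lin A⁻¹)
    (fun x => by
      show (lin A⁻¹ * lin A) x = x
      rw [e1]; rfl)
    (fun x => by
      show (lin A * lin A⁻¹) x = x
      rw [e2]; rfl))
  obtain ⟨S, hS⟩ : ∃ S : ℝ, ‖lin A⁻¹‖ = S := ⟨_, rfl⟩
  have hS0 : 0 ≤ S := hS ▸ norm_nonneg _
  have hK1 : 2 ≤ 2 * (S + 1) := by linarith
  have hKpos : 0 < 2 * (S + 1) := by linarith
  refine ⟨min c (2 * (S + 1))⁻¹, (2 * (S + 1)) ^ 3, lt_min hc (inv_pos.2 hKpos),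
    one_le_pow₀ (by linarith), ?_⟩
  intro f hf hfl ε hε hfε
  have hε0 : 0 ≤ ε := (norm_nonneg _).trans (hfε 0)
  obtain ⟨g, hg, hgf, hfg⟩ := hglob f hf (fun x => (hfε x).trans (hε.trans (min_le_left _ _)))
  have d1 : ∀ x, fderiv ℝ g (f x) * fderiv ℝ f x = 1 := inv_gf hf hg hgf
  have d2 : ∀ x, fderiv ℝ f x * fderiv ℝ g (f x) = 1 := by
    intro x
    have h1 := inv_gf hg hf hfg (f x)
    rwa [hgf] at h1
  have d3 : ∀ y, fderiv ℝ g y * fderiv ℝ f (g y) = 1 := by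
    intro y
    have h1 := d1 (g y)
    rwa [hfg] at h1
  have d4 : ∀ y, fderiv ℝ f (g y) * fderiv ℝ g y = 1 := by
    intro y
    have h1 := d2 (g y)
    rwa [hfg] at h1
  have hSε : S * ε ≤ 1 / 2 := by
    have h1 : ε ≤ (2 * (S + 1))⁻¹ := hε.trans (min_le_right _ _)
    calc S * ε ≤ S * (2 * (S + 1))⁻¹ := mul_le_mul_of_nonneg_left h1 hS0
      _ ≤ (S + 1) * (2 * (S + 1))⁻¹ :=
          mul_le_mul_of_nonneg_right (by linarith) (inv_nonneg.2 hKpos.le)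
      _ = 1 / 2 := by
          have : S + 1 ≠ 0 := by linarith
          field_simp
  have hdiff : ∀ y, ‖fderiv ℝ g y - lin A⁻¹‖ ≤ S * ε * ‖fderiv ℝ g y‖ := by
    intro y
    have h1 : fderiv ℝ g y - lin A⁻¹ =
        lin A⁻¹ * (lin A - fderiv ℝ f (g y)) * fderiv ℝ g y := by
      calc fderiv ℝ g y - lin A⁻¹ =
          (lin A⁻¹ * lin A) * fderiv ℝ g y - lin A⁻¹ * (fderiv ℝ f (g y) * fderiv ℝ g y) := by
            rw [e1, d4, one_mul, mul_one]
        _ = lin A⁻¹ * (lin A - fderiv ℝ f (g y)) * fderiv ℝ g y := by simp only [mul_sub, sub_mul, mul_assoc]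
    rw [h1]
    refine (norm_mul_le _ _).trans ?_
    refine mul_le_mul_of_nonneg_right ?_ (norm_nonneg _)
    refine (norm_mul_le _ _).trans ?_
    rw [hS]
    refine mul_le_mul_of_nonneg_left ?_ hS0
    rw [norm_sub_rev]
    exact hfε _
  have hG : ∀ y, ‖fderiv ℝ g y‖ ≤ 2 * (S + 1) := by
    intro y
    have h1 := hdiff y
    have h2 : ‖fderiv ℝ g y‖ ≤ ‖fderiv ℝ g y - lin A⁻¹‖ + S := by
      rw [← hS]
      calc ‖fderiv ℝ g y‖ = ‖(fderiv ℝ g y - lin A⁻¹) + lin A⁻¹‖ := by rw [sub_add_cancel]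
        _ ≤ _ := norm_add_le _ _
    have h3 : S * ε * ‖fderiv ℝ g y‖ ≤ 1 / 2 * ‖fderiv ℝ g y‖ :=
      mul_le_mul_of_nonneg_right hSε (norm_nonneg _)
    linarith
  have hpow : (2 * (S + 1)) ^ 3 = (2 * (S + 1)) * (2 * (S + 1)) * (2 * (S + 1)) := by ring
  refine ⟨g, hg, hgf, hfg, ?_, d1, d2, ?_, ?_⟩
  · intro x m
    have h1 : f (g x + zc (A⁻¹.mulVec m)) = x + zc m := by
      rw [hfl, hfg, Matrix.mulVec_mulVec, Matrix.mul_nonsing_inv A hdet, Matrix.one_mulVec]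
    rw [← h1, hgf]
  · intro y
    have h1 : S * ε * ‖fderiv ℝ g y‖ ≤ S * ε * (2 * (S + 1)) :=
      mul_le_mul_of_nonneg_left (hG y) (mul_nonneg hS0 hε0)
    have h2 : S * ε * (2 * (S + 1)) ≤ (2 * (S + 1)) ^ 3 * ε := by
      have h3 : S * (2 * (S + 1)) ≤ (2 * (S + 1)) ^ 3 := by
        rw [hpow]
        refine mul_le_mul_of_nonneg_right ?_ hKpos.le
        nlinarith
      nlinarith [mul_le_mul_of_nonneg_right h3 hε0]
    linarith [hdiff y]
  · intro α B hα hα1 hB hH x y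
    have hlip : ‖g y - g x‖ ≤ 2 * (S + 1) * ‖x - y‖ := by
      rw [norm_sub_rev (g y) (g x)]
      have hdg : Differentiable ℝ g := hg.differentiable (by simp)
      exact convex_univ.norm_image_sub_le_of_norm_fderiv_le (𝕜 := ℝ) (fun z _ => hdg z)
        (fun z _ => hG z) (Set.mem_univ y) (Set.mem_univ x)
    have h1 : fderiv ℝ g x - fderiv ℝ g y =
        fderiv ℝ g x * (fderiv ℝ f (g y) - fderiv ℝ f (g x)) * fderiv ℝ g y := by
      calc fderiv ℝ g x - fderiv ℝ g y =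
          fderiv ℝ g x * (fderiv ℝ f (g y) * fderiv ℝ g y) -
            (fderiv ℝ g x * fderiv ℝ f (g x)) * fderiv ℝ g y := by
            rw [d4, d3, one_mul, mul_one]
        _ = fderiv ℝ g x * (fderiv ℝ f (g y) - fderiv ℝ f (g x)) * fderiv ℝ g y := by simp only [mul_sub, sub_mul, mul_assoc]
    have h2 : ‖g y - g x‖ ^ α ≤ 2 * (S + 1) * ‖x - y‖ ^ α := by
      calc ‖g y - g x‖ ^ α ≤ (2 * (S + 1) * ‖x - y‖) ^ α :=
            Real.rpow_le_rpow (norm_nonneg _) hlip hα.le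
        _ = (2 * (S + 1)) ^ α * ‖x - y‖ ^ α := Real.mul_rpow hKpos.le (norm_nonneg _)
        _ ≤ 2 * (S + 1) * ‖x - y‖ ^ α := by
            refine mul_le_mul_of_nonneg_right ?_ (Real.rpow_nonneg (norm_nonneg _) _)
            calc (2 * (S + 1)) ^ α ≤ (2 * (S + 1)) ^ (1 : ℝ) :=
                  Real.rpow_le_rpow_of_exponent_le (by linarith) hα1
              _ = 2 * (S + 1) := Real.rpow_one _
    rw [h1]
    refine (norm_mul_le _ _).trans ((mul_le_mul_of_nonneg_right (norm_mul_le _ _)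
      (norm_nonneg _)).trans ?_)
    calc ‖fderiv ℝ g x‖ * ‖fderiv ℝ f (g y) - fderiv ℝ f (g x)‖ * ‖fderiv ℝ g y‖
        ≤ (2 * (S + 1)) * (B * (2 * (S + 1) * ‖x - y‖ ^ α)) * (2 * (S + 1)) := by
          refine mul_le_mul (mul_le_mul (hG x) ?_ (norm_nonneg _) hKpos.le) (hG y)
            (norm_nonneg _) ?_
          · exact (hH _ _).trans (mul_le_mul_of_nonneg_left h2 hB)
          · have := Real.rpow_nonneg (norm_nonneg (x - y)) α
            positivity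
      _ = (2 * (S + 1)) ^ 3 * B * ‖x - y‖ ^ α := by ring

end LRA
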