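import Pool.Agent.LRA.PQ
import Pool.Agent.LRA.Inv

/-!
# LRA / HDf: a smooth semiconjugacy homotopic to the identity is a diffeomorphism

PLAN.  As in JOsc, with `X x = fderiv ℝ h x` (smooth, periodic since `h (x + zc m) = h x + zc m`):
differentiating `h (f x) = lin A (h x)`: `Dh(f x) Df(x) = lin A Dh(x)`, so
`X (f x) = lin A * X x * Dg(f x)`; at `g x`: `X (g x) = lin A⁻¹ * X x * Df(g x)` (`lin A⁻¹ lin A = 1`).
So `oscPQ` applies with `P x = lin A`, `Q x = fderiv g (f x)`, `P' x = lin A⁻¹`, `Q' x = fderiv f (g x)`,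
`P₀ = lin A`, `Q₀ = lin A⁻¹`, `P₀' = lin A⁻¹`, `Q₀' = lin A`.  With `τ` as in JOsc, for every bound `S` of `‖X‖`:
`‖X x - X y‖ ≤ C τ S`, by `ave` `‖X x - 1‖ ≤ d C τ S`.  With the least bound `S₀` (`bdd_per`):
`S₀ ≤ ‖1‖ + d C τ S₀ ≤ 1 + S₀ / 2`, so `S₀ ≤ 2`, and `‖X x - 1‖ ≤ 2 d C τ ≤ 1/2` for `ε` small.  `near_one`.
-/

set_option autoImplicit false

noncomputable section

open scoped BigOperators ContDiff

namespace LRA

variable {d : ℕ}

private theorem hol_aux {b a t u α : ℝ} (hb : 0 ≤ b) (ha : 1 ≤ a) (ht : 0 ≤ t) (hu0 : 0 ≤ u)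
    (hu : u ≤ a * t) (hα : 0 < α) (hα1 : α ≤ 1) : b * u ^ α ≤ b * a * t ^ α := by
  have h1 : u ^ α ≤ (a * t) ^ α := Real.rpow_le_rpow hu0 hu hα.le
  rw [Real.mul_rpow (by linarith) ht] at h1
  have h2 : a ^ α ≤ a := by
    calc a ^ α ≤ a ^ (1 : ℝ) := Real.rpow_le_rpow_of_exponent_le ha hα1
      _ = a := Real.rpow_one a
  calc b * u ^ α ≤ b * (a ^ α * t ^ α) := mul_le_mul_of_nonneg_left h1 hb
    _ ≤ b * (a * t ^ α) := mul_le_mul_of_nonneg_left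
        (mul_le_mul_of_nonneg_right h2 (Real.rpow_nonneg ht _)) hb
    _ = b * a * t ^ α := by ring

theorem hdf (A : Matrix (Fin d) (Fin d) ℤ) (hdet : IsUnit A.det) (hA : NoEig (lin A) 1)
    (α B : ℝ) (hα : 0 < α) (hα1 : α ≤ 1) :
    ∃ ε : ℝ, 0 < ε ∧ ∀ f : V d → V d, ContDiff ℝ ∞ f → IsLift A f →
      (∀ x, ‖fderiv ℝ f x - lin A‖ ≤ ε) →
      (∀ x y, ‖fderiv ℝ f x - fderiv ℝ f y‖ ≤ B * ‖x - y‖ ^ α) →
      ∀ h : V d → V d, ContDiff ℝ ∞ h →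
        (∀ (x : V d) (m : Fin d → ℤ), h (x + zc m) = h x + zc m) →
        (∀ x, h (f x) = lin A (h x)) →
          ∃ g : V d → V d, ContDiff ℝ ∞ g ∧ (∀ x, g (h x) = x) ∧ ∀ x, h (g x) = x := by
  obtain ⟨ε₀, K, hε₀, hK, hinv⟩ := inv A hdet
  obtain ⟨ε₁, C, hε₁, hC, hosc⟩ := oscPQ (lin A) hA (lin A) (lin A⁻¹) (lin A⁻¹) (lin A) α hα hα1
  obtain ⟨B₁, hB₁⟩ : ∃ B₁ : ℝ, B₁ = K * (|B| + 1) * (‖lin A‖ + ‖lin A⁻¹‖ + K + 1) := ⟨_, rfl⟩
  have ha0 : 0 ≤ ‖lin A‖ := norm_nonneg _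
  have hb0 : 0 ≤ ‖lin A⁻¹‖ := norm_nonneg _
  have hBa : 0 ≤ |B| := abs_nonneg _
  have hB₁0 : 0 ≤ B₁ := by
    rw [hB₁]
    positivity
  have ht : Filter.Tendsto (fun ε : ℝ => (d : ℝ) * (C * (K * ε + Real.sqrt (K * ε * B₁)))) 
      (nhdsWithin 0 (Set.Ioi 0)) (nhds 0) := by
    have hcont : Continuous fun ε : ℝ => (d : ℝ) * (C * (K * ε + Real.sqrt (K * ε * B₁))) := by
      fun_prop
    exact (hcont.tendsto' 0 0 (by simp)).mono_left nhdsWithin_le_nhds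
  have ht2 : Filter.Tendsto (fun ε : ℝ => K * ε) (nhdsWithin 0 (Set.Ioi 0)) (nhds 0) := by
    have hcont : Continuous fun ε : ℝ => K * ε := by fun_prop
    exact (hcont.tendsto' 0 0 (by simp)).mono_left nhdsWithin_le_nhds
  have ht3 : Filter.Tendsto (fun ε : ℝ => ε) (nhdsWithin 0 (Set.Ioi 0)) (nhds 0) :=
    Filter.Tendsto.mono_left Filter.tendsto_id nhdsWithin_le_nhds
  have hev := ((ht.eventually (gt_mem_nhds (by norm_num : (0 : ℝ) < 1 / 4))).and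
    ((ht2.eventually (gt_mem_nhds hε₁)).and ((ht3.eventually (gt_mem_nhds hε₀)).and
      (ht3.eventually (gt_mem_nhds (one_pos : (0 : ℝ) < 1)))))).and self_mem_nhdsWithin
  obtain ⟨ε, ⟨hq1, hq2, hq3, hq4⟩, hq5⟩ := hev.exists
  have hε : 0 < ε := hq5
  refine ⟨ε, hε, ?_⟩
  intro f hf hlift hfA hfB h hh hper hsemi
  obtain ⟨g, hg, hgf, hfg, hgl, hD1, hD2, hgA, hgB⟩ := hinv f hf hlift ε hq3.le hfA
  have hfB' : ∀ x y, ‖fderiv ℝ f x - fderiv ℝ f y‖ ≤ |B| * ‖x - y‖ ^ α := fun x y =>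
    (hfB x y).trans (mul_le_mul_of_nonneg_right (le_abs_self B) (Real.rpow_nonneg (norm_nonneg _) _))
  have hgB' := hgB α |B| hα hα1 hBa hfB'
  have hdf : Differentiable ℝ f := hf.differentiable (by simp)
  have hdg : Differentiable ℝ g := hg.differentiable (by simp)
  have hdh : Differentiable ℝ h := hh.differentiable (by simp)
  have hKε : 0 ≤ K * ε := by positivity
  have hεK : ε ≤ K * ε := by nlinarith
  -- Lipschitz bounds
  have hfl : ∀ x y, ‖f x - f y‖ ≤ (‖lin A‖ + 1) * ‖x - y‖ := by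
    intro x y
    refine convex_univ.norm_image_sub_le_of_norm_fderiv_le (𝕜 := ℝ) (fun z _ => hdf z)
      (fun z _ => ?_) (Set.mem_univ y) (Set.mem_univ x)
    calc ‖fderiv ℝ f z‖ = ‖lin A + (fderiv ℝ f z - lin A)‖ := by rw [add_sub_cancel]
      _ ≤ ‖lin A‖ + ‖fderiv ℝ f z - lin A‖ := norm_add_le _ _
      _ ≤ ‖lin A‖ + 1 := by linarith [hfA z]
  have hgl' : ∀ x y, ‖g x - g y‖ ≤ (‖lin A⁻¹‖ + K) * ‖x - y‖ := by
    intro x y
    refine convex_univ.norm_image_sub_le_of_norm_fderiv_le (𝕜 := ℝ) (fun z _ => hdg z)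
      (fun z _ => ?_) (Set.mem_univ y) (Set.mem_univ x)
    calc ‖fderiv ℝ g z‖ = ‖lin A⁻¹ + (fderiv ℝ g z - lin A⁻¹)‖ := by rw [add_sub_cancel]
      _ ≤ ‖lin A⁻¹‖ + ‖fderiv ℝ g z - lin A⁻¹‖ := norm_add_le _ _
      _ ≤ ‖lin A⁻¹‖ + K := by nlinarith [hgA z]
  -- the derivative of `h`
  have hXper : Per (fderiv ℝ h) := by
    intro x m
    have h1 : (fun y => h (y + zc m)) = fun y => h y + zc m := funext fun y => hper y m
    rw [← fderiv_comp_add_right, h1, fderiv_add_const]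
  have hXsm : ContDiff ℝ ∞ (fderiv ℝ h) := hh.fderiv_right (m := ∞) (by simp)
  have hchain : ∀ x, fderiv ℝ h (f x) * fderiv ℝ f x = lin A * fderiv ℝ h x := by
    intro x
    have h1 : HasFDerivAt (fun y => h (f y)) ((fderiv ℝ h (f x)).comp (fderiv ℝ f x)) x :=
      (hdh (f x)).hasFDerivAt.comp x (hdf x).hasFDerivAt
    have h2 : HasFDerivAt (fun y => lin A (h y)) ((lin A).comp (fderiv ℝ h x)) x :=
      (lin A).hasFDerivAt.comp x (hdh x).hasFDerivAt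
    have h3 : (fun y => h (f y)) = fun y => lin A (h y) := funext hsemi
    rw [h3] at h1
    exact h1.unique h2
  have hX1 : ∀ x, fderiv ℝ h (f x) = lin A * fderiv ℝ h x * fderiv ℝ g (f x) := by
    intro x
    rw [← hchain x, mul_assoc, hD2 x, mul_one]
  have hAA : lin A⁻¹ * lin A = 1 := by
    rw [← lin_mul, Matrix.nonsing_inv_mul A hdet, lin_one]
  have hX2 : ∀ x, fderiv ℝ h (g x) = lin A⁻¹ * fderiv ℝ h x * fderiv ℝ f (g x) := by
    intro x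
    have h1 := hchain (g x)
    rw [hfg x] at h1
    rw [mul_assoc, h1, ← mul_assoc, hAA, one_mul]
  obtain ⟨Λ, hΛ⟩ := lip_per hXsm hXper
  have hp0 : ∀ x y : V d, 0 ≤ B₁ * ‖x - y‖ ^ α := fun x y =>
    mul_nonneg hB₁0 (Real.rpow_nonneg (norm_nonneg _) _)
  have hkey : ∀ S, (∀ x, ‖fderiv ℝ h x‖ ≤ S) → ∀ x y, ‖fderiv ℝ h x - fderiv ℝ h y‖ ≤
      C * (K * ε + Real.sqrt (K * ε * B₁)) * S := by
    intro S hS
    refine hosc f g hgf hfg ?_ (fderiv ℝ h) (fun _ => lin A) (fun x => fderiv ℝ g (f x))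
      (fun _ => lin A⁻¹) (fun x => fderiv ℝ f (g x)) (K * ε) B₁ S Λ hKε hq2.le hB₁0 hX1 hX2
      (fun x => by rw [sub_self, norm_zero]; exact hKε) (fun x => hgA (f x))
      (fun x => by rw [sub_self, norm_zero]; exact hKε) (fun x => (hfA (g x)).trans hεK)
      (fun x y => by rw [sub_self, norm_zero]; exact hp0 x y) ?_
      (fun x y => by rw [sub_self, norm_zero]; exact hp0 x y) ?_ hS hΛ hXper
    · exact lip_of_deriv hf (lin A) (fun x => ((hfA x).trans hεK).trans hq2.le)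
    · intro x y
      refine (hgB' (f x) (f y)).trans ?_
      refine (hol_aux (by positivity) (by linarith) (norm_nonneg (x - y)) (norm_nonneg _)
        (hfl x y) hα hα1).trans ?_
      refine mul_le_mul_of_nonneg_right ?_ (Real.rpow_nonneg (norm_nonneg _) _)
      rw [hB₁]
      have h1 : K * |B| ≤ K * (|B| + 1) := by nlinarith
      exact mul_le_mul h1 (by linarith) (by positivity) (by positivity)
    · intro x y
      refine (hfB' (g x) (g y)).trans ?_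
      refine (hol_aux hBa (by linarith) (norm_nonneg (x - y)) (norm_nonneg _)
        (hgl' x y) hα hα1).trans ?_
      refine mul_le_mul_of_nonneg_right ?_ (Real.rpow_nonneg (norm_nonneg _) _)
      rw [hB₁]
      have h1 : |B| ≤ K * (|B| + 1) := by nlinarith
      exact mul_le_mul h1 (by linarith) (by positivity) (by positivity)
  have hone : ‖(1 : V d →L[ℝ] V d)‖ ≤ 1 := ContinuousLinearMap.norm_id_le
  have hkey2 : ∀ S, 0 ≤ S → (∀ x, ‖fderiv ℝ h x‖ ≤ S) → ∀ x, ‖fderiv ℝ h x - 1‖ ≤ 1 / 4 * S := by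
    intro S hS0 hS x
    refine (ave hh hper (hkey S hS) x).trans ?_
    have h1 : (d : ℝ) * (C * (K * ε + Real.sqrt (K * ε * B₁)) * S) =
        (d : ℝ) * (C * (K * ε + Real.sqrt (K * ε * B₁))) * S := by ring
    rw [h1]
    exact mul_le_mul_of_nonneg_right hq1.le hS0
  obtain ⟨S, hS⟩ := bdd_per hXsm.continuous hXper
  have hbdd : BddAbove (Set.range fun x => ‖fderiv ℝ h x‖) := by
    refine ⟨S, ?_⟩
    rintro _ ⟨x, rfl⟩
    exact hS x
  have hS₀ : ∀ x, ‖fderiv ℝ h x‖ ≤ ⨆ y, ‖fderiv ℝ h y‖ := fun x => le_ciSup hbdd x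
  have hS₀0 : 0 ≤ ⨆ y, ‖fderiv ℝ h y‖ := (norm_nonneg _).trans (hS₀ 0)
  have hS₀2 : ⨆ y, ‖fderiv ℝ h y‖ ≤ 2 := by
    have h1 : ⨆ y, ‖fderiv ℝ h y‖ ≤ 1 + 1 / 4 * ⨆ y, ‖fderiv ℝ h y‖ := by
      refine ciSup_le fun x => ?_
      calc ‖fderiv ℝ h x‖ = ‖1 + (fderiv ℝ h x - 1)‖ := by rw [add_sub_cancel]
        _ ≤ ‖(1 : V d →L[ℝ] V d)‖ + ‖fderiv ℝ h x - 1‖ := norm_add_le _ _
        _ ≤ 1 + 1 / 4 * ⨆ y, ‖fderiv ℝ h y‖ := add_le_add hone (hkey2 _ hS₀0 hS₀ x)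
    linarith
  refine near_one hh fun x => ?_
  have h1 := hkey2 _ hS₀0 hS₀ x
  linarith

end LRA
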