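import Pool.Agent.LRA.Est

/-!
# LRA / Hol: `n` independent holomorphic functions `ℓ + g`

The holomorphic functions `ℓ + g` form a space of dimension `n` whose linear parts separate the points.
-/

set_option autoImplicit false

noncomputable section

open scoped BigOperators ComplexConjugate ContDiff
open MeasureTheory

namespace LRA

variable {n d : ℕ} {w : Fin n → Fin d → ℂ} {μ : Fin n → Fin n → V d → ℂ} {θ : ℝ}

private def holS (w : Fin n → Fin d → ℂ) (μ : Fin n → Fin n → V d → ℂ) (ℓ : Fin d → ℂ)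
    (c : Fin n → ℂ) : Prop :=
  ∃ g : V d → ℂ, SP g ∧ ∀ j x, Lj w μ j (fun y => lf ℓ y + g y) x = c j

private theorem hol_lf_add (ℓ ℓ' : Fin d → ℂ) (y : V d) : lf (ℓ + ℓ') y = lf ℓ y + lf ℓ' y := by
  simp only [lf, Pi.add_apply, add_mul, Finset.sum_add_distrib]

private theorem hol_lf_smul (a : ℂ) (ℓ : Fin d → ℂ) (y : V d) : lf (a • ℓ) y = a * lf ℓ y := by
  simp only [lf, Pi.smul_apply, smul_eq_mul, Finset.mul_sum, mul_assoc]

private def holE (x : V d) : (Fin d → ℂ) →ₗ[ℂ] ℂ where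
  toFun ℓ := lf ℓ x
  map_add' ℓ ℓ' := hol_lf_add ℓ ℓ' x
  map_smul' a ℓ := hol_lf_smul a ℓ x

private theorem holS_zero : holS w μ 0 0 := by
  refine ⟨fun _ => 0, SP.const 0, fun j x => ?_⟩
  rw [Lj_lf_add w μ 0 (SP.const 0) j x]
  have h1 : ∀ u : Fin d → ℂ, bp 0 u = 0 := fun u => by simp [bp]
  rw [h1, dw_const, add_zero, zero_add, Pi.zero_apply]
  refine Finset.sum_eq_zero fun k _ => ?_
  rw [h1, dw_const, add_zero, mul_zero]

private theorem holS_add {ℓ ℓ' : Fin d → ℂ} {c c' : Fin n → ℂ} (h : holS w μ ℓ c)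
    (h' : holS w μ ℓ' c') : holS w μ (ℓ + ℓ') (c + c') := by
  obtain ⟨g, hg, hc⟩ := h
  obtain ⟨g', hg', hc'⟩ := h'
  refine ⟨fun x => g x + g' x, hg.add hg', fun j x => ?_⟩
  have h1 : (fun y => lf (ℓ + ℓ') y + (g y + g' y)) =
      fun y => (lf ℓ y + g y) + (lf ℓ' y + g' y) := by
    funext y
    rw [hol_lf_add]
    ring
  rw [h1, Lj_add ((lf_contDiff ℓ).add hg.1) ((lf_contDiff ℓ').add hg'.1), hc, hc', Pi.add_apply]

private theorem holS_smul (a : ℂ) {ℓ : Fin d → ℂ} {c : Fin n → ℂ} (h : holS w μ ℓ c) :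
    holS w μ (a • ℓ) (a • c) := by
  obtain ⟨g, hg, hc⟩ := h
  refine ⟨fun x => a * g x, (SP.const a).mul hg, fun j x => ?_⟩
  have h1 : (fun y => lf (a • ℓ) y + a * g y) = fun y => a * (lf ℓ y + g y) := by
    funext y
    rw [hol_lf_smul]
    ring
  rw [h1, Lj_smul ((lf_contDiff ℓ).add hg.1), hc, Pi.smul_apply, smul_eq_mul]

private def holC (w : Fin n → Fin d → ℂ) (μ : Fin n → Fin n → V d → ℂ) :
    Submodule ℂ ((Fin d → ℂ) × (Fin n → ℂ)) where
  carrier := {p | holS w μ p.1 p.2}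
  add_mem' := fun h h' => holS_add h h'
  zero_mem' := holS_zero
  smul_mem' := fun a _ h => holS_smul a h

private def holK (w : Fin n → Fin d → ℂ) (μ : Fin n → Fin n → V d → ℂ) :
    Submodule ℂ (Fin d → ℂ) where
  carrier := {ℓ | holS w μ ℓ 0}
  add_mem' := fun h h' => by
    have h1 := holS_add h h'
    rwa [add_zero] at h1
  zero_mem' := holS_zero
  smul_mem' := fun a _ h => by
    have h1 := holS_smul a h
    rwa [smul_zero] at h1

private theorem hol_rank (hd : d = 2 * n)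
    (hex : ∀ ℓ : Fin d → ℂ, ∃ g : V d → ℂ, SP g ∧ ∀ j x,
      Lj w μ j (fun y => lf ℓ y + g y) x = Lj w μ j (fun y => lf ℓ y + g y) 0) :
    n ≤ Module.finrank ℂ (holK w μ) := by
  have hsurj : Function.Surjective ((LinearMap.fst ℂ (Fin d → ℂ) (Fin n → ℂ)).comp
      (holC w μ).subtype) := by
    intro ℓ
    obtain ⟨g, hg, h⟩ := hex ℓ
    exact ⟨⟨(ℓ, fun j => Lj w μ j (fun y => lf ℓ y + g y) 0), g, hg, h⟩, rfl⟩
  obtain ⟨s, hs⟩ := LinearMap.exists_rightInverse_of_surjective _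
    (LinearMap.range_eq_top.2 hsurj)
  set T : (Fin d → ℂ) →ₗ[ℂ] (Fin n → ℂ) := (LinearMap.snd ℂ (Fin d → ℂ) (Fin n → ℂ)).comp
    ((holC w μ).subtype.comp s) with hT
  have hker : LinearMap.ker T ≤ holK w μ := by
    intro ℓ hℓ
    have h1 : (s ℓ).1.1 = ℓ := LinearMap.congr_fun hs ℓ
    have h2 : (s ℓ).1.2 = 0 := LinearMap.mem_ker.1 hℓ
    have h3 : holS w μ (s ℓ).1.1 (s ℓ).1.2 := (s ℓ).2
    rw [h1, h2] at h3
    exact h3
  have h4 := LinearMap.finrank_range_add_finrank_ker T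
  have h5 : Module.finrank ℂ (LinearMap.range T) ≤ n := by
    refine (Submodule.finrank_le _).trans (le_of_eq ?_)
    exact Module.finrank_fin_fun ℂ
  have h6 := Submodule.finrank_mono hker
  rw [Module.finrank_fin_fun] at h4
  omega

private theorem hol_star (u v : Fin d → ℂ) : bp (star u) (star v) = conj (bp u v) := by
  simp only [bp, Pi.star_apply, map_sum, map_mul]
  rfl

private theorem hol_zero (hb : BD w μ θ) (hθ : θ < 1) {ℓ : Fin d → ℂ} (h : ℓ ∈ holK w μ)
    (h' : star ℓ ∈ holK w μ) : ℓ = 0 := by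
  obtain ⟨g, hg, hc⟩ := h
  obtain ⟨g', hg', hc'⟩ := h'
  have e1 := est hb hθ ℓ hg hc
  have e2 := est hb hθ (star ℓ) hg' hc'
  have n1 : ∀ j, ‖bp (star ℓ) (w j)‖ = ‖bp ℓ (star (w j))‖ := by
    intro j
    have h1 := hol_star ℓ (star (w j))
    rw [star_star] at h1
    rw [h1, RCLike.norm_conj]
  have n2 : ∀ j, ‖bp (star ℓ) (star (w j))‖ = ‖bp ℓ (w j)‖ := by
    intro j
    rw [hol_star, RCLike.norm_conj]
  have e2' : ∑ j, ‖bp ℓ (star (w j))‖ ^ 2 ≤ θ ^ 2 * ∑ j, ‖bp ℓ (w j)‖ ^ 2 := by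
    have h1 : ∑ j, ‖bp (star ℓ) (w j)‖ ^ 2 = ∑ j, ‖bp ℓ (star (w j))‖ ^ 2 :=
      Finset.sum_congr rfl fun j _ => by rw [n1]
    have h2 : ∑ j, ‖bp (star ℓ) (star (w j))‖ ^ 2 = ∑ j, ‖bp ℓ (w j)‖ ^ 2 :=
      Finset.sum_congr rfl fun j _ => by rw [n2]
    rw [h1, h2] at e2
    exact e2
  have p1 : 0 ≤ ∑ j, ‖bp ℓ (w j)‖ ^ 2 := Finset.sum_nonneg fun j _ => by positivity
  have p2 : 0 ≤ ∑ j, ‖bp ℓ (star (w j))‖ ^ 2 := Finset.sum_nonneg fun j _ => by positivity
  have hθ2 : θ ^ 2 < 1 := by nlinarith [hb.pos]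
  have s1 : ∑ j, ‖bp ℓ (w j)‖ ^ 2 = 0 := by nlinarith [sq_nonneg θ]
  have s2 : ∑ j, ‖bp ℓ (star (w j))‖ ^ 2 = 0 := by nlinarith [sq_nonneg θ]
  have z1 : ∀ j, bp ℓ (w j) = 0 := by
    intro j
    have h1 := (Finset.sum_eq_zero_iff_of_nonneg fun j _ => by positivity).1 s1 j
      (Finset.mem_univ j)
    exact norm_eq_zero.1 (pow_eq_zero_iff two_ne_zero |>.1 h1)
  have z2 : ∀ j, bp (star ℓ) (w j) = 0 := by
    intro j
    have h1 := (Finset.sum_eq_zero_iff_of_nonneg fun j _ => by positivity).1 s2 j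
      (Finset.mem_univ j)
    have h2 := n1 j
    rw [pow_eq_zero_iff two_ne_zero |>.1 h1] at h2
    exact norm_eq_zero.1 h2
  have hre : (fun l => (ℓ l).re) = (0 : V d) := by
    refine hb.nd _ fun j => ?_
    have h1 : lf (w j) (fun l => (ℓ l).re) = (1 / 2) * (bp ℓ (w j) + bp (star ℓ) (w j)) := by
      simp only [lf, bp, ← Finset.sum_add_distrib, Finset.mul_sum, Pi.star_apply]
      refine Finset.sum_congr rfl fun l _ => ?_
      have h2 : ((ℓ l).re : ℂ) = (ℓ l + star (ℓ l)) / 2 := Complex.re_eq_add_conj (ℓ l)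
      rw [h2]
      ring
    rw [h1, z1, z2, add_zero, mul_zero]
  have him : (fun l => (ℓ l).im) = (0 : V d) := by
    refine hb.nd _ fun j => ?_
    have h1 : lf (w j) (fun l => (ℓ l).im) =
        (1 / (2 * Complex.I)) * (bp ℓ (w j) - bp (star ℓ) (w j)) := by
      simp only [lf, bp, ← Finset.sum_sub_distrib, Finset.mul_sum, Pi.star_apply]
      refine Finset.sum_congr rfl fun l _ => ?_
      have h2 : ((ℓ l).im : ℂ) = (ℓ l - star (ℓ l)) / (2 * Complex.I) :=
        Complex.im_eq_sub_conj (ℓ l)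
      rw [h2]
      ring
    rw [h1, z1, z2, sub_zero, mul_zero]
  funext l
  exact Complex.ext (congrFun hre l) (congrFun him l)

theorem hol (hb : BD w μ θ) (hθ : θ < 1) (hd : d = 2 * n)
    (hex : ∀ ℓ : Fin d → ℂ, ∃ g : V d → ℂ, SP g ∧ ∀ j x,
      Lj w μ j (fun y => lf ℓ y + g y) x = Lj w μ j (fun y => lf ℓ y + g y) 0) :
    ∃ (b : Fin n → Fin d → ℂ) (g : Fin n → V d → ℂ), (∀ i, SP (g i)) ∧
      (∀ i j x, Lj w μ j (fun y => lf (b i) y + g i y) x = 0) ∧
      (∀ x : V d, (∀ i, lf (b i) x = 0) → x = 0) ∧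
      ∀ (ℓ : Fin d → ℂ) (g' : V d → ℂ), SP g' →
        (∀ j x, Lj w μ j (fun y => lf ℓ y + g' y) x = 0) →
          ∃ c : Fin n → ℂ, ∀ x, lf ℓ x = ∑ i, c i * lf (b i) x := by
  obtain ⟨f, hf⟩ := exists_linearIndependent_of_le_finrank (hol_rank hd hex)
  set b : Fin n → Fin d → ℂ := fun i => (f i : Fin d → ℂ) with hbdef
  have hbli : LinearIndependent ℂ b := hf.map' (holK w μ).subtype (Submodule.ker_subtype _)
  have hbK : ∀ i, b i ∈ holK w μ := fun i => (f i).2
  have hcomb : ∀ c : Fin n → ℂ, ∑ i, c i • b i ∈ holK w μ := fun c =>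
    Submodule.sum_mem _ fun i _ => Submodule.smul_mem _ _ (hbK i)
  have hst : ∀ c : Fin n → ℂ, star (∑ i, c i • star (b i)) = ∑ i, conj (c i) • b i := by
    intro c
    rw [star_sum]
    refine Finset.sum_congr rfl fun i _ => ?_
    rw [star_smul, star_star]
    rfl
  -- the family `b`, `star b`
  have hli : LinearIndependent ℂ (Sum.elim b fun i => star (b i)) := by
    rw [Fintype.linearIndependent_iff]
    intro c hc
    rw [Fintype.sum_sum_type] at hc
    simp only [Sum.elim_inl, Sum.elim_inr] at hc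
    have h1 : ∑ i, c (Sum.inl i) • b i = 0 := by
      apply hol_zero hb hθ (hcomb _)
      have h2 : ∑ i, c (Sum.inl i) • b i = -∑ i, c (Sum.inr i) • star (b i) :=
        eq_neg_of_add_eq_zero_left hc
      rw [h2, star_neg, hst]
      exact Submodule.neg_mem _ (hcomb _)
    have h3 : ∑ i, c (Sum.inr i) • star (b i) = 0 := by
      rw [h1, zero_add] at hc
      exact hc
    have h4 : ∑ i, conj (c (Sum.inr i)) • b i = 0 := by
      rw [← hst fun i => c (Sum.inr i), h3, star_zero]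
    have h5 := Fintype.linearIndependent_iff.1 hbli _ h1
    have h6 := Fintype.linearIndependent_iff.1 hbli _ h4
    rintro (i | i)
    · exact h5 i
    · exact (map_eq_zero (starRingEnd ℂ)).1 (h6 i)
  have htop : Submodule.span ℂ (Set.range (Sum.elim b fun i => star (b i))) = ⊤ := by
    apply hli.span_eq_top_of_card_eq_finrank'
    rw [Module.finrank_fin_fun, Fintype.card_sum, Fintype.card_fin, hd, two_mul]
  have hdec : ∀ ℓ : Fin d → ℂ, ∃ c e : Fin n → ℂ,
      ℓ = ∑ i, c i • b i + ∑ i, e i • star (b i) := by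
    intro ℓ
    have h1 : ℓ ∈ Submodule.span ℂ (Set.range (Sum.elim b fun i => star (b i))) := by
      rw [htop]
      exact Submodule.mem_top
    rw [Submodule.mem_span_range_iff_exists_fun] at h1
    obtain ⟨c, hc⟩ := h1
    rw [Fintype.sum_sum_type] at hc
    exact ⟨fun i => c (Sum.inl i), fun i => c (Sum.inr i), hc.symm⟩
  choose g hg hgL using fun i => hbK i
  refine ⟨b, g, hg, fun i j x => hgL i j x, ?_, ?_⟩
  · intro x hx
    funext l
    obtain ⟨c, e, hce⟩ := hdec (Pi.single l 1)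
    have h1 : lf (Pi.single l 1) x = 0 := by
      have h2 : ∀ i, holE x (b i) = 0 := hx
      have h3 : ∀ i, holE x (star (b i)) = 0 := by
        intro i
        have h4 : holE x (star (b i)) = conj (lf (b i) x) := by
          show lf (star (b i)) x = _
          simp only [lf, Pi.star_apply, map_sum, map_mul, Complex.conj_ofReal]
          rfl
        rw [h4, hx i, map_zero]
      show holE x (Pi.single l 1) = 0
      rw [hce, map_add, map_sum, map_sum]
      simp only [map_smul, h2, h3, smul_zero, Finset.sum_const_zero, add_zero]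
    have h5 : lf (Pi.single l 1) x = (x l : ℂ) := by
      simp only [lf]
      rw [Finset.sum_eq_single l]
      · rw [Pi.single_eq_same, one_mul]
      · intro i _ hi
        rw [Pi.single_eq_of_ne hi, zero_mul]
      · intro h
        exact absurd (Finset.mem_univ l) h
    rw [h5] at h1
    exact_mod_cast h1
  · intro ℓ g' hg' hL
    have hℓ : ℓ ∈ holK w μ := ⟨g', hg', hL⟩
    obtain ⟨c, e, hce⟩ := hdec ℓ
    have h1 : ∑ i, e i • star (b i) = 0 := by
      apply hol_zero hb hθ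
      · have h2 : ∑ i, e i • star (b i) = ℓ - ∑ i, c i • b i := by
          rw [hce]
          abel
        rw [h2]
        exact Submodule.sub_mem _ hℓ (hcomb c)
      · rw [hst]
        exact hcomb _
    rw [h1, add_zero] at hce
    refine ⟨c, fun x => ?_⟩
    show holE x ℓ = ∑ i, c i * holE x (b i)
    rw [hce, map_sum]
    exact Finset.sum_congr rfl fun i _ => by rw [map_smul, smul_eq_mul]

end LRA
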