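import Pool.Agent.LRA.PQ
import Pool.Agent.LRA.Inv

/-!
# LRA / JOsc: an invariant complex structure is almost constant
-/

set_option autoImplicit false

noncomputable section

open scoped BigOperators ContDiff

namespace LRA

variable {d : ℕ}

private theorem josc_rpow {M t α : ℝ} (hM : 1 ≤ M) (ht : 0 ≤ t) (hα : 0 < α) (hα1 : α ≤ 1) :
    (M * t) ^ α ≤ M * t ^ α := by
  rw [Real.mul_rpow (by linarith) ht]
  have h1 : M ^ α ≤ M ^ (1 : ℝ) := Real.rpow_le_rpow_of_exponent_le hM hα1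
  rw [Real.rpow_one] at h1
  exact mul_le_mul_of_nonneg_right h1 (Real.rpow_nonneg ht _)

private theorem josc_lip {f : V d → V d} (T : V d →L[ℝ] V d) {ε M : ℝ}
    (h : ∀ x y, ‖(f x - T x) - (f y - T y)‖ ≤ ε * ‖x - y‖) (hM : ‖T‖ + ε ≤ M) (x y : V d) :
    ‖f x - f y‖ ≤ M * ‖x - y‖ := by
  have h1 : f x - f y = ((f x - T x) - (f y - T y)) + T (x - y) := by
    rw [map_sub]; abel
  rw [h1]
  have h2 := T.le_opNorm (x - y)
  have h3 := norm_add_le ((f x - T x) - (f y - T y)) (T (x - y))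
  have h4 := h x y
  have h5 : (‖T‖ + ε) * ‖x - y‖ ≤ M * ‖x - y‖ := mul_le_mul_of_nonneg_right hM (norm_nonneg _)
  nlinarith

private theorem josc_eps {K B1 t ε1 : ℝ} (hK : 1 ≤ K) (hB : 0 < B1) (ht : 0 < t) (hε1 : 0 < ε1) :
    ∃ ε : ℝ, 0 < ε ∧ ε ≤ 1 ∧ ε ≤ ε1 ∧ K * ε ≤ ε1 ∧ K * ε + Real.sqrt (K * ε * B1) ≤ t := by
  have hK0 : 0 < K := by linarith
  refine ⟨min (min 1 (ε1 / K)) (min (t / 2 / K) ((t / 2) ^ 2 / B1 / K)), ?_, ?_, ?_, ?_, ?_⟩
  · positivity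
  · exact le_trans (min_le_left _ _) (min_le_left _ _)
  · refine le_trans (le_trans (min_le_left _ _) (min_le_right _ _)) ?_
    rw [div_le_iff₀ hK0]
    nlinarith
  · have h1 : min (min 1 (ε1 / K)) (min (t / 2 / K) ((t / 2) ^ 2 / B1 / K)) ≤ ε1 / K :=
      le_trans (min_le_left _ _) (min_le_right _ _)
    calc K * _ ≤ K * (ε1 / K) := mul_le_mul_of_nonneg_left h1 hK0.le
      _ = ε1 := by field_simp
  · set ε := min (min 1 (ε1 / K)) (min (t / 2 / K) ((t / 2) ^ 2 / B1 / K)) with hε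
    have h1 : ε ≤ t / 2 / K := le_trans (min_le_right _ _) (min_le_left _ _)
    have h2 : ε ≤ (t / 2) ^ 2 / B1 / K := le_trans (min_le_right _ _) (min_le_right _ _)
    have h3 : K * ε ≤ t / 2 := by
      calc K * ε ≤ K * (t / 2 / K) := mul_le_mul_of_nonneg_left h1 hK0.le
        _ = t / 2 := by field_simp
    have h4 : K * ε * B1 ≤ (t / 2) ^ 2 := by
      calc K * ε * B1 ≤ K * ((t / 2) ^ 2 / B1 / K) * B1 :=
            mul_le_mul_of_nonneg_right (mul_le_mul_of_nonneg_left h2 hK0.le) hB.le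
        _ = (t / 2) ^ 2 := by field_simp
    have h5 : Real.sqrt (K * ε * B1) ≤ t / 2 := by
      rw [← Real.sqrt_sq (show (0:ℝ) ≤ t / 2 by positivity)]
      exact Real.sqrt_le_sqrt h4
    linarith

theorem josc (A : Matrix (Fin d) (Fin d) ℤ) (hdet : IsUnit A.det) (hA : NoEig (lin A) 1)
    (α B R η : ℝ) (hα : 0 < α) (hα1 : α ≤ 1) (hη : 0 < η) :
    ∃ ε : ℝ, 0 < ε ∧ ∀ f : V d → V d, ContDiff ℝ ∞ f → IsLift A f →
      (∀ x, ‖fderiv ℝ f x - lin A‖ ≤ ε) →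
      (∀ x y, ‖fderiv ℝ f x - fderiv ℝ f y‖ ≤ B * ‖x - y‖ ^ α) →
      ∀ J : V d → (V d →L[ℝ] V d), CStr J →
        (∀ x, fderiv ℝ f x * J x = J (f x) * fderiv ℝ f x) →
          ∀ x₀ : V d, ‖J x₀‖ ≤ R → ∀ x, ‖J x - J x₀‖ ≤ η := by
  obtain ⟨e0, K, he0, hK1, Hinv⟩ := inv A hdet
  obtain ⟨e1, C, he1, hC, Hosc⟩ := oscPQ (lin A) hA (lin A) (lin A⁻¹) (lin A⁻¹) (lin A) α hα hα1
  have hK0 : 0 < K := by linarith
  obtain ⟨B1, hB1⟩ : ∃ B1 : ℝ, B1 = K * (|B| + 1) * (‖lin A‖ + ‖lin A⁻¹‖ + K + 1) := ⟨_, rfl⟩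
  have hnA : 0 ≤ ‖lin A‖ := norm_nonneg _
  have hnA' : 0 ≤ ‖lin A⁻¹‖ := norm_nonneg _
  have hB0 : 0 ≤ |B| := abs_nonneg B
  have hKB : 0 ≤ K * |B| := by positivity
  have hKB1 : |B| ≤ K * |B| := by nlinarith
  have hKB2 : K * |B| ≤ K * (|B| + 1) := by nlinarith
  have hKB3 : 0 < K * (|B| + 1) := by positivity
  have hB1pos : 0 < B1 := by rw [hB1]; positivity
  have b1 : K * |B| ≤ B1 := by rw [hB1]; nlinarith
  have b2 : |B| ≤ B1 := le_trans hKB1 b1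
  have b3 : K * |B| * (‖lin A‖ + 1) ≤ B1 := by
    rw [hB1]
    exact mul_le_mul hKB2 (by linarith) (by linarith) hKB3.le
  have b4 : |B| * (‖lin A⁻¹‖ + K) ≤ B1 := by
    rw [hB1]
    exact mul_le_mul (le_trans hKB1 hKB2) (by linarith) (by linarith) hKB3.le
  obtain ⟨t, ht⟩ : ∃ t : ℝ, t = min (1 / (2 * C)) (η / (2 * C * (|R| + 1))) := ⟨_, rfl⟩
  have hR0 : 0 ≤ |R| := abs_nonneg R
  have htpos : 0 < t := by rw [ht]; positivity
  have ht1 : C * t ≤ 1 / 2 := by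
    have : t ≤ 1 / (2 * C) := by rw [ht]; exact min_le_left _ _
    calc C * t ≤ C * (1 / (2 * C)) := mul_le_mul_of_nonneg_left this hC.le
      _ = 1 / 2 := by field_simp
  have ht2 : 2 * C * t * (|R| + 1) ≤ η := by
    have : t ≤ η / (2 * C * (|R| + 1)) := by rw [ht]; exact min_le_right _ _
    calc 2 * C * t * (|R| + 1) = (2 * C * (|R| + 1)) * t := by ring
      _ ≤ (2 * C * (|R| + 1)) * (η / (2 * C * (|R| + 1))) :=
          mul_le_mul_of_nonneg_left this (by positivity)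
      _ = η := by field_simp
  obtain ⟨ε, hε, hε1, hε2, hε3, hε4⟩ := josc_eps (K := K) (B1 := B1) (t := t) (ε1 := min e0 e1)
    hK1 hB1pos htpos (lt_min he0 he1)
  have hKε : ε ≤ K * ε := by nlinarith
  have hKε0 : 0 ≤ K * ε := by positivity
  refine ⟨ε, hε, ?_⟩
  intro f hf hlift hfA hfH J hJ hinv x₀ hx₀ x
  obtain ⟨g, hg, hgf, hfg, hglift, hgf1, hfg1, hgA, hgH⟩ :=
    Hinv f hf hlift ε (le_trans hε2 (min_le_left _ _)) hfA
  have hfH' : ∀ x y, ‖fderiv ℝ f x - fderiv ℝ f y‖ ≤ |B| * ‖x - y‖ ^ α := fun x y =>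
    le_trans (hfH x y)
      (mul_le_mul_of_nonneg_right (le_abs_self B) (Real.rpow_nonneg (norm_nonneg _) _))
  have hgH' := hgH α |B| hα hα1 hB0 hfH'
  have lf0 := lip_of_deriv hf (lin A) hfA
  have lg0 := lip_of_deriv hg (lin A⁻¹) hgA
  have lf : ∀ x y, ‖f x - f y‖ ≤ (‖lin A‖ + 1) * ‖x - y‖ :=
    josc_lip (lin A) lf0 (by linarith)
  have lg : ∀ x y, ‖g x - g y‖ ≤ (‖lin A⁻¹‖ + K) * ‖x - y‖ :=
    josc_lip (lin A⁻¹) lg0 (by nlinarith)
  obtain ⟨S, hS⟩ := bdd_per hJ.smooth.continuous hJ.per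
  obtain ⟨Λ, hΛ⟩ := lip_per hJ.smooth hJ.per
  have hbdd : BddAbove (Set.range fun x => ‖J x‖) := ⟨S, by rintro _ ⟨x, rfl⟩; exact hS x⟩
  obtain ⟨S0, hS0⟩ : ∃ S0 : ℝ, S0 = ⨆ x, ‖J x‖ := ⟨_, rfl⟩
  have hS0' : ∀ x, ‖J x‖ ≤ S0 := fun x => by rw [hS0]; exact le_ciSup hbdd x
  have key : ∀ x y, ‖J x - J y‖ ≤ C * (K * ε + Real.sqrt (K * ε * B1)) * S0 := by
    refine Hosc f g hgf hfg (fun x y => le_trans (lf0 x y)
      (mul_le_mul_of_nonneg_right (le_trans hε2 (min_le_right _ _)) (norm_nonneg _)))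
      J (fun x => fderiv ℝ f x) (fun x => fderiv ℝ g (f x)) (fun x => fderiv ℝ g x)
      (fun x => fderiv ℝ f (g x)) (K * ε) B1 S0 Λ hKε0 (le_trans hε3 (min_le_right _ _))
      hB1pos.le ?_ ?_ ?_ ?_ ?_ ?_ ?_ ?_ ?_ ?_ hS0' hΛ hJ.per
    · intro x
      show J (f x) = fderiv ℝ f x * J x * fderiv ℝ g (f x)
      rw [hinv x, mul_assoc, hfg1 x, mul_one]
    · intro x
      show J (g x) = fderiv ℝ g x * J x * fderiv ℝ f (g x)
      have h1 := hinv (g x)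
      rw [hfg x] at h1
      have h2 := hgf1 (g x)
      rw [hfg x] at h2
      rw [mul_assoc, ← h1, ← mul_assoc, h2, one_mul]
    · intro x
      exact le_trans (hfA x) hKε
    · intro x
      exact hgA (f x)
    · intro x
      exact hgA x
    · intro x
      exact le_trans (hfA (g x)) hKε
    · intro x y
      exact le_trans (hfH' x y)
        (mul_le_mul_of_nonneg_right b2 (Real.rpow_nonneg (norm_nonneg _) _))
    · intro x y
      have h1 := hgH' (f x) (f y)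
      have h2 : ‖f x - f y‖ ^ α ≤ (‖lin A‖ + 1) * ‖x - y‖ ^ α :=
        le_trans (Real.rpow_le_rpow (norm_nonneg _) (lf x y) hα.le)
          (josc_rpow (by linarith) (norm_nonneg _) hα hα1)
      calc ‖fderiv ℝ g (f x) - fderiv ℝ g (f y)‖ ≤ K * |B| * ‖f x - f y‖ ^ α := h1
        _ ≤ K * |B| * ((‖lin A‖ + 1) * ‖x - y‖ ^ α) := mul_le_mul_of_nonneg_left h2 hKB
        _ = (K * |B| * (‖lin A‖ + 1)) * ‖x - y‖ ^ α := by ring
        _ ≤ B1 * ‖x - y‖ ^ α :=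
            mul_le_mul_of_nonneg_right b3 (Real.rpow_nonneg (norm_nonneg _) _)
    · intro x y
      exact le_trans (hgH' x y)
        (mul_le_mul_of_nonneg_right b1 (Real.rpow_nonneg (norm_nonneg _) _))
    · intro x y
      have h1 := hfH' (g x) (g y)
      have h2 : ‖g x - g y‖ ^ α ≤ (‖lin A⁻¹‖ + K) * ‖x - y‖ ^ α :=
        le_trans (Real.rpow_le_rpow (norm_nonneg _) (lg x y) hα.le)
          (josc_rpow (by linarith) (norm_nonneg _) hα hα1)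
      calc ‖fderiv ℝ f (g x) - fderiv ℝ f (g y)‖ ≤ |B| * ‖g x - g y‖ ^ α := h1
        _ ≤ |B| * ((‖lin A⁻¹‖ + K) * ‖x - y‖ ^ α) := mul_le_mul_of_nonneg_left h2 hB0
        _ = (|B| * (‖lin A⁻¹‖ + K)) * ‖x - y‖ ^ α := by ring
        _ ≤ B1 * ‖x - y‖ ^ α :=
            mul_le_mul_of_nonneg_right b4 (Real.rpow_nonneg (norm_nonneg _) _)
  have hS00 : 0 ≤ S0 := le_trans (norm_nonneg _) (hS0' x₀)
  have hR : 0 ≤ R := le_trans (norm_nonneg _) hx₀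
  have hτ0 : 0 ≤ K * ε + Real.sqrt (K * ε * B1) := add_nonneg hKε0 (Real.sqrt_nonneg _)
  have hCτ : C * (K * ε + Real.sqrt (K * ε * B1)) ≤ C * t := mul_le_mul_of_nonneg_left hε4 hC.le
  have hkey2 : ∀ x, ‖J x - J x₀‖ ≤ C * t * S0 := fun x =>
    le_trans (key x x₀) (mul_le_mul_of_nonneg_right hCτ hS00)
  have hS2 : S0 ≤ R + C * t * S0 := by
    rw [hS0]
    refine ciSup_le fun x => ?_
    rw [← hS0]
    have h1 : J x = J x₀ + (J x - J x₀) := by abel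
    calc ‖J x‖ = ‖J x₀ + (J x - J x₀)‖ := by rw [← h1]
      _ ≤ ‖J x₀‖ + ‖J x - J x₀‖ := norm_add_le _ _
      _ ≤ R + C * t * S0 := add_le_add hx₀ (hkey2 x)
  have hS3 : S0 ≤ 2 * R := by nlinarith
  have hCt0 : 0 ≤ C * t := by positivity
  calc ‖J x - J x₀‖ ≤ C * t * S0 := hkey2 x
    _ ≤ C * t * (2 * R) := mul_le_mul_of_nonneg_left hS3 hCt0
    _ = 2 * C * t * R := by ring
    _ ≤ 2 * C * t * (|R| + 1) := by
        refine mul_le_mul_of_nonneg_left ?_ (by positivity)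
        linarith [le_abs_self R]
    _ ≤ η := ht2

end LRA
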