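import Pool.Agent.LRA.Defs

/-!
# LRA / Unif: uniformity over bounded constant complex structures

PLAN.  The set `S = {J₀ | (∀ v, J₀ (J₀ v) = -v) ∧ ‖J₀‖ ≤ R}` of the finite dimensional space
`V d →L[ℝ] V d` is closed and bounded, hence compact (`Metric.isCompact_of_isClosed_isBounded`; the space
is finite dimensional, so proper: `FiniteDimensional.proper ℝ _` or `FiniteDimensional.proper_real`).  Suppose
no `δ` works: for every `k` there are `J₀^k ∈ S` and `J^k` within `1/(k+1)` of `J₀^k` with `¬ Q (J^k)`; a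
subsequence of `J₀^k` converges to `J₀ ∈ S`; with the `δ` of `hQ J₀`, for large `k`
`‖J^k x - J₀‖ ≤ 1/(k+1) + ‖J₀^k - J₀‖ ≤ δ` for all `x`, so `Q (J^k)`, a contradiction.  (Or: cover by the
balls of radius `δ(J₀)/2`, take a finite subcover, `δ = min δ_i / 2`.)
-/

set_option autoImplicit false

noncomputable section

open scoped BigOperators

namespace LRA

variable {d : ℕ}

theorem unif (R : ℝ) (Q : (V d → (V d →L[ℝ] V d)) → Prop)
    (hQ : ∀ J₀ : V d →L[ℝ] V d, (∀ v, J₀ (J₀ v) = -v) →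
      ∃ δ : ℝ, 0 < δ ∧ ∀ J : V d → (V d →L[ℝ] V d), (∀ x, ‖J x - J₀‖ ≤ δ) → Q J) :
    ∃ δ : ℝ, 0 < δ ∧ ∀ J₀ : V d →L[ℝ] V d, (∀ v, J₀ (J₀ v) = -v) → ‖J₀‖ ≤ R →
      ∀ J : V d → (V d →L[ℝ] V d), (∀ x, ‖J x - J₀‖ ≤ δ) → Q J := by
  have : ProperSpace (V d →L[ℝ] V d) := FiniteDimensional.proper ℝ _
  set S : Set (V d →L[ℝ] V d) := {J₀ | (∀ v, J₀ (J₀ v) = -v) ∧ ‖J₀‖ ≤ R} with hS
  have hclosed : IsClosed S := by
    have h1 : IsClosed {J₀ : V d →L[ℝ] V d | ∀ v, J₀ (J₀ v) = -v} := by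
      have h2 : {J₀ : V d →L[ℝ] V d | ∀ v, J₀ (J₀ v) = -v} =
          {J₀ : V d →L[ℝ] V d | J₀.comp J₀ = -ContinuousLinearMap.id ℝ (V d)} := by
        ext J₀
        constructor
        · intro h
          exact ContinuousLinearMap.ext fun v => h v
        · intro h v
          exact congrArg (fun L : V d →L[ℝ] V d => L v) h
      rw [h2]
      exact isClosed_eq (continuous_id.clm_comp continuous_id) continuous_const
    have h3 : IsClosed {J₀ : V d →L[ℝ] V d | ‖J₀‖ ≤ R} :=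
      isClosed_le continuous_norm continuous_const
    exact h1.inter h3
  have hbdd : Bornology.IsBounded S := by
    refine (Metric.isBounded_closedBall (x := (0 : V d →L[ℝ] V d)) (r := R)).subset ?_
    intro J₀ hJ
    rw [mem_closedBall_zero_iff]
    exact hJ.2
  have hcomp : IsCompact S := Metric.isCompact_of_isClosed_isBounded hclosed hbdd
  have hloc : ∀ J₀ : V d →L[ℝ] V d, ∃ δ : ℝ, 0 < δ ∧ ((∀ v, J₀ (J₀ v) = -v) →
      ∀ J : V d → (V d →L[ℝ] V d), (∀ x, ‖J x - J₀‖ ≤ δ) → Q J) := by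
    intro J₀
    by_cases h : ∀ v, J₀ (J₀ v) = -v
    · obtain ⟨δ, h1, h2⟩ := hQ J₀ h
      exact ⟨δ, h1, fun _ => h2⟩
    · exact ⟨1, one_pos, fun h' => absurd h' h⟩
  choose δ hδ1 hδ2 using hloc
  obtain ⟨t, ht1, ht2⟩ := hcomp.elim_nhds_subcover (fun J₀ => Metric.ball J₀ (δ J₀ / 2))
    (fun J₀ _ => Metric.ball_mem_nhds J₀ (half_pos (hδ1 J₀)))
  rcases t.eq_empty_or_nonempty with hte | hte
  · refine ⟨1, one_pos, fun J₀ h1 h2 => ?_⟩
    have h3 := ht2 (show J₀ ∈ S from ⟨h1, h2⟩)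
    rw [hte] at h3
    simp at h3
  · obtain ⟨i₀, hi₀, hmin⟩ := t.exists_min_image (fun J₀ => δ J₀ / 2) hte
    refine ⟨δ i₀ / 2, half_pos (hδ1 i₀), fun J₀ h1 h2 J hJ => ?_⟩
    obtain ⟨i, hi, hi'⟩ := Set.mem_iUnion₂.1 (ht2 (show J₀ ∈ S from ⟨h1, h2⟩))
    refine hδ2 i (ht1 i hi).1 J fun x => ?_
    have h4 : ‖J₀ - i‖ < δ i / 2 := by
      have h5 := Metric.mem_ball.1 hi'
      rwa [dist_eq_norm] at h5
    have h6 := hmin i hi
    have h7 : J x - i = (J x - J₀) + (J₀ - i) := by abel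
    calc ‖J x - i‖ ≤ ‖J x - J₀‖ + ‖J₀ - i‖ := by
          rw [h7]
          exact norm_add_le _ _
      _ ≤ δ i := by
          have h8 := hJ x
          linarith

end LRA
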