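import Pool.Agent.LRA.TorJ
import Pool.Agent.LRA.Unif
import Pool.Agent.LRA.JOsc
import Pool.Agent.LRA.HDf
import Pool.Agent.LRA.Equi

/-!
# LRA / Main: local rigidity (assembly)
-/

set_option autoImplicit false

noncomputable section

open scoped BigOperators ContDiff

namespace LRA

variable {d : ℕ}

/-- the version with a bound for `J` at one point -/
theorem main_bdd (A : Matrix (Fin d) (Fin d) ℤ) (hdet : IsUnit A.det) (hA : NoEig (lin A) 1)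
    (α B R : ℝ) (hα : 0 < α) (hα1 : α ≤ 1) :
    ∃ ε : ℝ, 0 < ε ∧ ∀ f : V d → V d, ContDiff ℝ ∞ f → IsLift A f →
      (∀ x, ‖fderiv ℝ f x - lin A‖ ≤ ε) →
      (∀ x y, ‖fderiv ℝ f x - fderiv ℝ f y‖ ≤ B * ‖x - y‖ ^ α) →
      ∀ J : V d → (V d →L[ℝ] V d), CStr J →
        (∀ x, fderiv ℝ f x * J x = J (f x) * fderiv ℝ f x) → (∃ x₀ : V d, ‖J x₀‖ ≤ R) →
          ∃ (J₁ : V d →L[ℝ] V d) (h g : V d → V d),
            (∀ v, J₁ (J₁ v) = -v) ∧ (∀ v, J₁ (lin A v) = lin A (J₁ v)) ∧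
            ContDiff ℝ ∞ h ∧ ContDiff ℝ ∞ g ∧ (∀ x, g (h x) = x) ∧ (∀ x, h (g x) = x) ∧
            (∀ (x : V d) (m : Fin d → ℤ), h (x + zc m) = h x + zc m) ∧
            (∀ x v, fderiv ℝ h x (J x v) = J₁ (fderiv ℝ h x v)) ∧
            ∀ x, h (f x) = lin A (h x) := by
  obtain ⟨δ, hδ, hu⟩ := unif (d := d) R
    (fun J => CStr J → ∃ (J₁ : V d →L[ℝ] V d) (h : V d → V d), Std J J₁ h)
    (fun J₀ h0 => torJ J₀ h0)
  obtain ⟨ε₁, hε₁, h1⟩ := josc A hdet hA α B R δ hα hα1 hδ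
  obtain ⟨ε₂, hε₂, h2⟩ := hdf A hdet hA α B hα hα1
  refine ⟨min ε₁ ε₂, lt_min hε₁ hε₂, fun f hf hl hcl hB J hJ hi hx => ?_⟩
  obtain ⟨x₀, hx₀⟩ := hx
  have hc1 := h1 f hf hl (fun x => (hcl x).trans (min_le_left _ _)) hB J hJ hi x₀ hx₀
  obtain ⟨J₁, h, hs⟩ := hu (J x₀) (hJ.sq x₀) hx₀ J hc1 hJ
  obtain ⟨hcomm, c, hc⟩ := equi A hA hf hl hJ hi hs
  have hh : ContDiff ℝ ∞ (fun x => h x + c) := hs.smooth.add contDiff_const
  have hper : ∀ (x : V d) (m : Fin d → ℤ), h (x + zc m) + c = h x + c + zc m := by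
    intro x m
    rw [hs.lift]
    abel
  have hfd : ∀ x, fderiv ℝ (fun y => h y + c) x = fderiv ℝ h x := fun x => by
    rw [fderiv_add_const]
  obtain ⟨g, hg, hg1, hg2⟩ := h2 f hf hl (fun x => (hcl x).trans (min_le_right _ _)) hB
    (fun x => h x + c) hh hper hc
  refine ⟨J₁, fun x => h x + c, g, hs.sq, hcomm, hh, hg, hg1, hg2, hper, fun x v => ?_, hc⟩
  rw [hfd]
  exact hs.hol x v

/-- **Local rigidity** -/
theorem main (A : Matrix (Fin d) (Fin d) ℤ) (hdet : IsUnit A.det)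
    (hyp : ∀ z : ℂ, (A.map (Int.cast : ℤ → ℂ)).charpoly.IsRoot z → ‖z‖ ≠ 1)
    (α B R : ℝ) (hα : 0 < α) (hα1 : α ≤ 1) :
    ∃ ε : ℝ, 0 < ε ∧ ∀ f : V d → V d, ContDiff ℝ ∞ f → IsLift A f →
      (∀ x, ‖fderiv ℝ f x - lin A‖ ≤ ε) →
      (∀ x y, ‖fderiv ℝ f x - fderiv ℝ f y‖ ≤ B * ‖x - y‖ ^ α) →
      ∀ J : V d → (V d →L[ℝ] V d), CStr J →
        (∀ x v, fderiv ℝ f x (J x v) = J (f x) (fderiv ℝ f x v)) →
        ((A.map (Int.cast : ℤ → ℂ)).charpoly.Separable ∨ ∃ x₀ : V d, ‖J x₀‖ ≤ R) →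
          ∃ (J₁ : V d →L[ℝ] V d) (h g : V d → V d),
            (∀ v, J₁ (J₁ v) = -v) ∧ (∀ v, J₁ (lin A v) = lin A (J₁ v)) ∧
            ContDiff ℝ ∞ h ∧ ContDiff ℝ ∞ g ∧ (∀ x, g (h x) = x) ∧ (∀ x, h (g x) = x) ∧
            (∀ (x : V d) (m : Fin d → ℤ), h (x + zc m) = h x + zc m) ∧
            (∀ x v, fderiv ℝ h x (J x v) = J₁ (fderiv ℝ h x v)) ∧
            ∀ x, h (f x) = lin A (h x) := by
  have hA := noEig_lin A hyp
  by_cases hs : (A.map (Int.cast : ℤ → ℂ)).charpoly.Separable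
  · obtain ⟨ε₁, R₁, hε₁, h1⟩ := sep A hs
    obtain ⟨ε₂, hε₂, h2⟩ := fixpt A hA
    obtain ⟨ε₃, hε₃, h3⟩ := main_bdd A hdet hA α B R₁ hα hα1
    refine ⟨min ε₁ (min ε₂ ε₃), lt_min hε₁ (lt_min hε₂ hε₃),
      fun f hf hl hcl hB J hJ hi _ => ?_⟩
    have hi' : ∀ x, fderiv ℝ f x * J x = J (f x) * fderiv ℝ f x := fun x =>
      ContinuousLinearMap.ext fun v => hi x v
    obtain ⟨p, hp⟩ := h2 f hf (fun x => (hcl x).trans
      ((min_le_right _ _).trans (min_le_left _ _)))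
    have hJp : ‖J p‖ ≤ R₁ := by
      refine h1 (fderiv ℝ f p) (J p) ((hcl p).trans (min_le_left _ _)) ?_ (hJ.sq p)
      have := hi' p
      rw [hp] at this
      exact this
    exact h3 f hf hl (fun x => (hcl x).trans ((min_le_right _ _).trans (min_le_right _ _)))
      hB J hJ hi' ⟨p, hJp⟩
  · obtain ⟨ε₃, hε₃, h3⟩ := main_bdd A hdet hA α B R hα hα1
    refine ⟨ε₃, hε₃, fun f hf hl hcl hB J hJ hi hx => ?_⟩
    exact h3 f hf hl hcl hB J hJ (fun x => ContinuousLinearMap.ext fun v => hi x v)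
      (hx.resolve_left hs)

end LRA
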