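import Pool.Agent.LRA.Cx

/-!
# LRA / MuJ: a complex structure close to `J₀` as a graph

PLAN.  Let `b` be the basis of `FrJ.bas`, and for a complex matrix/operator `T` put
`π_T u = (u + i cx T u) / 2` (for `T² = -1` its values satisfy `cx T (π_T u) = -i π_T u`).
`α_jk(T) = b.repr (π_T (w j)) (inl k)`, `β_jk(T) = b.repr (π_T (w j)) (inr k)`, so
`π_T (w j) = ∑_k α_jk w_k + ∑_k β_jk star (w k)`.  For `T = J₀`: `π (w j) = w j`, so `α = 1`, `β = 0`.  The
maps `T ↦ α(T), β(T)` are affine, `|α(T) - 1|, |β(T)| ≤ K ‖T - J₀‖` (entrywise; coordinates of a basis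
of a finite dimensional space are continuous linear; `norm_cx_le`).  For `‖T - J₀‖ ≤ δ` small the matrix
`α` is invertible and `‖α⁻¹‖ ≤ 2` (`‖α - 1‖ ≤ 1/2` in a matrix norm, or: `det` and `adjugate` are
continuous at `1`), so `μ(T) = α(T)⁻¹ β(T)` satisfies `|μ_jk| ≤ θ / (n + 1)` for `δ` small, which gives the
bound (`BD.bd`): `∑_j |∑_k μ_jk v_k|^2 ≤ n (θ/(n+1))^2 n ∑ |v_k|^2`, Cauchy-Schwarz.
`∑_j' (α⁻¹)_{jj'} π (w j') = w j + ∑_k μ_jk star (w k) = Lv w μ x j` is in the `-i` eigenspace of `cx T`.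
Smoothness of `x ↦ μ(J x)`: entries of `α, β` are smooth (affine functions of `J x`: `cx` entries
`(J x e_l)_i`), `α⁻¹ = (det α)⁻¹ adjugate α` (`Matrix.inv_def`), `det`, `adjugate` polynomial in the
entries, `det ≠ 0`; real-smooth (`ContDiff ℝ`); alternatively `contDiffAt_ringInverse` in the
normed algebra of matrices / continuous linear maps.  Periodic since `J` is.  `BD.nd` is `FrJ.nd`.
-/

set_option autoImplicit false

noncomputable section

open scoped BigOperators ComplexConjugate ContDiff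
open MeasureTheory

namespace LRA

variable {n d : ℕ}

private def mujP (T : V d →L[ℝ] V d) (u : Fin d → ℂ) : Fin d → ℂ :=
  (1 / 2 : ℂ) • (u + Complex.I • cx T u)

private theorem mujP_eig {T : V d →L[ℝ] V d} (h : ∀ v, T (T v) = -v) (u : Fin d → ℂ) :
    cx T (mujP T u) = -Complex.I • mujP T u := by
  unfold mujP
  rw [map_smul, map_add, map_smul, cx_sq h]
  funext i
  simp only [Pi.smul_apply, Pi.add_apply, Pi.neg_apply, smul_eq_mul]
  linear_combination ((1 / 2 : ℂ) * cx T u i) * Complex.I_mul_I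

private theorem mujP_base {J₀ : V d →L[ℝ] V d} {u : Fin d → ℂ} (h : cx J₀ u = -Complex.I • u) :
    mujP J₀ u = u := by
  unfold mujP
  rw [h]
  funext i
  simp only [Pi.smul_apply, Pi.add_apply, smul_eq_mul]
  linear_combination (-(1 / 2 : ℂ) * u i) * Complex.I_mul_I

private theorem mujP_contDiff (u : Fin d → ℂ) :
    ContDiff ℝ ∞ (fun T : V d →L[ℝ] V d => mujP T u) := by
  rw [contDiff_pi]
  intro i
  have h1 : ∀ l : Fin d, ContDiff ℝ ∞
      (fun T : V d →L[ℝ] V d => ((T (Pi.single l 1) i : ℝ) : ℂ)) := by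
    intro l
    have h3 : ContDiff ℝ ∞ (fun T : V d →L[ℝ] V d => T (Pi.single l 1) i) :=
      ((ContinuousLinearMap.proj (R := ℝ) (φ := fun _ : Fin d => ℝ) i).comp
        (ContinuousLinearMap.apply ℝ (V d) (Pi.single l (1 : ℝ) : V d) :
          (V d →L[ℝ] V d) →L[ℝ] V d)).contDiff
    exact Complex.ofRealCLM.contDiff.comp h3
  have h2 : (fun T : V d →L[ℝ] V d => mujP T u i) = fun T : V d →L[ℝ] V d =>
      (1 / 2 : ℂ) * (u i + Complex.I * ∑ l, ((T (Pi.single l 1) i : ℝ) : ℂ) * u l) := by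
    funext T
    rw [← cx_apply]
    rfl
  rw [h2]
  refine contDiff_const.mul (contDiff_const.add (contDiff_const.mul ?_))
  exact ContDiff.sum fun l _ => (h1 l).mul contDiff_const

private def mujA (b : Module.Basis (Fin n ⊕ Fin n) ℂ (Fin d → ℂ)) (w : Fin n → Fin d → ℂ)
    (T : V d →L[ℝ] V d) : Matrix (Fin n) (Fin n) ℂ :=
  Matrix.of fun j k => b.repr (mujP T (w j)) (Sum.inl k)

private def mujB (b : Module.Basis (Fin n ⊕ Fin n) ℂ (Fin d → ℂ)) (w : Fin n → Fin d → ℂ)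
    (T : V d →L[ℝ] V d) : Matrix (Fin n) (Fin n) ℂ :=
  Matrix.of fun j k => b.repr (mujP T (w j)) (Sum.inr k)

private theorem mujC_contDiff (b : Module.Basis (Fin n ⊕ Fin n) ℂ (Fin d → ℂ)) (u : Fin d → ℂ)
    (i : Fin n ⊕ Fin n) : ContDiff ℝ ∞ (fun T : V d →L[ℝ] V d => b.repr (mujP T u) i) := by
  have h1 : ContDiff ℝ ∞ (((b.coord i).toContinuousLinearMap).restrictScalars ℝ) :=
    ContinuousLinearMap.contDiff _
  exact h1.comp (mujP_contDiff u)

private theorem muj_det {E : Type*} [NormedAddCommGroup E] [NormedSpace ℝ E]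
    (M : E → Matrix (Fin n) (Fin n) ℂ) (h : ∀ j k, ContDiff ℝ ∞ (fun T => M T j k)) :
    ContDiff ℝ ∞ (fun T => (M T).det) := by
  have h1 : (fun T => (M T).det) = fun T =>
      ∑ σ : Equiv.Perm (Fin n), ((Equiv.Perm.sign σ : ℤ) : ℂ) * ∏ i, M T (σ i) i := by
    funext T
    rw [Matrix.det_apply']
  rw [h1]
  refine ContDiff.sum fun σ _ => contDiff_const.mul ?_
  exact contDiff_prod fun i _ => h (σ i) i

private theorem muj_adj {E : Type*} [NormedAddCommGroup E] [NormedSpace ℝ E]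
    (M : E → Matrix (Fin n) (Fin n) ℂ) (h : ∀ j k, ContDiff ℝ ∞ (fun T => M T j k))
    (a b : Fin n) : ContDiff ℝ ∞ (fun T => (M T).adjugate a b) := by
  have h1 : (fun T => (M T).adjugate a b) = fun T => ((M T).updateRow b (Pi.single a 1)).det := by
    funext T
    rw [Matrix.adjugate_apply]
  rw [h1]
  refine muj_det _ fun j k => ?_
  by_cases hj : j = b
  · have h2 : (fun T => (M T).updateRow b (Pi.single a 1) j k) =
        fun _ => (Pi.single a 1 : Fin n → ℂ) k := by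
      funext T
      rw [hj, Matrix.updateRow_self]
    rw [h2]
    exact contDiff_const
  · have h2 : (fun T => (M T).updateRow b (Pi.single a 1) j k) = fun T => M T j k := by
      funext T
      rw [Matrix.updateRow_ne hj]
    rw [h2]
    exact h j k

private def mujM (b : Module.Basis (Fin n ⊕ Fin n) ℂ (Fin d → ℂ)) (w : Fin n → Fin d → ℂ)
    (T : V d →L[ℝ] V d) : Matrix (Fin n) (Fin n) ℂ := (mujA b w T)⁻¹ * mujB b w T

private theorem mujM_contDiffAt (b : Module.Basis (Fin n ⊕ Fin n) ℂ (Fin d → ℂ))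
    (w : Fin n → Fin d → ℂ) (T₀ : V d →L[ℝ] V d) (h0 : (mujA b w T₀).det ≠ 0) (j k : Fin n) :
    ContDiffAt ℝ ∞ (fun T => mujM b w T j k) T₀ := by
  have h1 : (fun T => mujM b w T j k) = fun T =>
      ∑ l, ((mujA b w T).det)⁻¹ * (mujA b w T).adjugate j l * mujB b w T l k := by
    funext T
    unfold mujM
    rw [Matrix.mul_apply]
    refine Finset.sum_congr rfl fun l _ => ?_
    rw [Matrix.inv_def, Ring.inverse_eq_inv', Matrix.smul_apply, smul_eq_mul]
  rw [h1]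
  have hA : ∀ j k, ContDiff ℝ ∞ (fun T => mujA b w T j k) := fun j k =>
    mujC_contDiff b (w j) (Sum.inl k)
  have hB : ∀ j k, ContDiff ℝ ∞ (fun T => mujB b w T j k) := fun j k =>
    mujC_contDiff b (w j) (Sum.inr k)
  refine ContDiffAt.sum fun l _ => ?_
  exact ((((muj_det _ hA).contDiffAt).inv h0).mul (muj_adj _ hA j l).contDiffAt).mul
    (hB l k).contDiffAt

private theorem muj_sum {b : Module.Basis (Fin n ⊕ Fin n) ℂ (Fin d → ℂ)} {w : Fin n → Fin d → ℂ}
    (hb1 : ∀ j, b (Sum.inl j) = w j) (hb2 : ∀ j, b (Sum.inr j) = star (w j))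
    (T : V d →L[ℝ] V d) (j : Fin n) :
    mujP T (w j) = ∑ k, mujA b w T j k • w k + ∑ k, mujB b w T j k • star (w k) := by
  have h1 := b.sum_repr (mujP T (w j))
  rw [Fintype.sum_sum_type] at h1
  rw [← h1]
  simp only [hb1, hb2]
  rfl

private theorem muj_lv {b : Module.Basis (Fin n ⊕ Fin n) ℂ (Fin d → ℂ)} {w : Fin n → Fin d → ℂ}
    (hb1 : ∀ j, b (Sum.inl j) = w j) (hb2 : ∀ j, b (Sum.inr j) = star (w j))
    (T : V d →L[ℝ] V d) (h0 : (mujA b w T).det ≠ 0) (j : Fin n) :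
    w j + ∑ k, mujM b w T j k • star (w k) = ∑ l, (mujA b w T)⁻¹ j l • mujP T (w l) := by
  have h1 : ∑ l, (mujA b w T)⁻¹ j l • mujP T (w l) =
      ∑ k, ((mujA b w T)⁻¹ * mujA b w T) j k • w k + ∑ k, mujM b w T j k • star (w k) := by
    simp only [muj_sum hb1 hb2 T, smul_add, Finset.smul_sum, smul_smul, Finset.sum_add_distrib]
    unfold mujM
    congr 1
    · rw [Finset.sum_comm]
      refine Finset.sum_congr rfl fun k _ => ?_
      rw [Matrix.mul_apply, Finset.sum_smul]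
    · rw [Finset.sum_comm]
      refine Finset.sum_congr rfl fun k _ => ?_
      rw [Matrix.mul_apply, Finset.sum_smul]
  rw [h1, Matrix.nonsing_inv_mul _ (isUnit_iff_ne_zero.2 h0)]
  congr 1
  simp only [Matrix.one_apply, ite_smul, one_smul, zero_smul, Finset.sum_ite_eq, Finset.mem_univ,
    if_true]

private theorem mujA_base {J₀ : V d →L[ℝ] V d} {b : Module.Basis (Fin n ⊕ Fin n) ℂ (Fin d → ℂ)}
    {w : Fin n → Fin d → ℂ} (heig : ∀ j, cx J₀ (w j) = -Complex.I • w j)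
    (hb1 : ∀ j, b (Sum.inl j) = w j) : mujA b w J₀ = 1 := by
  ext j k
  show b.repr (mujP J₀ (w j)) (Sum.inl k) = _
  rw [mujP_base (heig j), ← hb1 j, Module.Basis.repr_self, Matrix.one_apply,
    Finsupp.single_apply]
  by_cases h : j = k
  · rw [if_pos h, if_pos (by rw [h])]
  · rw [if_neg h, if_neg (fun h' => h (Sum.inl_injective h'))]

private theorem mujB_base {J₀ : V d →L[ℝ] V d} {b : Module.Basis (Fin n ⊕ Fin n) ℂ (Fin d → ℂ)}
    {w : Fin n → Fin d → ℂ} (heig : ∀ j, cx J₀ (w j) = -Complex.I • w j)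
    (hb1 : ∀ j, b (Sum.inl j) = w j) : mujB b w J₀ = 0 := by
  ext j k
  show b.repr (mujP J₀ (w j)) (Sum.inr k) = _
  rw [mujP_base (heig j), ← hb1 j, Module.Basis.repr_self, Finsupp.single_apply,
    if_neg (by exact Sum.inl_ne_inr)]
  rfl

private theorem muj_bound (m : Matrix (Fin n) (Fin n) ℂ) (θ : ℝ) (hθ : 0 < θ)
    (h : ∀ j k, ‖m j k‖ ≤ θ / (n + 1)) (v : Fin n → ℂ) :
    ∑ j, ‖∑ k, m j k * v k‖ ^ 2 ≤ θ ^ 2 * ∑ k, ‖v k‖ ^ 2 := by
  have hn : (0 : ℝ) < n + 1 := by positivity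
  have h1 : ∀ j, ‖∑ k, m j k * v k‖ ^ 2 ≤ (θ / (n + 1)) ^ 2 * (n * ∑ k, ‖v k‖ ^ 2) := by
    intro j
    have h2 : ‖∑ k, m j k * v k‖ ≤ (θ / (n + 1)) * ∑ k, ‖v k‖ := by
      refine (norm_sum_le _ _).trans ?_
      rw [Finset.mul_sum]
      refine Finset.sum_le_sum fun k _ => ?_
      rw [norm_mul]
      exact mul_le_mul_of_nonneg_right (h j k) (norm_nonneg _)
    have h3 : (∑ k, ‖v k‖) ^ 2 ≤ n * ∑ k, ‖v k‖ ^ 2 := by
      have := sq_sum_le_card_mul_sum_sq (s := (Finset.univ : Finset (Fin n))) (f := fun k => ‖v k‖)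
      rwa [Finset.card_univ, Fintype.card_fin] at this
    calc ‖∑ k, m j k * v k‖ ^ 2 ≤ ((θ / (n + 1)) * ∑ k, ‖v k‖) ^ 2 :=
          pow_le_pow_left₀ (norm_nonneg _) h2 2
      _ = (θ / (n + 1)) ^ 2 * (∑ k, ‖v k‖) ^ 2 := mul_pow _ _ _
      _ ≤ _ := mul_le_mul_of_nonneg_left h3 (by positivity)
  have hS : 0 ≤ ∑ k, ‖v k‖ ^ 2 := Finset.sum_nonneg fun k _ => by positivity
  calc ∑ j, ‖∑ k, m j k * v k‖ ^ 2 ≤ ∑ _j : Fin n, (θ / (n + 1)) ^ 2 * (n * ∑ k, ‖v k‖ ^ 2) :=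
        Finset.sum_le_sum fun j _ => h1 j
    _ = (n / (n + 1)) ^ 2 * (θ ^ 2 * ∑ k, ‖v k‖ ^ 2) := by
        rw [Finset.sum_const, Finset.card_univ, Fintype.card_fin, nsmul_eq_mul]
        field_simp
    _ ≤ 1 * (θ ^ 2 * ∑ k, ‖v k‖ ^ 2) := by
        refine mul_le_mul_of_nonneg_right ?_ (by positivity)
        refine pow_le_one₀ (by positivity) ?_
        rw [div_le_one hn]
        linarith
    _ = _ := one_mul _

theorem muJ {J₀ : V d →L[ℝ] V d} {w : Fin n → Fin d → ℂ} (hw : FrJ J₀ w) (θ : ℝ) (hθ : 0 < θ) :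
    ∃ δ : ℝ, 0 < δ ∧ ∀ J : V d → (V d →L[ℝ] V d), ContDiff ℝ ∞ J → Per J →
      (∀ x v, J x (J x v) = -v) → (∀ x, ‖J x - J₀‖ ≤ δ) →
        ∃ μ : Fin n → Fin n → V d → ℂ, BD w μ θ ∧
          ∀ x j, cx (J x) (Lv w μ x j) = -Complex.I • Lv w μ x j := by
  obtain ⟨b, hb1, hb2⟩ := hw.bas
  have hA0 := mujA_base hw.eig hb1
  have hB0 := mujB_base hw.eig hb1
  have hdet0 : (mujA b w J₀).det ≠ 0 := by
    rw [hA0, Matrix.det_one]
    exact one_ne_zero
  have hM0 : ∀ j k, mujM b w J₀ j k = 0 := by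
    intro j k
    unfold mujM
    rw [hB0, Matrix.mul_zero]
    rfl
  have hn : (0 : ℝ) < n + 1 := by positivity
  have e1 : ∀ᶠ T in nhds J₀, (mujA b w T).det ≠ 0 := by
    have h1 : ContDiff ℝ ∞ (fun T => (mujA b w T).det) :=
      muj_det _ fun j k => mujC_contDiff b (w j) (Sum.inl k)
    exact h1.continuous.continuousAt.eventually_ne hdet0
  have e2 : ∀ᶠ T in nhds J₀, ∀ j k, ‖mujM b w T j k‖ < θ / (n + 1) := by
    rw [Filter.eventually_all]
    intro j
    rw [Filter.eventually_all]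
    intro k
    have h1 : ContinuousAt (fun T => ‖mujM b w T j k‖) J₀ :=
      (mujM_contDiffAt b w J₀ hdet0 j k).continuousAt.norm
    refine h1.eventually_lt_const ?_
    show ‖mujM b w J₀ j k‖ < θ / (n + 1)
    rw [hM0, norm_zero]
    positivity
  obtain ⟨δ, hδ, hδ2⟩ := Metric.eventually_nhds_iff.1 (e1.and e2)
  refine ⟨δ / 2, by positivity, ?_⟩
  intro J hJ hper hsq hcl
  have hJx : ∀ x, (mujA b w (J x)).det ≠ 0 ∧ ∀ j k, ‖mujM b w (J x) j k‖ < θ / (n + 1) := by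
    intro x
    apply hδ2
    rw [dist_eq_norm]
    exact lt_of_le_of_lt (hcl x) (by linarith)
  refine ⟨fun j k x => mujM b w (J x) j k, ⟨?_, hθ.le, ?_, hw.nd⟩, ?_⟩
  · intro j k
    refine ⟨?_, ?_⟩
    · rw [contDiff_iff_contDiffAt]
      intro x
      exact (mujM_contDiffAt b w (J x) (hJx x).1 j k).comp x hJ.contDiffAt
    · intro x m
      show mujM b w (J (x + zc m)) j k = mujM b w (J x) j k
      rw [hper x m]
  · intro x v
    exact muj_bound (mujM b w (J x)) θ hθ (fun j k => ((hJx x).2 j k).le) v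
  · intro x j
    have h1 : Lv w (fun j k x => mujM b w (J x) j k) x j =
        ∑ l, (mujA b w (J x))⁻¹ j l • mujP (J x) (w l) :=
      muj_lv hb1 hb2 (J x) (hJx x).1 j
    rw [h1, map_sum, Finset.smul_sum]
    refine Finset.sum_congr rfl fun l _ => ?_
    rw [map_smul, mujP_eig (hsq x), smul_comm]

end LRA
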