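import Pool.Agent.LRA.Cx

/-! LRA / Nij: the complexified Nijenhuis identity, Leibniz rule. -/

set_option autoImplicit false

noncomputable section

open scoped BigOperators ComplexConjugate ContDiff
open MeasureTheory

namespace LRA

variable {n d : ℕ}

/-- the derivative of `J` in the direction of the complex vector `u`, complexified -/
def dM (u : Fin d → ℂ) (J : V d → (V d →L[ℝ] V d)) (x : V d) : (Fin d → ℂ) →ₗ[ℂ] (Fin d → ℂ) :=
  ∑ l, u l • cx (fderiv ℝ J x (Pi.single l 1))

/-- the derivative of a vector valued function in the direction of a complex vector -/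
def dwv (u : Fin d → ℂ) (X : V d → (Fin d → ℂ)) (x : V d) : Fin d → ℂ :=
  fun i => dw u (fun y => X y i) x

private def nijR (v : V d) : Fin d → ℂ := fun l => (v l : ℂ)

private def nijD (J : V d → (V d →L[ℝ] V d)) (x : V d) :
    (Fin d → ℂ) →ₗ[ℂ] (Fin d → ℂ) →ₗ[ℂ] (Fin d → ℂ) where
  toFun u := dM u J x
  map_add' u v := by
    unfold dM
    simp only [Pi.add_apply, add_smul, Finset.sum_add_distrib]
  map_smul' c u := by
    unfold dM
    simp only [Pi.smul_apply, smul_eq_mul, mul_smul, Finset.smul_sum, RingHom.id_apply]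

private def nijB (J : V d → (V d →L[ℝ] V d)) (x : V d) :
    (Fin d → ℂ) →ₗ[ℂ] (Fin d → ℂ) →ₗ[ℂ] (Fin d → ℂ) :=
  (nijD J x).comp (cx (J x)) - ((nijD J x).comp (cx (J x))).flip +
    (nijD J x).flip.compr₂ (cx (J x)) - (nijD J x).compr₂ (cx (J x))

private theorem nijB_apply (J : V d → (V d →L[ℝ] V d)) (x : V d) (u v : Fin d → ℂ) :
    nijB J x u v = dM (cx (J x) u) J x v - dM (cx (J x) v) J x u + cx (J x) (dM v J x u)
      - cx (J x) (dM u J x v) := rfl

private theorem nij_dM (J : V d → (V d →L[ℝ] V d)) (x u v : V d) :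
    dM (nijR u) J x (nijR v) = nijR (fderiv ℝ J x u v) := by
  unfold dM
  rw [LinearMap.sum_apply]
  have h1 : ∀ l ∈ (Finset.univ : Finset (Fin d)),
      (nijR u l • cx (fderiv ℝ J x (Pi.single l 1))) (nijR v) =
        nijR (u l • fderiv ℝ J x (Pi.single l 1) v) := by
    intro l _
    rw [LinearMap.smul_apply]
    have h2 : cx (fderiv ℝ J x (Pi.single l 1)) (nijR v) =
        nijR (fderiv ℝ J x (Pi.single l 1) v) := cx_real _ v
    rw [h2]
    funext i
    simp [nijR]
  rw [Finset.sum_congr rfl h1]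
  have h3 : fderiv ℝ J x u v = ∑ l, u l • fderiv ℝ J x (Pi.single l 1) v := by
    have h4 : u = ∑ l, u l • (Pi.single l 1 : V d) := by
      funext i
      simp [Finset.sum_apply, Pi.single_apply]
    conv_lhs => rw [h4]
    rw [map_sum, sum_apply]
    refine Finset.sum_congr rfl fun l _ => ?_
    rw [map_smul, smul_apply]
  rw [h3]
  funext i
  simp [nijR, Finset.sum_apply]

theorem nijC {J : V d → (V d →L[ℝ] V d)} (hJ : CStr J) (x : V d) (u v : Fin d → ℂ) :
    dM (cx (J x) u) J x v - dM (cx (J x) v) J x u + cx (J x) (dM v J x u)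
      - cx (J x) (dM u J x v) = 0 := by
  have hsq : ∀ a b : V d, nijB J x (nijR a) (nijR b) = 0 := by
    intro a b
    have e3 : ∀ w : V d, cx (J x) (nijR w) = nijR (J x w) := fun w => cx_real _ w
    rw [nijB_apply, e3, e3, nij_dM, nij_dM, nij_dM, nij_dM, e3, e3]
    have h := hJ.nij x a b
    funext i
    have hi := congrFun h i
    simp only [nijR, Pi.add_apply, Pi.sub_apply, Pi.zero_apply] at hi ⊢
    rw [← Complex.ofReal_sub, ← Complex.ofReal_add, ← Complex.ofReal_sub, hi, Complex.ofReal_zero]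
  have hB : nijB J x = 0 := by
    refine (Pi.basisFun ℂ (Fin d)).ext fun a => (Pi.basisFun ℂ (Fin d)).ext fun b => ?_
    have ha : ∀ a : Fin d, Pi.basisFun ℂ (Fin d) a = nijR (Pi.single a 1) := by
      intro a
      rw [Pi.basisFun_apply]
      funext l
      by_cases h : l = a
      · subst h
        simp [nijR]
      · simp [nijR, Pi.single_eq_of_ne h]
    rw [ha, ha, hsq]
    rfl
  have := nijB_apply J x u v
  rw [hB] at this
  exact this.symm

theorem leib {J : V d → (V d →L[ℝ] V d)} (hJ : ContDiff ℝ ∞ J) {X : V d → (Fin d → ℂ)}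
    (hX : ContDiff ℝ ∞ X) (u : Fin d → ℂ) (x : V d) :
    dwv u (fun y => cx (J y) (X y)) x = dM u J x (X x) + cx (J x) (dwv u X x) := by
  have hJd : DifferentiableAt ℝ J x := (hJ.differentiable (by simp)) x
  have hXd : ∀ l, DifferentiableAt ℝ (fun y => X y l) x := fun l =>
    (differentiable_pi.1 (hX.differentiable (by simp))) l x
  have hL : ∀ i l : Fin d, HasFDerivAt (fun y => ((J y (Pi.single l 1) i : ℝ) : ℂ))
      ((Complex.ofRealCLM.comp ((ContinuousLinearMap.proj (R := ℝ) (φ := fun _ : Fin d => ℝ) i).comp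
        (ContinuousLinearMap.apply ℝ (V d) (Pi.single l 1 : V d)))).comp (fderiv ℝ J x)) x := by
    intro i l
    exact ((Complex.ofRealCLM.comp ((ContinuousLinearMap.proj (R := ℝ)
      (φ := fun _ : Fin d => ℝ) i).comp (ContinuousLinearMap.apply ℝ (V d)
      (Pi.single l 1 : V d)))).hasFDerivAt (x := J x)).comp x hJd.hasFDerivAt
  funext i
  show dw u (fun y => cx (J y) (X y) i) x = (dM u J x (X x)) i + (cx (J x) (dwv u X x)) i
  have h1 : (fun y => cx (J y) (X y) i) =
      fun y => ∑ l ∈ Finset.univ, ((J y (Pi.single l 1) i : ℝ) : ℂ) * X y l := by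
    funext y
    exact cx_apply _ _ _
  have h3 := dw_sum Finset.univ (fun (l : Fin d) (y : V d) =>
    ((J y (Pi.single l 1) i : ℝ) : ℂ) * X y l) u
    (fun l _ => (hL i l).differentiableAt.mul (hXd l))
  rw [h1, h3, cx_apply]
  have h2 : ∀ l ∈ (Finset.univ : Finset (Fin d)),
      dw u (fun y => ((J y (Pi.single l 1) i : ℝ) : ℂ) * X y l) x =
      (∑ a, u a * ((fderiv ℝ J x (Pi.single a 1) (Pi.single l 1) i : ℝ) : ℂ)) * X x l +
        ((J x (Pi.single l 1) i : ℝ) : ℂ) * dwv u X x l := by
    intro l _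
    rw [dw_mul u (hL i l).differentiableAt (hXd l)]
    congr 2
    unfold dw
    refine Finset.sum_congr rfl fun a _ => ?_
    rw [(hL i l).fderiv]
    rfl
  rw [Finset.sum_congr rfl h2, Finset.sum_add_distrib]
  congr 1
  unfold dM
  rw [LinearMap.sum_apply, Finset.sum_apply]
  simp only [LinearMap.smul_apply, Pi.smul_apply, smul_eq_mul, cx_apply, Finset.mul_sum,
    Finset.sum_mul]
  rw [Finset.sum_comm]
  refine Finset.sum_congr rfl fun a _ => Finset.sum_congr rfl fun l _ => ?_
  ring

end LRA
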