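import Pool.Agent.LRA.ADefs

/-!
# LRA / Osc1: comparison of two values along a stable pair, one-sided lemma

PLAN.  `z_n = f^[n] z`, `x_n = f^[n] x`, `Δ_n = X z_n - X x_n`.  Then `Δ_{n+1} = L₀ Δ_n + ρ_n`,
`ρ_n = (L z_n - L₀) Δ_n + (L z_n - L x_n) (X x_n)`.
Let `D` be the infimum (or any admissible value, see the end) of the numbers with `‖Δ_n‖ ≤ D ν^n` for all
`n` (`Λ` is one, since `κ ≤ √κ ≤ ν`).  `‖L z_n - L x_n‖ ≤ min (2 ε) (B κ^n) ≤ √(2 ε B κ^n) ≤ √(2 ε B) ν^n`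
(`√κ^n ≤ ν^n`), so `‖ρ_n‖ ≤ R₀ ν^n`, `R₀ = ε D + √(2 ε B) S`.
* `a`-part: `a 0 Δ_n = a n Δ_0 + ∑_{k<n} a (n-1-k) ρ_k` (induction, `Green.as`).
  `‖a n (X y)‖ ≤ C r^n ε S / (1 - r)` for every `y`: `X y = L₀ (X (g y)) + (L (g y) - L₀) (X (g y))` as
  `f (g y) = y`, so `a n (X y) = a (n+1) (X (g y)) + a n (..)`; iterate `m` times, remainder
  `‖a (n+m) (X (g^[m] y))‖ ≤ C r^(n+m) S → 0`.  (Here `r < ν < 1`.)  So `‖a n Δ_0‖ ≤ 2 C ε S ν^n / (1 - r)`,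
  and `∑_{k<n} C r^(n-1-k) R₀ ν^k ≤ C R₀ ν^n / (ν - r)`.
* `b`-part: `b 0 Δ_n = b N Δ_{n+N} - ∑_{k<N} b (k+1) ρ_{n+k}` (`Green.bs`); the first term is at most
  `C s^N Λ ν^(n+N) → 0` (`s ν < 1`), the sum at most `C R₀ ν^n s / (1 - s ν)`.
* `Δ_n = a 0 Δ_n + b 0 Δ_n`: `‖Δ_n‖ ≤ (C₁ ε S + C₂ R₀) ν^n`, `C₁ = 2C/(1-r)`, `C₂ = C (1/(ν-r) + s/(1-sν))`.
So `D` admissible implies `C₁ ε S + C₂ (ε D + √(2 ε B) S)` admissible; with `C₂ ε₀ ≤ 1/2` the infimum `D`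
satisfies `D ≤ D/2 + (C₁ ε + C₂ √2 √(ε B)) S`.  (Or iterate: `D_{k+1} = D_k/2 + c`, limit `2 c`.)
`‖Δ_0‖ ≤ D`.  `S ≥ 0` since it bounds norms.
-/

set_option autoImplicit false

noncomputable section

open scoped BigOperators

namespace LRA

variable {E : Type*} [NormedAddCommGroup E] [NormedSpace ℝ E]

private lemma tendLe {x A K q : ℝ} (hq0 : 0 ≤ q) (hq : q < 1)
    (h : ∀ m : ℕ, x ≤ A + K * q ^ m) : x ≤ A := by
  have ht : Filter.Tendsto (fun m : ℕ => A + K * q ^ m) Filter.atTop (nhds (A + K * 0)) :=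
    tendsto_const_nhds.add ((tendsto_pow_atTop_nhds_zero_of_lt_one hq0 hq).const_mul K)
  rw [mul_zero, add_zero] at ht
  exact ge_of_tendsto' ht h

private lemma aX {L₀ : E →L[ℝ] E} {a b : ℕ → (E →L[ℝ] E)} {C r s : ℝ} (G : Green L₀ a b C r s)
    (hr1 : r < 1) {W : Type} (f g : W → W) (hfg : ∀ x, f (g x) = x) (X : W → E)
    (L : W → (E →L[ℝ] E)) {ε S : ℝ} (hε : 0 ≤ ε) (hS : 0 ≤ S)
    (hX : ∀ y, X (f y) = L y (X y)) (hL : ∀ y, ‖L y - L₀‖ ≤ ε) (hXS : ∀ y, ‖X y‖ ≤ S)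
    (n : ℕ) (y : W) :
    ‖a n (X y)‖ ≤ C * r ^ n * (ε * S) / (1 - r) := by
  have hC := G.Cpos
  have hr := G.rpos
  have h1r : 0 < 1 - r := by linarith
  have key : ∀ (m n : ℕ) (y : W),
      ‖a n (X y)‖ ≤ C * r ^ n * (ε * S) / (1 - r) + C * r ^ n * S * r ^ m := by
    intro m
    induction m with
    | zero =>
      intro n y
      have h1 : ‖a n (X y)‖ ≤ C * r ^ n * S := by
        calc ‖a n (X y)‖ ≤ ‖a n‖ * ‖X y‖ := (a n).le_opNorm _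
          _ ≤ (C * r ^ n) * S :=
            mul_le_mul (G.na n) (hXS y) (norm_nonneg _) (by positivity)
      have h2 : 0 ≤ C * r ^ n * (ε * S) / (1 - r) := by positivity
      rw [pow_zero, mul_one]
      linarith
    | succ m ih =>
      intro n y
      have e1 : X y = L₀ (X (g y)) + (L (g y) - L₀) (X (g y)) := by
        have h := hX (g y)
        rw [hfg y] at h
        rw [h, sub_apply]
        abel
      have e2 : a n (X y) = a (n + 1) (X (g y)) + a n ((L (g y) - L₀) (X (g y))) := by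
        rw [e1, map_add, G.as n]
        rfl
      have h3 : ‖a n ((L (g y) - L₀) (X (g y)))‖ ≤ C * r ^ n * (ε * S) := by
        calc ‖a n ((L (g y) - L₀) (X (g y)))‖ ≤ ‖a n‖ * ‖(L (g y) - L₀) (X (g y))‖ :=
              (a n).le_opNorm _
          _ ≤ (C * r ^ n) * (ε * S) := by
            refine mul_le_mul (G.na n) ?_ (norm_nonneg _) (by positivity)
            calc ‖(L (g y) - L₀) (X (g y))‖ ≤ ‖L (g y) - L₀‖ * ‖X (g y)‖ :=
                  (L (g y) - L₀).le_opNorm _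
              _ ≤ ε * S := mul_le_mul (hL _) (hXS _) (norm_nonneg _) hε
      have h4 := ih (n + 1) (g y)
      have h5 : ‖a n (X y)‖ ≤ ‖a (n + 1) (X (g y))‖ + ‖a n ((L (g y) - L₀) (X (g y)))‖ := by
        rw [e2]
        exact norm_add_le _ _
      have e3 : C * r ^ (n + 1) * (ε * S) / (1 - r) + C * r ^ (n + 1) * S * r ^ m
          + C * r ^ n * (ε * S) = C * r ^ n * (ε * S) / (1 - r) + C * r ^ n * S * r ^ (m + 1) := by
        field_simp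
        ring
      linarith
  exact tendLe hr.le hr1 (fun m => key m n y)

private lemma improve {L₀ : E →L[ℝ] E} {a b : ℕ → (E →L[ℝ] E)} {C r s : ℝ}
    (G : Green L₀ a b C r s) {ν : ℝ} (hν0 : 0 < ν) (hr : r < ν)
    (hs : s * ν < 1) {A R D : ℝ} (hA : 0 ≤ A) (hR : 0 ≤ R)
    (Δ ρ : ℕ → E) (hΔ : ∀ n, Δ (n + 1) = L₀ (Δ n) + ρ n) (h0 : ∀ m, ‖a m (Δ 0)‖ ≤ r ^ m * A)
    (hρ : ∀ n, ‖ρ n‖ ≤ R * ν ^ n) (hD' : ∀ n, ‖Δ n‖ ≤ D * ν ^ n) (n : ℕ) :
    ‖Δ n‖ ≤ (A + C * (1 / (ν - r) + s / (1 - s * ν)) * R) * ν ^ n := by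
  have hC := G.Cpos
  have hr0 := G.rpos
  have hs0 := G.spos
  have h1 : 0 < ν - r := by linarith
  have h2 : 0 < 1 - s * ν := by linarith
  have hsν : 0 ≤ s * ν := by positivity
  have ha : ∀ n m : ℕ, ‖a m (Δ n)‖ ≤ r ^ m * ν ^ n * (A + C * R / (ν - r)) := by
    intro n
    induction n with
    | zero =>
      intro m
      have h3 : 0 ≤ r ^ m * (C * R / (ν - r)) := by positivity
      have h4 := h0 m
      rw [pow_zero, mul_one, mul_add]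
      linarith
    | succ n ih =>
      intro m
      have e2 : a m (Δ (n + 1)) = a (m + 1) (Δ n) + a m (ρ n) := by
        rw [hΔ, map_add, G.as m]
        rfl
      have h3 : ‖a m (ρ n)‖ ≤ C * r ^ m * (R * ν ^ n) := by
        calc ‖a m (ρ n)‖ ≤ ‖a m‖ * ‖ρ n‖ := (a m).le_opNorm _
          _ ≤ (C * r ^ m) * (R * ν ^ n) :=
            mul_le_mul (G.na m) (hρ n) (norm_nonneg _) (by positivity)
      have h5 : ‖a m (Δ (n + 1))‖ ≤ ‖a (m + 1) (Δ n)‖ + ‖a m (ρ n)‖ := by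
        rw [e2]
        exact norm_add_le _ _
      have h6 := ih (m + 1)
      have e3 : r ^ m * ν ^ (n + 1) * (A + C * R / (ν - r))
          - (r ^ (m + 1) * ν ^ n * (A + C * R / (ν - r)) + C * r ^ m * (R * ν ^ n))
          = r ^ m * ν ^ n * ((ν - r) * A) := by
        field_simp
        ring
      have h7 : 0 ≤ r ^ m * ν ^ n * ((ν - r) * A) := by positivity
      linarith
  have hb : ∀ N n m : ℕ, ‖b m (Δ n)‖ ≤ C * s ^ m * ν ^ n * (R * s / (1 - s * ν))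
      + C * s ^ m * ν ^ n * D * (s * ν) ^ N := by
    intro N
    induction N with
    | zero =>
      intro n m
      have h3 : 0 ≤ C * s ^ m * ν ^ n * (R * s / (1 - s * ν)) := by positivity
      have h4 : ‖b m (Δ n)‖ ≤ (C * s ^ m) * (D * ν ^ n) := by
        calc ‖b m (Δ n)‖ ≤ ‖b m‖ * ‖Δ n‖ := (b m).le_opNorm _
          _ ≤ _ := mul_le_mul (G.nb m) (hD' n) (norm_nonneg _) (by positivity)
      rw [pow_zero, mul_one]
      have e : (C * s ^ m) * (D * ν ^ n) = C * s ^ m * ν ^ n * D := by ring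
      linarith
    | succ N ih =>
      intro n m
      have e2 : b m (Δ n) = b (m + 1) (Δ (n + 1)) - b (m + 1) (ρ n) := by
        rw [hΔ, map_add, ← G.bs m]
        simp only [add_sub_cancel_right]
        rfl
      have h3 : ‖b (m + 1) (ρ n)‖ ≤ C * s ^ (m + 1) * (R * ν ^ n) := by
        calc ‖b (m + 1) (ρ n)‖ ≤ ‖b (m + 1)‖ * ‖ρ n‖ := (b (m + 1)).le_opNorm _
          _ ≤ (C * s ^ (m + 1)) * (R * ν ^ n) :=
            mul_le_mul (G.nb (m + 1)) (hρ n) (norm_nonneg _) (by positivity)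
      have h5 : ‖b m (Δ n)‖ ≤ ‖b (m + 1) (Δ (n + 1))‖ + ‖b (m + 1) (ρ n)‖ := by
        rw [e2]
        exact norm_sub_le _ _
      have h6 := ih (n + 1) (m + 1)
      have e3 : C * s ^ (m + 1) * ν ^ (n + 1) * (R * s / (1 - s * ν))
          + C * s ^ (m + 1) * ν ^ (n + 1) * D * (s * ν) ^ N + C * s ^ (m + 1) * (R * ν ^ n)
          = C * s ^ m * ν ^ n * (R * s / (1 - s * ν))
            + C * s ^ m * ν ^ n * D * (s * ν) ^ (N + 1) := by
        field_simp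
        ring
      linarith
  have hb' : ‖b 0 (Δ n)‖ ≤ C * ν ^ n * (R * s / (1 - s * ν)) := by
    refine tendLe (K := C * ν ^ n * D) hsν hs (fun N => ?_)
    have := hb N n 0
    simpa using this
  have ha' : ‖a 0 (Δ n)‖ ≤ ν ^ n * (A + C * R / (ν - r)) := by
    have := ha n 0
    simpa using this
  have e : Δ n = a 0 (Δ n) + b 0 (Δ n) := by
    rw [← add_apply, G.zero]
    rfl
  have h5 : ‖Δ n‖ ≤ ‖a 0 (Δ n)‖ + ‖b 0 (Δ n)‖ := by
    calc ‖Δ n‖ = ‖a 0 (Δ n) + b 0 (Δ n)‖ := by rw [← e]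
      _ ≤ _ := norm_add_le _ _
  have e3 : (A + C * (1 / (ν - r) + s / (1 - s * ν)) * R) * ν ^ n
      = ν ^ n * (A + C * R / (ν - r)) + C * ν ^ n * (R * s / (1 - s * ν)) := by
    field_simp
    ring
  rw [e3]
  linarith

theorem osc1 {L₀ : E →L[ℝ] E} {a b : ℕ → (E →L[ℝ] E)} {C r s : ℝ} (G : Green L₀ a b C r s)
    {κ ν : ℝ} (hκ : 0 < κ) (hκ1 : κ < 1) (hκν : Real.sqrt κ ≤ ν) (hν : ν < 1) (hr : r < ν)
    (hs : s * ν < 1) :
    ∃ ε₀ C' : ℝ, 0 < ε₀ ∧ 0 < C' ∧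
      ∀ {W : Type} (f g : W → W) (_ : ∀ x, f (g x) = x) (X : W → E) (L : W → (E →L[ℝ] E))
        (ε B S Λ : ℝ) (z x : W), 0 ≤ ε → ε ≤ ε₀ → 0 ≤ B → (∀ y, X (f y) = L y (X y)) →
        (∀ y, ‖L y - L₀‖ ≤ ε) → (∀ y, ‖X y‖ ≤ S) →
        (∀ n : ℕ, ‖L (f^[n] z) - L (f^[n] x)‖ ≤ B * κ ^ n) →
        (∀ n : ℕ, ‖X (f^[n] z) - X (f^[n] x)‖ ≤ Λ * κ ^ n) →
          ‖X z - X x‖ ≤ C' * (ε + Real.sqrt (ε * B)) * S := by
  have hC := G.Cpos
  have hr0 := G.rpos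
  have hs0 := G.spos
  have hr1 : r < 1 := hr.trans hν
  have h1r : 0 < 1 - r := by linarith
  have hν0 : 0 < ν := lt_of_lt_of_le (Real.sqrt_pos.mpr hκ) hκν
  have h1 : 0 < ν - r := by linarith
  have h2 : 0 < 1 - s * ν := by linarith
  obtain ⟨C₂, hC₂⟩ : ∃ C₂ : ℝ, C₂ = C * (1 / (ν - r) + s / (1 - s * ν)) := ⟨_, rfl⟩
  have hC₂0 : 0 < C₂ := by rw [hC₂]; positivity
  obtain ⟨C₁, hC₁⟩ : ∃ C₁ : ℝ, C₁ = 2 * C / (1 - r) := ⟨_, rfl⟩
  have hC₁0 : 0 < C₁ := by rw [hC₁]; positivity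
  refine ⟨1 / (2 * C₂), 2 * C₁ + 4 * C₂, by positivity, by positivity, ?_⟩
  intro W f g hfg X L ε B S Λ z x hε hε₀ hB hX hL hXS hLn hXn
  have hS : 0 ≤ S := (norm_nonneg _).trans (hXS z)
  have hΛ : 0 ≤ Λ := by
    have := (norm_nonneg _).trans (hXn 0)
    simpa using this
  have hκs : κ ≤ ν := by
    refine le_trans ?_ hκν
    exact Real.le_sqrt_of_sq_le (by nlinarith)
  have hεC : C₂ * ε ≤ 1 / 2 := by
    have : C₂ * ε ≤ C₂ * (1 / (2 * C₂)) := mul_le_mul_of_nonneg_left hε₀ hC₂0.le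
    have e : C₂ * (1 / (2 * C₂)) = 1 / 2 := by field_simp
    linarith
  obtain ⟨Δ, hΔd⟩ : ∃ Δ : ℕ → E, ∀ n, Δ n = X (f^[n] z) - X (f^[n] x) := ⟨_, fun _ => rfl⟩
  obtain ⟨ρ, hρd⟩ : ∃ ρ : ℕ → E, ∀ n, ρ n = (L (f^[n] z) - L₀) (Δ n)
      + (L (f^[n] z) - L (f^[n] x)) (X (f^[n] x)) := ⟨_, fun _ => rfl⟩
  have hΔ : ∀ n, Δ (n + 1) = L₀ (Δ n) + ρ n := by
    intro n
    rw [hρd, hΔd (n + 1), hΔd n, Function.iterate_succ_apply', Function.iterate_succ_apply',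
      hX, hX]
    simp only [sub_apply, map_sub]
    abel
  have hΔ0 : ∀ m, ‖a m (Δ 0)‖ ≤ r ^ m * (C₁ * (ε * S)) := by
    intro m
    have h3 := aX G hr1 f g hfg X L hε hS hX hL hXS m z
    have h4 := aX G hr1 f g hfg X L hε hS hX hL hXS m x
    have h5 : ‖a m (Δ 0)‖ ≤ ‖a m (X z)‖ + ‖a m (X x)‖ := by
      rw [hΔd 0, map_sub]
      exact norm_sub_le _ _
    have e : r ^ m * (C₁ * (ε * S)) = C * r ^ m * (ε * S) / (1 - r)
        + C * r ^ m * (ε * S) / (1 - r) := by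
      rw [hC₁]
      field_simp
      ring
    linarith
  have hsq : ∀ n : ℕ, ‖L (f^[n] z) - L (f^[n] x)‖ ≤ Real.sqrt (2 * ε * B) * ν ^ n := by
    intro n
    have h3 : ‖L (f^[n] z) - L (f^[n] x)‖ ≤ 2 * ε := by
      have e : L (f^[n] z) - L (f^[n] x) = (L (f^[n] z) - L₀) - (L (f^[n] x) - L₀) := by abel
      rw [e]
      have := norm_sub_le (L (f^[n] z) - L₀) (L (f^[n] x) - L₀)
      have h4 := hL (f^[n] z)
      have h5 := hL (f^[n] x)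
      linarith
    have h4 := hLn n
    have h5 : ‖L (f^[n] z) - L (f^[n] x)‖ ^ 2 ≤ (2 * ε) * (B * κ ^ n) := by
      rw [sq]
      exact mul_le_mul h3 h4 (norm_nonneg _) (by positivity)
    have h6 : ‖L (f^[n] z) - L (f^[n] x)‖ ≤ Real.sqrt ((2 * ε) * (B * κ ^ n)) :=
      Real.le_sqrt_of_sq_le h5
    have e : (2 * ε) * (B * κ ^ n) = (2 * ε * B) * κ ^ n := by ring
    rw [e, Real.sqrt_mul (by positivity)] at h6
    refine h6.trans (mul_le_mul_of_nonneg_left ?_ (Real.sqrt_nonneg _))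
    have e2 : Real.sqrt (κ ^ n) = (Real.sqrt κ) ^ n := by
      rw [Real.sqrt_eq_iff_mul_self_eq (by positivity) (by positivity), ← mul_pow,
        Real.mul_self_sqrt hκ.le]
    rw [e2]
    exact pow_le_pow_left₀ (Real.sqrt_nonneg _) hκν n
  obtain ⟨c, hc⟩ : ∃ c : ℝ, c = C₁ * (ε * S) + C₂ * (Real.sqrt (2 * ε * B) * S) := ⟨_, rfl⟩
  have hc0 : 0 ≤ c := by rw [hc]; positivity
  have step : ∀ D : ℝ, 0 ≤ D → (∀ n, ‖Δ n‖ ≤ D * ν ^ n) → ∀ n, ‖Δ n‖ ≤ (D / 2 + c) * ν ^ n := by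
    intro D hD hDn n
    have hR : ∀ n, ‖ρ n‖ ≤ (ε * D + Real.sqrt (2 * ε * B) * S) * ν ^ n := by
      intro n
      have h3 : ‖(L (f^[n] z) - L₀) (Δ n)‖ ≤ ε * (D * ν ^ n) :=
        ((L (f^[n] z) - L₀).le_opNorm _).trans
          (mul_le_mul (hL _) (hDn n) (norm_nonneg _) hε)
      have h4 : ‖(L (f^[n] z) - L (f^[n] x)) (X (f^[n] x))‖
          ≤ (Real.sqrt (2 * ε * B) * ν ^ n) * S :=
        ((L (f^[n] z) - L (f^[n] x)).le_opNorm _).trans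
          (mul_le_mul (hsq n) (hXS _) (norm_nonneg _) (by positivity))
      have h5 : ‖ρ n‖ ≤ ‖(L (f^[n] z) - L₀) (Δ n)‖
          + ‖(L (f^[n] z) - L (f^[n] x)) (X (f^[n] x))‖ := by
        rw [hρd]
        exact norm_add_le _ _
      have e : (ε * D + Real.sqrt (2 * ε * B) * S) * ν ^ n = ε * (D * ν ^ n)
          + (Real.sqrt (2 * ε * B) * ν ^ n) * S := by ring
      linarith
    have h6 := improve G hν0 hr hs (by positivity : 0 ≤ C₁ * (ε * S))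
      (by positivity : 0 ≤ ε * D + Real.sqrt (2 * ε * B) * S) Δ ρ hΔ hΔ0 hR hDn n
    refine h6.trans (mul_le_mul_of_nonneg_right ?_ (by positivity))
    rw [← hC₂, hc]
    have h7 : C₂ * ε * D ≤ 1 / 2 * D := mul_le_mul_of_nonneg_right hεC hD
    nlinarith
  have iter : ∀ k : ℕ, ∀ n, ‖Δ n‖ ≤ (2 * c + Λ * (1 / 2) ^ k) * ν ^ n := by
    intro k
    induction k with
    | zero =>
      intro n
      have h3 : ‖Δ n‖ ≤ Λ * κ ^ n := by
        rw [hΔd]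
        exact hXn n
      have h4 : Λ * κ ^ n ≤ Λ * ν ^ n :=
        mul_le_mul_of_nonneg_left (pow_le_pow_left₀ hκ.le hκs n) hΛ
      have h5 : 0 ≤ 2 * c * ν ^ n := by positivity
      rw [pow_zero, mul_one, add_mul]
      linarith
    | succ k ih =>
      intro n
      have h3 := step (2 * c + Λ * (1 / 2) ^ k) (by positivity) ih n
      have e : (2 * c + Λ * (1 / 2) ^ k) / 2 + c = 2 * c + Λ * (1 / 2) ^ (k + 1) := by ring
      rw [e] at h3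
      exact h3
  have hfin : ‖X z - X x‖ ≤ 2 * c := by
    refine tendLe (K := Λ) (q := 1 / 2) (by norm_num) (by norm_num) (fun k => ?_)
    have h3 := iter k 0
    rw [hΔd 0, pow_zero, mul_one] at h3
    exact h3
  refine hfin.trans ?_
  have e4 : Real.sqrt (2 * ε * B) ≤ 2 * Real.sqrt (ε * B) := by
    rw [Real.sqrt_le_left (by positivity), mul_pow, Real.sq_sqrt (by positivity)]
    nlinarith [mul_nonneg hε hB]
  rw [hc]
  have h7 : C₂ * (Real.sqrt (2 * ε * B) * S) ≤ C₂ * ((2 * Real.sqrt (ε * B)) * S) :=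
    mul_le_mul_of_nonneg_left (mul_le_mul_of_nonneg_right e4 hS) hC₂0.le
  have h8 : 0 ≤ C₁ * (Real.sqrt (ε * B) * S) := by positivity
  have h9 : 0 ≤ C₂ * (ε * S) := by positivity
  nlinarith

end LRA
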