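import Pool.Agent.LRA.ADefs

/-!
# LRA / Shad: the orbit asymptotic to one orbit in the future and to another in the past

PLAN.  Put `ν` with `max r s < ν < 1` (depends on `r, s` only).  Work with sequences `v : ℤ → E` bounded,
i.e. the Banach space `X` of bounded functions `ℤ → E` (`BoundedContinuousFunction ℤ E` with the discrete
topology, or `lp (fun _ : ℤ => E) ∞`); `u n = ν^|n| v n` (`|n| = n.natAbs`).
For a sequence `g` with `‖g n‖ ≤ G ν^|n|` put
`(K g) n = ∑' j : ℕ, a j (g (n - 1 - j)) - ∑' j : ℕ, b (j + 1) (g (n + j))`.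
Summable: `‖a j (g (n-1-j))‖ ≤ C r^j G ν^(|n| - 1 - j)` (`|n - 1 - j| ≥ |n| - 1 - j`), ratio `r/ν < 1`;
`‖b (j+1) (g (n+j))‖ ≤ C s^(j+1) G ν^(|n| - j)`.  So `‖(K g) n‖ ≤ K₀ G ν^|n|`, `K₀` depending on `C, r, s, ν`.
`(K g) (n+1) = A ((K g) n) + g n` from `Green.sa`, `Green.sb`, `Green.zero` (split off the terms
`j = 0`: `a 0 (g n) + b 0 (g n) = g n`).
Let `x, y` be given, `w n = f^[n] x` for `n ≥ 0`, `w (-n) = g^[n] y` for `n ≥ 1`, so `w (n+1) = f (w n)` for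
`n ≠ -1`, and `w 0 = x = f (w (-1)) + (x - y)` (`f (g y) = y`).  The map
`F(u) = K (n ↦ φ (w n + u n) - φ (w n) - [n = -1] (x - y))`, `φ = f - A`, is a contraction of the complete
space of sequences with `sup ν^(-|n|) ‖u n‖ < ∞`, with constant `K₀ ε ≤ 1/2` if `ε = 1/(2 K₀)`
(`ContractingWith.fixedPoint`, or iterate by hand), `F(0)` has norm `≤ K₀ ν⁻¹ ‖x - y‖`, so the fixed point
`u` has `‖u n‖ ≤ 2 K₀ ν⁻¹ ‖x - y‖ ν^|n|`.  `z_n = w n + u n` satisfies `z_{n+1} = f z_n` for all `n`: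
`u_{n+1} = A u_n + φ(w_n + u_n) - φ(w_n) - [n = -1](x - y)` and `w_{n+1} = A w_n + φ(w_n) + [n = -1](x - y)`.
Take `z = z_0`: `f^[n] z = z_n`, `g^[n] z = z_{-n}` (as `g (f z) = z`).  For `n = 0` the second estimate is
`‖z - y‖ ≤ ‖u_0‖ + ‖x - y‖`.
-/

set_option autoImplicit false

noncomputable section

open scoped BigOperators

namespace LRA

variable {E : Type*} [NormedAddCommGroup E] [NormedSpace ℝ E] [CompleteSpace E]

private def shadW (ν : ℝ) (n : ℤ) : ℝ := ν ^ n.natAbs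

private def shadK (a b : ℕ → (E →L[ℝ] E)) (g : ℤ → E) (n : ℤ) : E :=
  ∑' j : ℕ, a j (g (n - 1 - j)) - ∑' j : ℕ, b (j + 1) (g (n + j))

private lemma shadW_pos {ν : ℝ} (h0 : 0 < ν) (n : ℤ) : 0 < shadW ν n := pow_pos h0 _

private lemma shadW_le {ν : ℝ} (h0 : 0 < ν) (h1 : ν ≤ 1) {m n : ℤ} {k : ℕ}
    (h : n.natAbs ≤ m.natAbs + k) : shadW ν m ≤ shadW ν n * (ν ^ k)⁻¹ := by
  unfold shadW
  rw [le_mul_inv_iff₀ (pow_pos h0 k), ← pow_add]
  exact pow_le_pow_of_le_one h0.le h1 h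

omit [CompleteSpace E] in
private lemma shad_ta {a : ℕ → (E →L[ℝ] E)} {C r ν Gc : ℝ} (hC : 0 ≤ C) (hr : 0 ≤ r) (h0 : 0 < ν)
    (h1 : ν ≤ 1) (hG : 0 ≤ Gc) (na : ∀ n, ‖a n‖ ≤ C * r ^ n) {g : ℤ → E}
    (hg : ∀ n, ‖g n‖ ≤ Gc * shadW ν n) (n : ℤ) (j : ℕ) :
    ‖a j (g (n - 1 - j))‖ ≤ (C * Gc * shadW ν n * ν⁻¹) * (r / ν) ^ j := by
  have h2 : shadW ν (n - 1 - j) ≤ shadW ν n * (ν ^ (j+1))⁻¹ := shadW_le h0 h1 (by omega)
  have hW := shadW_pos h0 n
  calc ‖a j (g (n - 1 - j))‖ ≤ ‖a j‖ * ‖g (n-1-j)‖ := (a j).le_opNorm _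
    _ ≤ (C * r ^ j) * (Gc * (shadW ν n * (ν ^ (j+1))⁻¹)) := by
        apply mul_le_mul (na j) _ (norm_nonneg _) (by positivity)
        exact (hg _).trans (mul_le_mul_of_nonneg_left h2 hG)
    _ = (C * Gc * shadW ν n * ν⁻¹) * (r / ν) ^ j := by
        rw [div_pow, pow_succ]; field_simp

omit [CompleteSpace E] in
private lemma shad_tb {b : ℕ → (E →L[ℝ] E)} {C s ν Gc : ℝ} (hC : 0 ≤ C) (hs : 0 ≤ s) (h0 : 0 < ν)
    (h1 : ν ≤ 1) (hG : 0 ≤ Gc) (nb : ∀ n, ‖b n‖ ≤ C * s ^ n) {g : ℤ → E}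
    (hg : ∀ n, ‖g n‖ ≤ Gc * shadW ν n) (n : ℤ) (j : ℕ) :
    ‖b (j + 1) (g (n + j))‖ ≤ (C * Gc * shadW ν n * s) * (s / ν) ^ j := by
  have h2 : shadW ν (n + j) ≤ shadW ν n * (ν ^ j)⁻¹ := shadW_le h0 h1 (by omega)
  have hW := shadW_pos h0 n
  calc ‖b (j + 1) (g (n + j))‖ ≤ ‖b (j+1)‖ * ‖g (n + j)‖ := (b (j+1)).le_opNorm _
    _ ≤ (C * s ^ (j+1)) * (Gc * (shadW ν n * (ν ^ j)⁻¹)) := by
        apply mul_le_mul (nb (j+1)) _ (norm_nonneg _) (by positivity)
        exact (hg _).trans (mul_le_mul_of_nonneg_left h2 hG)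
    _ = (C * Gc * shadW ν n * s) * (s / ν) ^ j := by
        rw [div_pow, pow_succ]; field_simp

private lemma shad_geo {c ρ : ℝ} (h0 : 0 ≤ ρ) (h1 : ρ < 1) :
    HasSum (fun j : ℕ => c * ρ ^ j) (c * (1 - ρ)⁻¹) :=
  (hasSum_geometric_of_lt_one h0 h1).mul_left c

private lemma shad_sm {t : ℕ → E} {c ρ : ℝ} (h0 : 0 ≤ ρ) (h1 : ρ < 1)
    (h : ∀ j, ‖t j‖ ≤ c * ρ ^ j) : Summable t :=
  Summable.of_norm_bounded (shad_geo (c := c) h0 h1).summable h

private lemma shad_step {A : E →L[ℝ] E} {a b : ℕ → (E →L[ℝ] E)} (zero : a 0 + b 0 = 1)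
    (sa : ∀ n, a (n + 1) = A * a n) (sb : ∀ n, A * b (n + 1) = b n) {g : ℤ → E}
    (ha : ∀ n : ℤ, Summable (fun j : ℕ => a j (g (n - 1 - j))))
    (hb : ∀ n : ℤ, Summable (fun j : ℕ => b (j + 1) (g (n + j)))) (n : ℤ) :
    shadK a b g (n + 1) = A (shadK a b g n) + g n := by
  have h1 : ∑' j : ℕ, a j (g (n + 1 - 1 - j)) = a 0 (g n) + A (∑' j : ℕ, a j (g (n - 1 - j))) := by
    rw [(ha (n + 1)).tsum_eq_zero_add, A.map_tsum (ha n)]
    congr 1
    · congr 2
      push_cast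
      ring
    · refine tsum_congr fun j => ?_
      rw [sa j]
      show A (a j (g (n + 1 - 1 - ((j + 1 : ℕ) : ℤ)))) = A (a j (g (n - 1 - j)))
      congr 3
      push_cast
      ring
  have h2 : A (∑' j : ℕ, b (j + 1) (g (n + j))) = b 0 (g n) + ∑' j : ℕ, b (j + 1) (g (n + 1 + j)) := by
    rw [A.map_tsum (hb n)]
    have e : ∀ j : ℕ, A (b (j + 1) (g (n + j))) = b j (g (n + j)) := fun j => by
      rw [← sb j]; rfl
    have hs : Summable (fun j : ℕ => b j (g (n + j))) := by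
      have := (hb n).map A.toLinearMap.toAddMonoidHom A.continuous
      refine this.congr fun j => ?_
      exact (e j)
    rw [tsum_congr e, hs.tsum_eq_zero_add]
    congr 1
    · congr 2
      push_cast
      ring
    · refine tsum_congr fun j => ?_
      congr 2
      push_cast
      ring
  have h3 : a 0 (g n) + b 0 (g n) = g n := by
    have := congrArg (fun T : E →L[ℝ] E => T (g n)) zero
    simpa using this
  unfold shadK
  rw [map_sub, h1, h2]
  generalize a 0 (g n) = p at *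
  generalize b 0 (g n) = q at *
  rw [← h3]
  abel

private lemma shad_bd {a b : ℕ → (E →L[ℝ] E)} {C r s ν Gc : ℝ} (hC : 0 ≤ C) (hr : 0 ≤ r)
    (hs : 0 ≤ s) (h0 : 0 < ν) (h1 : ν ≤ 1) (hrν : r < ν) (hsν : s < ν) (hG : 0 ≤ Gc)
    (na : ∀ n, ‖a n‖ ≤ C * r ^ n) (nb : ∀ n, ‖b n‖ ≤ C * s ^ n) {g : ℤ → E}
    (hg : ∀ n, ‖g n‖ ≤ Gc * shadW ν n) (n : ℤ) :
    ‖shadK a b g n‖ ≤ (C * ν⁻¹ * (1 - r / ν)⁻¹ + C * s * (1 - s / ν)⁻¹) * (Gc * shadW ν n) := by
  have e1 : r / ν < 1 := (div_lt_one h0).2 hrν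
  have e2 : s / ν < 1 := (div_lt_one h0).2 hsν
  have h2 := tsum_of_norm_bounded (shad_geo (c := C * Gc * shadW ν n * ν⁻¹) (div_nonneg hr h0.le) e1)
    (shad_ta hC hr h0 h1 hG na hg n)
  have h3 := tsum_of_norm_bounded (shad_geo (c := C * Gc * shadW ν n * s) (div_nonneg hs h0.le) e2)
    (shad_tb hC hs h0 h1 hG nb hg n)
  refine (norm_sub_le _ _).trans ((add_le_add h2 h3).trans (le_of_eq ?_))
  ring

theorem shadow {A : E →L[ℝ] E} {a b : ℕ → (E →L[ℝ] E)} {C r s : ℝ} (G : Green A a b C r s)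
    (hr : r < 1) (hs : s < 1) :
    ∃ ε ν C' : ℝ, 0 < ε ∧ 0 < ν ∧ ν < 1 ∧ 0 < C' ∧
      ∀ f g : E → E, (∀ x, g (f x) = x) → (∀ x, f (g x) = x) →
        (∀ x y, ‖(f x - A x) - (f y - A y)‖ ≤ ε * ‖x - y‖) →
          ∀ x y : E, ∃ z : E, ∀ n : ℕ, ‖f^[n] z - f^[n] x‖ ≤ C' * ν ^ n * ‖x - y‖ ∧
            ‖g^[n] z - g^[n] y‖ ≤ C' * ν ^ n * ‖x - y‖ := by
  obtain ⟨hC, hr0, hs0, zero, sa, -, sb, -, na, nb⟩ := G
  obtain ⟨ν, hrν, hsν, h1⟩ : ∃ ν : ℝ, r < ν ∧ s < ν ∧ ν < 1 := by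
    obtain ⟨ν, h, h'⟩ := exists_between (max_lt hr hs)
    exact ⟨ν, (le_max_left _ _).trans_lt h, (le_max_right _ _).trans_lt h, h'⟩
  have h0 : 0 < ν := hr0.trans hrν
  have e1 : r / ν < 1 := (div_lt_one h0).2 hrν
  have e2 : s / ν < 1 := (div_lt_one h0).2 hsν
  obtain ⟨K, hK⟩ : ∃ K : ℝ, K = C * ν⁻¹ * (1 - r / ν)⁻¹ + C * s * (1 - s / ν)⁻¹ := ⟨_, rfl⟩
  have hK0 : 0 < K := by
    rw [hK]
    have := inv_pos.2 (sub_pos.2 e1)
    have := inv_pos.2 (sub_pos.2 e2)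
    positivity
  refine ⟨1 / (2 * K), ν, 2 * K * ν⁻¹ + 1, by positivity, h0, h1, by positivity, ?_⟩
  intro f g hgf hfg hL x y
  obtain ⟨ε, hε⟩ : ∃ ε : ℝ, ε = 1 / (2 * K) := ⟨_, rfl⟩
  have hε0 : 0 ≤ ε := by rw [hε]; positivity
  have hKε : K * ε = 1 / 2 := by rw [hε]; field_simp
  rw [← hε] at hL
  let w : ℤ → E := fun n => if 0 ≤ n then f^[n.toNat] x else g^[(-n).toNat] y
  have hw : ∀ n : ℤ, n ≠ -1 → w (n + 1) = f (w n) := by
    intro n hn
    by_cases h : 0 ≤ n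
    · have e : (n + 1).toNat = n.toNat + 1 := by omega
      simp only [w, if_pos h, if_pos (show (0:ℤ) ≤ n + 1 by omega), e, Function.iterate_succ_apply']
    · have e : (-n).toNat = (-(n+1)).toNat + 1 := by omega
      simp only [w, if_neg h, if_neg (show ¬ (0:ℤ) ≤ n + 1 by omega), e,
        Function.iterate_succ_apply', hfg]
  have hw0 : w 0 = x := by simp [w]
  have hw1 : f (w (-1)) = y := by simp [w, hfg]
  let N : (ℤ → E) → ℤ → E := fun u n =>
    (f (w n + u n) - A (w n + u n)) - (f (w n) - A (w n)) - (if n = -1 then x - y else 0)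
  let U : (BoundedContinuousFunction ℤ E) → ℤ → E := fun v n => shadW ν n • v n
  have hU : ∀ v n, ‖U v n‖ ≤ ‖v‖ * shadW ν n := by
    intro v n
    simp only [U]
    rw [norm_smul, Real.norm_of_nonneg (shadW_pos h0 n).le, mul_comm]
    exact mul_le_mul_of_nonneg_right (v.norm_coe_le_norm n) (shadW_pos h0 n).le
  have hU2 : ∀ v v' n, ‖U v n - U v' n‖ ≤ dist v v' * shadW ν n := by
    intro v v' n
    have : U v n - U v' n = U (v - v') n := by
      simp only [U, BoundedContinuousFunction.coe_sub, Pi.sub_apply, smul_sub]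
    rw [this, dist_eq_norm]
    exact hU _ _
  have hd : 0 ≤ ‖x - y‖ := norm_nonneg _
  have hN1 : ∀ v n, ‖N (U v) n‖ ≤ (ε * ‖v‖ + ν⁻¹ * ‖x - y‖) * shadW ν n := by
    intro v n
    have hW := shadW_pos h0 n
    simp only [N]
    refine (norm_sub_le _ _).trans ?_
    rw [add_mul]
    refine add_le_add ?_ ?_
    · refine (hL _ _).trans ?_
      rw [add_sub_cancel_left, mul_assoc]
      exact mul_le_mul_of_nonneg_left (hU v n) hε0
    · split_ifs with h
      · have : shadW ν n = ν := by rw [h]; simp [shadW]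
        rw [this]
        exact le_of_eq (by field_simp)
      · rw [norm_zero]; positivity
  have hN2 : ∀ v v' n, ‖N (U v) n - N (U v') n‖ ≤ (ε * dist v v') * shadW ν n := by
    intro v v' n
    have e : N (U v) n - N (U v') n = (f (w n + U v n) - A (w n + U v n))
        - (f (w n + U v' n) - A (w n + U v' n)) := by
      simp only [N]; abel
    rw [e]
    refine (hL _ _).trans ?_
    rw [add_sub_add_left_eq_sub, mul_assoc]
    exact mul_le_mul_of_nonneg_left (hU2 v v' n) hε0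
  have hGp : ∀ v : BoundedContinuousFunction ℤ E, 0 ≤ ε * ‖v‖ + ν⁻¹ * ‖x - y‖ := fun v => by
    positivity
  have hSa : ∀ v (n : ℤ), Summable (fun j : ℕ => a j (N (U v) (n - 1 - j))) := fun v n =>
    shad_sm (div_nonneg hr0.le h0.le) e1 (shad_ta hC.le hr0.le h0 h1.le (hGp v) na (hN1 v) n)
  have hSb : ∀ v (n : ℤ), Summable (fun j : ℕ => b (j + 1) (N (U v) (n + j))) := fun v n =>
    shad_sm (div_nonneg hs0.le h0.le) e2 (shad_tb hC.le hs0.le h0 h1.le (hGp v) nb (hN1 v) n)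
  have hFb : ∀ v n, ‖(shadW ν n)⁻¹ • shadK a b (N (U v)) n‖
      ≤ K * (ε * ‖v‖ + ν⁻¹ * ‖x - y‖) := by
    intro v n
    have hW := shadW_pos h0 n
    rw [norm_smul, norm_inv, Real.norm_of_nonneg hW.le, inv_mul_le_iff₀ hW]
    refine (shad_bd hC.le hr0.le hs0.le h0 h1.le hrν hsν (hGp v) na nb (hN1 v) n).trans
      (le_of_eq ?_)
    rw [← hK]; ring
  let F : (BoundedContinuousFunction ℤ E) → (BoundedContinuousFunction ℤ E) := fun v =>
    BoundedContinuousFunction.ofNormedAddCommGroupDiscrete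
      (fun n => (shadW ν n)⁻¹ • shadK a b (N (U v)) n) _ (hFb v)
  have hFa : ∀ v n, F v n = (shadW ν n)⁻¹ • shadK a b (N (U v)) n := fun v n => rfl
  have hKs : ∀ v v' n, shadK a b (N (U v)) n - shadK a b (N (U v')) n
      = shadK a b (fun m => N (U v) m - N (U v') m) n := by
    intro v v' n
    simp only [shadK, map_sub]
    rw [(hSa v n).tsum_sub (hSa v' n), (hSb v n).tsum_sub (hSb v' n)]
    abel
  have hcon : ContractingWith (1 / 2) F := by
    refine ⟨by rw [div_lt_one] <;> norm_num, ?_⟩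
    refine LipschitzWith.of_dist_le_mul fun v v' => ?_
    rw [BoundedContinuousFunction.dist_le (by positivity)]
    intro n
    have hW := shadW_pos h0 n
    rw [dist_eq_norm, hFa, hFa, ← smul_sub, norm_smul, norm_inv, Real.norm_of_nonneg hW.le,
      inv_mul_le_iff₀ hW, hKs]
    refine (shad_bd hC.le hr0.le hs0.le h0 h1.le hrν hsν (by positivity) na nb (hN2 v v') n).trans
      (le_of_eq ?_)
    rw [← hK]
    calc K * (ε * dist v v' * shadW ν n) = (K * ε) * dist v v' * shadW ν n := by ring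
      _ = _ := by rw [hKε]; push_cast; ring
  obtain ⟨v, hv⟩ : ∃ v, F v = v := ⟨_, hcon.fixedPoint_isFixedPt⟩
  have hvn : ‖v‖ ≤ 2 * K * ν⁻¹ * ‖x - y‖ := by
    have h2 : ‖v‖ ≤ K * (ε * ‖v‖ + ν⁻¹ * ‖x - y‖) := by
      rw [BoundedContinuousFunction.norm_le (by have := hGp v; positivity)]
      intro n
      have := hFb v n
      rw [← hFa, hv] at this
      exact this
    have h3 : K * (ε * ‖v‖ + ν⁻¹ * ‖x - y‖) = (K * ε) * ‖v‖ + K * ν⁻¹ * ‖x - y‖ := by ring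
    rw [h3, hKε] at h2
    linarith
  have hvU : ∀ n, U v n = shadK a b (N (U v)) n := by
    intro n
    have hW := shadW_pos h0 n
    have := hFa v n
    rw [hv] at this
    simp only [U] at this ⊢
    rw [this, smul_smul, mul_inv_cancel₀ hW.ne', one_smul]
  have hst : ∀ n, U v (n + 1) = A (U v n) + N (U v) n := by
    intro n
    rw [hvU (n + 1), hvU n, ← shad_step zero sa sb (hSa v) (hSb v) n]
  have hz : ∀ n, w (n + 1) + U v (n + 1) = f (w n + U v n) := by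
    intro n
    rw [hst n]
    by_cases h : n = -1
    · subst h
      simp only [N, if_true, hw1]
      rw [show (-1 : ℤ) + 1 = 0 by norm_num, hw0, map_add]
      abel
    · simp only [N, if_neg h, hw n h]
      rw [map_add]
      abel
  have hz2 : ∀ n : ℤ, ‖(w n + U v n) - w n‖ ≤ (2 * K * ν⁻¹ * ‖x - y‖) * shadW ν n := by
    intro n
    rw [add_sub_cancel_left]
    exact (hU v n).trans (mul_le_mul_of_nonneg_right hvn (shadW_pos h0 n).le)
  have hit : ∀ n : ℕ, f^[n] (w 0 + U v 0) = w n + U v n := by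
    intro n
    induction n with
    | zero => simp
    | succ n ih =>
      rw [Function.iterate_succ_apply', ih, ← hz n]
      push_cast
      rfl
  have hit2 : ∀ n : ℕ, g^[n] (w 0 + U v 0) = w (-n) + U v (-n) := by
    intro n
    induction n with
    | zero => simp
    | succ n ih =>
      rw [Function.iterate_succ_apply', ih]
      have := hz (-((n + 1 : ℕ) : ℤ))
      rw [show (-((n + 1 : ℕ) : ℤ)) + 1 = -(n : ℤ) by push_cast; ring] at this
      rw [this, hgf]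
  refine ⟨w 0 + U v 0, fun n => ⟨?_, ?_⟩⟩
  · have h2 := hz2 n
    rw [hit n]
    have e : w n = f^[n] x := by simp [w]
    have e2 : shadW ν n = ν ^ n := by simp [shadW]
    rw [e2] at h2
    rw [← e]
    refine h2.trans ?_
    have := pow_pos h0 n
    nlinarith [mul_nonneg hd this.le]
  · rw [hit2 n]
    rcases Nat.eq_zero_or_pos n with rfl | hn
    · have h2 := hz2 0
      have e2 : shadW ν 0 = 1 := by simp [shadW]
      rw [e2, hw0] at h2
      simp only [Nat.cast_zero, neg_zero, Function.iterate_zero, id_eq, pow_zero, hw0]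
      have h3 : x + U v 0 - y = (x + U v 0 - x) + (x - y) := by abel
      rw [h3]
      refine (norm_add_le _ _).trans ?_
      linarith
    · have h2 := hz2 (-(n:ℤ))
      have e : w (-(n:ℤ)) = g^[n] y := by
        simp only [w, if_neg (show ¬ (0:ℤ) ≤ -(n:ℤ) by omega), neg_neg, Int.toNat_natCast]
      have e2 : shadW ν (-(n:ℤ)) = ν ^ n := by simp [shadW]
      rw [e2] at h2
      rw [← e]
      refine h2.trans ?_
      have := pow_pos h0 n
      nlinarith [mul_nonneg hd this.le]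

end LRA
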