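import Pool.Agent.LRA.Spl2
import Pool.Agent.LRA.Shad
import Pool.Agent.LRA.Osc1

/-!
# LRA / Osc: oscillation of bounded solutions of a cohomological equation

PLAN.  `green A 1` gives the kernel with `r < 1`, `s < 1` (`s * 1 < 1`), `shadow` gives `ε₁, ν₁, C₁`.  Put
`κ = ν₁^α` (`Real.rpow`), so `ν₁ ≤ κ < 1` (`0 < α ≤ 1`).  Choose `ν ∈ (√κ, 1)` with `NoEig L₀ ν`
(`exists_noEig`), `green L₀ ν`, `osc1`; the same for `L₀'` with its own `ν'`.  `ε₀ = min` of the three, `C`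
the sum of the constants times `1 + √(C₁^α)`.
Given `x, y`: translate `y` by an integer vector such that `‖x - y‖ ≤ 1` (`X` is periodic; take
`m_i = ⌊x_i - y_i⌋`, sup norm).  Let `z` be the point of `shadow`.
`‖L (f^[n] z) - L (f^[n] x)‖ ≤ B (C₁ ν₁^n ‖x - y‖)^α ≤ B C₁^α κ^n` (`Real.mul_rpow`, `Real.rpow_natCast`
commutation `(ν₁^n)^α = (ν₁^α)^n`), `‖X (f^[n] z) - X (f^[n] x)‖ ≤ Λ C₁ ν₁^n ≤ Λ' κ^n`.  So `osc1` (with the `B`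
there equal to `B C₁^α`) bounds `‖X z - X x‖`, and the same with `f, g` exchanged, `L'`, and `y` in place
of `x` bounds `‖X z - X y‖`.  `√(ε B C₁^α) = √(C₁^α) √(ε B)`.
-/

set_option autoImplicit false

noncomputable section

open scoped BigOperators

namespace LRA

variable {d : ℕ} {E : Type*} [NormedAddCommGroup E] [NormedSpace ℝ E] [FiniteDimensional ℝ E]

private theorem oscx_one (L₀ : E →L[ℝ] E) {κ : ℝ} (hκ : 0 < κ) (hκ1 : κ < 1)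
    (hsκ : Real.sqrt κ < 1) :
    ∃ ε₀ C' : ℝ, 0 < ε₀ ∧ 0 < C' ∧
      ∀ (f g : V d → V d) (_ : ∀ x, f (g x) = x) (X : V d → E) (L : V d → (E →L[ℝ] E))
        (ε B S Λ : ℝ) (z x : V d), 0 ≤ ε → ε ≤ ε₀ → 0 ≤ B → (∀ y, X (f y) = L y (X y)) →
        (∀ y, ‖L y - L₀‖ ≤ ε) → (∀ y, ‖X y‖ ≤ S) →
        (∀ n : ℕ, ‖L (f^[n] z) - L (f^[n] x)‖ ≤ B * κ ^ n) →
        (∀ n : ℕ, ‖X (f^[n] z) - X (f^[n] x)‖ ≤ Λ * κ ^ n) →
          ‖X z - X x‖ ≤ C' * (ε + Real.sqrt (ε * B)) * S := by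
  obtain ⟨ν, hν, hν1, hne⟩ := exists_noEig L₀ hsκ
  have hν0 : 0 < ν := lt_of_le_of_lt (Real.sqrt_nonneg κ) hν
  obtain ⟨a, b, C, r, s, G, hr, hs⟩ := green L₀ ν hν0 hne
  obtain ⟨ε₀, C', h1, h2, H⟩ := osc1 G hκ hκ1 hν.le hν1 hr hs
  exact ⟨ε₀, C', h1, h2, fun f g hfg => H f g hfg⟩

theorem osc (A : V d →L[ℝ] V d) (hA : NoEig A 1) (L₀ L₀' : E →L[ℝ] E) (α : ℝ) (hα : 0 < α)
    (hα1 : α ≤ 1) :
    ∃ ε₀ C : ℝ, 0 < ε₀ ∧ 0 < C ∧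
      ∀ f g : V d → V d, (∀ x, g (f x) = x) → (∀ x, f (g x) = x) →
        (∀ x y, ‖(f x - A x) - (f y - A y)‖ ≤ ε₀ * ‖x - y‖) →
        ∀ (X : V d → E) (L L' : V d → (E →L[ℝ] E)) (ε B S Λ : ℝ), 0 ≤ ε → ε ≤ ε₀ → 0 ≤ B →
          (∀ x, X (f x) = L x (X x)) → (∀ x, X (g x) = L' x (X x)) →
          (∀ x, ‖L x - L₀‖ ≤ ε) → (∀ x, ‖L' x - L₀'‖ ≤ ε) →
          (∀ x y, ‖L x - L y‖ ≤ B * ‖x - y‖ ^ α) → (∀ x y, ‖L' x - L' y‖ ≤ B * ‖x - y‖ ^ α) →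
          (∀ x, ‖X x‖ ≤ S) → (∀ x y, ‖X x - X y‖ ≤ Λ * ‖x - y‖) → Per X →
            ∀ x y, ‖X x - X y‖ ≤ C * (ε + Real.sqrt (ε * B)) * S := by
  obtain ⟨a, b, C0, r, s, G, hr, hs⟩ := green A 1 one_pos hA
  rw [mul_one] at hs
  obtain ⟨ε₁, ν₁, C₁, hε₁, hν₁, hν₁1, hC₁, hsh⟩ := shadow G hr hs
  have hκ : 0 < ν₁ ^ α := Real.rpow_pos_of_pos hν₁ α
  have hκ1 : ν₁ ^ α < 1 := Real.rpow_lt_one hν₁.le hν₁1 hα
  have hνκ : ν₁ ≤ ν₁ ^ α := by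
    have := Real.rpow_le_rpow_of_exponent_ge hν₁ hν₁1.le hα1
    rwa [Real.rpow_one] at this
  have hsκ : Real.sqrt (ν₁ ^ α) < 1 := by
    rw [Real.sqrt_lt' one_pos, one_pow]
    exact hκ1
  obtain ⟨ε₂, C₂, hε₂, hC₂, H2⟩ := oscx_one L₀ hκ hκ1 hsκ
  obtain ⟨ε₃, C₃, hε₃, hC₃, H3⟩ := oscx_one L₀' hκ hκ1 hsκ
  have hCa : 0 ≤ C₁ ^ α := Real.rpow_nonneg hC₁.le α
  refine ⟨min ε₁ (min ε₂ ε₃), (C₂ + C₃) * (1 + Real.sqrt (C₁ ^ α)), by positivity,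
    by positivity, ?_⟩
  intro f g hgf hfg hLip X L L' ε B S Λ hε hεε₀ hB hXf hXg hL hL' hLB hLB' hS hΛ hPer x y₀
  obtain ⟨y, hXy, hxy⟩ : ∃ y : V d, X y = X y₀ ∧ ‖x - y‖ ≤ 1 := by
    refine ⟨y₀ + zc (fun i => ⌊x i - y₀ i⌋), hPer _ _, ?_⟩
    rw [pi_norm_le_iff_of_nonneg zero_le_one]
    intro i
    have h1 : (x - (y₀ + zc (fun i => ⌊x i - y₀ i⌋))) i = Int.fract (x i - y₀ i) := by
      show x i - (y₀ i + ((⌊x i - y₀ i⌋ : ℤ) : ℝ)) = _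
      rw [Int.fract]
      ring
    rw [h1, Real.norm_eq_abs, abs_of_nonneg (Int.fract_nonneg _)]
    exact (Int.fract_lt_one _).le
  rw [← hXy]
  have hS0 : 0 ≤ S := le_trans (norm_nonneg _) (hS x)
  obtain ⟨z, hz⟩ := hsh f g hgf hfg (fun u v => le_trans (hLip u v)
    (mul_le_mul_of_nonneg_right (min_le_left _ _) (norm_nonneg _))) x y
  have hzf : ∀ n : ℕ, ‖f^[n] z - f^[n] x‖ ≤ C₁ * ν₁ ^ n := fun n =>
    le_trans (hz n).1 (mul_le_of_le_one_right (by positivity) hxy)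
  have hzg : ∀ n : ℕ, ‖g^[n] z - g^[n] y‖ ≤ C₁ * ν₁ ^ n := fun n =>
    le_trans (hz n).2 (mul_le_of_le_one_right (by positivity) hxy)
  have key1 : ∀ (M : V d → (E →L[ℝ] E)) (u v : V d) (n : ℕ),
      (∀ x y, ‖M x - M y‖ ≤ B * ‖x - y‖ ^ α) → ‖u - v‖ ≤ C₁ * ν₁ ^ n →
        ‖M u - M v‖ ≤ B * C₁ ^ α * (ν₁ ^ α) ^ n := by
    intro M u v n hM huv
    calc ‖M u - M v‖ ≤ B * ‖u - v‖ ^ α := hM u v
      _ ≤ B * (C₁ * ν₁ ^ n) ^ α :=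
          mul_le_mul_of_nonneg_left (Real.rpow_le_rpow (norm_nonneg _) huv hα.le) hB
      _ = B * C₁ ^ α * (ν₁ ^ α) ^ n := by
          rw [Real.mul_rpow hC₁.le (by positivity), Real.rpow_pow_comm hν₁.le]
          ring
  have key2 : ∀ (u v : V d) (n : ℕ), ‖u - v‖ ≤ C₁ * ν₁ ^ n →
      ‖X u - X v‖ ≤ |Λ| * C₁ * (ν₁ ^ α) ^ n := by
    intro u v n huv
    calc ‖X u - X v‖ ≤ Λ * ‖u - v‖ := hΛ u v
      _ ≤ |Λ| * ‖u - v‖ := mul_le_mul_of_nonneg_right (le_abs_self _) (norm_nonneg _)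
      _ ≤ |Λ| * (C₁ * ν₁ ^ n) := mul_le_mul_of_nonneg_left huv (abs_nonneg _)
      _ ≤ |Λ| * (C₁ * (ν₁ ^ α) ^ n) := by
          apply mul_le_mul_of_nonneg_left _ (abs_nonneg _)
          apply mul_le_mul_of_nonneg_left _ hC₁.le
          exact pow_le_pow_left₀ hν₁.le hνκ n
      _ = |Λ| * C₁ * (ν₁ ^ α) ^ n := by ring
  have r1 := H2 f g hfg X L ε (B * C₁ ^ α) S (|Λ| * C₁) z x hε
    (le_trans hεε₀ (le_trans (min_le_right _ _) (min_le_left _ _))) (by positivity) hXf hL hS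
    (fun n => key1 L _ _ n hLB (hzf n)) (fun n => key2 _ _ n (hzf n))
  have r2 := H3 g f hgf X L' ε (B * C₁ ^ α) S (|Λ| * C₁) z y hε
    (le_trans hεε₀ (le_trans (min_le_right _ _) (min_le_right _ _))) (by positivity) hXg hL' hS
    (fun n => key1 L' _ _ n hLB' (hzg n)) (fun n => key2 _ _ n (hzg n))
  have hsq : ε + Real.sqrt (ε * (B * C₁ ^ α)) ≤
      (1 + Real.sqrt (C₁ ^ α)) * (ε + Real.sqrt (ε * B)) := by
    rw [← mul_assoc, Real.sqrt_mul (by positivity)]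
    have h1 : 0 ≤ Real.sqrt (C₁ ^ α) := Real.sqrt_nonneg _
    have h2 : 0 ≤ Real.sqrt (ε * B) := Real.sqrt_nonneg _
    nlinarith [mul_nonneg h1 hε]
  have h3 : ‖X x - X y‖ ≤ ‖X z - X x‖ + ‖X z - X y‖ := by
    have : X x - X y = -(X z - X x) + (X z - X y) := by abel
    rw [this]
    refine le_trans (norm_add_le _ _) ?_
    rw [norm_neg]
  calc ‖X x - X y‖ ≤ ‖X z - X x‖ + ‖X z - X y‖ := h3
    _ ≤ C₂ * (ε + Real.sqrt (ε * (B * C₁ ^ α))) * S +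
        C₃ * (ε + Real.sqrt (ε * (B * C₁ ^ α))) * S := add_le_add r1 r2
    _ = (C₂ + C₃) * S * (ε + Real.sqrt (ε * (B * C₁ ^ α))) := by ring
    _ ≤ (C₂ + C₃) * S * ((1 + Real.sqrt (C₁ ^ α)) * (ε + Real.sqrt (ε * B))) :=
        mul_le_mul_of_nonneg_left hsq (by positivity)
    _ = (C₂ + C₃) * (1 + Real.sqrt (C₁ ^ α)) * (ε + Real.sqrt (ε * B)) * S := by ring

end LRA
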