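import Pool.Agent.LRA.Osc

/-!
# LRA / PQ: the case of operator valued functions
-/

set_option autoImplicit false

noncomputable section

open scoped BigOperators

namespace LRA

variable {d : ℕ}

private def pqM (a b : V d →L[ℝ] V d) : (V d →L[ℝ] V d) →L[ℝ] (V d →L[ℝ] V d) :=
  ContinuousLinearMap.mulLeftRight ℝ (V d →L[ℝ] V d) a b

private theorem pqM_apply (a b z : V d →L[ℝ] V d) : pqM a b z = a * z * b := rfl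

private theorem pqM_norm (a b : V d →L[ℝ] V d) : ‖pqM a b‖ ≤ ‖a‖ * ‖b‖ :=
  ContinuousLinearMap.opNorm_mulLeftRight_apply_apply_le ℝ (V d →L[ℝ] V d) a b

private theorem pqM_sub (a b a' b' : V d →L[ℝ] V d) :
    ‖pqM a b - pqM a' b'‖ ≤ ‖a - a'‖ * ‖b‖ + ‖a'‖ * ‖b - b'‖ := by
  refine ContinuousLinearMap.opNorm_le_bound _ (by positivity) fun z => ?_
  have h : (pqM a b - pqM a' b') z = (a - a') * z * b + a' * z * (b - b') := by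
    show a * z * b - a' * z * b' = (a - a') * z * b + a' * z * (b - b')
    rw [sub_mul, sub_mul, mul_sub]
    abel
  rw [h]
  have h1 : ‖(a - a') * z * b‖ ≤ ‖a - a'‖ * ‖z‖ * ‖b‖ :=
    (norm_mul_le _ _).trans (mul_le_mul_of_nonneg_right (norm_mul_le _ _) (norm_nonneg _))
  have h2 : ‖a' * z * (b - b')‖ ≤ ‖a'‖ * ‖z‖ * ‖b - b'‖ :=
    (norm_mul_le _ _).trans (mul_le_mul_of_nonneg_right (norm_mul_le _ _) (norm_nonneg _))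
  calc ‖(a - a') * z * b + a' * z * (b - b')‖ ≤ ‖(a - a') * z * b‖ + ‖a' * z * (b - b')‖ :=
        norm_add_le _ _
    _ ≤ ‖a - a'‖ * ‖z‖ * ‖b‖ + ‖a'‖ * ‖z‖ * ‖b - b'‖ := add_le_add h1 h2
    _ = (‖a - a'‖ * ‖b‖ + ‖a'‖ * ‖b - b'‖) * ‖z‖ := by ring

private theorem pqM_eps {a b a' b' : V d →L[ℝ] V d} {ε K : ℝ} (hε : 0 ≤ ε) (hε1 : ε ≤ 1)
    (hK : ‖a'‖ + ‖b'‖ + 1 ≤ K) (ha : ‖a - a'‖ ≤ ε) (hb : ‖b - b'‖ ≤ ε) :
    ‖pqM a b - pqM a' b'‖ ≤ K * ε := by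
  have h1 : ‖b‖ ≤ ‖b'‖ + 1 := by
    have : b = (b - b') + b' := by abel
    calc ‖b‖ = ‖(b - b') + b'‖ := by rw [← this]
      _ ≤ ‖b - b'‖ + ‖b'‖ := norm_add_le _ _
      _ ≤ _ := by linarith
  calc ‖pqM a b - pqM a' b'‖ ≤ ‖a - a'‖ * ‖b‖ + ‖a'‖ * ‖b - b'‖ := pqM_sub _ _ _ _
    _ ≤ ε * (‖b'‖ + 1) + ‖a'‖ * ε := by
        refine add_le_add ?_ ?_
        · exact mul_le_mul ha h1 (norm_nonneg _) hε
        · exact mul_le_mul_of_nonneg_left hb (norm_nonneg _)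
    _ = (‖a'‖ + ‖b'‖ + 1) * ε := by ring
    _ ≤ K * ε := mul_le_mul_of_nonneg_right hK hε

private theorem pqM_lip {a b a' b' a₀ b₀ : V d →L[ℝ] V d} {ε K B t : ℝ} (hε1 : ε ≤ 1) (hB : 0 ≤ B)
    (ht : 0 ≤ t) (hK : ‖a₀‖ + ‖b₀‖ + 2 ≤ K) (hb0 : ‖b - b₀‖ ≤ ε) (ha0 : ‖a' - a₀‖ ≤ ε)
    (ha : ‖a - a'‖ ≤ B * t) (hb : ‖b - b'‖ ≤ B * t) :
    ‖pqM a b - pqM a' b'‖ ≤ K * B * t := by
  have h1 : ‖b‖ ≤ ‖b₀‖ + 1 := by
    have : b = (b - b₀) + b₀ := by abel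
    calc ‖b‖ = ‖(b - b₀) + b₀‖ := by rw [← this]
      _ ≤ ‖b - b₀‖ + ‖b₀‖ := norm_add_le _ _
      _ ≤ _ := by linarith
  have h2 : ‖a'‖ ≤ ‖a₀‖ + 1 := by
    have : a' = (a' - a₀) + a₀ := by abel
    calc ‖a'‖ = ‖(a' - a₀) + a₀‖ := by rw [← this]
      _ ≤ ‖a' - a₀‖ + ‖a₀‖ := norm_add_le _ _
      _ ≤ _ := by linarith
  have hBt : 0 ≤ B * t := mul_nonneg hB ht
  calc ‖pqM a b - pqM a' b'‖ ≤ ‖a - a'‖ * ‖b‖ + ‖a'‖ * ‖b - b'‖ := pqM_sub _ _ _ _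
    _ ≤ (B * t) * (‖b₀‖ + 1) + (‖a₀‖ + 1) * (B * t) := by
        refine add_le_add ?_ ?_
        · exact mul_le_mul ha h1 (norm_nonneg _) hBt
        · exact mul_le_mul h2 hb (norm_nonneg _) (by positivity)
    _ = (‖a₀‖ + ‖b₀‖ + 2) * (B * t) := by ring
    _ ≤ K * (B * t) := mul_le_mul_of_nonneg_right hK hBt
    _ = K * B * t := by ring

theorem oscPQ (A : V d →L[ℝ] V d) (hA : NoEig A 1) (P₀ Q₀ P₀' Q₀' : V d →L[ℝ] V d) (α : ℝ)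
    (hα : 0 < α) (hα1 : α ≤ 1) :
    ∃ ε₀ C : ℝ, 0 < ε₀ ∧ 0 < C ∧
      ∀ f g : V d → V d, (∀ x, g (f x) = x) → (∀ x, f (g x) = x) →
        (∀ x y, ‖(f x - A x) - (f y - A y)‖ ≤ ε₀ * ‖x - y‖) →
        ∀ (X P Q P' Q' : V d → (V d →L[ℝ] V d)) (ε B S Λ : ℝ), 0 ≤ ε → ε ≤ ε₀ → 0 ≤ B →
          (∀ x, X (f x) = P x * X x * Q x) → (∀ x, X (g x) = P' x * X x * Q' x) →
          (∀ x, ‖P x - P₀‖ ≤ ε) → (∀ x, ‖Q x - Q₀‖ ≤ ε) →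
          (∀ x, ‖P' x - P₀'‖ ≤ ε) → (∀ x, ‖Q' x - Q₀'‖ ≤ ε) →
          (∀ x y, ‖P x - P y‖ ≤ B * ‖x - y‖ ^ α) → (∀ x y, ‖Q x - Q y‖ ≤ B * ‖x - y‖ ^ α) →
          (∀ x y, ‖P' x - P' y‖ ≤ B * ‖x - y‖ ^ α) → (∀ x y, ‖Q' x - Q' y‖ ≤ B * ‖x - y‖ ^ α) →
          (∀ x, ‖X x‖ ≤ S) → (∀ x y, ‖X x - X y‖ ≤ Λ * ‖x - y‖) → Per X →
            ∀ x y, ‖X x - X y‖ ≤ C * (ε + Real.sqrt (ε * B)) * S := by
  obtain ⟨ε₁, C₁, hε₁, hC₁, hosc⟩ := osc A hA (pqM P₀ Q₀) (pqM P₀' Q₀') α hα hα1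
  obtain ⟨K, hKe⟩ : ∃ K : ℝ, K = 2 + ‖P₀‖ + ‖Q₀‖ + ‖P₀'‖ + ‖Q₀'‖ := ⟨_, rfl⟩
  have n1 := norm_nonneg P₀
  have n2 := norm_nonneg Q₀
  have n3 := norm_nonneg P₀'
  have n4 := norm_nonneg Q₀'
  have hK : 0 < K := by rw [hKe]; positivity
  refine ⟨min 1 (ε₁ / K), C₁ * K, lt_min one_pos (div_pos hε₁ hK), mul_pos hC₁ hK, ?_⟩
  intro f g hgf hfg hf X P Q P' Q' ε B S Λ hε hε0 hB hXf hXg hP hQ hP' hQ' hPl hQl hPl' hQl' hS hΛ hX x y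
  have hε1 : ε ≤ 1 := hε0.trans (min_le_left _ _)
  have hKε : K * ε ≤ ε₁ := by
    have h1 := hε0.trans (min_le_right _ _)
    rw [le_div_iff₀ hK] at h1
    linarith
  have hmin : min 1 (ε₁ / K) ≤ ε₁ := by
    refine (min_le_right _ _).trans ?_
    rw [div_le_iff₀ hK]
    have : 1 ≤ K := by rw [hKe]; linarith
    nlinarith
  have key := hosc f g hgf hfg
    (fun x y => (hf x y).trans (mul_le_mul_of_nonneg_right hmin (norm_nonneg _)))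
    X (fun x => pqM (P x) (Q x)) (fun x => pqM (P' x) (Q' x)) (K * ε) (K * B) S Λ (by positivity) hKε
    (by positivity) (fun x => hXf x) (fun x => hXg x)
    (fun x => pqM_eps hε hε1 (by rw [hKe]; linarith) (hP x) (hQ x))
    (fun x => pqM_eps hε hε1 (by rw [hKe]; linarith) (hP' x) (hQ' x))
    (fun x y => pqM_lip hε1 hB (Real.rpow_nonneg (norm_nonneg _) _) (by rw [hKe]; linarith) (hQ x) (hP y)
      (hPl x y) (hQl x y))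
    (fun x y => pqM_lip hε1 hB (Real.rpow_nonneg (norm_nonneg _) _) (by rw [hKe]; linarith) (hQ' x) (hP' y)
      (hPl' x y) (hQl' x y))
    hS hΛ hX x y
  have hsq : Real.sqrt (K * ε * (K * B)) = K * Real.sqrt (ε * B) := by
    rw [show K * ε * (K * B) = K ^ 2 * (ε * B) by ring, Real.sqrt_mul (by positivity),
      Real.sqrt_sq hK.le]
  rw [hsq] at key
  refine key.trans (le_of_eq ?_)
  ring

end LRA
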