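import Mathlib

/-! # LRA / Spl1: spectral splitting of a complex operator along a circle (Mathlib only) -/

set_option autoImplicit false

noncomputable section

open scoped BigOperators

namespace LRA

private lemma spl_mem_spec {m : ℕ} (N : (Fin m → ℂ) →L[ℂ] (Fin m → ℂ)) (z : ℂ)
    (hz : z ∈ spectrum ℂ N) : ∃ x : Fin m → ℂ, x ≠ 0 ∧ N x = z • x := by
  have h1 : spectrum ℂ (Module.End.toContinuousLinearMap (𝕜 := ℂ) (Fin m → ℂ)
      (N : (Fin m → ℂ) →ₗ[ℂ] (Fin m → ℂ))) = spectrum ℂ (N : (Fin m → ℂ) →ₗ[ℂ] (Fin m → ℂ)) :=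
    AlgEquiv.spectrum_eq _ _
  have h2 : Module.End.toContinuousLinearMap (𝕜 := ℂ) (Fin m → ℂ)
      (N : (Fin m → ℂ) →ₗ[ℂ] (Fin m → ℂ)) = N := by
    ext x
    rfl
  rw [h2] at h1
  rw [h1] at hz
  have h3 := Module.End.hasEigenvalue_iff_mem_spectrum.2 hz
  obtain ⟨x, hx⟩ := h3.exists_hasEigenvector
  exact ⟨x, hx.2, hx.apply_eq_smul⟩

private lemma spl_gelfand {m : ℕ} (N : (Fin m → ℂ) →L[ℂ] (Fin m → ℂ)) (ρ : ℝ) (hρ : 0 < ρ)
    (h : ∀ (z : ℂ) (x : Fin m → ℂ), z ≠ 0 → x ≠ 0 → N x = z • x → ‖z‖ < ρ) :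
    ∃ C r : ℝ, 0 < C ∧ 0 < r ∧ r < ρ ∧ ∀ n : ℕ, ‖N ^ n‖ ≤ C * r ^ n := by
  have hlt : spectralRadius ℂ N < ((Real.toNNReal ρ : NNReal) : ENNReal) := by
    by_cases hne : (spectrum ℂ N).Nonempty
    · obtain ⟨k, hk, hk2⟩ := spectrum.exists_nnnorm_eq_spectralRadius_of_nonempty hne
      rw [← hk2, ENNReal.coe_lt_coe]
      by_cases hk0 : k = 0
      · rw [hk0, nnnorm_zero]
        exact Real.toNNReal_pos.2 hρ
      · obtain ⟨x, hx0, hx⟩ := spl_mem_spec N k hk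
        have := h k x hk0 hx0 hx
        rw [← NNReal.coe_lt_coe, coe_nnnorm, Real.coe_toNNReal _ hρ.le]
        exact this
    · rw [Set.not_nonempty_iff_eq_empty] at hne
      have : spectralRadius ℂ N = 0 := by
        unfold spectralRadius
        rw [hne]
        simp
      rw [this]
      exact ENNReal.coe_pos.2 (Real.toNNReal_pos.2 hρ)
  obtain ⟨r, hr1, hr2⟩ := ENNReal.lt_iff_exists_nnreal_btwn.1 hlt
  have hr0 : (0 : NNReal) < r := by
    have : (0 : ENNReal) < (r : ENNReal) := lt_of_le_of_lt zero_le hr1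
    exact ENNReal.coe_pos.1 this
  have hr0' : (0 : ℝ) < (r : ℝ) := NNReal.coe_pos.2 hr0
  have hrρ : (r : ℝ) < ρ := by
    have := ENNReal.coe_lt_coe.1 hr2
    rw [← NNReal.coe_lt_coe, Real.coe_toNNReal _ hρ.le] at this
    exact this
  have hev := (spectrum.pow_nnnorm_pow_one_div_tendsto_nhds_spectralRadius N).eventually_lt_const hr1
  obtain ⟨n0, hn0⟩ := Filter.eventually_atTop.1 hev
  have hbig : ∀ n : ℕ, n0 + 1 ≤ n → ‖N ^ n‖ ≤ (r : ℝ) ^ n := by
    intro n hn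
    have h1 := hn0 n (by omega)
    have hnpos : (0 : ℝ) < n := by
      have : 0 < n := by omega
      exact_mod_cast this
    have h2 : ((‖N ^ n‖₊ : ENNReal) ^ (1 / n : ℝ)) ^ (n : ℝ) ≤ (r : ENNReal) ^ (n : ℝ) :=
      ENNReal.rpow_le_rpow h1.le hnpos.le
    rw [← ENNReal.rpow_mul, one_div, inv_mul_cancel₀ hnpos.ne', ENNReal.rpow_one,
      ENNReal.rpow_natCast] at h2
    have h3 : ‖N ^ n‖₊ ≤ r ^ n := by exact_mod_cast h2
    have h4 : ((‖N ^ n‖₊ : NNReal) : ℝ) ≤ ((r ^ n : NNReal) : ℝ) := NNReal.coe_le_coe.2 h3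
    rw [coe_nnnorm, NNReal.coe_pow] at h4
    exact h4
  refine ⟨1 + ∑ i ∈ Finset.range (n0 + 1), ‖N ^ i‖ / (r : ℝ) ^ i, r, ?_, hr0', hrρ, ?_⟩
  · have : 0 ≤ ∑ i ∈ Finset.range (n0 + 1), ‖N ^ i‖ / (r : ℝ) ^ i :=
      Finset.sum_nonneg fun i _ => by positivity
    linarith
  · intro n
    have hs : 0 ≤ ∑ i ∈ Finset.range (n0 + 1), ‖N ^ i‖ / (r : ℝ) ^ i :=
      Finset.sum_nonneg fun i _ => by positivity
    have hp : 0 < (r : ℝ) ^ n := pow_pos hr0' n
    by_cases hn : n0 + 1 ≤ n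
    · refine le_trans (hbig n hn) ?_
      nlinarith
    · have h1 : ‖N ^ n‖ / (r : ℝ) ^ n ≤ ∑ i ∈ Finset.range (n0 + 1), ‖N ^ i‖ / (r : ℝ) ^ i :=
        Finset.single_le_sum (f := fun i => ‖N ^ i‖ / (r : ℝ) ^ i) (fun i _ => by positivity)
          (Finset.mem_range.2 (by omega))
      have h2 : ‖N ^ n‖ = ‖N ^ n‖ / (r : ℝ) ^ n * (r : ℝ) ^ n := by
        rw [div_mul_cancel₀ _ hp.ne']
      rw [h2]
      exact mul_le_mul_of_nonneg_right (by linarith) hp.le

private lemma spl_aeval_eigen {m : ℕ} (M : (Fin m → ℂ) →L[ℂ] (Fin m → ℂ)) (z : ℂ)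
    (x : Fin m → ℂ) (hx : M x = z • x) (f : Polynomial ℂ) :
    (Polynomial.aeval M f) x = (f.eval z) • x := by
  induction f using Polynomial.induction_on' with
  | add p q hp hq =>
    rw [map_add, Polynomial.eval_add, add_smul, ← hp, ← hq]
    rfl
  | monomial n a =>
    rw [Polynomial.aeval_monomial, Polynomial.eval_monomial]
    have hpow : ∀ k : ℕ, (M ^ k) x = z ^ k • x := by
      intro k
      induction k with
      | zero => simp
      | succ k ih =>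
        rw [pow_succ']
        show M ((M ^ k) x) = _
        rw [ih, map_smul, hx, smul_smul, pow_succ]
    show (algebraMap ℂ ((Fin m → ℂ) →L[ℂ] (Fin m → ℂ)) a) ((M ^ n) x) = _
    rw [hpow, Algebra.algebraMap_eq_smul_one]
    show a • ((1 : (Fin m → ℂ) →L[ℂ] (Fin m → ℂ)) (z ^ n • x)) = _
    rw [one_apply_eq_self, smul_smul]

private lemma spl_char {m : ℕ} (M : (Fin m → ℂ) →L[ℂ] (Fin m → ℂ)) :
    Polynomial.aeval M (LinearMap.charpoly (M : (Fin m → ℂ) →ₗ[ℂ] (Fin m → ℂ))) = 0 := by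
  have h2 : Module.End.toContinuousLinearMap (𝕜 := ℂ) (Fin m → ℂ)
      (M : (Fin m → ℂ) →ₗ[ℂ] (Fin m → ℂ)) = M := by
    ext x
    rfl
  have h := LinearMap.aeval_self_charpoly (M : (Fin m → ℂ) →ₗ[ℂ] (Fin m → ℂ))
  have h3 := congrArg (Module.End.toContinuousLinearMap (𝕜 := ℂ) (Fin m → ℂ)) h
  rw [map_zero, ← Polynomial.aeval_algHom_apply, h2] at h3
  exact h3

private lemma spl_factor (p : Polynomial ℂ) (hp : p.Monic) (ρ : ℝ) (hr : ∀ z : ℂ, ‖z‖ = ρ → ¬ p.IsRoot z) :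
    ∃ q t : Polynomial ℂ, p = q * t ∧ IsCoprime q t ∧ (∀ z, q.eval z = 0 → ‖z‖ < ρ) ∧
      ∀ z, t.eval z = 0 → ρ < ‖z‖ := by
  classical
  obtain ⟨q, hq⟩ : ∃ q : Polynomial ℂ, q = ((p.roots.filter (fun z => ‖z‖ < ρ)).map
      (fun a => Polynomial.X - Polynomial.C a)).prod := ⟨_, rfl⟩
  obtain ⟨t, ht⟩ : ∃ t : Polynomial ℂ, t = ((p.roots.filter (fun z => ¬ ‖z‖ < ρ)).map
      (fun a => Polynomial.X - Polynomial.C a)).prod := ⟨_, rfl⟩
  have hqz : ∀ z, q.eval z = 0 → ‖z‖ < ρ := by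
    intro z hz
    rw [hq, Polynomial.eval_multiset_prod, Multiset.prod_eq_zero_iff, Multiset.map_map,
      Multiset.mem_map] at hz
    obtain ⟨a, ha, ha2⟩ := hz
    have ha3 : z - a = 0 := by simpa using ha2
    rw [sub_eq_zero.1 ha3]
    exact (Multiset.mem_filter.1 ha).2
  have htz : ∀ z, t.eval z = 0 → ρ < ‖z‖ := by
    intro z hz
    rw [ht, Polynomial.eval_multiset_prod, Multiset.prod_eq_zero_iff, Multiset.map_map,
      Multiset.mem_map] at hz
    obtain ⟨a, ha, ha2⟩ := hz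
    have ha3 : z - a = 0 := by simpa using ha2
    rw [sub_eq_zero.1 ha3]
    obtain ⟨h1, h2⟩ := Multiset.mem_filter.1 ha
    have h3 : p.IsRoot a := (Polynomial.mem_roots'.1 h1).2
    rcases lt_trichotomy ‖a‖ ρ with h4 | h4 | h4
    · exact absurd h4 h2
    · exact absurd h3 (hr a h4)
    · exact h4
  refine ⟨q, t, ?_, ?_, hqz, htz⟩
  · rw [hq, ht, ← Multiset.prod_add, ← Multiset.map_add, Multiset.filter_add_not]
    exact (IsAlgClosed.splits p).eq_prod_roots_of_monic hp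
  · rw [Polynomial.isCoprime_iff_aeval_ne_zero_of_isAlgClosed ℂ ℂ]
    intro a
    by_contra hcon
    push Not at hcon
    obtain ⟨h1, h2⟩ := hcon
    rw [Polynomial.coe_aeval_eq_eval] at h1 h2
    exact absurd (hqz a h1) (not_lt.2 (htz a h2).le)

theorem green_cx {m : ℕ} (M : (Fin m → ℂ) →L[ℂ] (Fin m → ℂ)) (ρ : ℝ) (hρ : 0 < ρ)
    (h : ∀ z : ℂ, ‖z‖ = ρ →
      ¬ (LinearMap.charpoly (M : (Fin m → ℂ) →ₗ[ℂ] (Fin m → ℂ))).IsRoot z) :
    ∃ (a b : ℕ → ((Fin m → ℂ) →L[ℂ] (Fin m → ℂ))) (C r s : ℝ), 0 < C ∧ 0 < r ∧ 0 < s ∧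
      r < ρ ∧ s * ρ < 1 ∧ a 0 + b 0 = 1 ∧ (∀ n, a (n + 1) = M * a n) ∧
      (∀ n, a (n + 1) = a n * M) ∧ (∀ n, M * b (n + 1) = b n) ∧ (∀ n, b (n + 1) * M = b n) ∧
      (∀ n, ‖a n‖ ≤ C * r ^ n) ∧ ∀ n, ‖b n‖ ≤ C * s ^ n := by
  obtain ⟨p, hpdef⟩ : ∃ p : Polynomial ℂ,
      p = LinearMap.charpoly (M : (Fin m → ℂ) →ₗ[ℂ] (Fin m → ℂ)) := ⟨_, rfl⟩
  have hpm : p.Monic := by
    rw [hpdef]
    exact LinearMap.charpoly_monic _
  have hpM : Polynomial.aeval M p = 0 := by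
    rw [hpdef]
    exact spl_char M
  rw [← hpdef] at h
  obtain ⟨q, t, hqt, hcop, hqz, htz⟩ := spl_factor p hpm ρ h
  obtain ⟨u, v, huv⟩ := hcop
  have h0 : ∀ f : Polynomial ℂ, Polynomial.aeval M (q * t * f) = 0 := by
    intro f
    rw [← hqt, map_mul, hpM, zero_mul]
  have h0' : ∀ f g : Polynomial ℂ, (∃ w, f = g + q * t * w) →
      Polynomial.aeval M f = Polynomial.aeval M g := by
    rintro f g ⟨w, hw⟩
    rw [hw, map_add, h0, add_zero]
  have ht0 : t.coeff 0 ≠ 0 := by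
    intro h1
    rw [Polynomial.coeff_zero_eq_eval_zero] at h1
    have := htz 0 h1
    rw [norm_zero] at this
    linarith
  obtain ⟨c, hc⟩ : ∃ c : ℂ, c = t.coeff 0 := ⟨_, rfl⟩
  rw [← hc] at ht0
  have htX : Polynomial.divX t * Polynomial.X + Polynomial.C c = t := by
    rw [hc]
    exact Polynomial.divX_mul_X_add t
  obtain ⟨d, hd⟩ : ∃ d : Polynomial ℂ, d = Polynomial.divX t := ⟨_, rfl⟩
  rw [← hd] at htX
  have hCC : Polynomial.C c⁻¹ * Polynomial.C c = 1 := by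
    rw [← Polynomial.C_mul, inv_mul_cancel₀ ht0, Polynomial.C_1]
  obtain ⟨e, he⟩ : ∃ e : Polynomial ℂ, e = Polynomial.C c⁻¹ := ⟨_, rfl⟩
  obtain ⟨k, hk⟩ : ∃ k : Polynomial ℂ, k = Polynomial.C c := ⟨_, rfl⟩
  rw [← he, ← hk] at hCC
  rw [← hk] at htX
  obtain ⟨P, hP⟩ : ∃ P : (Fin m → ℂ) →L[ℂ] (Fin m → ℂ), P = Polynomial.aeval M (v * t) := ⟨_, rfl⟩
  obtain ⟨R, hR⟩ : ∃ R : (Fin m → ℂ) →L[ℂ] (Fin m → ℂ), R = Polynomial.aeval M (u * q) := ⟨_, rfl⟩
  obtain ⟨S, hS⟩ : ∃ S : (Fin m → ℂ) →L[ℂ] (Fin m → ℂ),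
      S = Polynomial.aeval M (-(e * d * (u * q))) := ⟨_, rfl⟩
  obtain ⟨X, hX⟩ : ∃ X : Polynomial ℂ, X = Polynomial.X := ⟨_, rfl⟩
  rw [← hX] at htX
  have hM : M = Polynomial.aeval M X := by rw [hX, Polynomial.aeval_X]
  have hPR : P + R = 1 := by
    rw [hP, hR, ← map_add, add_comm, huv, map_one]
  have hPP : P * P = P := by
    rw [hP, ← map_mul]
    apply h0'
    refine ⟨-(u * v), ?_⟩
    linear_combination (v * t) * huv
  have hRR : R * R = R := by
    rw [hR, ← map_mul]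
    apply h0'
    refine ⟨-(u * v), ?_⟩
    linear_combination (u * q) * huv
  have hPM : P * M = M * P := by
    calc P * M = Polynomial.aeval M (v * t) * Polynomial.aeval M X := by rw [← hM, hP]
      _ = Polynomial.aeval M X * Polynomial.aeval M (v * t) := by
        rw [← map_mul, ← map_mul, mul_comm]
      _ = M * P := by rw [← hM, hP]
  have hRM : R * M = M * R := by
    have : R = 1 - P := by rw [← hPR]; abel
    rw [this, sub_mul, mul_sub, one_mul, mul_one, hPM]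
  have hMS : M * S = R := by
    have h1 : Polynomial.aeval M (X * -(e * d * (u * q))) = R := by
      rw [hR]
      apply h0'
      refine ⟨-(e * u), ?_⟩
      linear_combination (-(e * (u * q))) * htX + (u * q) * hCC
    rw [map_mul, ← hM, ← hS] at h1
    exact h1
  have hSM : S * M = R := by
    have h1 : Polynomial.aeval M (-(e * d * (u * q)) * X) = R := by
      rw [hR]
      apply h0'
      refine ⟨-(e * u), ?_⟩
      linear_combination (-(e * (u * q))) * htX + (u * q) * hCC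
    rw [map_mul, ← hM, ← hS] at h1
    exact h1
  have hRS : R * S = S := by
    rw [hR, hS, ← map_mul]
    apply h0'
    refine ⟨e * d * u * v, ?_⟩
    linear_combination (-(e * d * (u * q))) * huv
  have hSR : S * R = S := by
    rw [hR, hS, ← map_mul]
    apply h0'
    refine ⟨e * d * u * v, ?_⟩
    linear_combination (-(e * d * (u * q))) * huv
  have hqP : ∀ x : Fin m → ℂ, P x = x → (Polynomial.aeval M q) x = 0 := by
    intro x hx
    have h1 : Polynomial.aeval M q * P = 0 := by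
      rw [hP, ← map_mul]
      rw [show q * (v * t) = q * t * v by ring]
      exact h0 v
    have h2 : (Polynomial.aeval M q) (P x) = 0 := DFunLike.congr_fun h1 x
    rw [hx] at h2
    exact h2
  have htR : ∀ x : Fin m → ℂ, R x = x → (Polynomial.aeval M t) x = 0 := by
    intro x hx
    have h1 : Polynomial.aeval M t * R = 0 := by
      rw [hR, ← map_mul]
      rw [show t * (u * q) = q * t * u by ring]
      exact h0 u
    have h2 : (Polynomial.aeval M t) (R x) = 0 := DFunLike.congr_fun h1 x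
    rw [hx] at h2
    exact h2
  obtain ⟨C1, r, hC1, hr0, hrρ, hb1⟩ := spl_gelfand (M * P) ρ hρ (by
    intro z x hz hx hzx
    have h1 : P x = x := by
      have h2 : P ((M * P) x) = (M * P) x := by
        have h3 : P * (M * P) = M * P := by
          rw [← mul_assoc, hPM, mul_assoc, hPP]
        exact DFunLike.congr_fun h3 x
      rw [hzx, map_smul] at h2
      exact smul_right_injective _ hz h2
    have h2 : M x = z • x := by
      rw [← hzx]
      show M x = M (P x)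
      rw [h1]
    have h3 := spl_aeval_eigen M z x h2 q
    rw [hqP x h1] at h3
    exact hqz z ((smul_eq_zero.1 h3.symm).resolve_right hx))
  obtain ⟨C2, s, hC2, hs0, hsρ, hb2⟩ := spl_gelfand S ρ⁻¹ (inv_pos.2 hρ) (by
    intro z x hz hx hzx
    have h1 : R x = x := by
      have h2 : R (S x) = S x := DFunLike.congr_fun hRS x
      rw [hzx, map_smul] at h2
      exact smul_right_injective _ hz h2
    have h2 : M x = z⁻¹ • x := by
      have h3 : M (S x) = R x := DFunLike.congr_fun hMS x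
      rw [hzx, map_smul, h1] at h3
      rw [← h3, smul_smul, inv_mul_cancel₀ hz, one_smul]
      rw [h3]
    have h3 := spl_aeval_eigen M z⁻¹ x h2 t
    rw [htR x h1] at h3
    have h4 := htz z⁻¹ ((smul_eq_zero.1 h3.symm).resolve_right hx)
    rw [norm_inv] at h4
    exact (lt_inv_comm₀ hρ (norm_pos_iff.2 hz)).1 h4)
  have hSk : ∀ n : ℕ, S ^ n * R = R * S ^ n := by
    intro n
    induction n with
    | zero => rw [pow_zero, one_mul, mul_one]
    | succ n ih => rw [pow_succ', mul_assoc, ih, ← mul_assoc, hSR, ← mul_assoc, hRS]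
  refine ⟨fun n => M ^ n * P, fun n => S ^ n * R, C1 * (‖P‖ + 1) + C2 * (‖R‖ + 1), r, s, ?_, hr0,
    hs0, hrρ, ?_, ?_, ?_, ?_, ?_, ?_, ?_, ?_⟩
  · positivity
  · calc s * ρ < ρ⁻¹ * ρ := mul_lt_mul_of_pos_right hsρ hρ
      _ = 1 := inv_mul_cancel₀ hρ.ne'
  · show M ^ 0 * P + S ^ 0 * R = 1
    rw [pow_zero, pow_zero, one_mul, one_mul, hPR]
  · intro n
    show M ^ (n + 1) * P = M * (M ^ n * P)
    rw [pow_succ', mul_assoc]
  · intro n
    show M ^ (n + 1) * P = M ^ n * P * M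
    rw [pow_succ, mul_assoc, mul_assoc, hPM]
  · intro n
    show M * (S ^ (n + 1) * R) = S ^ n * R
    rw [pow_succ', mul_assoc, ← mul_assoc, hMS, ← mul_assoc, ← hSk, mul_assoc, hRR]
  · intro n
    show S ^ (n + 1) * R * M = S ^ n * R
    rw [mul_assoc, hRM, ← mul_assoc, pow_succ, mul_assoc (S ^ n), hSM, mul_assoc, hRR]
  · intro n
    show ‖M ^ n * P‖ ≤ (C1 * (‖P‖ + 1) + C2 * (‖R‖ + 1)) * r ^ n
    have h1 : M ^ n * P = (M * P) ^ n * P := by
      induction n with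
      | zero => rw [pow_zero, pow_zero]
      | succ n ih =>
        rw [pow_succ' (M * P), mul_assoc, ← ih, ← mul_assoc (M * P), mul_assoc M P, pow_succ',
          mul_assoc M, mul_assoc M]
        congr 1
        have hc : ∀ j : ℕ, P * M ^ j = M ^ j * P := by
          intro j
          induction j with
          | zero => rw [pow_zero, mul_one, one_mul]
          | succ j ihj => rw [pow_succ, ← mul_assoc, ihj, mul_assoc, hPM, mul_assoc]
        rw [hc, mul_assoc, hPP]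
    rw [h1]
    refine le_trans (norm_mul_le _ _) ?_
    refine le_trans (mul_le_mul_of_nonneg_right (hb1 n) (norm_nonneg P)) ?_
    have hrn : 0 < r ^ n := pow_pos hr0 n
    have hP0 := norm_nonneg P
    have hR0 := norm_nonneg R
    have h2 : C1 * ‖P‖ ≤ C1 * (‖P‖ + 1) + C2 * (‖R‖ + 1) := by
      have : 0 ≤ C2 * (‖R‖ + 1) := by positivity
      nlinarith
    calc C1 * r ^ n * ‖P‖ = C1 * ‖P‖ * r ^ n := by ring
      _ ≤ (C1 * (‖P‖ + 1) + C2 * (‖R‖ + 1)) * r ^ n := mul_le_mul_of_nonneg_right h2 hrn.le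
  · intro n
    show ‖S ^ n * R‖ ≤ (C1 * (‖P‖ + 1) + C2 * (‖R‖ + 1)) * s ^ n
    refine le_trans (norm_mul_le _ _) ?_
    refine le_trans (mul_le_mul_of_nonneg_right (hb2 n) (norm_nonneg R)) ?_
    have hsn : 0 < s ^ n := pow_pos hs0 n
    have hP0 := norm_nonneg P
    have hR0 := norm_nonneg R
    have h2 : C2 * ‖R‖ ≤ C1 * (‖P‖ + 1) + C2 * (‖R‖ + 1) := by
      have : 0 ≤ C1 * (‖P‖ + 1) := by positivity
      nlinarith
    calc C2 * s ^ n * ‖R‖ = C2 * ‖R‖ * s ^ n := by ring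
      _ ≤ (C1 * (‖P‖ + 1) + C2 * (‖R‖ + 1)) * s ^ n := mul_le_mul_of_nonneg_right h2 hsn.le

end LRA
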