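import Pool.Agent.LRA.ADefs
import Pool.Agent.LRA.Spl1

/-!
# LRA / Spl2: the Green kernel of a real operator

The complex theorem `green_cx` is applied to the matrix of the operator in a basis.
-/

set_option autoImplicit false

noncomputable section

open scoped BigOperators

namespace LRA

variable {E : Type*} [NormedAddCommGroup E] [NormedSpace ℝ E] [FiniteDimensional ℝ E]

private def spI {m : ℕ} (bs : Module.Basis (Fin m) ℝ E) : E →L[ℝ] (Fin m → ℂ) :=
  LinearMap.toContinuousLinearMap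
    { toFun := fun x i => ((bs.repr x i : ℝ) : ℂ)
      map_add' := fun x y => by
        funext i
        simp
      map_smul' := fun c x => by
        funext i
        simp }

private def spR {m : ℕ} (bs : Module.Basis (Fin m) ℝ E) : (Fin m → ℂ) →L[ℝ] E :=
  LinearMap.toContinuousLinearMap
    { toFun := fun v => bs.equivFun.symm fun i => (v i).re
      map_add' := fun x y => by
        rw [← map_add]
        rfl
      map_smul' := fun c x => by
        rw [RingHom.id_apply, ← map_smul]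
        refine congrArg _ (funext fun i => ?_)
        simp }

private theorem sp_RI {m : ℕ} (bs : Module.Basis (Fin m) ℝ E) (x : E) : spR bs (spI bs x) = x := by
  show bs.equivFun.symm (fun i => (((bs.repr x i : ℝ) : ℂ)).re) = x
  simp only [Complex.ofReal_re]
  exact bs.equivFun.symm_apply_apply x

private def spM {m : ℕ} (bs : Module.Basis (Fin m) ℝ E) (T : E →L[ℝ] E) :
    (Fin m → ℂ) →L[ℂ] (Fin m → ℂ) :=
  LinearMap.toContinuousLinearMap (Matrix.toLin'
    ((LinearMap.toMatrix bs bs (T : E →ₗ[ℝ] E)).map (algebraMap ℝ ℂ)))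

private theorem sp_MI {m : ℕ} (bs : Module.Basis (Fin m) ℝ E) (T : E →L[ℝ] E) (x : E) :
    spM bs T (spI bs x) = spI bs (T x) := by
  funext i
  have h := congrFun (LinearMap.toMatrix_mulVec_repr bs bs (T : E →ₗ[ℝ] E) x) i
  show ∑ j, ((LinearMap.toMatrix bs bs (T : E →ₗ[ℝ] E) i j : ℝ) : ℂ) *
    ((bs.repr x j : ℝ) : ℂ) = ((bs.repr (T x) i : ℝ) : ℂ)
  have h2 : (bs.repr (T x) i : ℝ) = ∑ j, LinearMap.toMatrix bs bs (T : E →ₗ[ℝ] E) i j * bs.repr x j :=
    h.symm
  rw [h2, Complex.ofReal_sum]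
  refine Finset.sum_congr rfl fun j _ => ?_
  rw [Complex.ofReal_mul]

private theorem sp_RM {m : ℕ} (bs : Module.Basis (Fin m) ℝ E) (T : E →L[ℝ] E) (v : Fin m → ℂ) :
    spR bs (spM bs T v) = T (spR bs v) := by
  apply bs.equivFun.injective
  show bs.equivFun (bs.equivFun.symm fun i => ((spM bs T v) i).re) = _
  rw [LinearEquiv.apply_symm_apply]
  funext i
  have h := congrFun (LinearMap.toMatrix_mulVec_repr bs bs (T : E →ₗ[ℝ] E) (spR bs v)) i
  have h2 : bs.equivFun (T (spR bs v)) i =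
      ∑ j, LinearMap.toMatrix bs bs (T : E →ₗ[ℝ] E) i j * bs.repr (spR bs v) j := h.symm
  have h3 : ∀ j, bs.repr (spR bs v) j = (v j).re := by
    intro j
    exact congrFun (bs.equivFun.apply_symm_apply fun i => (v i).re) j
  rw [h2]
  show (∑ j, ((LinearMap.toMatrix bs bs (T : E →ₗ[ℝ] E) i j : ℝ) : ℂ) * v j).re = _
  rw [Complex.re_sum]
  refine Finset.sum_congr rfl fun j _ => ?_
  rw [h3, Complex.re_ofReal_mul]

private theorem sp_char {m : ℕ} (bs : Module.Basis (Fin m) ℝ E) (T : E →L[ℝ] E) :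
    LinearMap.charpoly (spM bs T : (Fin m → ℂ) →ₗ[ℂ] (Fin m → ℂ)) =
      (LinearMap.charpoly (T : E →ₗ[ℝ] E)).map (algebraMap ℝ ℂ) := by
  have h1 : (spM bs T : (Fin m → ℂ) →ₗ[ℂ] (Fin m → ℂ)) = Matrix.toLin'
    ((LinearMap.toMatrix bs bs (T : E →ₗ[ℝ] E)).map (algebraMap ℝ ℂ)) := rfl
  rw [h1, ← LinearMap.charpoly_toMatrix _ (Pi.basisFun ℂ (Fin m)), LinearMap.toMatrix_eq_toMatrix',
    LinearMap.toMatrix'_toLin', Matrix.charpoly_map, LinearMap.charpoly_toMatrix]

theorem exists_noEig (T : E →L[ℝ] E) {x y : ℝ} (h : x < y) : ∃ ν, x < ν ∧ ν < y ∧ NoEig T ν := by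
  set p := (LinearMap.charpoly (T : E →ₗ[ℝ] E)).map (algebraMap ℝ ℂ) with hp
  have hp0 : p ≠ 0 := ((LinearMap.charpoly_monic (T : E →ₗ[ℝ] E)).map _).ne_zero
  have hfin : (Set.range fun z : {z // z ∈ p.roots.toFinset} => ‖z.1‖).Finite := Set.finite_range _
  obtain ⟨ν, hν1, hν2⟩ := ((Set.Ioo_infinite h).sdiff hfin).nonempty
  refine ⟨ν, hν1.1, hν1.2, fun z hz hr => hν2 ⟨⟨z, ?_⟩, hz⟩⟩
  rw [Multiset.mem_toFinset]
  exact (Polynomial.mem_roots hp0).2 hr

theorem green (T : E →L[ℝ] E) (ρ : ℝ) (hρ : 0 < ρ) (h : NoEig T ρ) :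
    ∃ (a b : ℕ → (E →L[ℝ] E)) (C r s : ℝ), Green T a b C r s ∧ r < ρ ∧ s * ρ < 1 := by
  set bs := Module.finBasis ℝ E with hbs
  obtain ⟨a, b, C, r, s, hC, hr, hs, hrρ, hsρ, h0, h1, h2, h3, h4, h5, h6⟩ :=
    green_cx (spM bs T) ρ hρ (fun z hz hroot => h z hz (by rw [sp_char] at hroot; exact hroot))
  have hK : 0 ≤ ‖spR bs‖ * ‖spI bs‖ := by positivity
  have hn : ∀ (f : (Fin (Module.finrank ℝ E) → ℂ) →L[ℂ] (Fin (Module.finrank ℝ E) → ℂ)) (c : ℝ),
      0 ≤ c → ‖f‖ ≤ C * c → ‖(spR bs).comp ((f.restrictScalars ℝ).comp (spI bs))‖ ≤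
        ((‖spR bs‖ * ‖spI bs‖ + 1) * C) * c := by
    intro f c hc hf
    refine ((spR bs).opNorm_comp_le _).trans ?_
    have hf' : ‖f.restrictScalars ℝ‖ = ‖f‖ := ContinuousLinearMap.norm_restrictScalars f
    have e1 : ‖(f.restrictScalars ℝ).comp (spI bs)‖ ≤ ‖f‖ * ‖spI bs‖ := by
      rw [← hf']
      exact ContinuousLinearMap.opNorm_comp_le _ _
    calc ‖spR bs‖ * ‖(f.restrictScalars ℝ).comp (spI bs)‖ ≤ ‖spR bs‖ * (‖f‖ * ‖spI bs‖) :=
          mul_le_mul_of_nonneg_left e1 (norm_nonneg _)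
      _ = (‖spR bs‖ * ‖spI bs‖) * ‖f‖ := by ring
      _ ≤ (‖spR bs‖ * ‖spI bs‖) * (C * c) := mul_le_mul_of_nonneg_left hf hK
      _ ≤ ((‖spR bs‖ * ‖spI bs‖ + 1) * C) * c := by nlinarith [mul_nonneg hC.le hc]
  refine ⟨fun n => (spR bs).comp (((a n).restrictScalars ℝ).comp (spI bs)),
    fun n => (spR bs).comp (((b n).restrictScalars ℝ).comp (spI bs)),
    (‖spR bs‖ * ‖spI bs‖ + 1) * C, r, s, ?_, hrρ, hsρ⟩
  constructor
  · positivity
  · exact hr
  · exact hs
  · ext x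
    show spR bs (a 0 (spI bs x)) + spR bs (b 0 (spI bs x)) = x
    rw [← map_add]
    have e : a 0 (spI bs x) + b 0 (spI bs x) = spI bs x := by
      have e1 := congrArg (fun f => f (spI bs x)) h0
      exact e1
    rw [e, sp_RI]
  · intro n
    ext x
    show spR bs (a (n + 1) (spI bs x)) = T (spR bs (a n (spI bs x)))
    rw [h1 n, ← sp_RM]
    rfl
  · intro n
    ext x
    show spR bs (a (n + 1) (spI bs x)) = spR bs (a n (spI bs (T x)))
    rw [h2 n, ← sp_MI]
    rfl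
  · intro n
    ext x
    show T (spR bs (b (n + 1) (spI bs x))) = spR bs (b n (spI bs x))
    rw [← h3 n, ← sp_RM]
    rfl
  · intro n
    ext x
    show spR bs (b (n + 1) (spI bs (T x))) = spR bs (b n (spI bs x))
    rw [← h4 n, ← sp_MI]
    rfl
  · intro n
    exact hn (a n) (r ^ n) (by positivity) (h5 n)
  · intro n
    exact hn (b n) (s ^ n) (by positivity) (h6 n)

end LRA
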