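import Pool.Agent.LRA.Bas

/-!
# LRA / TorA: from `n` holomorphic functions to the conjugating map

The map `x ↦ (lf (b i) x)_i` is a real linear isomorphism `Φ : V d → (Fin n → ℂ)`; `J₁ = Φ⁻¹ ∘ (i ·) ∘ Φ` and
`h x = x + Φ⁻¹ (g i x)_i`. All the claims are checked on the components `lf (b i)`.
-/

set_option autoImplicit false

noncomputable section

open scoped BigOperators ComplexConjugate ContDiff
open MeasureTheory

namespace LRA

variable {n d : ℕ}

/-- `h` carries `J` to the constant structure `J₁`, and the maps (linear + periodic) holomorphic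
from `J` to `J₁` have a `J₁`-linear linear part and are unique up to constants -/
structure Std (J : V d → (V d →L[ℝ] V d)) (J₁ : V d →L[ℝ] V d) (h : V d → V d) : Prop where
  sq : ∀ v, J₁ (J₁ v) = -v
  smooth : ContDiff ℝ ∞ h
  lift : ∀ (x : V d) (m : Fin d → ℤ), h (x + zc m) = h x + zc m
  hol : ∀ x v, fderiv ℝ h x (J x v) = J₁ (fderiv ℝ h x v)
  lin : ∀ (M : V d →L[ℝ] V d) (p : V d → V d), ContDiff ℝ ∞ p → Per p →
    (∀ x v, M (J x v) + fderiv ℝ p x (J x v) = J₁ (M v + fderiv ℝ p x v)) →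
      ∀ v, M (J₁ v) = J₁ (M v)
  cst : ∀ p : V d → V d, ContDiff ℝ ∞ p → Per p →
    (∀ x v, fderiv ℝ p x (J x v) = J₁ (fderiv ℝ p x v)) → ∀ x, p x = p 0

/-- `lf ℓ` as a linear map -/
private def tora_l (ℓ : Fin d → ℂ) : V d →ₗ[ℝ] ℂ where
  toFun := lf ℓ
  map_add' x y := by
    unfold lf
    rw [← Finset.sum_add_distrib]
    refine Finset.sum_congr rfl fun l _ => ?_
    rw [Pi.add_apply, Complex.ofReal_add, mul_add]
  map_smul' c x := by
    unfold lf
    rw [RingHom.id_apply, Complex.real_smul, Finset.mul_sum]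
    refine Finset.sum_congr rfl fun l _ => ?_
    rw [Pi.smul_apply, smul_eq_mul, Complex.ofReal_mul]
    ring

/-- `lf ℓ` as a continuous linear map -/
private def tora_c (ℓ : Fin d → ℂ) : V d →L[ℝ] ℂ := LinearMap.toContinuousLinearMap (tora_l ℓ)

private theorem tora_ca (ℓ : Fin d → ℂ) (x : V d) : tora_c ℓ x = lf ℓ x := rfl

private theorem tora_fd (ℓ : Fin d → ℂ) {p : V d → V d} {x : V d} (hp : DifferentiableAt ℝ p x) (u : V d) :
    fderiv ℝ (fun y => lf ℓ (p y)) x u = lf ℓ (fderiv ℝ p x u) := by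
  have h1 : HasFDerivAt (fun y => tora_c ℓ (p y)) ((tora_c ℓ).comp (fderiv ℝ p x)) x :=
    (tora_c ℓ).hasFDerivAt.comp x hp.hasFDerivAt
  have h2 : (fun y => lf ℓ (p y)) = fun y => tora_c ℓ (p y) := rfl
  rw [h2, h1.fderiv]
  rfl

private theorem tora_sp (ℓ : Fin d → ℂ) {p : V d → V d} (hp : ContDiff ℝ ∞ p) (hper : Per p) :
    SP (fun y => lf ℓ (p y)) := by
  refine ⟨(tora_c ℓ).contDiff.comp hp, fun x m => ?_⟩
  show lf ℓ (p (x + zc m)) = lf ℓ (p x)
  rw [hper x m]

private theorem tora_coef (L : V d →ₗ[ℝ] ℂ) (x : V d) : lf (fun l => L (Pi.single l 1)) x = L x := by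
  have h1 : x = ∑ l, x l • (Pi.single l (1 : ℝ) : V d) := by
    funext j
    rw [Finset.sum_apply, Finset.sum_eq_single j]
    · rw [Pi.smul_apply, Pi.single_eq_same, smul_eq_mul, mul_one]
    · intro b _ hb
      rw [Pi.smul_apply, Pi.single_eq_of_ne (Ne.symm hb), smul_zero]
    · intro h
      exact absurd (Finset.mem_univ j) h
  conv_rhs => rw [h1, map_sum]
  unfold lf
  refine Finset.sum_congr rfl fun l _ => ?_
  rw [map_smul, Complex.real_smul, mul_comm]

theorem torA {J : V d → (V d →L[ℝ] V d)} (hd : d = 2 * n) {b : Fin n → Fin d → ℂ}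
    {g : Fin n → V d → ℂ} (hg : ∀ i, SP (g i))
    (hb : ∀ x : V d, (∀ i, lf (b i) x = 0) → x = 0)
    (hh : ∀ i x v, fderiv ℝ (fun y => lf (b i) y + g i y) x (J x v) =
      Complex.I * fderiv ℝ (fun y => lf (b i) y + g i y) x v)
    (hu : ∀ (ℓ : Fin d → ℂ) (g' : V d → ℂ), SP g' →
      (∀ x v, fderiv ℝ (fun y => lf ℓ y + g' y) x (J x v) =
        Complex.I * fderiv ℝ (fun y => lf ℓ y + g' y) x v) →
      ∃ c : Fin n → ℂ, ∀ x, lf ℓ x = ∑ i, c i * lf (b i) x)
    (hu0 : ∀ g' : V d → ℂ, SP g' →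
      (∀ x v, fderiv ℝ g' x (J x v) = Complex.I * fderiv ℝ g' x v) → ∀ x, g' x = g' 0) :
    ∃ (J₁ : V d →L[ℝ] V d) (h : V d → V d), Std J J₁ h := by
  have hinj : Function.Injective (LinearMap.pi fun i => tora_l (b i) : V d →ₗ[ℝ] (Fin n → ℂ)) := by
    rw [injective_iff_map_eq_zero]
    intro x hx
    exact hb x fun i => congrFun hx i
  have hrk : Module.finrank ℝ (V d) = Module.finrank ℝ (Fin n → ℂ) := by
    rw [Module.finrank_fintype_fun_eq_card, Fintype.card_fin, Module.finrank_pi_fintype]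
    simp only [Complex.finrank_real_complex, Finset.sum_const, Finset.card_univ, Fintype.card_fin, smul_eq_mul]
    omega
  obtain ⟨Φ, hΦ⟩ : ∃ Φ : V d ≃L[ℝ] (Fin n → ℂ), ∀ x i, Φ x i = lf (b i) x :=
    ⟨(LinearMap.linearEquivOfInjective _ hinj hrk).toContinuousLinearEquiv, fun x i => rfl⟩
  have hext : ∀ x y : V d, (∀ i, lf (b i) x = lf (b i) y) → x = y := by
    intro x y h
    apply Φ.injective
    funext i
    rw [hΦ, hΦ]
    exact h i
  obtain ⟨J₁, hJ₁⟩ : ∃ J₁ : V d →L[ℝ] V d, ∀ v, Φ (J₁ v) = Complex.I • Φ v := by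
    refine ⟨(Φ.symm : (Fin n → ℂ) →L[ℝ] V d).comp ((Complex.I • ContinuousLinearMap.id ℝ (Fin n → ℂ)).comp
      (Φ : V d →L[ℝ] (Fin n → ℂ))), fun v => ?_⟩
    exact Φ.apply_symm_apply (Complex.I • Φ v)
  have hJi : ∀ i v, lf (b i) (J₁ v) = Complex.I * lf (b i) v := by
    intro i v
    rw [← hΦ, ← hΦ, hJ₁]
    rfl
  have hG : ContDiff ℝ ∞ (fun x : V d => (fun i => g i x : Fin n → ℂ)) :=
    contDiff_pi.2 fun i => (hg i).1
  obtain ⟨h, hh0⟩ : ∃ h : V d → V d, h = fun x => x + Φ.symm (fun i => g i x) := ⟨_, rfl⟩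
  have hsm : ContDiff ℝ ∞ h := by
    rw [hh0]
    exact contDiff_id.add (Φ.symm.contDiff.comp hG)
  have hcomp : ∀ i, (fun y => lf (b i) (h y)) = fun y => lf (b i) y + g i y := by
    intro i
    funext y
    rw [← hΦ, ← hΦ, hh0]
    show Φ (y + Φ.symm (fun i => g i y)) i = _
    rw [map_add, Φ.apply_symm_apply]
    rfl
  have hdf : ∀ {p : V d → V d}, ContDiff ℝ ∞ p → ∀ x, DifferentiableAt ℝ p x := fun hp x =>
    (hp.differentiable (by simp)).differentiableAt
  refine ⟨J₁, h, ⟨?_, hsm, ?_, ?_, ?_, ?_⟩⟩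
  · intro v
    apply hext
    intro i
    rw [hJi, hJi, ← mul_assoc, Complex.I_mul_I, ← tora_ca, ← tora_ca, map_neg]
    ring
  · intro x m
    rw [hh0]
    show x + zc m + Φ.symm (fun i => g i (x + zc m)) = x + Φ.symm (fun i => g i x) + zc m
    have h1 : (fun i => g i (x + zc m)) = fun i => g i x := funext fun i => (hg i).2 x m
    rw [h1]
    abel
  · intro x v
    apply hext
    intro i
    rw [hJi, ← tora_fd (b i) (hdf hsm x), ← tora_fd (b i) (hdf hsm x), hcomp]
    exact hh i x v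
  · intro M p hp hper hM v
    apply hext
    intro i
    have hMp : ∀ x u, fderiv ℝ (fun y => lf (b i) (M y + p y)) x u = lf (b i) (M u + fderiv ℝ p x u) := by
      intro x u
      have h1 : HasFDerivAt (fun y => M y + p y) (M + fderiv ℝ p x) x :=
        M.hasFDerivAt.add (hdf hp x).hasFDerivAt
      rw [tora_fd (b i) h1.differentiableAt, h1.fderiv]
      rfl
    have hℓ : ∀ x, lf (fun l => (((tora_l (b i)).comp (M : V d →ₗ[ℝ] V d)) (Pi.single l 1))) x = lf (b i) (M x) :=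
      fun x => tora_coef _ x
    have hfun : (fun y => lf (fun l => (((tora_l (b i)).comp (M : V d →ₗ[ℝ] V d)) (Pi.single l 1))) y +
        lf (b i) (p y)) = fun y => lf (b i) (M y + p y) := by
      funext y
      rw [hℓ, ← tora_ca, ← tora_ca, ← tora_ca, map_add]
    obtain ⟨c, hc⟩ := hu _ (fun y => lf (b i) (p y)) (tora_sp (b i) hp hper) (fun x u => by
      rw [hfun, hMp, hMp, hM x u, hJi])
    rw [hJi, ← hℓ, ← hℓ, hc, hc, Finset.mul_sum]
    refine Finset.sum_congr rfl fun j _ => ?_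
    rw [hJi]
    ring
  · intro p hp hper hM x
    apply hext
    intro i
    exact hu0 (fun y => lf (b i) (p y)) (tora_sp (b i) hp hper) (fun x u => by
      rw [tora_fd (b i) (hdf hp x), tora_fd (b i) (hdf hp x), hM, hJi]) x

end LRA
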