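import Pool.Agent.LRA.ExW
import Pool.Agent.LRA.ExI
import Pool.Agent.LRA.ExG
import Pool.Agent.LRA.Cst
import Pool.Agent.LRA.Hol
import Pool.Agent.LRA.MuJ
import Pool.Agent.LRA.ComJ
import Pool.Agent.LRA.TorA

/-!
# LRA / TorJ: complex structures close to a constant one in the `C⁰` sense (assembly)
-/

set_option autoImplicit false

noncomputable section

open scoped BigOperators ComplexConjugate ContDiff
open MeasureTheory

namespace LRA

variable {n d : ℕ}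

/-- every linear form has a periodic correction making all `L_j (ℓ + g)` constant -/
theorem exists_cst {w : Fin n → Fin d → ℂ} {μ : Fin n → Fin n → V d → ℂ} {θ : ℝ}
    (hb : BD w μ θ) (hθ : 2 * θ ^ 2 < 1) (hθ1 : θ < 1) (hi : Itg w μ) (ℓ : Fin d → ℂ) :
    ∃ g : V d → ℂ, SP g ∧ ∀ j x,
      Lj w μ j (fun y => lf ℓ y + g y) x = Lj w μ j (fun y => lf ℓ y + g y) 0 := by
  obtain ⟨g, hg, hg2⟩ := exG hb (fun q₀ h0 => exI hb.sp (weighted hb hθ1) q₀ h0) ℓ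
  refine ⟨g, hg, fun j x => ?_⟩
  have hs : ContDiff ℝ ∞ (fun y => lf ℓ y + g y) := (lf_contDiff ℓ).add hg.1
  exact cst hb hθ (Γ := fun j => Lj w μ j (fun y => lf ℓ y + g y))
    (fun j => Lj_sp hb.sp ℓ hg j) hg2
    (fun i j x => Lj_comm hb.sp hi hs i j x) j x

theorem torJ (J₀ : V d →L[ℝ] V d) (h0 : ∀ v, J₀ (J₀ v) = -v) :
    ∃ δ : ℝ, 0 < δ ∧ ∀ J : V d → (V d →L[ℝ] V d), (∀ x, ‖J x - J₀‖ ≤ δ) → CStr J →
      ∃ (J₁ : V d →L[ℝ] V d) (h : V d → V d), Std J J₁ h := by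
  obtain ⟨n, w, hd, hw⟩ := linJ J₀ h0
  obtain ⟨δ₁, hδ₁, hmu⟩ := muJ hw (1 / 2) (by norm_num)
  obtain ⟨δ₂, hδ₂, hgr⟩ := gr J₀
  refine ⟨min δ₁ δ₂, lt_min hδ₁ hδ₂, fun J hcl hJ => ?_⟩
  obtain ⟨μ, hb, hL⟩ := hmu J hJ.smooth hJ.per hJ.sq (fun x => (hcl x).trans (min_le_left _ _))
  have hT : ∀ x, ∀ u : Fin d → ℂ, cx J₀ u = Complex.I • u → cx (J x) u = -Complex.I • u →
      u = 0 := fun x => hgr (J x) ((hcl x).trans (min_le_right _ _))
  have hi : Itg w μ := comJ hw hJ hb.sp hL hT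
  have hiff : ∀ (x : V d) (F : V d → ℂ), (∀ j, Lj w μ j F x = 0) ↔
      ∀ v, fderiv ℝ F x (J x v) = Complex.I * fderiv ℝ F x v := fun x F =>
    hol_iff hw (hJ.sq x) (hT x) (hL x) F
  obtain ⟨b, g, hg, hbg, hbx, hbu⟩ := hol hb (by norm_num) hd
    (fun ℓ => exists_cst hb (by norm_num) (by norm_num) hi ℓ)
  refine torA hd hg hbx (fun i x v => ?_) (fun ℓ g' hg' hh => ?_) (fun g' hg' hh x => ?_)
  · exact (hiff x _).1 (fun j => hbg i j x) v
  · exact hbu ℓ g' hg' (fun j x => (hiff x _).2 (hh x) j)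
  · exact est_zero hb (by norm_num) hg' (fun j x => (hiff x _).2 (hh x) j) x

end LRA
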